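import Mathlib
import Pool.Agent.Lib.P28cd.GDefs

/-!
# Module Gad: connectivity as 3-colouring

For a digraph `E` on `Fin M` the graph `gad E s t` has the vertices of `E` and two vertices `(x, y, b)` for
each pair `(x, y)`; `(x, y, b)` are adjacent to each other, to `x`, and to `y` if `E x y`; and `s`, `t` are
adjacent. It is 3-colourable iff `t` cannot be reached from `s` (`E` symmetric).
-/

set_option autoImplicit false

noncomputable section

namespace Pd6ff58.J

/-- the vertices of the gadget graph -/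
abbrev GV (M : ℕ) : Type := Fin M ⊕ (Fin M × Fin M × Bool)

/-- the arcs, in one direction -/
def gadRel {M : ℕ} (E : Fin M → Fin M → Bool) (s t : Fin M) : GV M → GV M → Prop
  | Sum.inl x, Sum.inl y => x = s ∧ y = t
  | Sum.inl x, Sum.inr (x', y', _) => x = x' ∨ (x = y' ∧ E x' y' = true)
  | Sum.inr (x, y, b), Sum.inr (x', y', b') => x = x' ∧ y = y' ∧ b ≠ b'
  | Sum.inr _, Sum.inl _ => False

def gad {M : ℕ} (E : Fin M → Fin M → Bool) (s t : Fin M) : SimpleGraph (GV M) :=
  SimpleGraph.fromRel (gadRel E s t)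

theorem gad_col {M : ℕ} (E : Fin M → Fin M → Bool) (s t : Fin M) (hsym : ∀ v w, E v w = E w v)
    (h : ∀ j, ¬ P28cd.Walk E j s t) : (gad E s t).Colorable 3 := by
  classical
  -- reachability
  let r : Fin M → Prop := fun x => ∃ j, P28cd.Walk E j s x
  have rs : r s := ⟨0, 0, le_rfl, fun _ => s, rfl, rfl, fun i hi => absurd hi (by omega)⟩
  have rt : ¬ r t := fun ⟨j, hj⟩ => h j hj
  have step : ∀ x y, r x → E x y = true → r y := by
    rintro x y ⟨j, j', hj', p, hp0, hpj, hp⟩ hxy
    refine ⟨j' + 1, j' + 1, le_rfl, fun i => if i ≤ j' then p i else y, ?_, ?_, ?_⟩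
    · simp [hp0]
    · simp
    · intro i hi
      by_cases h1 : i < j'
      · simp only [show i ≤ j' by omega, if_true, show i + 1 ≤ j' by omega]
        exact hp i h1
      · have h2 : i = j' := by omega
        subst h2
        simp only [le_refl, if_true, show ¬ (i + 1 ≤ i) by omega, if_false]
        rw [hpj]
        exact hxy
  have step' : ∀ x y, E x y = true → (r x ↔ r y) := by
    intro x y hxy
    exact ⟨fun hx => step x y hx hxy, fun hy => step y x hy (by rw [hsym]; exact hxy)⟩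
  let c0 : Fin M → Fin 3 := fun x => if r x then 0 else 1
  have hc0 : ∀ x, c0 x = 0 ∨ c0 x = 1 := by
    intro x
    by_cases hx : r x
    · exact Or.inl (if_pos hx)
    · exact Or.inr (if_neg hx)
  have hc1 : ∀ x y, E x y = true → c0 x = c0 y := by
    intro x y hxy
    by_cases hx : r x
    · rw [show c0 x = 0 from if_pos hx, show c0 y = 0 from if_pos ((step' x y hxy).1 hx)]
    · rw [show c0 x = 1 from if_neg hx,
        show c0 y = 1 from if_neg fun hy => hx ((step' x y hxy).2 hy)]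
  let c : GV M → Fin 3 := fun v => match v with
    | Sum.inl x => c0 x
    | Sum.inr (x, _, b) => if b then 2 else 1 - c0 x
  refine ⟨SimpleGraph.Coloring.mk c ?_⟩
  have one : ∀ v w, gadRel E s t v w → v ≠ w → c v ≠ c w := by
    intro v w hvw hne
    rcases v with x | ⟨x, y, b⟩ <;> rcases w with x' | ⟨x', y', b'⟩
    · obtain ⟨rfl, rfl⟩ := hvw
      change c0 x ≠ c0 x'
      rw [show c0 x = 0 from if_pos rs, show c0 x' = 1 from if_neg rt]
      decide
    · have h1 : c0 x = c0 x' := by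
        rcases hvw with rfl | ⟨rfl, h2⟩
        · rfl
        · exact (hc1 _ _ h2).symm
      change c0 x ≠ if b' then 2 else 1 - c0 x'
      rw [h1]
      rcases hc0 x' with h2 | h2 <;> rw [h2] <;> cases b' <;> decide
    · exact absurd hvw (by simp [gadRel])
    · obtain ⟨rfl, rfl, h1⟩ := hvw
      change (if b then 2 else 1 - c0 x) ≠ if b' then 2 else 1 - c0 x
      rcases hc0 x with h2 | h2 <;> rw [h2] <;> cases b <;> cases b' <;>
        first | exact absurd rfl h1 | decide
  intro v w hvw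
  obtain ⟨hne, h1 | h1⟩ := hvw
  · exact one v w h1 hne
  · exact (one w v h1 hne.symm).symm

theorem gad_not {M : ℕ} (E : Fin M → Fin M → Bool) (s t : Fin M) (hst : s ≠ t) {k : ℕ}
    (h : P28cd.Walk E k s t) : ¬ (gad E s t).Colorable 3 := by
  rintro ⟨c⟩
  have eqc : ∀ x y, E x y = true → c (Sum.inl x) = c (Sum.inl y) := by
    intro x y hxy
    have a1 : c (Sum.inr (x, y, true)) ≠ c (Sum.inr (x, y, false)) :=
      c.valid ⟨by simp, Or.inl ⟨rfl, rfl, by simp⟩⟩
    have a2 : ∀ b, c (Sum.inl x) ≠ c (Sum.inr (x, y, b)) := fun b =>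
      c.valid ⟨by simp, Or.inl (Or.inl rfl)⟩
    have a3 : ∀ b, c (Sum.inl y) ≠ c (Sum.inr (x, y, b)) := fun b =>
      c.valid ⟨by simp, Or.inl (Or.inr ⟨rfl, hxy⟩)⟩
    have b1 := a2 true
    have b2 := a2 false
    have b3 := a3 true
    have b4 := a3 false
    generalize c (Sum.inl x) = u at *
    generalize c (Sum.inl y) = v at *
    generalize c (Sum.inr (x, y, true)) = u' at *
    generalize c (Sum.inr (x, y, false)) = v' at *
    omega
  obtain ⟨j, -, p, hp0, hpj, hp⟩ := h
  have key : ∀ i, i ≤ j → c (Sum.inl (p i)) = c (Sum.inl s) := by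
    intro i
    induction i with
    | zero => intro _; rw [hp0]
    | succ i ih =>
      intro hi
      rw [← ih (by omega)]
      exact (eqc _ _ (hp i (by omega))).symm
  have h1 := key j le_rfl
  rw [hpj] at h1
  exact c.valid (show (gad E s t).Adj (Sum.inl s) (Sum.inl t) from
    ⟨by simpa using hst, Or.inl ⟨rfl, rfl⟩⟩) h1.symm

/-- each adjacency depends on one entry of `E` -/
theorem gad_dep {M : ℕ} (s t : Fin M) (v w : GV M) : ∃ e : Fin M × Fin M,
    ∀ E E' : Fin M → Fin M → Bool, E e.1 e.2 = E' e.1 e.2 →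
      ((gad E s t).Adj v w ↔ (gad E' s t).Adj v w) := by
  rcases v with x | ⟨x, y, b⟩ <;> rcases w with x' | ⟨x', y', b'⟩
  · refine ⟨(s, t), fun E E' _ => ?_⟩
    rw [gad, gad, SimpleGraph.fromRel_adj, SimpleGraph.fromRel_adj]
    rfl
  · refine ⟨(x', y'), fun E E' h => ?_⟩
    rw [gad, gad, SimpleGraph.fromRel_adj, SimpleGraph.fromRel_adj]
    simp only [gadRel]
    rw [h]
  · refine ⟨(x, y), fun E E' h => ?_⟩
    rw [gad, gad, SimpleGraph.fromRel_adj, SimpleGraph.fromRel_adj]
    simp only [gadRel]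
    rw [h]
  · refine ⟨(s, t), fun E E' _ => ?_⟩
    rw [gad, gad, SimpleGraph.fromRel_adj, SimpleGraph.fromRel_adj]
    rfl

/-- the gadget graph on `Fin m` -/
theorem exists_gadget {M m : ℕ} (hM : M + 2 * M ^ 2 ≤ m) (s t : Fin M) (hst : s ≠ t) :
    ∃ G : (Fin M → Fin M → Bool) → SimpleGraph (Fin m),
      (∀ E, (∀ v w, E v w = E w v) → (∀ j, ¬ P28cd.Walk E j s t) → (G E).Colorable 3) ∧
      (∀ E k, P28cd.Walk E k s t → ¬ (G E).Colorable 3) ∧
      (∀ u v, ∃ e : Fin M × Fin M, ∀ E E' : Fin M → Fin M → Bool, E e.1 e.2 = E' e.1 e.2 →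
        ((G E).Adj u v ↔ (G E').Adj u v)) := by
  classical
  have hcard : Fintype.card (GV M) ≤ Fintype.card (Fin m) := by
    simp only [Fintype.card_sum, Fintype.card_prod, Fintype.card_fin, Fintype.card_bool]
    have : M + M * (M * 2) = M + 2 * M ^ 2 := by ring
    omega
  obtain ⟨ι⟩ := Function.Embedding.nonempty_of_card_le hcard
  refine ⟨fun E => (gad E s t).map ι, ?_, ?_, ?_⟩
  · intro E hsym h
    obtain ⟨c⟩ := gad_col E s t hsym h
    refine ⟨SimpleGraph.Coloring.mk
      (fun v => if h : ∃ a, ι a = v then c h.choose else 0) ?_⟩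
    intro v w hvw
    rw [SimpleGraph.map_adj] at hvw
    obtain ⟨a, b, hab, rfl, rfl⟩ := hvw
    have ha : ∃ a', ι a' = ι a := ⟨a, rfl⟩
    have hb : ∃ b', ι b' = ι b := ⟨b, rfl⟩
    rw [dif_pos ha, dif_pos hb, ι.injective ha.choose_spec, ι.injective hb.choose_spec]
    exact c.valid hab
  · rintro E k hk ⟨c⟩
    refine gad_not E s t hst hk ⟨SimpleGraph.Coloring.mk (fun a => c (ι a)) ?_⟩
    intro v w hvw
    exact c.valid ((SimpleGraph.map_adj _ _ _ _).2 ⟨v, w, hvw, rfl, rfl⟩)
  · intro u v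
    by_cases hu : ∃ a, ι a = u
    · by_cases hv : ∃ b, ι b = v
      · obtain ⟨a, rfl⟩ := hu
        obtain ⟨b, rfl⟩ := hv
        obtain ⟨e, he⟩ := gad_dep s t a b
        refine ⟨e, fun E E' h => ?_⟩
        rw [SimpleGraph.map_adj_apply, SimpleGraph.map_adj_apply]
        exact he E E' h
      · refine ⟨(s, t), fun E E' _ => ?_⟩
        rw [SimpleGraph.map_adj, SimpleGraph.map_adj]
        constructor <;> rintro ⟨a, b, -, -, hb⟩ <;> exact absurd ⟨b, hb⟩ hv
    · refine ⟨(s, t), fun E E' _ => ?_⟩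
      rw [SimpleGraph.map_adj, SimpleGraph.map_adj]
      constructor <;> rintro ⟨a, b, -, ha, -⟩ <;> exact absurd ⟨a, ha⟩ hu

end Pd6ff58.J
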