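import Mathlib
import Pool.Agent.Lib.P28cd.Det

/-!
# Module Sub: substitution in circuits

`V` is the set of variables. A function which depends on at most `R` variables is an AND of clauses and an OR
of terms of width `R`. So in a circuit over such functions they are replaced by clauses and terms, which cost
one more level and at most `2 (2 |V| + 1) ^ R` gates.
-/

set_option autoImplicit false

noncomputable section

namespace Pd6ff58.J

open P28cd

/-- the variables of a digraph on `Fin M` -/
abbrev Vr (M : ℕ) : Type := Fin M × Fin M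

/-- lists of at most `R` literals -/
abbrev Ls (M R : ℕ) : Type := Fin R → Option (Vr M × Bool)

/-- `u` depends on at most `R` entries -/
def Dep {M : ℕ} (R : ℕ) (u : (Fin M → Fin M → Bool) → Prop) : Prop :=
  ∃ K : Finset (Vr M), K.card ≤ R ∧
    ∀ E E' : Fin M → Fin M → Bool, (∀ e ∈ K, E e.1 e.2 = E' e.1 e.2) → (u E ↔ u E')

/-- the literal `E e = b` -/
def lit {M : ℕ} (e : Vr M) (b : Bool) : (Fin M → Fin M → Bool) → Bool :=
  fun E => if b then E e.1 e.2 else !E e.1 e.2

theorem lit_true {M : ℕ} (e : Vr M) (b : Bool) (E : Fin M → Fin M → Bool) :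
    lit e b E = true ↔ E e.1 e.2 = b := by
  cases b <;> simp [lit]

theorem lit_mem {M : ℕ} (e : Vr M) (b : Bool) : lit e b ∈ Lits M := by
  refine ⟨e.1, e.2, ?_⟩
  cases b
  · right
    funext E
    simp [lit]
  · left
    funext E
    simp [lit]

open scoped Classical in
/-- the clause of a list of literals -/
def cl {M R : ℕ} (τ : Ls M R) : (Fin M → Fin M → Bool) → Bool :=
  fun E => decide (∃ i e b, τ i = some (e, b) ∧ lit e b E = true)

open scoped Classical in
/-- the term of a list of literals -/
def tm {M R : ℕ} (τ : Ls M R) : (Fin M → Fin M → Bool) → Bool :=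
  fun E => decide (∀ i e b, τ i = some (e, b) → lit e b E = true)

theorem exists_cl {M R : ℕ} {u : (Fin M → Fin M → Bool) → Prop} (hu : Dep R u)
    (E : Fin M → Fin M → Bool) (hE : ¬ u E) :
    ∃ τ : Ls M R, cl τ E = false ∧ ∀ E', u E' → cl τ E' = true := by
  classical
  obtain ⟨K, hK, h⟩ := hu
  let q := K.equivFin
  refine ⟨fun i => if hi : (i : ℕ) < K.card then
    some ((q.symm ⟨i, hi⟩).1, !E (q.symm ⟨i, hi⟩).1.1 (q.symm ⟨i, hi⟩).1.2) else none, ?_, ?_⟩
  · rw [cl, decide_eq_false_iff_not]
    rintro ⟨i, e, b, h1, h2⟩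
    split_ifs at h1 with hi
    rw [Option.some.injEq, Prod.mk.injEq] at h1
    obtain ⟨rfl, rfl⟩ := h1
    rw [lit_true] at h2
    simp at h2
  · intro E' hE'
    rw [cl, decide_eq_true_eq]
    by_contra hcon
    apply hE
    rw [h E E' ?_]
    · exact hE'
    intro e he
    by_contra hne
    apply hcon
    have hi : ((q ⟨e, he⟩ : Fin K.card) : ℕ) < K.card := (q ⟨e, he⟩).2
    have hq : q.symm ⟨((q ⟨e, he⟩ : Fin K.card) : ℕ), hi⟩ = ⟨e, he⟩ := by simp
    refine ⟨⟨(q ⟨e, he⟩ : Fin K.card), by omega⟩, e, !E e.1 e.2, ?_, ?_⟩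
    · rw [dif_pos hi, hq]
    · rw [lit_true]
      cases h1 : E e.1 e.2 <;> cases h2 : E' e.1 e.2 <;> simp_all

theorem exists_tm {M R : ℕ} {u : (Fin M → Fin M → Bool) → Prop} (hu : Dep R u)
    (E : Fin M → Fin M → Bool) (hE : u E) :
    ∃ τ : Ls M R, tm τ E = true ∧ ∀ E', tm τ E' = true → u E' := by
  classical
  obtain ⟨K, hK, h⟩ := hu
  let q := K.equivFin
  refine ⟨fun i => if hi : (i : ℕ) < K.card then
    some ((q.symm ⟨i, hi⟩).1, E (q.symm ⟨i, hi⟩).1.1 (q.symm ⟨i, hi⟩).1.2) else none, ?_, ?_⟩
  · rw [tm, decide_eq_true_eq]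
    intro i e b h1
    split_ifs at h1 with hi
    rw [Option.some.injEq, Prod.mk.injEq] at h1
    obtain ⟨rfl, rfl⟩ := h1
    rw [lit_true]
  · intro E' hE'
    rw [tm, decide_eq_true_eq] at hE'
    rw [← h E E' ?_]
    · exact hE
    intro e he
    have hi : ((q ⟨e, he⟩ : Fin K.card) : ℕ) < K.card := (q ⟨e, he⟩).2
    have hq : q.symm ⟨((q ⟨e, he⟩ : Fin K.card) : ℕ), hi⟩ = ⟨e, he⟩ := by simp
    have h3 := hE' ⟨(q ⟨e, he⟩ : Fin K.card), by omega⟩ e (E e.1 e.2) (by
      rw [dif_pos hi, hq])
    rw [lit_true] at h3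
    exact h3.symm

/-- SUBSTITUTION. A circuit of depth `d` with `S` gates over functions which depend on at most `R`
entries gives a circuit over the literals, of depth `d + 2`, for its negation. -/
theorem subst {M R d S : ℕ} (level : Fin S → ℕ)
    (gate : Fin S → (Fin M → Fin M → Bool) → Prop) (out : Fin S) (hl : ∀ g, level g < d)
    (hg : ∀ g, ∃ T : Set ((Fin M → Fin M → Bool) → Prop),
      (∀ h ∈ T, Dep R h ∨ ∃ g', level g' < level g ∧ (h = gate g' ∨ h = fun E => ¬ gate g' E)) ∧
      ((∀ E, gate g E ↔ ∀ h ∈ T, h E) ∨ (∀ E, gate g E ↔ ∃ h ∈ T, h E)))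
    (f : (Fin M → Fin M → Bool) → Bool) (hf : ∀ E, f E = true ↔ ¬ gate out E) :
    Circ (Lits M) (d + 2) (S + (2 * (2 * M ^ 2 + 1) ^ R + 1)) f := by
  classical
  let I : Type := Fin S ⊕ ((Bool × Ls M R) ⊕ Unit)
  let lv : I → ℕ := fun g => match g with
    | Sum.inl g => level g + 1
    | Sum.inr (Sum.inl _) => 0
    | Sum.inr (Sum.inr _) => d + 1
  let vl : I → (Fin M → Fin M → Bool) → Bool := fun g => match g with
    | Sum.inl g => fun E => decide (gate g E)
    | Sum.inr (Sum.inl (b, τ)) => if b then tm τ else cl τ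
    | Sum.inr (Sum.inr _) => f
  have hcard : Fintype.card I = S + (2 * (2 * M ^ 2 + 1) ^ R + 1) := by
    simp only [I, Ls, Vr, Fintype.card_sum, Fintype.card_prod, Fintype.card_fin,
      Fintype.card_bool, Fintype.card_unit, Fintype.card_pi, Fintype.card_option,
      Finset.prod_const, Finset.card_univ]
    ring
  rw [← hcard]
  refine DetAux.circ_of (I := I) (Lits M) (d + 2) lv vl (Sum.inr (Sum.inr ())) ?_ ?_
  · rintro (g | ⟨b, τ⟩ | _)
    · have := hl g
      simp only [lv]
      omega
    · simp only [lv]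
      omega
    · simp only [lv]
      omega
  · rintro (g | ⟨b, τ⟩ | _)
    · obtain ⟨T, hT, hgate⟩ := hg g
      rcases hgate with hgate | hgate
      · -- AND
        refine ⟨{h' | (∃ g', level g' < level g ∧ (gate g' ∈ T ∧ h' = vl (Sum.inl g'))) ∨
          (∃ g', level g' < level g ∧ ((fun E => ¬ gate g' E) ∈ T ∧
            h' = fun E => !vl (Sum.inl g') E)) ∨
          ∃ τ : Ls M R, ∃ h ∈ T, (∀ E, h E → cl τ E = true) ∧ h' = cl τ}, ?_, Or.inl ?_⟩
        · rintro h' (⟨g', h1, -, rfl⟩ | ⟨g', h1, -, rfl⟩ | ⟨τ, h, -, -, rfl⟩)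
          · exact Or.inr ⟨Sum.inl g', by simp only [lv]; omega, Or.inl rfl⟩
          · exact Or.inr ⟨Sum.inl g', by simp only [lv]; omega, Or.inr rfl⟩
          · exact Or.inr ⟨Sum.inr (Sum.inl (false, τ)), by simp only [lv]; omega, Or.inl rfl⟩
        · intro E
          change decide (gate g E) = true ↔ _
          rw [decide_eq_true_eq, hgate E]
          constructor
          · rintro hall h' (⟨g', -, h2, rfl⟩ | ⟨g', -, h2, rfl⟩ | ⟨τ, h, h2, h3, rfl⟩)
            · change decide (gate g' E) = true
              rw [decide_eq_true_eq]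
              exact hall _ h2
            · change (!decide (gate g' E)) = true
              rw [Bool.not_eq_true', decide_eq_false_iff_not]
              exact hall _ h2
            · exact h3 E (hall h h2)
          · intro hall h hh
            rcases hT h hh with h1 | ⟨g', h1, rfl | rfl⟩
            · by_contra hE
              obtain ⟨τ, h2, h3⟩ := exists_cl h1 E hE
              have := hall (cl τ) (Or.inr (Or.inr ⟨τ, h, hh, h3, rfl⟩))
              rw [h2] at this
              exact Bool.false_ne_true this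
            · have := hall _ (Or.inl ⟨g', h1, hh, rfl⟩)
              change decide (gate g' E) = true at this
              rwa [decide_eq_true_eq] at this
            · have := hall _ (Or.inr (Or.inl ⟨g', h1, hh, rfl⟩))
              change (!decide (gate g' E)) = true at this
              rwa [Bool.not_eq_true', decide_eq_false_iff_not] at this
      · -- OR
        refine ⟨{h' | (∃ g', level g' < level g ∧ (gate g' ∈ T ∧ h' = vl (Sum.inl g'))) ∨
          (∃ g', level g' < level g ∧ ((fun E => ¬ gate g' E) ∈ T ∧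
            h' = fun E => !vl (Sum.inl g') E)) ∨
          ∃ τ : Ls M R, ∃ h ∈ T, (∀ E, tm τ E = true → h E) ∧ h' = tm τ}, ?_, Or.inr ?_⟩
        · rintro h' (⟨g', h1, -, rfl⟩ | ⟨g', h1, -, rfl⟩ | ⟨τ, h, -, -, rfl⟩)
          · exact Or.inr ⟨Sum.inl g', by simp only [lv]; omega, Or.inl rfl⟩
          · exact Or.inr ⟨Sum.inl g', by simp only [lv]; omega, Or.inr rfl⟩
          · exact Or.inr ⟨Sum.inr (Sum.inl (true, τ)), by simp only [lv]; omega, Or.inl rfl⟩
        · intro E
          change decide (gate g E) = true ↔ _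
          rw [decide_eq_true_eq, hgate E]
          constructor
          · rintro ⟨h, hh, hE⟩
            rcases hT h hh with h1 | ⟨g', h1, rfl | rfl⟩
            · obtain ⟨τ, h2, h3⟩ := exists_tm h1 E hE
              exact ⟨tm τ, Or.inr (Or.inr ⟨τ, h, hh, h3, rfl⟩), h2⟩
            · refine ⟨_, Or.inl ⟨g', h1, hh, rfl⟩, ?_⟩
              change decide (gate g' E) = true
              rwa [decide_eq_true_eq]
            · refine ⟨_, Or.inr (Or.inl ⟨g', h1, hh, rfl⟩), ?_⟩
              change (!decide (gate g' E)) = true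
              rwa [Bool.not_eq_true', decide_eq_false_iff_not]
          · rintro ⟨h', (⟨g', -, h2, rfl⟩ | ⟨g', -, h2, rfl⟩ | ⟨τ, h, h2, h3, rfl⟩), hE⟩
            · change decide (gate g' E) = true at hE
              rw [decide_eq_true_eq] at hE
              exact ⟨_, h2, hE⟩
            · change (!decide (gate g' E)) = true at hE
              rw [Bool.not_eq_true', decide_eq_false_iff_not] at hE
              exact ⟨_, h2, hE⟩
            · exact ⟨h, h2, h3 E hE⟩
    · cases b
      · refine ⟨{h' | ∃ i e b, τ i = some (e, b) ∧ h' = lit e b}, ?_, Or.inr ?_⟩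
        · rintro h' ⟨i, e, b, -, rfl⟩
          exact Or.inl (lit_mem e b)
        · intro E
          change cl τ E = true ↔ _
          rw [cl, decide_eq_true_eq]
          constructor
          · rintro ⟨i, e, b, h1, h2⟩
            exact ⟨_, ⟨i, e, b, h1, rfl⟩, h2⟩
          · rintro ⟨_, ⟨i, e, b, h1, rfl⟩, h2⟩
            exact ⟨i, e, b, h1, h2⟩
      · refine ⟨{h' | ∃ i e b, τ i = some (e, b) ∧ h' = lit e b}, ?_, Or.inl ?_⟩
        · rintro h' ⟨i, e, b, -, rfl⟩
          exact Or.inl (lit_mem e b)
        · intro E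
          change tm τ E = true ↔ _
          rw [tm, decide_eq_true_eq]
          constructor
          · rintro h _ ⟨i, e, b, h1, rfl⟩
            exact h i e b h1
          · intro h i e b h1
            exact h _ ⟨i, e, b, h1, rfl⟩
    · refine ⟨{fun E => !vl (Sum.inl out) E}, ?_, Or.inl ?_⟩
      · rintro h' rfl
        refine Or.inr ⟨Sum.inl out, ?_, Or.inr rfl⟩
        have := hl out
        simp only [lv]
        omega
      · intro E
        change f E = true ↔ _
        rw [hf E]
        simp [vl]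

end Pd6ff58.J
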