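import Pool.Agent.Lib.Pd6J.NoPat
import Pool.Agent.Lib.Pd6J.Gad
import Pool.Agent.Lib.Pd6J.Sub
import Pool.Agent.Lib.P28ng.FinC

/-!
# Module Acz: no criterion of bounded depth
-/

open MvPolynomial

noncomputable section

namespace Pd6ff58

/-- `h` depends only on the entries of `X` and the values of `w` and of its inverse at some `r` positions. -/
def LocalPred {n : ℕ} (r : ℕ) (h : Matrix (Fin n) (Fin n) ℂ → Equiv.Perm (Fin n) → Prop) : Prop :=
  ∃ I : Finset (Fin n), I.card ≤ r ∧ ∀ X w X' w', SameOn I X w X' w' → (h X w ↔ h X' w')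

/-- `f` is computed by a circuit of depth `d` with `S` gates: every gate has a level in `0, …, d - 1` and is
the AND or the OR of a set of predicates, each of which depends only on `r` positions or is a gate of smaller
level or the negation of one; `f` is one of the gates. -/
def BoundedDepth {n : ℕ} (d r S : ℕ)
    (f : Matrix (Fin n) (Fin n) ℂ → Equiv.Perm (Fin n) → Prop) : Prop :=
  ∃ (level : Fin S → ℕ) (gate : Fin S → Matrix (Fin n) (Fin n) ℂ → Equiv.Perm (Fin n) → Prop)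
    (out : Fin S), (∀ g, level g < d) ∧ f = gate out ∧
    ∀ g, ∃ T : Set (Matrix (Fin n) (Fin n) ℂ → Equiv.Perm (Fin n) → Prop),
      (∀ h ∈ T, LocalPred r h ∨
        ∃ g', level g' < level g ∧ (h = gate g' ∨ h = fun X w => ¬ gate g' X w)) ∧
      ((∀ X w, gate g X w ↔ ∀ h ∈ T, h X w) ∨ (∀ X w, gate g X w ↔ ∃ h ∈ T, h X w))

namespace J

theorem circ_mono {X : Type} {P : Set (X → Bool)} {d d' S : ℕ} {f : X → Bool} (hd : d ≤ d')
    (h : P28cd.Circ P d S f) : P28cd.Circ P d' S f := by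
  obtain ⟨level, val, out, h1, h2, h3⟩ := h
  exact ⟨level, val, out, fun g => lt_of_lt_of_le (h1 g) hd, h2, h3⟩

/-- the numbers -/
theorem numbers {c₀ : ℝ} (hc₀ : 0 < c₀) : ∃ M₀ : ℕ, 2 ≤ M₀ ∧ ∀ M ≥ M₀, ∀ n r S : ℕ,
    n ≤ M ^ 9 → (r : ℝ) ≤ (n : ℝ) ^ (c₀ / 18) → (S : ℝ) < (2 : ℝ) ^ ((n : ℝ) ^ (c₀ / 18)) →
    ((S + (2 * (2 * M ^ 2 + 1) ^ (2 * r) + 1) : ℕ) : ℝ) < (M : ℝ) ^ (c₀ * (M : ℝ) ^ c₀) := by
  have htend : Filter.Tendsto (fun M : ℕ => (M : ℝ) ^ (c₀ / 2)) Filter.atTop Filter.atTop :=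
    (tendsto_rpow_atTop (by positivity)).comp tendsto_natCast_atTop_atTop
  obtain ⟨M₁, hM₁⟩ := Filter.eventually_atTop.1
    ((Filter.tendsto_atTop.1 htend (max 1 (8 / c₀))))
  refine ⟨max M₁ 3, by omega, fun M hM n r S hn hr hS => ?_⟩
  have hM3 : 3 ≤ M := le_trans (le_max_right _ _) hM
  have hx := hM₁ M (le_trans (le_max_left _ _) hM)
  have hMr : (3 : ℝ) ≤ M := by exact_mod_cast hM3
  have hM0 : (0 : ℝ) < M := by linarith
  have hM1 : (1 : ℝ) ≤ M := by linarith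
  set x : ℝ := (M : ℝ) ^ (c₀ / 2) with hxdef
  have hx1 : 1 ≤ x := le_trans (le_max_left _ _) hx
  have hx8 : 8 / c₀ ≤ x := le_trans (le_max_right _ _) hx
  have hxx : (M : ℝ) ^ c₀ = x * x := by
    rw [hxdef, ← Real.rpow_add hM0]
    congr 1
    ring
  have hnx : (n : ℝ) ^ (c₀ / 18) ≤ x := by
    have h1 : (n : ℝ) ≤ (M : ℝ) ^ (9 : ℝ) := by
      have : (n : ℝ) ≤ ((M ^ 9 : ℕ) : ℝ) := by exact_mod_cast hn
      rw [show (9 : ℝ) = ((9 : ℕ) : ℝ) by norm_num, Real.rpow_natCast]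
      simpa using this
    calc (n : ℝ) ^ (c₀ / 18) ≤ ((M : ℝ) ^ (9 : ℝ)) ^ (c₀ / 18) :=
          Real.rpow_le_rpow (Nat.cast_nonneg _) h1 (by positivity)
      _ = x := by
          rw [← Real.rpow_mul hM0.le, hxdef]
          congr 1
          ring
  have hrx : (r : ℝ) ≤ x := hr.trans hnx
  have hSx : (S : ℝ) < (2 : ℝ) ^ x :=
    lt_of_lt_of_le hS (Real.rpow_le_rpow_of_exponent_le (by norm_num) hnx)
  have h2x : (2 : ℝ) ^ x ≤ (M : ℝ) ^ (6 * x) := by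
    calc (2 : ℝ) ^ x ≤ (M : ℝ) ^ x := Real.rpow_le_rpow (by norm_num) (by linarith) (by linarith)
      _ ≤ (M : ℝ) ^ (6 * x) := Real.rpow_le_rpow_of_exponent_le hM1 (by linarith)
  have hT : (((2 * M ^ 2 + 1) ^ (2 * r) : ℕ) : ℝ) ≤ (M : ℝ) ^ (6 * x) := by
    have h1 : 2 * M ^ 2 + 1 ≤ M ^ 3 := by nlinarith [sq_nonneg (M : ℤ), hM3]
    have h2 : (2 * M ^ 2 + 1) ^ (2 * r) ≤ M ^ (6 * r) := by
      calc (2 * M ^ 2 + 1) ^ (2 * r) ≤ (M ^ 3) ^ (2 * r) := Nat.pow_le_pow_left h1 _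
        _ = M ^ (6 * r) := by rw [← pow_mul]; congr 1; ring
    calc (((2 * M ^ 2 + 1) ^ (2 * r) : ℕ) : ℝ) ≤ ((M ^ (6 * r) : ℕ) : ℝ) := by exact_mod_cast h2
      _ = (M : ℝ) ^ ((6 * r : ℕ) : ℝ) := by rw [Real.rpow_natCast]; push_cast; rfl
      _ ≤ (M : ℝ) ^ (6 * x) := by
          apply Real.rpow_le_rpow_of_exponent_le hM1
          push_cast
          linarith
  have hone : (1 : ℝ) ≤ (M : ℝ) ^ (6 * x) := Real.one_le_rpow hM1 (by linarith)
  have hsum : ((S + (2 * (2 * M ^ 2 + 1) ^ (2 * r) + 1) : ℕ) : ℝ) < 4 * (M : ℝ) ^ (6 * x) := by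
    have e1 : ((S + (2 * (2 * M ^ 2 + 1) ^ (2 * r) + 1) : ℕ) : ℝ) =
        S + (2 * (((2 * M ^ 2 + 1) ^ (2 * r) : ℕ) : ℝ) + 1) := by
      push_cast
      ring
    rw [e1]
    linarith
  have h4 : 4 * (M : ℝ) ^ (6 * x) ≤ (M : ℝ) ^ (6 * x + 2) := by
    rw [Real.rpow_add hM0, show ((2 : ℝ)) = ((2 : ℕ) : ℝ) by norm_num, Real.rpow_natCast]
    have h5 : (4 : ℝ) ≤ (M : ℝ) ^ 2 := by nlinarith
    have h6 : (0 : ℝ) < (M : ℝ) ^ (6 * x) := by positivity
    push_cast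
    nlinarith
  refine lt_of_lt_of_le hsum (h4.trans (Real.rpow_le_rpow_of_exponent_le hM1 ?_))
  rw [hxx]
  have h7 : 8 ≤ c₀ * x := by
    rw [div_le_iff₀ hc₀] at hx8
    linarith
  nlinarith

theorem m_bounds {m : ℕ} {M₀ : ℕ} (hm : 3 * (M₀ + 3234816) ^ 2 ≤ m) :
    ∃ M, M₀ ≤ M ∧ M + 2 * M ^ 2 ≤ m ∧ 6 * m * (9 * m + 4) * (m ^ 2 + 1) ≤ M ^ 9 := by
  refine ⟨Nat.sqrt (m / 3), ?_, ?_, ?_⟩
  · rw [Nat.le_sqrt']
    have : (M₀ + 3234816) ^ 2 ≤ m / 3 := by omega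
    exact le_trans (Nat.pow_le_pow_left (by omega) 2) this
  · have h1 : Nat.sqrt (m / 3) ^ 2 ≤ m / 3 := Nat.sqrt_le' _
    have h2 : Nat.sqrt (m / 3) ≤ Nat.sqrt (m / 3) ^ 2 := Nat.le_self_pow (by norm_num) _
    omega
  · set M := Nat.sqrt (m / 3) with hM
    have hMbig : 3234816 ≤ M := by
      rw [hM, Nat.le_sqrt']
      have : (M₀ + 3234816) ^ 2 ≤ m / 3 := by omega
      exact le_trans (Nat.pow_le_pow_left (by omega) 2) this
    have h1 : m / 3 < (M + 1) ^ 2 := Nat.lt_succ_sqrt' _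
    have h2 : m ≤ 12 * M ^ 2 := by
      have h3 : m < 3 * (M + 1) ^ 2 := by omega
      have h4 : (M + 1) ^ 2 ≤ 4 * M ^ 2 := by nlinarith
      omega
    have hm1 : 1 ≤ m := by
      have : 0 < (M₀ + 3234816) ^ 2 := by positivity
      omega
    calc 6 * m * (9 * m + 4) * (m ^ 2 + 1) ≤ 6 * m * (13 * m) * (2 * m ^ 2) := by
          apply Nat.mul_le_mul
          · apply Nat.mul_le_mul_left
            omega
          · have : 1 ≤ m ^ 2 := Nat.one_le_pow _ _ hm1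
            omega
      _ = 156 * m ^ 4 := by ring
      _ ≤ 156 * (12 * M ^ 2) ^ 4 := Nat.mul_le_mul_left _ (Nat.pow_le_pow_left h2 4)
      _ = 3234816 * M ^ 8 := by ring
      _ ≤ M * M ^ 8 := Nat.mul_le_mul_right _ hMbig
      _ = M ^ 9 := by ring

end J

theorem no_circuits (d : ℕ) : ∃ c : ℝ, 0 < c ∧ ∃ m₀ : ℕ, ∀ m ≥ m₀, ∀ n : ℕ,
    n = 6 * m * (9 * m + 4) * (m ^ 2 + 1) → ∀ r S : ℕ, (r : ℝ) ≤ (n : ℝ) ^ c →
    ∀ f : Matrix (Fin n) (Fin n) ℂ → Equiv.Perm (Fin n) → Prop, BoundedDepth d r S f →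
      (∀ X w, JordanPair (m * (9 * m + 4)) (6 * (m ^ 2 + 1)) X w →
        (f X w ↔ FlagSingular (cellClosure X w))) →
      (2 : ℝ) ^ ((n : ℝ) ^ c) ≤ S := by
  classical
  obtain ⟨c₀, hc₀, k₀, n₀, hlow⟩ := P28ng.lower_gen d
  obtain ⟨M₀, hM₀2, hnum⟩ := J.numbers hc₀
  refine ⟨c₀ / 18, by positivity, 3 * (max M₀ n₀ + 3234816) ^ 2, fun m hm n hn r S hr f hf hcor => ?_⟩
  by_contra hlt
  push Not at hlt
  obtain ⟨M, hM, hMm, hnM⟩ := J.m_bounds hm
  rw [← hn] at hnM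
  have hMM₀ : M₀ ≤ M := le_trans (le_max_left _ _) hM
  have hMn₀ : n₀ ≤ M := le_trans (le_max_right _ _) hM
  have hm0 : 0 < m := by omega
  have hS' := hnum M hMM₀ n r S hnM hr hlt
  -- the graphs
  let s : Fin M := ⟨0, by omega⟩
  let t : Fin M := ⟨1, by omega⟩
  have hst : s ≠ t := by
    intro h
    have := congrArg Fin.val h
    simp [s, t] at this
  obtain ⟨G, hG1, hG2, hG3⟩ := J.exists_gadget hMm s t hst
  obtain ⟨Φ, A, hA, hJ, hagree, hsing⟩ := J.frame (m := m) hm0 hn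
  obtain ⟨level, gate, out, hl, hfo, hg⟩ := hf
  -- the circuit
  have hcirc : P28cd.Circ (P28cd.Lits M) (d + 2)
      (S + (2 * (2 * M ^ 2 + 1) ^ (2 * r) + 1))
      (fun E => !decide (f (Φ (G E)).1 (Φ (G E)).2)) := by
    refine J.subst level (fun g E => gate g (Φ (G E)).1 (Φ (G E)).2) out hl ?_ _ ?_
    · intro g
      obtain ⟨T, hT, hgate⟩ := hg g
      refine ⟨{h' | ∃ h ∈ T, h' = fun E => h (Φ (G E)).1 (Φ (G E)).2}, ?_, ?_⟩
      · rintro h' ⟨h, hh, rfl⟩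
        rcases hT h hh with ⟨I, hI, hloc⟩ | ⟨g', h1, rfl | rfl⟩
        · left
          choose e he using fun a : Fin m × Fin m => hG3 a.1 a.2
          refine ⟨(A I).image e, ?_, ?_⟩
          · have h1 : ((A I).image e).card ≤ (A I).card := Finset.card_image_le
            have h2 := hA I
            omega
          · intro E E' hE
            refine hloc _ _ _ _ (hagree (G E) (G E') I fun a ha => ?_)
            exact he a E E' (hE _ (Finset.mem_image_of_mem _ ha))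
        · exact Or.inr ⟨g', h1, Or.inl rfl⟩
        · exact Or.inr ⟨g', h1, Or.inr rfl⟩
      · rcases hgate with hgate | hgate
        · left
          intro E
          rw [hgate]
          constructor
          · rintro h _ ⟨h', hh', rfl⟩
            exact h h' hh'
          · intro h h' hh'
            exact h _ ⟨h', hh', rfl⟩
        · right
          intro E
          rw [hgate]
          constructor
          · rintro ⟨h', hh', h⟩
            exact ⟨_, ⟨h', hh', rfl⟩, h⟩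
          · rintro ⟨_, ⟨h', hh', rfl⟩, h⟩
            exact ⟨h', hh', h⟩
    · intro E
      rw [hfo]
      simp
  -- the length of the walks
  obtain ⟨k, hk₀, hk⟩ : ∃ k : ℕ, k₀ ≤ k ∧ (M : ℝ) ^ c₀ ≤ (k : ℝ) ^ (1 / ((d : ℝ) + 1)) := by
    obtain ⟨k, hk⟩ := exists_nat_ge (max (k₀ : ℝ) (((M : ℝ) ^ c₀) ^ ((d : ℝ) + 1)))
    refine ⟨k, by exact_mod_cast (le_trans (le_max_left _ _) hk), ?_⟩
    have h1 : (0 : ℝ) ≤ (M : ℝ) ^ c₀ := by positivity
    calc (M : ℝ) ^ c₀ = (((M : ℝ) ^ c₀) ^ ((d : ℝ) + 1)) ^ (1 / ((d : ℝ) + 1)) := by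
          rw [← Real.rpow_mul h1, mul_one_div_cancel (by positivity), Real.rpow_one]
      _ ≤ (k : ℝ) ^ (1 / ((d : ℝ) + 1)) :=
          Real.rpow_le_rpow (by positivity) (le_trans (le_max_right _ _) hk) (by positivity)
  have hcon := hlow M hMn₀ k hk₀ s t hst _ _ (J.circ_mono (by omega) hcirc) ?_
  · rw [min_eq_right hk] at hcon
    exact absurd hcon (not_le.2 hS')
  · intro E _ hsym
    have hE := (hcor _ _ (hJ (G E))).trans (hsing (G E))
    constructor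
    · intro hw
      have h1 : ¬ f (Φ (G E)).1 (Φ (G E)).2 := fun h => hG2 E k hw (hE.1 h)
      simp [h1]
    · intro hnw
      have h1 : f (Φ (G E)).1 (Φ (G E)).2 := hE.2 (hG1 E hsym hnw)
      simp [h1]

end Pd6ff58
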