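import Pool.Agent.Lib.Pd6J.Calc

/-!
# Module BunA (`blk_chart`, `Hm_EJ_congr`): `K0` is smooth at every point

PROOF of `bun` by `bundle_local` (read its statement in `Pd6ff58/BL.lean`) with `Ts = Set.range (tt P)`,
`S = univ`, `v₀ = 0`, `ι = Par4 P = SI P.Rlo ⊕ SI P.Rhi ⊕ SI P.Clo ⊕ SI P.Chi`, where
`SI S = {p : T × T // ¬ piv p.1 ∧ piv p.2 ∧ blk p.1 = blk p.2}`; `z : ι → ℂ` is the same as four matrices
`bz z`, `bz' z`, `nz z`, `nz' z` with `Supp` (`z ↦` entries at the pairs in `SI`, zero elsewhere).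
Let `g₀ ∈ K0`, `fl pos g₀ k = H₀ (EJ k)`, `H₀ = Hm P A A' D D'`. `T(z) = trn pos (H₀ * Hm(1+bz z, ...) * H₀⁻¹)`,
`T'(z) = trn pos (H₀ * Hm(1-bz z, ...) * H₀⁻¹)`: polynomial in `z`, `T(z) T'(z) = 1` (`Hm_mul`, `Supp.sq`),
`T(0) = 1`. `K = K0 pos`.
`h1`: `g = T(z) g₀ p`: `fl pos g k = H₀ Hm(1+bz, ...) H₀⁻¹ H₀ (EJ k) = Hm(A(1+bz), ...) (EJ k)`
(`fl_mul`; `fl pos (g₀ * p) k = fl pos g₀ k` for `p ∈ parab`): in `K0`.
`δ := δ₀(H₀⁻¹ g)`, `δ₀ = mu 1 * mu 2 * mu (F+7) * mu (F+8)` (translated polynomial: `FLAux.lt`,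
`evalAt_lt`), `ζ_i := ζ⁰_i(H₀⁻¹ g)`, where for `i = (r', r)` in `SI P.Rlo`:
`ζ⁰_i = mx 1 (0, inl r) (0, inl r') * mu 2 * mu (F+7) * mu (F+8)`, and similarly for the three other
structures with `mx 2 (0, inr c) (0, inr c')`, `mx (F+7) (F+5, inl r) (F+5, inl r')`,
`mx (F+8) (F+5, inr c) (F+5, inr c')`.
`hδ`: `fl pos (H₀⁻¹ g₀) k = EJ k`, `crd_Mm` with the zero data.
`h3`: `g = T(z) g₀ p`: `fl pos (H₀⁻¹ g) k = Hm(1+bz z, ...) (EJ k)`, `crd_Mm` with the data
`(bz z, bz' z, nz z, nz' z, 0)` (`Mm_zero`; they satisfy `Eqs`).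
`h2` (`bun_chart`): `g ∈ K0`, `δ(g) ≠ 0`: `g' = H₀⁻¹ g ∈ K0`, `fl pos g' k = H₁ (EJ k)`,
`H₁ = Hm P A₁ A₁' D₁ D₁'`, `mu k (g') ≠ 0` for `k = 1, 2, F+7, F+8`. By `crd_inj`: a vector of
`H₁ (EJ k)` which vanishes on `J_k` is `0`. `k = 1`: if `u ∈ Epiv Rlo` and `A₁ u` vanishes on the pivots
then `U_0 (A₁ u) ∈ H₁ (EJ 1)` vanishes on `J_1`: `A₁ u = 0`, `u = 0`. By `blk_chart` there is `β` with
`Supp P.Rlo β` and `A₁ (Epiv) = (1+β) (Epiv)`. The same for `D₁` (`k = 2`, `W_0`), `A₁'` (`k = F+7`, `U_{F+5}`),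
`D₁'` (`k = F+8`, `W_{F+5}`). Hence `H₁ (EJ k) = Hm(1+β, 1+β', 1+ν, 1+ν') (EJ k)` for all `k` (`Hm_EJ_congr`:
`EJ k` meets every `U_i`, `i ≤ 2`, in `0`, `Epiv` or everything, etc.). With `z` given by
`(β, β', ν, ν')`: `p := g₀⁻¹ T'(z) g` is in `parab` and `g = T(z) g₀ p`.
So the local ring of `{x | g₀ * lowerGL x ∈ K0}` at `0` is the one of `timesAffine univ = univ`, which is
regular (`regular_univ`).
PROOF of `blk_chart`: let `A₁₁`, `A₂₁` be the parts (pivots, pivots), (nonpivots, pivots) of `A`; `A₁₁` is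
injective, so invertible; `β = A₂₁ A₁₁⁻¹` is block diagonal (`BD.inv`; extend `A₁₁` by `1`),
and `A u = (1+β) (A₁₁ u)` for `u ∈ Epiv`.
-/

open MvPolynomial

noncomputable section

namespace Pd6ff58.J

variable {R C : Type} [DecidableEq R] [DecidableEq C] [Fintype R] [Fintype C] {P : Par R C}

namespace BunAAux

open Classical in
/-- the pivot block, extended by the identity -/
def A1 {T : Type} (S : Blk T) (A : Matrix T T ℂ) : Matrix T T ℂ := Matrix.of fun x y =>
  if S.piv x then (if S.piv y then A x y else 0) else (if x = y then 1 else 0)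

open Classical in
/-- rows nonpivots, columns pivots -/
def A2 {T : Type} (S : Blk T) (A : Matrix T T ℂ) : Matrix T T ℂ := Matrix.of fun x y =>
  if ¬ S.piv x ∧ S.piv y then A x y else 0

open Classical in
def bet {T : Type} (S : Blk T) (M : Matrix T T ℂ) : Matrix T T ℂ := Matrix.of fun x y =>
  if ¬ S.piv x ∧ S.piv y then M x y else 0

section

variable {T : Type} [Fintype T] {S : Blk T} {A : Matrix T T ℂ}

theorem A1_np {u : T → ℂ} {x : T} (hx : ¬ S.piv x) : (A1 S A).mulVec u x = u x := by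
  classical
  simp [A1, Matrix.mulVec, dotProduct, hx]

theorem A1_p {u : T → ℂ} (hu : u ∈ Epiv S) {x : T} (hx : S.piv x) :
    (A1 S A).mulVec u x = A.mulVec u x := by
  classical
  simp only [A1, Matrix.mulVec, dotProduct, Matrix.of_apply, if_pos hx]
  refine Finset.sum_congr rfl fun y _ => ?_
  by_cases hy : S.piv y
  · rw [if_pos hy]
  · rw [if_neg hy, hu y hy]
    simp

theorem A2_np {u : T → ℂ} (hu : u ∈ Epiv S) {x : T} (hx : ¬ S.piv x) :
    (A2 S A).mulVec u x = A.mulVec u x := by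
  classical
  simp only [A2, Matrix.mulVec, dotProduct, Matrix.of_apply]
  refine Finset.sum_congr rfl fun y _ => ?_
  by_cases hy : S.piv y
  · rw [if_pos ⟨hx, hy⟩]
  · rw [if_neg fun h => hy h.2, hu y hy]
    simp

theorem A1_mem {u : T → ℂ} (hu : u ∈ Epiv S) : (A1 S A).mulVec u ∈ Epiv S := by
  intro x hx
  rw [A1_np hx]
  exact hu x hx

theorem bet_p {M : Matrix T T ℂ} {w : T → ℂ} {x : T} (hx : S.piv x) :
    (bet S M).mulVec w x = 0 := by
  classical
  simp only [bet, Matrix.mulVec, dotProduct, Matrix.of_apply]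
  refine Finset.sum_eq_zero fun y _ => ?_
  rw [if_neg fun h => h.1 hx]
  simp

theorem bet_np {M : Matrix T T ℂ} {w : T → ℂ} (hw : w ∈ Epiv S) {x : T} (hx : ¬ S.piv x) :
    (bet S M).mulVec w x = M.mulVec w x := by
  classical
  simp only [bet, Matrix.mulVec, dotProduct, Matrix.of_apply]
  refine Finset.sum_congr rfl fun y _ => ?_
  by_cases hy : S.piv y
  · rw [if_pos ⟨hx, hy⟩]
  · rw [if_neg fun h => hy h.2, hw y hy]
    simp

omit [Fintype T] in
theorem A1_bd (hA : BD S A) : BD S (A1 S A) := by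
  classical
  intro x y h
  simp only [A1, Matrix.of_apply] at h
  by_cases hx : S.piv x
  · by_cases hy : S.piv y
    · rw [if_pos hx, if_pos hy] at h
      exact hA x y h
    · rw [if_pos hx, if_neg hy] at h
      exact absurd rfl h
  · by_cases hxy : x = y
    · rw [hxy]
    · rw [if_neg hx, if_neg hxy] at h
      exact absurd rfl h

omit [Fintype T] in
theorem A2_bd (hA : BD S A) : BD S (A2 S A) := by
  classical
  intro x y h
  simp only [A2, Matrix.of_apply] at h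
  by_cases hx : ¬ S.piv x ∧ S.piv y
  · rw [if_pos hx] at h
    exact hA x y h
  · rw [if_neg hx] at h
    exact absurd rfl h

theorem A1_det [DecidableEq T]
    (h : ∀ u ∈ Epiv S, (∀ x, S.piv x → A.mulVec u x = 0) → u = 0) : (A1 S A).det ≠ 0 := by
  intro hd
  obtain ⟨v, hv, hv0⟩ := Matrix.exists_mulVec_eq_zero_iff.2 hd
  apply hv
  have hvE : v ∈ Epiv S := by
    intro x hx
    have := congrFun hv0 x
    rwa [A1_np hx] at this
  refine h v hvE fun x hx => ?_
  rw [← A1_p hvE hx, hv0]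
  rfl

/-- one vector -/
theorem step [DecidableEq T] {A B : Matrix T T ℂ} (dB : B.det ≠ 0)
    (hA : (Epiv S).map (Matrix.mulVecLin A) = (Epiv S).map (Matrix.mulVecLin B)) (r : T) :
    ∃ u, A.mulVec (Pi.single r 1) = B.mulVec u ∧ (S.piv r → u ∈ Epiv S) := by
  by_cases hr : S.piv r
  · have h1 : (Pi.single r 1 : T → ℂ) ∈ Epiv S := by
      intro x hx
      rw [Pi.single_apply, if_neg]
      rintro rfl
      exact hx hr
    have h2 : A.mulVec (Pi.single r 1) ∈ (Epiv S).map (Matrix.mulVecLin B) := by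
      rw [← hA]
      exact ⟨_, h1, rfl⟩
    obtain ⟨u, hu, hu2⟩ := h2
    exact ⟨u, hu2.symm, fun _ => hu⟩
  · refine ⟨B⁻¹.mulVec (A.mulVec (Pi.single r 1)), ?_, fun h => absurd h hr⟩
    rw [Matrix.mulVec_mulVec, Matrix.mul_nonsing_inv _ (Ne.isUnit dB), Matrix.one_mulVec]

end

end BunAAux

open BunAAux

theorem blk_chart {T : Type} [Fintype T] [DecidableEq T] {S : Blk T} {A : Matrix T T ℂ}
    (hA : BD S A) (hd : A.det ≠ 0)
    (h : ∀ u ∈ Epiv S, (∀ x, S.piv x → A.mulVec u x = 0) → u = 0) :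
    ∃ β : Matrix T T ℂ, Supp S β ∧
      (Epiv S).map (Matrix.mulVecLin A) = (Epiv S).map (Matrix.mulVecLin (1 + β)) := by
  have hd1 := A1_det h
  have hu1 : IsUnit (A1 S A).det := Ne.isUnit hd1
  have key : ∀ u ∈ Epiv S, A.mulVec u =
      (1 + bet S (A2 S A * (A1 S A)⁻¹)).mulVec ((A1 S A).mulVec u) := by
    intro u hu
    funext x
    rw [Matrix.add_mulVec, Matrix.one_mulVec, Pi.add_apply]
    by_cases hx : S.piv x
    · rw [bet_p hx, add_zero, A1_p hu hx]
    · rw [A1_np hx, hu x hx, zero_add, bet_np (A1_mem hu) hx, Matrix.mulVec_mulVec,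
        Matrix.mul_assoc, Matrix.nonsing_inv_mul _ hu1, Matrix.mul_one, A2_np hu hx]
  refine ⟨bet S (A2 S A * (A1 S A)⁻¹), ?_, le_antisymm ?_ ?_⟩
  · intro x y hxy
    simp only [bet, Matrix.of_apply] at hxy
    by_cases hx : ¬ S.piv x ∧ S.piv y
    · rw [if_pos hx] at hxy
      exact ⟨hx.1, hx.2, ((A2_bd hA).mul ((A1_bd hA).inv hd1)) x y hxy⟩
    · rw [if_neg hx] at hxy
      exact absurd rfl hxy
  · rintro _ ⟨u, hu, rfl⟩
    refine ⟨(A1 S A).mulVec u, A1_mem hu, ?_⟩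
    rw [Matrix.mulVecLin_apply, Matrix.mulVecLin_apply, key u hu]
  · rintro _ ⟨w, hw, rfl⟩
    have h1 : (A1 S A).mulVec ((A1 S A)⁻¹.mulVec w) = w := by
      rw [Matrix.mulVec_mulVec, Matrix.mul_nonsing_inv _ hu1, Matrix.one_mulVec]
    have h2 : (A1 S A)⁻¹.mulVec w ∈ Epiv S := by
      intro x hx
      rw [← A1_np (A := A) (u := (A1 S A)⁻¹.mulVec w) hx, h1]
      exact hw x hx
    refine ⟨_, h2, ?_⟩
    rw [Matrix.mulVecLin_apply, Matrix.mulVecLin_apply, key _ h2, h1]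

namespace BunAAux

theorem half {A A' B B' : Matrix R R ℂ} {D D' E E' : Matrix C C ℂ}
    (dB : B.det ≠ 0) (dB' : B'.det ≠ 0) (dE : E.det ≠ 0) (dE' : E'.det ≠ 0)
    (hA : (Epiv P.Rlo).map (Matrix.mulVecLin A) = (Epiv P.Rlo).map (Matrix.mulVecLin B))
    (hA' : (Epiv P.Rhi).map (Matrix.mulVecLin A') = (Epiv P.Rhi).map (Matrix.mulVecLin B'))
    (hD : (Epiv P.Clo).map (Matrix.mulVecLin D) = (Epiv P.Clo).map (Matrix.mulVecLin E))
    (hD' : (Epiv P.Chi).map (Matrix.mulVecLin D') = (Epiv P.Chi).map (Matrix.mulVecLin E')) (k : ℕ) :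
    (EJ P k).map (Matrix.mulVecLin (Hm P A A' D D')) ≤
      (EJ P k).map (Matrix.mulVecLin (Hm P B B' E E')) := by
  apply EJ_le
  · intro i r hk
    rw [Matrix.mulVecLin_apply, Hm_sU]
    by_cases h1 : (i : ℕ) ≤ 2
    · rw [if_pos h1]
      obtain ⟨u, hu, hu2⟩ := step dB hA r
      refine ⟨sU P i u, (sU_mem_EJ P i.2 u).2 fun r' hr' => ?_, ?_⟩
      · by_cases hr : P.Rlo.piv r
        · apply hu2 hr
          intro hp
          simp only [kap, if_pos h1, if_pos hr, if_pos hp] at hk hr'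
          omega
        · exfalso
          simp only [kap, if_pos h1, if_neg hr] at hk hr'
          split_ifs at hr' <;> omega
      · rw [Matrix.mulVecLin_apply, Hm_sU, if_pos h1, hu]
    · by_cases h2 : (i : ℕ) ≤ P.F + 3
      · rw [if_neg h1, if_pos h2, Matrix.one_mulVec]
        refine ⟨sU P i (Pi.single r 1), (sU_mem_EJ P i.2 _).2 fun r' hr' => ?_, ?_⟩
        · exfalso
          simp only [kap, if_neg h1, if_pos h2] at hk hr'
          omega
        · rw [Matrix.mulVecLin_apply, Hm_sU, if_neg h1, if_pos h2, Matrix.one_mulVec]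
      · rw [if_neg h1, if_neg h2]
        obtain ⟨u, hu, hu2⟩ := step dB' hA' r
        refine ⟨sU P i u, (sU_mem_EJ P i.2 u).2 fun r' hr' => ?_, ?_⟩
        · by_cases hr : P.Rhi.piv r
          · apply hu2 hr
            intro hp
            simp only [kap, if_neg h1, if_neg h2, if_pos hr, if_pos hp] at hk hr'
            omega
          · exfalso
            simp only [kap, if_neg h1, if_neg h2, if_neg hr] at hk hr'
            split_ifs at hr' <;> omega
        · rw [Matrix.mulVecLin_apply, Hm_sU, if_neg h1, if_neg h2, hu]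
  · intro i c hk
    rw [Matrix.mulVecLin_apply, Hm_sW]
    by_cases h1 : (i : ℕ) ≤ 1
    · rw [if_pos h1]
      obtain ⟨u, hu, hu2⟩ := step dE hD c
      refine ⟨sW P i u, (sW_mem_EJ P i.2 u).2 fun r' hr' => ?_, ?_⟩
      · by_cases hr : P.Clo.piv c
        · apply hu2 hr
          intro hp
          simp only [kap, if_pos h1, if_pos hr, if_pos hp] at hk hr'
          omega
        · exfalso
          simp only [kap, if_pos h1, if_neg hr] at hk hr'
          split_ifs at hr' <;> omega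
      · rw [Matrix.mulVecLin_apply, Hm_sW, if_pos h1, hu]
    · by_cases h2 : (i : ℕ) ≤ P.F + 2
      · rw [if_neg h1, if_pos h2, Matrix.one_mulVec]
        refine ⟨sW P i (Pi.single c 1), (sW_mem_EJ P i.2 _).2 fun r' hr' => ?_, ?_⟩
        · exfalso
          simp only [kap, if_neg h1, if_pos h2] at hk hr'
          omega
        · rw [Matrix.mulVecLin_apply, Hm_sW, if_neg h1, if_pos h2, Matrix.one_mulVec]
      · rw [if_neg h1, if_neg h2]
        obtain ⟨u, hu, hu2⟩ := step dE' hD' c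
        refine ⟨sW P i u, (sW_mem_EJ P i.2 u).2 fun r' hr' => ?_, ?_⟩
        · by_cases hr : P.Chi.piv c
          · apply hu2 hr
            intro hp
            simp only [kap, if_neg h1, if_neg h2, if_pos hr, if_pos hp] at hk hr'
            omega
          · exfalso
            simp only [kap, if_neg h1, if_neg h2, if_neg hr] at hk hr'
            split_ifs at hr' <;> omega
        · rw [Matrix.mulVecLin_apply, Hm_sW, if_neg h1, if_neg h2, hu]

end BunAAux

theorem Hm_EJ_congr {A A' B B' : Matrix R R ℂ} {D D' E E' : Matrix C C ℂ}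
    (dA : A.det ≠ 0) (dA' : A'.det ≠ 0) (dB : B.det ≠ 0) (dB' : B'.det ≠ 0)
    (dD : D.det ≠ 0) (dD' : D'.det ≠ 0) (dE : E.det ≠ 0) (dE' : E'.det ≠ 0)
    (hA : (Epiv P.Rlo).map (Matrix.mulVecLin A) = (Epiv P.Rlo).map (Matrix.mulVecLin B))
    (hA' : (Epiv P.Rhi).map (Matrix.mulVecLin A') = (Epiv P.Rhi).map (Matrix.mulVecLin B'))
    (hD : (Epiv P.Clo).map (Matrix.mulVecLin D) = (Epiv P.Clo).map (Matrix.mulVecLin E))
    (hD' : (Epiv P.Chi).map (Matrix.mulVecLin D') = (Epiv P.Chi).map (Matrix.mulVecLin E')) (k : ℕ) :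
    (EJ P k).map (Matrix.mulVecLin (Hm P A A' D D')) =
      (EJ P k).map (Matrix.mulVecLin (Hm P B B' E E')) :=
  le_antisymm (half dB dB' dE dE' hA hA' hD hD' k)
    (half dA dA' dD dD' hA.symm hA'.symm hD.symm hD'.symm k)

end Pd6ff58.J
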