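import Pool.Agent.Lib.Pd6J.Calc

/-!
# Module FlB: flags in the coordinates `Ix P`

PROOFS. Transport by the linear equivalence `(Ix P → ℂ) ≃ (Fin n → ℂ)`, `v ↦ v ∘ pos.symm`
(`LinearEquiv.funCongrLeft`, `LinearMap.funLeft`); `(trn pos A).mulVec (v ∘ pos.symm) =
(A.mulVec v) ∘ pos.symm` (`Matrix.submatrix_mulVec_equiv`).
`fl_perm`: `flagOf (permGL w) j` is spanned by `e_{w a}`, `a < j`; `w a = pos (tim.symm a)` and
`(tim x : ℕ) < tt P k ↔ kap P x ≤ k` (the moments are initial segments of the time order,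
`Good.tim_kap`).
`springer_of`: for `j` choose `k` with `tt k ≤ j ≤ tt (k + 1)` (`tt 0 = 0`, `tt (F + 9) = n`);
`X F_j ⊆ X F_{tt (k+1)} ⊆ F_{tt k} ⊆ F_j`; use `pt_mem_springerFiber_iff_flag`.
-/

open MvPolynomial

noncomputable section

namespace Pd6ff58.J

variable {R C : Type} [DecidableEq R] [DecidableEq C] [Fintype R] [Fintype C]
  {P : Par R C} {n : ℕ} {pos tim : Ix P ≃ Fin n} {Φ : Set (Fin P.F)}

namespace FlBAux

omit [DecidableEq R] [DecidableEq C] [Fintype R] [Fintype C] in
theorem kap_pos (x : Ix P) : 0 < kap P x := by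
  classical
  rcases x with ⟨i, r | c⟩
  · simp only [kap]
    split_ifs <;> omega
  · simp only [kap]
    split_ifs <;> omega

omit [DecidableEq R] [DecidableEq C] [Fintype R] [Fintype C] in
theorem kap_leF (x : Ix P) : kap P x ≤ P.F + 9 := by
  classical
  rcases x with ⟨i, r | c⟩
  · have hi := i.2
    simp only [kap]
    split_ifs <;> omega
  · have hi := i.2
    simp only [kap]
    split_ifs <;> omega

omit [DecidableEq R] [DecidableEq C] [Fintype R] [Fintype C] in
/-- the vector of `Ix P → ℂ` of a vector of `Fin n → ℂ` -/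
theorem exists_pre (pos : Ix P ≃ Fin n) (u : Fin n → ℂ) :
    (fun a => (fun x => u (pos x)) (pos.symm a)) = u := by
  funext a
  exact congrArg u (pos.apply_symm_apply a)

theorem mem_flagOf_perm (w : Equiv.Perm (Fin n)) (j : ℕ) (y : Fin n → ℂ) :
    y ∈ flagOf (permGL w) j ↔ ∀ a : Fin n, j ≤ (a : ℕ) → y (w a) = 0 := by
  have hv : ∀ (x : Fin n → ℂ) (a : Fin n), ((permGL w).val.mulVec x) (w a) = x a := by
    intro x a
    change ∑ b, (if w a = w b then (1 : ℂ) else 0) * x b = x a
    rw [Finset.sum_eq_single a]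
    · rw [if_pos rfl, one_mul]
    · intro b _ hb
      rw [if_neg (fun h => hb (w.injective h).symm), zero_mul]
    · intro h
      exact absurd (Finset.mem_univ a) h
  constructor
  · rintro ⟨x, hx, rfl⟩ a ha
    rw [Matrix.mulVecLin_apply, hv]
    exact hx a ha
  · intro h
    refine ⟨fun a => y (w a), fun a ha => h a ha, ?_⟩
    rw [Matrix.mulVecLin_apply]
    funext i
    obtain ⟨a, rfl⟩ := w.surjective i
    rw [hv]

end FlBAux

open FlBAux

theorem tt_mono (P : Par R C) : Monotone (tt P) := by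
  intro k l hkl
  exact Nat.card_le_card_of_injective (fun x : {x : Ix P // kap P x ≤ k} =>
    (⟨x.1, x.2.trans hkl⟩ : {x : Ix P // kap P x ≤ l}))
    (fun x y h => Subtype.ext (congrArg (fun z => z.1) h))

theorem tt_zero (P : Par R C) : tt P 0 = 0 := by
  have : IsEmpty {x : Ix P // kap P x ≤ 0} :=
    ⟨fun x => absurd x.2 (not_le.2 (kap_pos x.1))⟩
  exact Nat.card_of_isEmpty

theorem tt_le (pos : Ix P ≃ Fin n) (k : ℕ) : tt P k ≤ n := by
  have h1 : Nat.card (Ix P) = n := by rw [Nat.card_congr pos, Nat.card_fin]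
  rw [← h1]
  exact Nat.card_le_card_of_injective (fun x : {x : Ix P // kap P x ≤ k} => x.1)
    Subtype.val_injective

theorem tt_top (pos : Ix P ≃ Fin n) {k : ℕ} (hk : P.F + 9 ≤ k) : tt P k = n := by
  have h1 : Nat.card (Ix P) = n := by rw [Nat.card_congr pos, Nat.card_fin]
  rw [← h1]
  exact Nat.card_congr (Equiv.subtypeUnivEquiv fun x => (kap_leF x).trans hk)

theorem tim_lt (h : Good P Φ pos tim) (x : Ix P) (k : ℕ) :
    (tim x : ℕ) < tt P k ↔ kap P x ≤ k := by
  constructor
  · intro h1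
    by_contra h2
    rw [not_le] at h2
    apply absurd h1
    rw [not_lt]
    have h3 : ∀ y : {y : Ix P // kap P y ≤ k}, (tim y.1 : ℕ) < (tim x : ℕ) := fun y =>
      h.tim_kap y.1 x (lt_of_le_of_lt y.2 h2)
    have h4 := Nat.card_le_card_of_injective (fun y : {y : Ix P // kap P y ≤ k} =>
      (⟨(tim y.1 : ℕ), h3 y⟩ : Fin (tim x : ℕ))) (fun y z hyz => by
        have h5 := congrArg Fin.val hyz
        exact Subtype.ext (tim.injective (Fin.ext h5)))
    rwa [Nat.card_fin] at h4
  · intro h1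
    have hx := (tim x).2
    have h2 : ∀ a : Fin ((tim x : ℕ) + 1),
        kap P (tim.symm ⟨(a : ℕ), lt_of_lt_of_le a.2 hx⟩) ≤ k := by
      intro a
      by_contra h3
      rw [not_le] at h3
      have h4 := h.tim_kap x _ (lt_of_le_of_lt h1 h3)
      rw [Equiv.apply_symm_apply] at h4
      have h5 : (tim x : ℕ) < (a : ℕ) := h4
      have h6 := a.2
      omega
    have h4 := Nat.card_le_card_of_injective (fun a : Fin ((tim x : ℕ) + 1) =>
      (⟨_, h2 a⟩ : {y : Ix P // kap P y ≤ k})) (fun a b hab => by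
        have h5 := tim.symm.injective (congrArg Subtype.val hab)
        have h6 : (a : ℕ) = (b : ℕ) := congrArg (fun z : Fin n => (z : ℕ)) h5
        exact Fin.ext h6)
    rw [Nat.card_fin] at h4
    exact h4

theorem fl_mono (g : GL (Fin n) ℂ) : Monotone (fl pos g) := by
  intro k l hkl
  exact Submodule.comap_mono (flagOf_mono g (tt_mono P hkl))

theorem fl_zero (g : GL (Fin n) ℂ) : fl pos g 0 = ⊥ := by
  rw [eq_bot_iff]
  intro v hv
  rw [mem_fl, tt_zero] at hv
  obtain ⟨x, hx, hxv⟩ := hv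
  have hx0 : x = 0 := by
    funext a
    exact hx a (Nat.zero_le _)
  rw [hx0, map_zero] at hxv
  rw [Submodule.mem_bot]
  funext z
  have h1 := congrFun hxv (pos z)
  rw [Equiv.symm_apply_apply] at h1
  exact h1.symm

theorem fl_top (g : GL (Fin n) ℂ) {k : ℕ} (hk : P.F + 9 ≤ k) : fl pos g k = ⊤ := by
  rw [fl, tt_top pos hk, flagOf_top g le_rfl, Submodule.comap_top]

theorem finrank_fl (g : GL (Fin n) ℂ) (k : ℕ) : Module.finrank ℂ (fl pos g k) = tt P k := by
  have h1 : fl pos g k = (flagOf g (tt P k)).map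
      (LinearEquiv.funCongrLeft ℂ ℂ pos.symm).symm.toLinearMap := by
    ext v
    rw [mem_fl]
    constructor
    · intro hv
      refine ⟨_, hv, ?_⟩
      funext x
      change v (pos.symm (pos x)) = v x
      rw [Equiv.symm_apply_apply]
    · rintro ⟨u, hu, rfl⟩
      have h2 : (fun a => (LinearEquiv.funCongrLeft ℂ ℂ pos.symm).symm.toLinearMap u
          (pos.symm a)) = u := exists_pre pos u
      rw [h2]
      exact hu
  rw [h1, LinearEquiv.finrank_map_eq, finrank_flagOf g (tt_le pos k)]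

theorem trn_mul {K : Type} [CommRing K] (pos : Ix P ≃ Fin n) (A B : Matrix (Ix P) (Ix P) K) :
    trn pos (A * B) = trn pos A * trn pos B :=
  (Matrix.submatrix_mul_equiv A B pos.symm pos.symm pos.symm).symm

theorem trn_one {K : Type} [CommRing K] (pos : Ix P ≃ Fin n) :
    trn pos (1 : Matrix (Ix P) (Ix P) K) = 1 :=
  Matrix.submatrix_one_equiv pos.symm

theorem trn_det (pos : Ix P ≃ Fin n) (A : Matrix (Ix P) (Ix P) ℂ) : (trn pos A).det = A.det :=
  Matrix.det_submatrix_equiv_self pos.symm A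

theorem trn_mulVec (pos : Ix P ≃ Fin n) (A : Matrix (Ix P) (Ix P) ℂ) (v : Ix P → ℂ) :
    (trn pos A).mulVec (fun a => v (pos.symm a)) = fun a => A.mulVec v (pos.symm a) := by
  funext a
  change ∑ b, A (pos.symm a) (pos.symm b) * v (pos.symm b) = ∑ x, A (pos.symm a) x * v x
  exact Fintype.sum_equiv pos.symm _ _ (fun b => rfl)

theorem fl_mul {g h : GL (Fin n) ℂ} {A : Matrix (Ix P) (Ix P) ℂ}
    (e : h.val = trn pos A * g.val) (k : ℕ) :
    fl pos h k = (fl pos g k).map (Matrix.mulVecLin A) := by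
  have h1 : flagOf h (tt P k) = (flagOf g (tt P k)).map (Matrix.mulVecLin (trn pos A)) := by
    rw [flagOf, flagOf, ← Submodule.map_comp, ← Matrix.mulVecLin_mul, e]
  ext v
  rw [mem_fl, h1]
  constructor
  · rintro ⟨u, hu, hv⟩
    refine ⟨fun x => u (pos x), ?_, ?_⟩
    · change (fun x => u (pos x)) ∈ fl pos g k
      rw [mem_fl, exists_pre]
      exact hu
    · have h2 := trn_mulVec pos A (fun x => u (pos x))
      rw [exists_pre] at h2
      rw [Matrix.mulVecLin_apply, h2] at hv
      rw [Matrix.mulVecLin_apply]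
      funext x
      have h3 := congrFun hv (pos x)
      simp only [Equiv.symm_apply_apply] at h3
      exact h3
  · rintro ⟨u, hu, rfl⟩
    refine ⟨fun a => u (pos.symm a), hu, ?_⟩
    rw [Matrix.mulVecLin_apply, trn_mulVec]
    rfl

theorem fl_perm (h : Good P Φ pos tim) (k : ℕ) : fl pos (permGL (ww pos tim)) k = EJ P k := by
  ext v
  rw [mem_fl, mem_flagOf_perm, mem_EJ]
  constructor
  · intro hv x hx
    have h1 := hv (tim x) (by
      by_contra h2
      rw [not_le, tim_lt h] at h2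
      omega)
    change v (pos.symm (pos (tim.symm (tim x)))) = 0 at h1
    rwa [Equiv.symm_apply_apply, Equiv.symm_apply_apply] at h1
  · intro hv a ha
    change v (pos.symm (pos (tim.symm a))) = 0
    rw [Equiv.symm_apply_apply]
    apply hv
    by_contra h2
    rw [not_lt, ← tim_lt h, Equiv.apply_symm_apply] at h2
    omega

theorem flagOf_eq_of_fl {g h : GL (Fin n) ℂ} {k : ℕ} (e : fl pos g k = fl pos h k) :
    flagOf g (tt P k) = flagOf h (tt P k) := by
  ext u
  have h1 : ∀ g' : GL (Fin n) ℂ, u ∈ flagOf g' (tt P k) ↔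
      (fun x => u (pos x)) ∈ fl pos g' k := by
    intro g'
    rw [mem_fl, exists_pre]
  rw [h1, h1, e]

theorem fl_map_X (g : GL (Fin n) ℂ) (k l : ℕ) :
    (flagOf g (tt P k)).map (Matrix.mulVecLin (Xn pos)) ≤ flagOf g (tt P l) ↔
      (fl pos g k).map (Matrix.mulVecLin (Xm P)) ≤ fl pos g l := by
  constructor
  · rintro h _ ⟨v, hv, rfl⟩
    rw [mem_fl]
    have h1 : Matrix.mulVecLin (Xn pos) (fun a => v (pos.symm a)) ∈ flagOf g (tt P l) :=
      h ⟨_, hv, rfl⟩
    rw [Matrix.mulVecLin_apply, Xn, trn_mulVec] at h1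
    exact h1
  · rintro h _ ⟨u, hu, rfl⟩
    have h1 : (fun x => u (pos x)) ∈ fl pos g k := by
      rw [mem_fl, exists_pre]
      exact hu
    have h2 : Matrix.mulVecLin (Xm P) (fun x => u (pos x)) ∈ fl pos g l := h ⟨_, h1, rfl⟩
    rw [mem_fl, Matrix.mulVecLin_apply, ← trn_mulVec, exists_pre] at h2
    exact h2

theorem springer_of (g : GL (Fin n) ℂ)
    (hX : ∀ k, (fl pos g (k + 1)).map (Matrix.mulVecLin (Xm P)) ≤ fl pos g k) :
    pt g ∈ springerFiber (Xn pos) := by
  classical
  rw [pt_mem_springerFiber_iff_flag]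
  intro j
  by_cases hj : n ≤ j
  · rw [flagOf_top g hj]
    exact le_top
  · rw [not_le] at hj
    have hex : ∃ k, j < tt P k := ⟨P.F + 9, by rw [tt_top pos le_rfl]; exact hj⟩
    have h1 := Nat.find_spec hex
    have h2 : Nat.find hex ≠ 0 := by
      intro h0
      rw [h0, tt_zero] at h1
      exact absurd h1 (Nat.not_lt_zero _)
    obtain ⟨k, hk⟩ := Nat.exists_eq_succ_of_ne_zero h2
    have h3 : tt P k ≤ j := by
      by_contra h4
      rw [not_le] at h4
      have h5 := Nat.find_min' hex h4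
      omega
    rw [hk] at h1
    calc (flagOf g j).map (Matrix.mulVecLin (Xn pos))
        ≤ (flagOf g (tt P (k + 1))).map (Matrix.mulVecLin (Xn pos)) :=
          Submodule.map_mono (flagOf_mono g h1.le)
      _ ≤ flagOf g (tt P k) := (fl_map_X g (k + 1) k).2 (hX k)
      _ ≤ flagOf g j := flagOf_mono g h3

end Pd6ff58.J
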