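import Pool.Agent.Lib.Pd6J.Mnr
import Pool.Agent.Lib.Pd6J.FlB

/-!
# Module CrdA (`crd_ne`, `crd_eq`, `crd_inj`): the data as quotients of minors

`mu k` is the minor with the rows `J_k` (in the time order), `mx k x y` the same with the row of `x`
replaced by the one of `y`. PROOFS. `(tim x : ℕ) < tt k ↔ kap x ≤ k` (`tim_lt`), `ww a = pos (tim.symm a)`,
so the rows of `mw (ww pos tim) (tt k)` are the `pos x`, `kap x ≤ k`. `crd_ne`, `crd_eq`, `crd_inj` are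
`mnr_ne_zero`, `mnr_coord`, `mnr_inj` (transport by `mem_fl`; `H` gives the family of reduced
vectors).
`crd_Mm`: the hypothesis `H` of `crd_ne` holds: take the explicit `g'` of `exp_mem` (invertible
by `Mm_det`); it has the same `fl`, and it is in the cell; use `fl_reduced`. The reduced vectors (check that
they are in `map M (EJ k)` and their coordinates in `J_k`):
`k = 1`, `x = (0, inl r)`, `r` a pivot of `Rlo`: `U_0 ((1+β) e_r) = M (U_0 e_r)`;
`k = 2`, `x = (0, inr c)`, `c` a pivot of `Clo`: `W_0 ((1+ν) e_c) = M (W_0 e_c)`;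
`k = F+7`, `x = (F+5, inl r)`, `r` a pivot of `Rhi`: `U_{F+5} ((1+β') e_r)`;
`k = F+8`, `x = (F+5, inr c)`, `c` a pivot of `Chi`: `W_{F+5} ((1+ν') e_c)`;
`k = 4`, `x = (1, inr c)`: `W_1 e_c + U_3 τ_c = M (W_1 ((1-ν) e_c))` (`(1+ν)(1-ν) = 1`).
-/

open MvPolynomial

noncomputable section

namespace Pd6ff58.J

variable {R C : Type} [DecidableEq R] [DecidableEq C] [Fintype R] [Fintype C]
  {P : Par R C} {n : ℕ} {pos tim : Ix P ≃ Fin n} {Φ : Set (Fin P.F)}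

/-- the minor with the rows `J_k` -/
def mu (pos tim : Ix P ≃ Fin n) (k : ℕ) : MvPolynomial (Fin n × Fin n) ℂ :=
  mw (ww pos tim) (tt P k)

/-- the minor with the rows `J_k`, `x` replaced by `y` -/
def mx (pos tim : Ix P ≃ Fin n) (k : ℕ) (x y : Ix P) : MvPolynomial (Fin n × Fin n) ℂ :=
  mwx (ww pos tim) (tt P k) (tim x) (pos y)

namespace CrdAAux

omit [DecidableEq R] [DecidableEq C] [Fintype R] [Fintype C] in
theorem ww_tim (a : Fin n) : ww pos tim a = pos (tim.symm a) := rfl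

theorem mu_eq (pos tim : Ix P ≃ Fin n) (k : ℕ) (ht : tt P k ≤ n) :
    mu pos tim k = mnr n (tt P k) (fun a => ww pos tim ⟨(a : ℕ), a.2.trans_le ht⟩) := by
  unfold mu mw
  rw [dif_pos ht]

theorem mx_eq (pos tim : Ix P ≃ Fin n) (k : ℕ) (ht : tt P k ≤ n) (x y : Ix P)
    (hx : (tim x : ℕ) < tt P k) :
    mx pos tim k x y = mnr n (tt P k) (Function.update
      (fun a : Fin (tt P k) => ww pos tim ⟨(a : ℕ), a.2.trans_le ht⟩) ⟨(tim x : ℕ), hx⟩ (pos y)) := by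
  unfold mx mwx
  rw [dif_pos ⟨ht, hx⟩]

theorem kap_symm (h : Good P Φ pos tim) (k : ℕ) (ht : tt P k ≤ n) (b : Fin (tt P k)) :
    kap P (tim.symm ⟨(b : ℕ), b.2.trans_le ht⟩) ≤ k := by
  refine (tim_lt h _ k).1 ?_
  rw [Equiv.apply_symm_apply]
  exact b.2

theorem fam_mem (h : Good P Φ pos tim) (g : GL (Fin n) ℂ) (k : ℕ) (ht : tt P k ≤ n)
    (vv : Ix P → Ix P → ℂ)
    (hvv : ∀ x, kap P x ≤ k → vv x ∈ fl pos g k ∧ vv x x = 1 ∧
      ∀ y, kap P y ≤ k → y ≠ x → vv x y = 0) (b : Fin (tt P k)) :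
    (fun a => vv (tim.symm ⟨(b : ℕ), b.2.trans_le ht⟩) (pos.symm a)) ∈ flagOf g (tt P k) :=
  mem_fl.1 (hvv _ (kap_symm h k ht b)).1

theorem fam_dual (h : Good P Φ pos tim) (g : GL (Fin n) ℂ) (k : ℕ) (ht : tt P k ≤ n)
    (vv : Ix P → Ix P → ℂ)
    (hvv : ∀ x, kap P x ≤ k → vv x ∈ fl pos g k ∧ vv x x = 1 ∧
      ∀ y, kap P y ≤ k → y ≠ x → vv x y = 0) (b c : Fin (tt P k)) :
    (fun a => vv (tim.symm ⟨(b : ℕ), b.2.trans_le ht⟩) (pos.symm a))
      (ww pos tim ⟨(c : ℕ), c.2.trans_le ht⟩) = if b = c then 1 else 0 := by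
  have e : (fun a => vv (tim.symm ⟨(b : ℕ), b.2.trans_le ht⟩) (pos.symm a))
      (ww pos tim ⟨(c : ℕ), c.2.trans_le ht⟩) =
      vv (tim.symm ⟨(b : ℕ), b.2.trans_le ht⟩) (tim.symm ⟨(c : ℕ), c.2.trans_le ht⟩) := by
    change vv _ (pos.symm (pos (tim.symm ⟨(c : ℕ), c.2.trans_le ht⟩))) = _
    rw [Equiv.symm_apply_apply]
  rw [e]
  by_cases hbc : b = c
  · subst hbc
    rw [if_pos rfl]
    exact (hvv _ (kap_symm h k ht b)).2.1
  · rw [if_neg hbc]
    refine (hvv _ (kap_symm h k ht b)).2.2 _ (kap_symm h k ht c) ?_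
    intro hc
    have h1 := tim.symm.injective hc
    have h2 := congrArg Fin.val h1
    exact hbc (Fin.ext h2.symm)

end CrdAAux

open CrdAAux

theorem crd_ne (h : Good P Φ pos tim) (g : GL (Fin n) ℂ) (k : ℕ)
    (H : ∀ x, kap P x ≤ k → ∃ v ∈ fl pos g k, v x = 1 ∧ ∀ y, kap P y ≤ k → y ≠ x → v y = 0) :
    evalAt g (mu pos tim k) ≠ 0 := by
  have ht := tt_le pos k
  choose! vv hvv using H
  rw [mu_eq pos tim k ht]
  exact mnr_ne_zero g ht _ _ (fam_mem h g k ht vv hvv) (fam_dual h g k ht vv hvv)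

theorem crd_eq (h : Good P Φ pos tim) (g : GL (Fin n) ℂ) (k : ℕ)
    (H : ∀ x, kap P x ≤ k → ∃ v ∈ fl pos g k, v x = 1 ∧ ∀ y, kap P y ≤ k → y ≠ x → v y = 0)
    {x : Ix P} (hx : kap P x ≤ k) {v : Ix P → ℂ} (hv : v ∈ fl pos g k) (hvx : v x = 1)
    (hv0 : ∀ y, kap P y ≤ k → y ≠ x → v y = 0) (y : Ix P) :
    evalAt g (mx pos tim k x y) = v y * evalAt g (mu pos tim k) := by
  classical
  have ht := tt_le pos k
  choose! ww0 hww using H
  let vv : Ix P → Ix P → ℂ := fun z => if z = x then v else ww0 z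
  have hvv : ∀ z, kap P z ≤ k → vv z ∈ fl pos g k ∧ vv z z = 1 ∧
      ∀ y, kap P y ≤ k → y ≠ z → vv z y = 0 := by
    intro z hz
    by_cases hzx : z = x
    · subst hzx
      simp only [vv, if_pos]
      exact ⟨hv, hvx, hv0⟩
    · simp only [vv, if_neg hzx]
      exact hww z hz
  have hxt : (tim x : ℕ) < tt P k := (tim_lt h x k).2 hx
  rw [mu_eq pos tim k ht, mx_eq pos tim k ht x y hxt]
  have e := mnr_coord g ht _ _ (fam_mem h g k ht vv hvv) (fam_dual h g k ht vv hvv)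
    ⟨(tim x : ℕ), hxt⟩ (pos y)
  rw [e]
  congr 1
  have e1 : (⟨((⟨(tim x : ℕ), hxt⟩ : Fin (tt P k)) : ℕ), hxt.trans_le ht⟩ : Fin n) = tim x :=
    Fin.ext rfl
  change vv (tim.symm ⟨((⟨(tim x : ℕ), hxt⟩ : Fin (tt P k)) : ℕ), hxt.trans_le ht⟩)
    (pos.symm (pos y)) = v y
  rw [e1, Equiv.symm_apply_apply, Equiv.symm_apply_apply]
  simp only [vv, if_pos]

theorem crd_inj (h : Good P Φ pos tim) (g : GL (Fin n) ℂ) (k : ℕ)
    (hg : evalAt g (mu pos tim k) ≠ 0) {v : Ix P → ℂ} (hv : v ∈ fl pos g k)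
    (h0 : ∀ x, kap P x ≤ k → v x = 0) : v = 0 := by
  have ht := tt_le pos k
  rw [mu_eq pos tim k ht] at hg
  have e := mnr_inj g ht _ hg (mem_fl.1 hv) (fun b => by
    change v (pos.symm (pos (tim.symm ⟨(b : ℕ), b.2.trans_le ht⟩))) = 0
    rw [Equiv.symm_apply_apply]
    exact h0 _ (kap_symm h k ht b))
  funext x
  have e1 := congrFun e (pos x)
  change v (pos.symm (pos x)) = 0 at e1
  rw [Equiv.symm_apply_apply] at e1
  exact e1

end Pd6ff58.J
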