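import Pool.Agent.Lib.Pd6J.BunA
import Pool.Agent.Lib.Pd6J.CrdA

/-!
# Module BunB (`bun_chart`): `K0` is smooth at every point

PROOF of `bun` by `bundle_local` (read its statement in `Pd6ff58/BL.lean`) with `Ts = Set.range (tt P)`,
`S = univ`, `v₀ = 0`, `ι = Par4 P = SI P.Rlo ⊕ SI P.Rhi ⊕ SI P.Clo ⊕ SI P.Chi`, where
`SI S = {p : T × T // ¬ piv p.1 ∧ piv p.2 ∧ blk p.1 = blk p.2}`; `z : ι → ℂ` is the same as four matrices
`bz z`, `bz' z`, `nz z`, `nz' z` with `Supp` (`z ↦` entries at the pairs in `SI`, zero elsewhere).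
Let `g₀ ∈ K0`, `fl pos g₀ k = H₀ (EJ k)`, `H₀ = Hm P A A' D D'`. `T(z) = trn pos (H₀ * Hm(1+bz z, ...) * H₀⁻¹)`,
`T'(z) = trn pos (H₀ * Hm(1-bz z, ...) * H₀⁻¹)`: polynomial in `z`, `T(z) T'(z) = 1` (`Hm_mul`, `Supp.sq`),
`T(0) = 1`. `K = K0 pos`.
`h1`: `g = T(z) g₀ p`: `fl pos g k = H₀ Hm(1+bz, ...) H₀⁻¹ H₀ (EJ k) = Hm(A(1+bz), ...) (EJ k)`
(`fl_mul`; `fl pos (g₀ * p) k = fl pos g₀ k` for `p ∈ parab`): in `K0`.
`δ := δ₀(H₀⁻¹ g)`, `δ₀ = mu 1 * mu 2 * mu (F+7) * mu (F+8)` (translated polynomial: `FLAux.lt`,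
`evalAt_lt`), `ζ_i := ζ⁰_i(H₀⁻¹ g)`, where for `i = (r', r)` in `SI P.Rlo`:
`ζ⁰_i = mx 1 (0, inl r) (0, inl r') * mu 2 * mu (F+7) * mu (F+8)`, and similarly for the three other
structures with `mx 2 (0, inr c) (0, inr c')`, `mx (F+7) (F+5, inl r) (F+5, inl r')`,
`mx (F+8) (F+5, inr c) (F+5, inr c')`.
`hδ`: `fl pos (H₀⁻¹ g₀) k = EJ k`, `crd_Mm` with the zero data.
`h3`: `g = T(z) g₀ p`: `fl pos (H₀⁻¹ g) k = Hm(1+bz z, ...) (EJ k)`, `crd_Mm` with the data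
`(bz z, bz' z, nz z, nz' z, 0)` (`Mm_zero`; they satisfy `Eqs`).
`h2` (`bun_chart`): `g ∈ K0`, `δ(g) ≠ 0`: `g' = H₀⁻¹ g ∈ K0`, `fl pos g' k = H₁ (EJ k)`,
`H₁ = Hm P A₁ A₁' D₁ D₁'`, `mu k (g') ≠ 0` for `k = 1, 2, F+7, F+8`. By `crd_inj`: a vector of
`H₁ (EJ k)` which vanishes on `J_k` is `0`. `k = 1`: if `u ∈ Epiv Rlo` and `A₁ u` vanishes on the pivots
then `U_0 (A₁ u) ∈ H₁ (EJ 1)` vanishes on `J_1`: `A₁ u = 0`, `u = 0`. By `blk_chart` there is `β` with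
`Supp P.Rlo β` and `A₁ (Epiv) = (1+β) (Epiv)`. The same for `D₁` (`k = 2`, `W_0`), `A₁'` (`k = F+7`, `U_{F+5}`),
`D₁'` (`k = F+8`, `W_{F+5}`). Hence `H₁ (EJ k) = Hm(1+β, 1+β', 1+ν, 1+ν') (EJ k)` for all `k` (`Hm_EJ_congr`:
`EJ k` meets every `U_i`, `i ≤ 2`, in `0`, `Epiv` or everything, etc.). With `z` given by
`(β, β', ν, ν')`: `p := g₀⁻¹ T'(z) g` is in `parab` and `g = T(z) g₀ p`.
So the local ring of `{x | g₀ * lowerGL x ∈ K0}` at `0` is the one of `timesAffine univ = univ`, which is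
regular (`regular_univ`).
PROOF of `blk_chart`: let `A₁₁`, `A₂₁` be the parts (pivots, pivots), (nonpivots, pivots) of `A`; `A₁₁` is
injective, so invertible; `β = A₂₁ A₁₁⁻¹` is block diagonal (`BD.inv`; extend `A₁₁` by `1`),
and `A u = (1+β) (A₁₁ u)` for `u ∈ Epiv`.
-/

open MvPolynomial

noncomputable section

namespace Pd6ff58.J

variable {R C : Type} [DecidableEq R] [DecidableEq C] [Fintype R] [Fintype C]
  {P : Par R C} {n : ℕ} {pos tim : Ix P ≃ Fin n} {Φ : Set (Fin P.F)}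

namespace BunBAux


theorem inj_of_det {T : Type} [Fintype T] [DecidableEq T] {B : Matrix T T ℂ} (hB : B.det ≠ 0)
    {u : T → ℂ} (hu : B.mulVec u = 0) : u = 0 := by
  have h1 : B⁻¹.mulVec (B.mulVec u) = u := by
    rw [Matrix.mulVec_mulVec, Matrix.nonsing_inv_mul _ (Ne.isUnit hB), Matrix.one_mulVec]
  rw [← h1, hu, Matrix.mulVec_zero]

theorem injU (h : Good P Φ pos tim) {g : GL (Fin n) ℂ} {A A' : Matrix R R ℂ} {D D' : Matrix C C ℂ}
    (hfl : ∀ k, fl pos g k = (EJ P k).map (Matrix.mulVecLin (Hm P A A' D D')))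
    {S : Blk R} {B : Matrix R R ℂ} (hB : B.det ≠ 0) {i : ℕ} (hi : i < P.F + 6) {k : ℕ}
    (hk : evalAt g (mu pos tim k) ≠ 0)
    (hAB : (if i ≤ 2 then A else if i ≤ P.F + 3 then 1 else A') = B)
    (hkap : ∀ r, kap P (⟨i, hi⟩, Sum.inl r) ≤ k ↔ S.piv r) :
    ∀ u ∈ Epiv S, (∀ r, S.piv r → B.mulVec u r = 0) → u = 0 := by
  intro u hu h0
  have h1 : sU P i (B.mulVec u) ∈ fl pos g k := by
    rw [hfl k]
    refine ⟨sU P i u, (sU_mem_EJ P hi u).2 fun r hr => ?_, ?_⟩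
    · apply hu r
      rw [← hkap r]
      exact not_le.2 hr
    · rw [Matrix.mulVecLin_apply, Hm_sU, hAB]
  have h2 : sU P i (B.mulVec u) = 0 := by
    refine crd_inj h g k hk h1 fun x hx => ?_
    rcases x with ⟨j, r | c⟩
    · by_cases hj : (j : ℕ) = i
      · have hj' : j = ⟨i, hi⟩ := Fin.ext hj
        subst hj'
        rw [sU_apply, if_pos rfl]
        exact h0 r ((hkap r).1 hx)
      · rw [sU_apply, if_neg hj]
    · rw [sU_apply]
      split_ifs <;> rfl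
  apply inj_of_det hB
  funext r
  have h3 := congrFun h2 (⟨i, hi⟩, Sum.inl r)
  rw [sU_apply, if_pos rfl] at h3
  exact h3

theorem injW (h : Good P Φ pos tim) {g : GL (Fin n) ℂ} {A A' : Matrix R R ℂ} {D D' : Matrix C C ℂ}
    (hfl : ∀ k, fl pos g k = (EJ P k).map (Matrix.mulVecLin (Hm P A A' D D')))
    {S : Blk C} {B : Matrix C C ℂ} (hB : B.det ≠ 0) {i : ℕ} (hi : i < P.F + 6) {k : ℕ}
    (hk : evalAt g (mu pos tim k) ≠ 0)
    (hAB : (if i ≤ 1 then D else if i ≤ P.F + 2 then 1 else D') = B)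
    (hkap : ∀ c, kap P (⟨i, hi⟩, Sum.inr c) ≤ k ↔ S.piv c) :
    ∀ u ∈ Epiv S, (∀ c, S.piv c → B.mulVec u c = 0) → u = 0 := by
  intro u hu h0
  have h1 : sW P i (B.mulVec u) ∈ fl pos g k := by
    rw [hfl k]
    refine ⟨sW P i u, (sW_mem_EJ P hi u).2 fun r hr => ?_, ?_⟩
    · apply hu r
      rw [← hkap r]
      exact not_le.2 hr
    · rw [Matrix.mulVecLin_apply, Hm_sW, hAB]
  have h2 : sW P i (B.mulVec u) = 0 := by
    refine crd_inj h g k hk h1 fun x hx => ?_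
    rcases x with ⟨j, r | c⟩
    · rw [sW_apply]
      split_ifs <;> rfl
    · by_cases hj : (j : ℕ) = i
      · have hj' : j = ⟨i, hi⟩ := Fin.ext hj
        subst hj'
        rw [sW_apply, if_pos rfl]
        exact h0 c ((hkap c).1 hx)
      · rw [sW_apply, if_neg hj]
  apply inj_of_det hB
  funext c
  have h3 := congrFun h2 (⟨i, hi⟩, Sum.inr c)
  rw [sW_apply, if_pos rfl] at h3
  exact h3

end BunBAux

open BunBAux

theorem bun_chart (h : Good P Φ pos tim) {g : GL (Fin n) ℂ} (hg : g ∈ K0 pos)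
    (h1 : evalAt g (mu pos tim 1) ≠ 0) (h2 : evalAt g (mu pos tim 2) ≠ 0)
    (h7 : evalAt g (mu pos tim (P.F + 7)) ≠ 0) (h8 : evalAt g (mu pos tim (P.F + 8)) ≠ 0) :
    ∃ (β β' : Matrix R R ℂ) (ν ν' : Matrix C C ℂ), Supp P.Rlo β ∧ Supp P.Rhi β' ∧
      Supp P.Clo ν ∧ Supp P.Chi ν' ∧
      ∀ k, fl pos g k = (EJ P k).map (Matrix.mulVecLin (Hm P (1 + β) (1 + β') (1 + ν) (1 + ν'))) := by
  classical
  obtain ⟨A, A', D, D', ⟨bA, bA', bD, bD'⟩, ⟨dA, dA', dD, dD'⟩, hfl⟩ := hg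
  obtain ⟨β, sβ, eβ⟩ := blk_chart bA dA (injU h hfl dA (i := 0) (by omega) h1
    (by rw [if_pos (by omega)]) (fun r => by
      simp only [kap]
      by_cases hr : P.Rlo.piv r <;> simp [hr]))
  obtain ⟨β', sβ', eβ'⟩ := blk_chart bA' dA' (injU h hfl dA' (i := P.F + 5) (by omega) h7
    (by rw [if_neg (by omega), if_neg (by omega)]) (fun r => by
      simp only [kap]
      rw [if_neg (by omega), if_neg (by omega)]
      by_cases hr : P.Rhi.piv r <;> simp [hr]))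
  obtain ⟨ν, sν, eν⟩ := blk_chart bD dD (injW h hfl dD (i := 0) (by omega) h2
    (by rw [if_pos (by omega)]) (fun r => by
      simp only [kap]
      by_cases hr : P.Clo.piv r <;> simp [hr]))
  obtain ⟨ν', sν', eν'⟩ := blk_chart bD' dD' (injW h hfl dD' (i := P.F + 5) (by omega) h8
    (by rw [if_neg (by omega), if_neg (by omega)]) (fun r => by
      simp only [kap]
      rw [if_neg (by omega), if_neg (by omega)]
      by_cases hr : P.Chi.piv r <;> simp [hr]))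
  refine ⟨β, β', ν, ν', sβ, sβ', sν, sν', fun k => ?_⟩
  rw [hfl k]
  exact Hm_EJ_congr dA dA' sβ.det sβ'.det dD dD' sν.det sν'.det eβ eβ' eν eν' k

end Pd6ff58.J
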