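import Pool.Agent.Lib.Pd6J.FlB

/-!
# Module ExpX (part SPRINGER of the header: `exp_X`): the explicit flags are in the Springer cell

PROOF. Let `M = Mm P β β' ν ν' τ` (invertible: `Mm_det`), `w = ww pos tim`, `g = (trn pos M) w`.
CELL (`exp_upper`): `trn pos M` is upper triangular. `M = (1 + Tm τ) Hm(1+β, 1+β', 1+ν, 1+ν')`, a
product of upper triangular matrices: the entries of `Hm(...)` off the diagonal are `β_{r r'}` at
`((i, inl r), (i, inl r'))`, `i ≤ 2`, nonzero only for `r` not a pivot, `r'` a pivot, same block, and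
then `pos (i, inl r) < pos (i, inl r')` by `blo`; similarly `bhi`, `nlo`, `nhi`; the entries of
`Tm τ` are `τ_{r c}` at `((j+2, inl r), (j, inr c))`, `1 ≤ j ≤ F + 2`: by `anc`,
`pos (j+2, inl r) < pos (j, inr c)` unless `ent t = (r, c)` for some `t ∈ Φ`, when `τ_{r c} = 0`
by `e5`. So `g ∈ borel * w`.
SPRINGER (`exp_X`): `fl pos g k = map M (EJ k)` (`fl_mul`, `fl_perm`); by `springer_of` we need
`X M (EJ (k+1)) ⊆ M (EJ k)`. By `EJ_le` (applied to the linear map `X ∘ M`) check it on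
`U_i e_r`, `W_i e_c` with `kap ≤ k + 1`. Below `k` is arbitrary with `kap x ≤ k + 1`.
 U_0: `X U_0 = 0`. U_i, `i = 1, 2`: `X M U_i e_r = U_{i-1} ((1+β) e_r) = M (U_{i-1} e_r)` and
 `kap (i-1, inl r) = kap (i, inl r) - 1`.
 U_3: `X M U_3 e_r = U_2 e_r`, `k ≥ 4`, and `M (EJ k)` contains all of `U_2` (`U_2 u = M (U_2 ((1+β)⁻¹ u))`
 and `kap (2, inl _) ≤ 4`). U_i, `4 ≤ i ≤ F+3`: `M (U_{i-1} e_r)`. U_{F+4}: `X M (U_{F+4} e_r) =
 U_{F+3} ((1+β') e_r)`, `k ≥ F + 5`, all of `U_{F+3}` is there. U_{F+5}: `M (U_{F+4} e_r)`.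
 W_0: `X W_0 = 0`, `M (W_0 e_c) = W_0 (..)`.
 W_1: `X M (W_1 e_c) = W_0 ((1+ν) e_c) + U_2 (τ (1+ν) e_c)`. `c` a pivot: the second term is `0` (`e1`),
 the first is `M (W_0 e_c)`, `kap (0, inr c) = 2 ≤ k`. `c` not a pivot: `k ≥ 3`; `(1+ν) e_c = e_c`;
 `W_0 e_c = M (W_0 e_c)`, `kap (0, inr c) = 3`; and by `e3` `U_2 τ_c` is a combination of the
 `U_2 ((1+β) e_ρ) = M (U_2 e_ρ)`, `ρ` a pivot of `Rlo` (`τ_c = (1 + β) (τ_c restricted to pivots)`),
 `kap (2, inl ρ) = 3`.
 W_2: `k ≥ 4`: `W_1 e_c + U_3 τ_c = (1 + Tm τ) (W_1 e_c) = M (W_1 ((1+ν)⁻¹ e_c))`, all of `W_1` is in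
 `J_4`. (`(1 + ν)(1 - ν) = 1`, `Supp.sq`.) W_i, `3 ≤ i ≤ F+2`: `M (W_{i-1} e_c)`, `kap` drops by 1.
 W_{F+3}: `X M (W_{F+3} e_c) = W_{F+2} ((1+ν') e_c)`. `c` a pivot of `Chi`: `k ≥ F + 5`; it is
 `M (W_{F+2} ((1+ν') e_c))` because `τ (1+ν') e_c = 0` (`e2`). (For `F = 0` too: `F + 2 ≥ 2`, so the
 matrix on `W_{F+2}` is `1`.) `c` not a pivot: `k ≥ F + 6`, `W_{F+2} e_c = M (W_{F+2} e_c) -
 U_{F+4} τ_c` and by `e4` `U_{F+4} τ_c` is a combination of `M (U_{F+4} e_ρ)`, `ρ` a pivot of `Rhi`,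
 `kap (F+4, inl ρ) = F + 6`.
 W_{F+4}, W_{F+5}: `M (W_{i-1} e_c)`, `kap` drops by 1.
-/

open MvPolynomial

noncomputable section

namespace Pd6ff58.J

variable {R C : Type} [DecidableEq R] [DecidableEq C] [Fintype R] [Fintype C]
  {P : Par R C} {Φ : Set (Fin P.F)}

namespace ExpXAux

section kapS

omit [DecidableEq R] [DecidableEq C] [Fintype R] [Fintype C]

theorem kapU_lo_piv {i : ℕ} (hi : i < P.F + 6) (h : i ≤ 2) {r : R} (hr : P.Rlo.piv r) :
    kap P (⟨i, hi⟩, Sum.inl r) = i + 1 := by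
  simp [kap, h, hr]

theorem kapU_lo_not {i : ℕ} (hi : i < P.F + 6) (h : i ≤ 2) {r : R} (hr : ¬ P.Rlo.piv r) :
    kap P (⟨i, hi⟩, Sum.inl r) = i + 2 := by
  simp [kap, h, hr]

theorem kapU_mid {i : ℕ} (hi : i < P.F + 6) (h : 3 ≤ i) (h' : i ≤ P.F + 3) (r : R) :
    kap P (⟨i, hi⟩, Sum.inl r) = i + 2 := by
  have h1 : ¬ i ≤ 2 := by omega
  simp [kap, h1, h']

theorem kapU_hi_piv {i : ℕ} (hi : i < P.F + 6) (h : P.F + 4 ≤ i) {r : R} (hr : P.Rhi.piv r) :
    kap P (⟨i, hi⟩, Sum.inl r) = i + 2 := by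
  have h1 : ¬ i ≤ 2 := by omega
  have h2 : ¬ i ≤ P.F + 3 := by omega
  simp [kap, h1, h2, hr]

theorem kapU_hi_not {i : ℕ} (hi : i < P.F + 6) (h : P.F + 4 ≤ i) {r : R} (hr : ¬ P.Rhi.piv r) :
    kap P (⟨i, hi⟩, Sum.inl r) = i + 3 := by
  have h1 : ¬ i ≤ 2 := by omega
  have h2 : ¬ i ≤ P.F + 3 := by omega
  simp [kap, h1, h2, hr]

theorem kapW_lo_piv {i : ℕ} (hi : i < P.F + 6) (h : i ≤ 1) {c : C} (hc : P.Clo.piv c) :
    kap P (⟨i, hi⟩, Sum.inr c) = i + 2 := by
  simp [kap, h, hc]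

theorem kapW_lo_not {i : ℕ} (hi : i < P.F + 6) (h : i ≤ 1) {c : C} (hc : ¬ P.Clo.piv c) :
    kap P (⟨i, hi⟩, Sum.inr c) = i + 3 := by
  simp [kap, h, hc]

theorem kapW_mid {i : ℕ} (hi : i < P.F + 6) (h : 2 ≤ i) (h' : i ≤ P.F + 2) (c : C) :
    kap P (⟨i, hi⟩, Sum.inr c) = i + 3 := by
  have h1 : ¬ i ≤ 1 := by omega
  simp [kap, h1, h']

theorem kapW_hi_piv {i : ℕ} (hi : i < P.F + 6) (h : P.F + 3 ≤ i) {c : C} (hc : P.Chi.piv c) :
    kap P (⟨i, hi⟩, Sum.inr c) = i + 3 := by
  have h1 : ¬ i ≤ 1 := by omega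
  have h2 : ¬ i ≤ P.F + 2 := by omega
  simp [kap, h1, h2, hc]

theorem kapW_hi_not {i : ℕ} (hi : i < P.F + 6) (h : P.F + 3 ≤ i) {c : C} (hc : ¬ P.Chi.piv c) :
    kap P (⟨i, hi⟩, Sum.inr c) = i + 4 := by
  have h1 : ¬ i ≤ 1 := by omega
  have h2 : ¬ i ≤ P.F + 2 := by omega
  simp [kap, h1, h2, hc]

end kapS

variable {β β' : Matrix R R ℂ} {ν ν' : Matrix C C ℂ} {τ : Matrix R C ℂ} {k : ℕ}

/-- the image -/
abbrev G (P : Par R C) (β β' : Matrix R R ℂ) (ν ν' : Matrix C C ℂ) (τ : Matrix R C ℂ) (k : ℕ) :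
    Submodule ℂ (Ix P → ℂ) := (EJ P k).map (Matrix.mulVecLin (Mm P β β' ν ν' τ))

theorem mem_G {v : Ix P → ℂ} (hv : v ∈ EJ P k) :
    (Mm P β β' ν ν' τ).mulVec v ∈ G P β β' ν ν' τ k :=
  ⟨v, hv, rfl⟩

theorem U_lo {i : ℕ} (hi : i < P.F + 6) (h : i ≤ 2) {u : R → ℂ}
    (hu : ∀ r, k < kap P (⟨i, hi⟩, Sum.inl r) → u r = 0) :
    sU P i ((1 + β).mulVec u) ∈ G P β β' ν ν' τ k := by
  have h1 := mem_G (P := P) (β := β) (β' := β') (ν := ν) (ν' := ν') (τ := τ)
    ((sU_mem_EJ P hi u).2 hu)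
  rw [Mm_sU, if_pos h] at h1
  exact h1

theorem U_mid {i : ℕ} (hi : i < P.F + 6) (h : 3 ≤ i) (h' : i ≤ P.F + 3) {u : R → ℂ}
    (hu : ∀ r, k < kap P (⟨i, hi⟩, Sum.inl r) → u r = 0) :
    sU P i u ∈ G P β β' ν ν' τ k := by
  have h1 := mem_G (P := P) (β := β) (β' := β') (ν := ν) (ν' := ν') (τ := τ)
    ((sU_mem_EJ P hi u).2 hu)
  rw [Mm_sU, if_neg (by omega), if_pos h', Matrix.one_mulVec] at h1
  exact h1

theorem U_hi {i : ℕ} (hi : i < P.F + 6) (h : P.F + 4 ≤ i) {u : R → ℂ}
    (hu : ∀ r, k < kap P (⟨i, hi⟩, Sum.inl r) → u r = 0) :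
    sU P i ((1 + β').mulVec u) ∈ G P β β' ν ν' τ k := by
  have h1 := mem_G (P := P) (β := β) (β' := β') (ν := ν) (ν' := ν') (τ := τ)
    ((sU_mem_EJ P hi u).2 hu)
  rw [Mm_sU, if_neg (by omega), if_neg (by omega)] at h1
  exact h1

theorem W_zero (hi : 0 < P.F + 6) {w : C → ℂ}
    (hw : ∀ c, k < kap P (⟨0, hi⟩, Sum.inr c) → w c = 0) :
    sW P 0 ((1 + ν).mulVec w) ∈ G P β β' ν ν' τ k := by
  have h1 := mem_G (P := P) (β := β) (β' := β') (ν := ν) (ν' := ν') (τ := τ)
    ((sW_mem_EJ P hi w).2 hw)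
  rw [Mm_sW, if_pos (by omega), if_neg (by omega), add_zero] at h1
  exact h1

theorem W_one (hi : 1 < P.F + 6) {w : C → ℂ}
    (hw : ∀ c, k < kap P (⟨1, hi⟩, Sum.inr c) → w c = 0) :
    sW P 1 ((1 + ν).mulVec w) + sU P 3 (τ.mulVec ((1 + ν).mulVec w)) ∈
      G P β β' ν ν' τ k := by
  have h1 := mem_G (P := P) (β := β) (β' := β') (ν := ν) (ν' := ν') (τ := τ)
    ((sW_mem_EJ P hi w).2 hw)
  rw [Mm_sW, if_pos (by omega), if_pos (by omega), if_pos (by omega)] at h1
  exact h1

theorem W_mid {i : ℕ} (hi : i < P.F + 6) (h : 2 ≤ i) (h' : i ≤ P.F + 2) {w : C → ℂ}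
    (hw : ∀ c, k < kap P (⟨i, hi⟩, Sum.inr c) → w c = 0) :
    sW P i w + sU P (i + 2) (τ.mulVec w) ∈ G P β β' ν ν' τ k := by
  have h1 := mem_G (P := P) (β := β) (β' := β') (ν := ν) (ν' := ν') (τ := τ)
    ((sW_mem_EJ P hi w).2 hw)
  rw [Mm_sW, if_neg (by omega), if_pos h', if_pos (by omega), if_neg (by omega),
    Matrix.one_mulVec] at h1
  exact h1

theorem W_hi {i : ℕ} (hi : i < P.F + 6) (h : P.F + 3 ≤ i) {w : C → ℂ}
    (hw : ∀ c, k < kap P (⟨i, hi⟩, Sum.inr c) → w c = 0) :
    sW P i ((1 + ν').mulVec w) ∈ G P β β' ν ν' τ k := by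
  have h1 := mem_G (P := P) (β := β) (β' := β') (ν := ν) (ν' := ν') (τ := τ)
    ((sW_mem_EJ P hi w).2 hw)
  rw [Mm_sW, if_neg (by omega), if_neg (by omega), if_neg (by omega), add_zero] at h1
  exact h1

omit [Fintype R] in
theorem single_zero {r : R} {p : R → Prop} (h : ¬ p r) :
    ∀ r', p r' → (Pi.single r 1 : R → ℂ) r' = 0 := by
  intro r' hr'
  refine Pi.single_eq_of_ne ?_ _
  rintro rfl
  exact h hr'

/-- the inverse of `1 + A` -/
theorem one_add_sub {T : Type} [DecidableEq T] [Fintype T] {S : Blk T} {A : Matrix T T ℂ}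
    (h : Supp S A) (u : T → ℂ) : (1 + A).mulVec ((1 - A).mulVec u) = u := by
  rw [Matrix.mulVec_mulVec]
  have h1 : (1 + A) * (1 - A) = 1 := by
    have h2 : (1 + A) * (1 - A) = 1 - A * A := by noncomm_ring
    rw [h2, h.sq, sub_zero]
  rw [h1, Matrix.one_mulVec]

/-- `1 + A` fixes the coordinates that are not pivots -/
theorem fix_not {T : Type} [DecidableEq T] [Fintype T] {S : Blk T} {A : Matrix T T ℂ}
    (h : Supp S A) {c : T} (hc : ¬ S.piv c) :
    (1 + A).mulVec (Pi.single c 1) = Pi.single c 1 := by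
  rw [Matrix.add_mulVec, Matrix.one_mulVec]
  have h1 : A.mulVec (Pi.single c 1) = 0 := by
    funext x
    rw [Matrix.mulVec_single_one]
    by_contra hne
    exact hc (h x c hne).2.1
  rw [h1, add_zero]

open Classical in
/-- the restriction to the pivots -/
theorem piv_res {T : Type} [DecidableEq T] [Fintype T] {S : Blk T} {A : Matrix T T ℂ}
    (h : Supp S A) {t : T → ℂ} (ht : ∀ r, ¬ S.piv r → t r = A.mulVec t r) :
    (1 + A).mulVec (fun r => if S.piv r then t r else 0) = t := by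
  funext r
  rw [Matrix.add_mulVec, Matrix.one_mulVec, Pi.add_apply]
  have h1 : A.mulVec (fun r => if S.piv r then t r else 0) r = A.mulVec t r := by
    unfold Matrix.mulVec dotProduct
    refine Finset.sum_congr rfl fun x _ => ?_
    change A r x * (if S.piv x then t x else 0) = A r x * t x
    by_cases hx : S.piv x
    · rw [if_pos hx]
    · have h2 : A r x = 0 := by
        by_contra hne
        exact hx (h r x hne).2.1
      rw [h2, zero_mul, zero_mul]
  rw [h1]
  by_cases hr : S.piv r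
  · have h2 : A.mulVec t r = 0 := by
      unfold Matrix.mulVec dotProduct
      refine Finset.sum_eq_zero fun x _ => ?_
      change A r x * t x = 0
      have h2 : A r x = 0 := by
        by_contra hne
        exact (h r x hne).1 hr
      rw [h2, zero_mul]
    rw [if_pos hr, h2, add_zero]
  · rw [if_neg hr, zero_add, ← ht r hr]

omit [Fintype R] in
theorem col_zero {T : Type} [Fintype T] [DecidableEq T] {A : Matrix R T ℂ} {c : T}
    (h : ∀ r, A r c = 0) : A.mulVec (Pi.single c 1) = 0 := by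
  funext r
  rw [Matrix.mulVec_single_one]
  exact h r

end ExpXAux

open ExpXAux

theorem exp_X {β β' : Matrix R R ℂ} {ν ν' : Matrix C C ℂ}
    {τ : Matrix R C ℂ} (e : Eqs P Φ β β' ν ν' τ) (k : ℕ) :
    ((EJ P (k + 1)).map (Matrix.mulVecLin (Mm P β β' ν ν' τ))).map (Matrix.mulVecLin (Xm P)) ≤
      (EJ P k).map (Matrix.mulVecLin (Mm P β β' ν ν' τ)) := by
  classical
  rw [← Submodule.map_comp]
  refine EJ_le P ?_ ?_
  · rintro ⟨i, hi⟩ r hk
    change (Xm P).mulVec ((Mm P β β' ν ν' τ).mulVec (sU P i (Pi.single r 1))) ∈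
      G P β β' ν ν' τ k
    rw [Mm_sU]
    rcases Nat.eq_zero_or_pos i with h0 | h0
    · subst h0
      rw [Xm_sU_zero]
      exact Submodule.zero_mem _
    obtain ⟨j, rfl⟩ : ∃ j, i = j + 1 := ⟨i - 1, by omega⟩
    rw [Xm_sU P hi]
    have hj : j < P.F + 6 := by omega
    rcases Nat.lt_or_ge j 2 with h1 | h1
    · rw [if_pos (by omega)]
      refine U_lo hj (by omega) (single_zero ?_)
      by_cases hr : P.Rlo.piv r
      · rw [kapU_lo_piv hi (by omega) hr] at hk
        rw [kapU_lo_piv hj (by omega) hr]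
        omega
      · rw [kapU_lo_not hi (by omega) hr] at hk
        rw [kapU_lo_not hj (by omega) hr]
        omega
    rcases Nat.lt_or_ge j 3 with h2 | h2
    · obtain rfl : j = 2 := by omega
      rw [kapU_mid hi (by omega) (by omega)] at hk
      rw [if_neg (by omega), if_pos (by omega), Matrix.one_mulVec,
        ← one_add_sub e.sb (Pi.single r 1)]
      refine U_lo hj (by omega) ?_
      intro r' hr'
      exfalso
      by_cases hp : P.Rlo.piv r'
      · rw [kapU_lo_piv hj (by omega) hp] at hr'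
        omega
      · rw [kapU_lo_not hj (by omega) hp] at hr'
        omega
    rcases Nat.lt_or_ge j (P.F + 3) with h3 | h3
    · rw [kapU_mid hi (by omega) (by omega)] at hk
      rw [if_neg (by omega), if_pos (by omega), Matrix.one_mulVec]
      refine U_mid hj (by omega) (by omega) (single_zero ?_)
      rw [kapU_mid hj (by omega) (by omega)]
      omega
    rcases Nat.lt_or_ge j (P.F + 4) with h4 | h4
    · obtain rfl : j = P.F + 3 := by omega
      have hk' : P.F + 5 ≤ k := by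
        by_cases hp : P.Rhi.piv r
        · rw [kapU_hi_piv hi (by omega) hp] at hk
          omega
        · rw [kapU_hi_not hi (by omega) hp] at hk
          omega
      refine U_mid hj (by omega) (by omega) ?_
      intro r' hr'
      rw [kapU_mid hj (by omega) (by omega)] at hr'
      omega
    · rw [if_neg (by omega), if_neg (by omega)]
      refine U_hi hj (by omega) (single_zero ?_)
      by_cases hr : P.Rhi.piv r
      · rw [kapU_hi_piv hi (by omega) hr] at hk
        rw [kapU_hi_piv hj (by omega) hr]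
        omega
      · rw [kapU_hi_not hi (by omega) hr] at hk
        rw [kapU_hi_not hj (by omega) hr]
        omega
  · rintro ⟨i, hi⟩ c hk
    change (Xm P).mulVec ((Mm P β β' ν ν' τ).mulVec (sW P i (Pi.single c 1))) ∈
      G P β β' ν ν' τ k
    rw [Mm_sW, Matrix.mulVec_add]
    rcases Nat.eq_zero_or_pos i with h0 | h0
    · subst h0
      rw [Xm_sW_zero, if_neg (by omega : ¬ (1 ≤ 0 ∧ 0 ≤ P.F + 2)), Matrix.mulVec_zero, add_zero]
      exact Submodule.zero_mem _
    obtain ⟨j, rfl⟩ : ∃ j, i = j + 1 := ⟨i - 1, by omega⟩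
    rw [Xm_sW P hi]
    have hj : j < P.F + 6 := by omega
    rcases Nat.lt_or_ge j 1 with h1 | h1
    · -- `W_1`
      obtain rfl : j = 0 := by omega
      rw [if_pos (by omega), if_pos (by omega), if_pos (by omega), Xm_sU P (by omega)]
      by_cases hc : P.Clo.piv c
      · rw [kapW_lo_piv hi (by omega) hc] at hk
        have h2 : τ.mulVec ((1 + ν).mulVec (Pi.single c 1)) = 0 := by
          rw [Matrix.mulVec_mulVec]
          exact col_zero fun r => e.e1 r c hc
        rw [h2, map_zero, add_zero]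
        refine W_zero hj (single_zero ?_)
        rw [kapW_lo_piv hj (by omega) hc]
        omega
      · rw [kapW_lo_not hi (by omega) hc] at hk
        refine Submodule.add_mem _ ?_ ?_
        · refine W_zero hj (single_zero ?_)
          rw [kapW_lo_not hj (by omega) hc]
          omega
        · rw [fix_not e.sn hc]
          rw [← piv_res e.sb (t := τ.mulVec (Pi.single c 1)) (by
            intro r hr
            rw [Matrix.mulVec_mulVec, Matrix.mulVec_single_one, Matrix.mulVec_single_one]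
            exact e.e3 r c hr)]
          refine U_lo (by omega) (by omega) ?_
          intro r' hr'
          by_cases hp : P.Rlo.piv r'
          · rw [kapU_lo_piv _ (by omega) hp] at hr'
            omega
          · exact if_neg hp
    rcases Nat.lt_or_ge j 2 with h2 | h2
    · -- `W_2`
      obtain rfl : j = 1 := by omega
      rw [kapW_mid hi (by omega) (by omega)] at hk
      rw [if_neg (by omega), if_pos (by omega), if_pos (by omega), if_neg (by omega),
        Xm_sU P (by omega), Matrix.one_mulVec]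
      have h3 := W_one (P := P) (β := β) (β' := β') (ν := ν) (ν' := ν') (τ := τ) (k := k) hj
        (w := (1 - ν).mulVec (Pi.single c 1)) (by
          intro c' hc'
          exfalso
          by_cases hp : P.Clo.piv c'
          · rw [kapW_lo_piv hj (by omega) hp] at hc'
            omega
          · rw [kapW_lo_not hj (by omega) hp] at hc'
            omega)
      rw [one_add_sub e.sn] at h3
      exact h3
    rcases Nat.lt_or_ge j (P.F + 2) with h3 | h3
    · rw [kapW_mid hi (by omega) (by omega)] at hk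
      rw [if_neg (by omega), if_pos (by omega), if_pos (by omega), if_neg (by omega),
        Xm_sU P (by omega), Matrix.one_mulVec]
      refine W_mid hj (by omega) (by omega) (single_zero ?_)
      rw [kapW_mid hj (by omega) (by omega)]
      omega
    rcases Nat.lt_or_ge j (P.F + 3) with h4 | h4
    · -- `W_{F+3}`
      obtain rfl : j = P.F + 2 := by omega
      rw [if_neg (by omega), if_neg (by omega), if_neg (by omega), Matrix.mulVec_zero, add_zero]
      by_cases hc : P.Chi.piv c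
      · rw [kapW_hi_piv hi (by omega) hc] at hk
        have h5 := W_mid (P := P) (β := β) (β' := β') (ν := ν) (ν' := ν') (τ := τ) (k := k) hj
          (by omega) (by omega) (w := (1 + ν').mulVec (Pi.single c 1)) (by
            intro c' hc'
            exfalso
            rw [kapW_mid hj (by omega) (by omega)] at hc'
            omega)
        have h6 : τ.mulVec ((1 + ν').mulVec (Pi.single c 1)) = 0 := by
          rw [Matrix.mulVec_mulVec]
          exact col_zero fun r => e.e2 r c hc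
        rw [h6, map_zero, add_zero] at h5
        exact h5
      · rw [kapW_hi_not hi (by omega) hc] at hk
        rw [fix_not e.sn' hc]
        have h5 := W_mid (P := P) (β := β) (β' := β') (ν := ν) (ν' := ν') (τ := τ) (k := k) hj
          (by omega) (by omega) (w := Pi.single c 1) (by
            intro c' hc'
            exfalso
            rw [kapW_mid hj (by omega) (by omega)] at hc'
            omega)
        have h6 : sU P (P.F + 2 + 2) (τ.mulVec (Pi.single c 1)) ∈ G P β β' ν ν' τ k := by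
          rw [← piv_res e.sb' (t := τ.mulVec (Pi.single c 1)) (by
            intro r hr
            rw [Matrix.mulVec_mulVec, Matrix.mulVec_single_one, Matrix.mulVec_single_one]
            exact e.e4 r c hr)]
          refine U_hi (by omega) (by omega) ?_
          intro r' hr'
          by_cases hp : P.Rhi.piv r'
          · rw [kapU_hi_piv _ (by omega) hp] at hr'
            omega
          · exact if_neg hp
        have h7 := Submodule.sub_mem _ h5 h6
        rw [add_sub_cancel_right] at h7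
        exact h7
    · rw [if_neg (by omega), if_neg (by omega), if_neg (by omega), Matrix.mulVec_zero, add_zero]
      refine W_hi hj (by omega) (single_zero ?_)
      by_cases hc : P.Chi.piv c
      · rw [kapW_hi_piv hi (by omega) hc] at hk
        rw [kapW_hi_piv hj (by omega) hc]
        omega
      · rw [kapW_hi_not hi (by omega) hc] at hk
        rw [kapW_hi_not hj (by omega) hc]
        omega

end Pd6ff58.J
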