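import Pool.Agent.Lib.Pd6J.ExpU
import Pool.Agent.Lib.Pd6J.ExpX

/-!
# Module Exp: the explicit flags are in the Springer cell

PROOF of `exp_mem`. `fl pos g k = map M (EJ k)` by `fl_mul`, `fl_perm`. Cell: `trn pos M` is upper triangular
(`exp_upper`) and invertible (`Mm_det`, `trn_det`), so `g = b * permGL w` with `b ∈ borel n`
(`pt_mem_schubertCell`). Springer fibre: `springer_of` with `exp_X`.
-/

open MvPolynomial

noncomputable section

namespace Pd6ff58.J

variable {R C : Type} [DecidableEq R] [DecidableEq C] [Fintype R] [Fintype C]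
  {P : Par R C} {n : ℕ} {pos tim : Ix P ≃ Fin n} {Φ : Set (Fin P.F)}

/-- the flags given by the data are in the Springer cell -/
theorem exp_mem (h : Good P Φ pos tim) {β β' : Matrix R R ℂ} {ν ν' : Matrix C C ℂ}
    {τ : Matrix R C ℂ} (e : Eqs P Φ β β' ν ν' τ) {g : GL (Fin n) ℂ}
    (hg : g.val = trn pos (Mm P β β' ν ν' τ) * (permGL (ww pos tim)).val) :
    g ∈ CS pos tim ∧
      ∀ k, fl pos g k = (EJ P k).map (Matrix.mulVecLin (Mm P β β' ν ν' τ)) := by
  have hfl : ∀ k, fl pos g k = (EJ P k).map (Matrix.mulVecLin (Mm P β β' ν ν' τ)) := by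
    intro k
    rw [fl_mul hg k, fl_perm h k]
  refine ⟨⟨?_, ?_⟩, hfl⟩
  · have hdet : (trn pos (Mm P β β' ν ν' τ)).det ≠ 0 := by
      rw [trn_det]
      exact Mm_det P τ e.sb e.sb' e.sn e.sn'
    refine ⟨Matrix.GeneralLinearGroup.mkOfDetNeZero (trn pos (Mm P β β' ν ν' τ)) hdet,
      exp_upper h e, ?_⟩
    have hgb : g = Matrix.GeneralLinearGroup.mkOfDetNeZero (trn pos (Mm P β β' ν ν' τ)) hdet *
        permGL (ww pos tim) := Units.ext hg
    rw [← hgb]
  · refine springer_of g fun k => ?_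
    rw [hfl, hfl]
    exact exp_X e k

end Pd6ff58.J
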