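import Pool.Agent.Lib.Pd6J.FlB

/-!
# Module FlC: the flags in the cell

PROOFS. `pt g ∈ schubertCell w` gives `g = b * permGL w * b'`, `b, b'` upper triangular
(`pt_mem_schubertCell`), so `flagOf g j` is spanned by the vectors `v_a = b e_{w a}`, `a < j`
(`flagOf_mul_borel`, `flagOf_mul`), `v_a` is supported on the positions `≤ w a` and is nonzero there.
LEADING TERMS: a nonzero combination of the `v_a`, `a < j`, has its last nonzero coordinate at a
position `w a`, `a < j` (the `w a` are distinct). In the coordinates `Ix P`: the last nonzero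
coordinate (in the order `pos`) of a nonzero `v ∈ fl pos g k` is some `x` with `kap P x ≤ k`.
`fl_vanish`: consequence. `fl_reduced`: by `fl_vanish` the restriction of `fl pos g k` to the
coordinates in `J_k` is injective, hence bijective (dimensions); let `v` restrict to the unit vector
of `x`; its last nonzero coordinate is in `J_k`, so it is `x`.
`fl_expand`: both sides agree on `J_k`; `fl_vanish`.
`fl_X` (KEY LEMMA): let `tt k ≤ a < tt (k+1)`, `q = w a`. `X v_a` is in `flagOf g (a+1)` (Springer) and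
is supported on the positions `< q` (`Xn pos` is strictly upper triangular: `pos (i, z) < pos (i+1, z)`
by `lev_lt`). Write `X v_a = ∑_{a' ≤ a} c_{a'} v_{a'}`: by the leading terms `c_{a'} = 0` whenever
`w a' ≥ q`; for `tt k ≤ a' ≤ a` the coordinates `tim.symm a'`, `tim.symm a` belong to the same moment,
so `w a' ≥ w a = q` by `tim_pos` (a larger position comes earlier). So `X v_a ∈ flagOf g (tt k)`.
For `a < tt k`: induction on `k` (`flagOf g (tt k)` is spanned by the `v_a`, `a < tt k`).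
-/

open MvPolynomial

noncomputable section

namespace Pd6ff58.J

variable {R C : Type} [DecidableEq R] [DecidableEq C] [Fintype R] [Fintype C]
  {P : Par R C} {n : ℕ} {pos tim : Ix P ≃ Fin n} {Φ : Set (Fin P.F)}

namespace FlCAux

omit [DecidableEq R] [DecidableEq C] [Fintype R] [Fintype C] in
theorem ww_apply (pos tim : Ix P ≃ Fin n) (a : Fin n) : ww pos tim a = pos (tim.symm a) := rfl

/-- the first columns of `b * w` -/
theorem cell_data {w : Equiv.Perm (Fin n)} {g : GL (Fin n) ℂ} (hg : pt g ∈ schubertCell w) :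
    ∃ A : Matrix (Fin n) (Fin n) ℂ, (∀ j, flagOf g j = (stdFlag n j).map (Matrix.mulVecLin A)) ∧
      (∀ a i, w a < i → A i a = 0) ∧ ∀ a, A (w a) a ≠ 0 := by
  obtain ⟨b, hb, b', hb', rfl⟩ := pt_mem_schubertCell.1 hg
  have he : ∀ i a, (b * permGL w).val i a = b.val i (w a) := by
    intro i a
    change (b.val * (permGL w).val) i a = _
    rw [Matrix.mul_apply]
    change ∑ k, b.val i k * (if k = w a then 1 else 0) = _
    simp
  refine ⟨(b * permGL w).val, ?_, ?_, ?_⟩
  · intro j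
    rw [flagOf_mul_borel _ hb']
    rfl
  · intro a i hi
    rw [he]
    exact hb hi
  · intro a
    rw [he]
    have hd : b.val.det ≠ 0 := by
      have h1 : IsUnit b.val := b.isUnit
      exact ((Matrix.isUnit_iff_isUnit_det _).1 h1).ne_zero
    have hb2 : b.val.BlockTriangular id := hb
    rw [Matrix.det_of_isUpperTriangular hb2] at hd
    exact (Finset.prod_ne_zero_iff.1 hd) (w a) (Finset.mem_univ _)

theorem lead_aux {w : Equiv.Perm (Fin n)} {A : Matrix (Fin n) (Fin n) ℂ}
    (h1 : ∀ a i, w a < i → A i a = 0) (h2 : ∀ a, A (w a) a ≠ 0) {x : Fin n → ℂ} {a0 : Fin n}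
    (hx : x a0 ≠ 0) :
    ∃ a, x a ≠ 0 ∧ w a0 ≤ w a ∧ A.mulVec x (w a) ≠ 0 ∧ ∀ i, w a < i → A.mulVec x i = 0 := by
  classical
  obtain ⟨a, ha, hmax⟩ := Finset.exists_max_image (Finset.univ.filter fun a => x a ≠ 0) w
    ⟨a0, by simpa using hx⟩
  have ha' : x a ≠ 0 := by simpa using ha
  have hm : ∀ c, x c ≠ 0 → w c ≤ w a := fun c hc => hmax c (by simpa using hc)
  refine ⟨a, ha', hm a0 hx, ?_, ?_⟩
  · have h3 : A.mulVec x (w a) = A (w a) a * x a := by
      rw [Matrix.mulVec, dotProduct]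
      refine Finset.sum_eq_single a ?_ ?_
      · intro c _ hc
        by_cases hxc : x c = 0
        · rw [hxc, mul_zero]
        · have h4 : w c < w a := lt_of_le_of_ne (hm c hxc) (fun h => hc (w.injective h))
          rw [h1 c _ h4, zero_mul]
      · intro h
        exact absurd (Finset.mem_univ a) h
    rw [h3]
    exact mul_ne_zero (h2 a) ha'
  · intro i hi
    rw [Matrix.mulVec, dotProduct]
    refine Finset.sum_eq_zero fun c _ => ?_
    by_cases hxc : x c = 0
    · rw [hxc, mul_zero]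
    · rw [h1 c i (lt_of_le_of_lt (hm c hxc) hi), zero_mul]

theorem lead {w : Equiv.Perm (Fin n)} {g : GL (Fin n) ℂ} (hg : pt g ∈ schubertCell w) {j : ℕ}
    {v : Fin n → ℂ} (hv : v ∈ flagOf g j) (hne : v ≠ 0) :
    ∃ a : Fin n, (a : ℕ) < j ∧ v (w a) ≠ 0 ∧ ∀ i, w a < i → v i = 0 := by
  obtain ⟨A, hA, h1, h2⟩ := cell_data hg
  rw [hA j] at hv
  obtain ⟨x, hx, rfl⟩ := hv
  have h0 : ∃ a0, x a0 ≠ 0 := by
    by_contra hno
    push Not at hno
    apply hne
    have h00 : x = 0 := funext hno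
    rw [h00, map_zero]
  obtain ⟨a0, ha0⟩ := h0
  obtain ⟨a, ha, -, h3, h4⟩ := lead_aux h1 h2 ha0
  refine ⟨a, ?_, h3, h4⟩
  by_contra hj
  exact ha (hx a (not_lt.1 hj))

/-- the last nonzero coordinate of a vector of the flag -/
theorem lead_fl (h : Good P Φ pos tim) {g : GL (Fin n) ℂ}
    (hg : pt g ∈ schubertCell (ww pos tim)) {k : ℕ} {v : Ix P → ℂ} (hv : v ∈ fl pos g k)
    (hne : v ≠ 0) : ∃ z, kap P z ≤ k ∧ v z ≠ 0 ∧ ∀ y, pos z < pos y → v y = 0 := by
  have hne' : (fun a => v (pos.symm a)) ≠ 0 := by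
    intro h0
    apply hne
    funext x
    have := congrFun h0 (pos x)
    simpa using this
  obtain ⟨a, ha, h1, h2⟩ := lead hg (mem_fl.1 hv) hne'
  refine ⟨tim.symm a, ?_, ?_, ?_⟩
  · rw [← tim_lt h, Equiv.apply_symm_apply]
    exact ha
  · rw [ww_apply] at h1
    simpa using h1
  · intro y hy
    have h3 := h2 (pos y) hy
    simpa using h3

theorem vanish (h : Good P Φ pos tim) {g : GL (Fin n) ℂ}
    (hg : pt g ∈ schubertCell (ww pos tim)) {k : ℕ} {v : Ix P → ℂ} (hv : v ∈ fl pos g k)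
    (h0 : ∀ x, kap P x ≤ k → v x = 0) : v = 0 := by
  by_contra hne
  obtain ⟨z, hz, hvz, -⟩ := lead_fl h hg hv hne
  exact hvz (h0 z hz)

/-- the coordinates in `J_k` are arbitrary -/
theorem exists_fl (h : Good P Φ pos tim) {g : GL (Fin n) ℂ}
    (hg : pt g ∈ schubertCell (ww pos tim)) (k : ℕ) (f : Ix P → ℂ) :
    ∃ v ∈ fl pos g k, ∀ x, kap P x ≤ k → v x = f x := by
  classical
  let ρ : fl pos g k →ₗ[ℂ] ({x : Ix P // kap P x ≤ k} → ℂ) :=
    (LinearMap.funLeft ℂ ℂ (Subtype.val : {x : Ix P // kap P x ≤ k} → Ix P)).comp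
      (Submodule.subtype _)
  have hinj : Function.Injective ρ := by
    rw [← LinearMap.ker_eq_bot, LinearMap.ker_eq_bot']
    intro v hv
    apply Subtype.ext
    exact vanish h hg v.2 (fun x hx => congrFun hv ⟨x, hx⟩)
  have hsurj : Function.Surjective ρ := by
    refine (LinearMap.injective_iff_surjective_of_finrank_eq_finrank ?_).1 hinj
    rw [finrank_fl, Module.finrank_fintype_fun_eq_card, tt, Nat.card_eq_fintype_card]
  obtain ⟨v, hv⟩ := hsurj (fun x => f x.1)
  exact ⟨v.1, v.2, fun x hx => congrFun hv ⟨x, hx⟩⟩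

omit [Fintype R] [Fintype C] in
/-- the nilpotent matrix is strictly upper triangular -/
theorem Xn_upper (h : Good P Φ pos tim) {i j : Fin n} (hij : j ≤ i) : Xn pos i j = 0 := by
  unfold Xn trn
  rw [Matrix.submatrix_apply]
  unfold Xm
  rw [Matrix.of_apply]
  refine if_neg ?_
  rintro ⟨h1, h2⟩
  have hlev : lev P (pos.symm i) < lev P (pos.symm j) := by
    rcases hx : pos.symm i with ⟨i1, r | c⟩ <;> rcases hy : pos.symm j with ⟨j1, r' | c'⟩ <;>
      rw [hx, hy] at h1 h2 <;> simp only [lev, reduceCtorEq] at h1 h2 ⊢ <;> omega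
  have h3 := h.lev_lt _ _ hlev
  rw [Equiv.apply_symm_apply, Equiv.apply_symm_apply] at h3
  exact absurd h3 (not_lt.2 hij)

/-- the key lemma, for one column -/
theorem key (h : Good P Φ pos tim) {g : GL (Fin n) ℂ} (hg : g ∈ CS pos tim)
    {A : Matrix (Fin n) (Fin n) ℂ}
    (hA : ∀ j, flagOf g j = (stdFlag n j).map (Matrix.mulVecLin A))
    (h1 : ∀ a i, ww pos tim a < i → A i a = 0) (h2 : ∀ a, A (ww pos tim a) a ≠ 0) (k : ℕ)
    {a : Fin n} (ha : (a : ℕ) < tt P (k + 1)) :
    (Xn pos).mulVec (A.mulVec (Pi.single a 1)) ∈ flagOf g (tt P k) := by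
  obtain ⟨k', hk'⟩ : ∃ k', kap P (tim.symm a) = k' + 1 :=
    ⟨kap P (tim.symm a) - 1, by have := (kap_le P (tim.symm a)).1; omega⟩
  have hk'k : k' ≤ k := by
    have h3 : kap P (tim.symm a) ≤ k + 1 := by
      rw [← tim_lt h, Equiv.apply_symm_apply]
      exact ha
    omega
  refine flagOf_mono g (tt_mono P hk'k) ?_
  -- `X v_a` is in the flag
  have h4 : A.mulVec (Pi.single a 1) ∈ flagOf g ((a : ℕ) + 1) := by
    rw [hA]
    exact ⟨_, FLAux.single_mem a (Nat.lt_succ_self _), rfl⟩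
  have h5 : (Xn pos).mulVec (A.mulVec (Pi.single a 1)) ∈ flagOf g ((a : ℕ) + 1) :=
    pt_mem_springerFiber_iff_flag.1 hg.2 _ ⟨_, h4, rfl⟩
  -- its support
  have h6 : ∀ i, ww pos tim a ≤ i → (Xn pos).mulVec (A.mulVec (Pi.single a 1)) i = 0 := by
    intro i hi
    rw [Matrix.mulVec, dotProduct]
    refine Finset.sum_eq_zero fun j _ => ?_
    by_cases hj : j ≤ i
    · rw [Xn_upper h hj, zero_mul]
    · rw [Matrix.mulVec_single_one, Matrix.col_apply, h1 a j (lt_of_le_of_lt hi (not_le.1 hj)),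
        mul_zero]
  rw [hA] at h5
  obtain ⟨x, hx, hxe⟩ := h5
  rw [Matrix.mulVecLin_apply] at hxe
  rw [hA, ← hxe]
  refine ⟨x, ?_, rfl⟩
  intro a' ha'
  by_contra hne
  -- `a'` is at most `a`
  have h7 : (a' : ℕ) ≤ a := by
    by_contra h8
    exact hne (hx a' (by omega))
  -- the leading term
  obtain ⟨a2, -, h9, h10, -⟩ := lead_aux h1 h2 hne
  rw [hxe] at h10
  have h11 : ww pos tim a2 < ww pos tim a := by
    by_contra h12
    exact h10 (h6 _ (not_lt.1 h12))
  have h12 : ww pos tim a' < ww pos tim a := lt_of_le_of_lt h9 h11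
  rw [ww_apply, ww_apply] at h12
  -- the moments
  have h13 : k' < kap P (tim.symm a') := by
    by_contra h14
    have := (tim_lt h (tim.symm a') k').2 (not_lt.1 h14)
    rw [Equiv.apply_symm_apply] at this
    omega
  have h15 : kap P (tim.symm a') ≤ kap P (tim.symm a) := by
    by_contra h16
    have := h.tim_kap _ _ (not_le.1 h16)
    rw [Equiv.apply_symm_apply, Equiv.apply_symm_apply] at this
    have h17 : (a : ℕ) < a' := this
    omega
  have h18 := h.tim_pos (tim.symm a) (tim.symm a') (by omega) h12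
  rw [Equiv.apply_symm_apply, Equiv.apply_symm_apply] at h18
  have h19 : (a : ℕ) < a' := h18
  omega

end FlCAux

open FlCAux

theorem fl_vanish (h : Good P Φ pos tim) {g : GL (Fin n) ℂ}
    (hg : pt g ∈ schubertCell (ww pos tim)) {k : ℕ} {v : Ix P → ℂ} (hv : v ∈ fl pos g k)
    (h0 : ∀ x, kap P x ≤ k → v x = 0) : v = 0 := by
  exact vanish h hg hv h0

theorem fl_reduced (h : Good P Φ pos tim) {g : GL (Fin n) ℂ}
    (hg : pt g ∈ schubertCell (ww pos tim)) {k : ℕ} {x : Ix P} (hx : kap P x ≤ k) :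
    ∃ v ∈ fl pos g k, v x = 1 ∧ (∀ y, kap P y ≤ k → y ≠ x → v y = 0) ∧
      ∀ y, pos x < pos y → v y = 0 := by
  classical
  obtain ⟨v, hv, hv1⟩ := exists_fl h hg k (Pi.single x 1)
  have hvx : v x = 1 := by rw [hv1 x hx, Pi.single_eq_same]
  have hv0 : ∀ y, kap P y ≤ k → y ≠ x → v y = 0 := by
    intro y hy hne
    rw [hv1 y hy, Pi.single_eq_of_ne hne]
  refine ⟨v, hv, hvx, hv0, ?_⟩
  have hne : v ≠ 0 := by
    rintro rfl
    exact zero_ne_one hvx
  obtain ⟨z, hz, hvz, hlast⟩ := lead_fl h hg hv hne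
  have hzx : z = x := by
    by_contra hzx
    exact hvz (hv0 z hz hzx)
  rw [hzx] at hlast
  exact hlast

/-- a vector of `fl pos g k` is determined by its coordinates in `J_k` -/
theorem fl_ext (h : Good P Φ pos tim) {g : GL (Fin n) ℂ}
    (hg : pt g ∈ schubertCell (ww pos tim)) {k : ℕ} {v w : Ix P → ℂ} (hv : v ∈ fl pos g k)
    (hw : w ∈ fl pos g k) (h0 : ∀ x, kap P x ≤ k → v x = w x) : v = w := by
  have h1 : v - w = 0 := by
    refine vanish h hg (sub_mem hv hw) fun x hx => ?_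
    rw [Pi.sub_apply, h0 x hx, sub_self]
  exact sub_eq_zero.1 h1

/-- initial segments which are contained in `J_k` -/
theorem fl_initial (h : Good P Φ pos tim) {g : GL (Fin n) ℂ}
    (hg : pt g ∈ schubertCell (ww pos tim)) {k : ℕ} {x : Ix P}
    (hx : ∀ y, pos y ≤ pos x → kap P y ≤ k) {v : Ix P → ℂ} (hv : ∀ y, pos x < pos y → v y = 0) :
    v ∈ fl pos g k := by
  obtain ⟨u, hu, hu1⟩ := exists_fl h hg k v
  have h1 : ∀ y, pos x < pos y → u y = 0 := by
    by_cases hne : u = 0
    · intro y _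
      rw [hne]
      rfl
    · obtain ⟨z, hz, huz, hlast⟩ := lead_fl h hg hu hne
      have hzx : pos z ≤ pos x := by
        by_contra hzx
        rw [hu1 z hz] at huz
        exact huz (hv z (not_le.1 hzx))
      intro y hy
      exact hlast y (lt_of_le_of_lt hzx hy)
  have h2 : u = v := by
    funext y
    by_cases hy : pos x < pos y
    · rw [h1 y hy, hv y hy]
    · exact hu1 y (hx y (not_lt.1 hy))
  rw [← h2]
  exact hu

theorem fl_X (h : Good P Φ pos tim) {g : GL (Fin n) ℂ} (hg : g ∈ CS pos tim) (k : ℕ)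
    {v : Ix P → ℂ} (hv : v ∈ fl pos g (k + 1)) : (Xm P).mulVec v ∈ fl pos g k := by
  classical
  obtain ⟨A, hA, h1, h2⟩ := cell_data hg.1
  rw [mem_fl, ← trn_mulVec]
  rw [mem_fl, hA] at hv
  obtain ⟨x, hx, hxe⟩ := hv
  rw [← hxe, Matrix.mulVecLin_apply]
  have h3 : A.mulVec x = ∑ a, x a • A.mulVec (Pi.single a 1) := by
    conv_lhs => rw [pi_eq_sum_univ' x]
    rw [Matrix.mulVec_sum]
    refine Finset.sum_congr rfl fun a _ => ?_
    rw [Matrix.mulVec_smul]
  rw [h3, Matrix.mulVec_sum]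
  refine Submodule.sum_mem _ fun a _ => ?_
  rw [Matrix.mulVec_smul]
  by_cases ha : (a : ℕ) < tt P (k + 1)
  · exact Submodule.smul_mem _ _ (key h hg hA h1 h2 k ha)
  · rw [hx a (not_lt.1 ha), zero_smul]
    exact Submodule.zero_mem _

end Pd6ff58.J
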