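import Pool.Agent.Lib.Pd6J.CrdA
import Pool.Agent.Lib.Pd6J.Exp
import Pool.Agent.Lib.Pd6J.FlC

/-!
# Module CrdB (`crd_Mm`): the data as quotients of minors

`mu k` is the minor with the rows `J_k` (in the time order), `mx k x y` the same with the row of `x`
replaced by the one of `y`. PROOFS. `(tim x : ℕ) < tt k ↔ kap x ≤ k` (`tim_lt`), `ww a = pos (tim.symm a)`,
so the rows of `mw (ww pos tim) (tt k)` are the `pos x`, `kap x ≤ k`. `crd_ne`, `crd_eq`, `crd_inj` are
`mnr_ne_zero`, `mnr_coord`, `mnr_inj` (transport by `mem_fl`; `H` gives the family of reduced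
vectors).
`crd_Mm`: the hypothesis `H` of `crd_ne` holds: take the explicit `g'` of `exp_mem` (invertible
by `Mm_det`); it has the same `fl`, and it is in the cell; use `fl_reduced`. The reduced vectors (check that
they are in `map M (EJ k)` and their coordinates in `J_k`):
`k = 1`, `x = (0, inl r)`, `r` a pivot of `Rlo`: `U_0 ((1+β) e_r) = M (U_0 e_r)`;
`k = 2`, `x = (0, inr c)`, `c` a pivot of `Clo`: `W_0 ((1+ν) e_c) = M (W_0 e_c)`;
`k = F+7`, `x = (F+5, inl r)`, `r` a pivot of `Rhi`: `U_{F+5} ((1+β') e_r)`;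
`k = F+8`, `x = (F+5, inr c)`, `c` a pivot of `Chi`: `W_{F+5} ((1+ν') e_c)`;
`k = 4`, `x = (1, inr c)`: `W_1 e_c + U_3 τ_c = M (W_1 ((1-ν) e_c))` (`(1+ν)(1-ν) = 1`).
-/

open MvPolynomial

noncomputable section

namespace Pd6ff58.J

variable {R C : Type} [DecidableEq R] [DecidableEq C] [Fintype R] [Fintype C]
  {P : Par R C} {n : ℕ} {pos tim : Ix P ≃ Fin n} {Φ : Set (Fin P.F)}

namespace CrdBAux

omit [DecidableEq R] [DecidableEq C] [Fintype R] [Fintype C] in
theorem kapU_lo (P : Par R C) (i : Fin (P.F + 6)) (r : R) (hi : (i : ℕ) ≤ 2)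
    (hr : P.Rlo.piv r) : kap P (i, Sum.inl r) = (i : ℕ) + 1 := by
  simp only [kap, if_pos hi, if_pos hr]

omit [DecidableEq R] [DecidableEq C] [Fintype R] [Fintype C] in
theorem kapU_lo' (P : Par R C) (i : Fin (P.F + 6)) (r : R) (hi : (i : ℕ) ≤ 2)
    (hr : ¬ P.Rlo.piv r) : kap P (i, Sum.inl r) = (i : ℕ) + 2 := by
  simp only [kap, if_pos hi, if_neg hr]

omit [DecidableEq R] [DecidableEq C] [Fintype R] [Fintype C] in
theorem kapU_mid (P : Par R C) (i : Fin (P.F + 6)) (r : R) (hi : ¬ (i : ℕ) ≤ 2)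
    (hi' : (i : ℕ) ≤ P.F + 3) : kap P (i, Sum.inl r) = (i : ℕ) + 2 := by
  simp only [kap, if_neg hi, if_pos hi']

omit [DecidableEq R] [DecidableEq C] [Fintype R] [Fintype C] in
theorem kapU_hi (P : Par R C) (i : Fin (P.F + 6)) (r : R) (hi : ¬ (i : ℕ) ≤ P.F + 3)
    (hr : P.Rhi.piv r) : kap P (i, Sum.inl r) = (i : ℕ) + 2 := by
  have h2 : ¬ (i : ℕ) ≤ 2 := by omega
  simp only [kap, if_neg h2, if_neg hi, if_pos hr]

omit [DecidableEq R] [DecidableEq C] [Fintype R] [Fintype C] in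
theorem kapU_hi' (P : Par R C) (i : Fin (P.F + 6)) (r : R) (hi : ¬ (i : ℕ) ≤ P.F + 3)
    (hr : ¬ P.Rhi.piv r) : kap P (i, Sum.inl r) = (i : ℕ) + 3 := by
  have h2 : ¬ (i : ℕ) ≤ 2 := by omega
  simp only [kap, if_neg h2, if_neg hi, if_neg hr]

omit [DecidableEq R] [DecidableEq C] [Fintype R] [Fintype C] in
theorem kapW_lo (P : Par R C) (i : Fin (P.F + 6)) (c : C) (hi : (i : ℕ) ≤ 1)
    (hc : P.Clo.piv c) : kap P (i, Sum.inr c) = (i : ℕ) + 2 := by
  simp only [kap, if_pos hi, if_pos hc]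

omit [DecidableEq R] [DecidableEq C] [Fintype R] [Fintype C] in
theorem kapW_lo' (P : Par R C) (i : Fin (P.F + 6)) (c : C) (hi : (i : ℕ) ≤ 1)
    (hc : ¬ P.Clo.piv c) : kap P (i, Sum.inr c) = (i : ℕ) + 3 := by
  simp only [kap, if_pos hi, if_neg hc]

omit [DecidableEq R] [DecidableEq C] [Fintype R] [Fintype C] in
theorem kapW_mid (P : Par R C) (i : Fin (P.F + 6)) (c : C) (hi : ¬ (i : ℕ) ≤ 1)
    (hi' : (i : ℕ) ≤ P.F + 2) : kap P (i, Sum.inr c) = (i : ℕ) + 3 := by
  simp only [kap, if_neg hi, if_pos hi']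

omit [DecidableEq R] [DecidableEq C] [Fintype R] [Fintype C] in
theorem kapW_hi (P : Par R C) (i : Fin (P.F + 6)) (c : C) (hi : ¬ (i : ℕ) ≤ P.F + 2)
    (hc : P.Chi.piv c) : kap P (i, Sum.inr c) = (i : ℕ) + 3 := by
  have h2 : ¬ (i : ℕ) ≤ 1 := by omega
  simp only [kap, if_neg h2, if_neg hi, if_pos hc]

omit [DecidableEq R] [DecidableEq C] [Fintype R] [Fintype C] in
theorem kapW_hi' (P : Par R C) (i : Fin (P.F + 6)) (c : C) (hi : ¬ (i : ℕ) ≤ P.F + 2)
    (hc : ¬ P.Chi.piv c) : kap P (i, Sum.inr c) = (i : ℕ) + 4 := by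
  have h2 : ¬ (i : ℕ) ≤ 1 := by omega
  simp only [kap, if_neg h2, if_neg hi, if_neg hc]

theorem one_add_diag {T : Type} [DecidableEq T] {S : Blk T} {A : Matrix T T ℂ} (hA : Supp S A)
    {y : T} (_hy : S.piv y) (x : T) (hx : S.piv x) : (1 + A) x y = if x = y then 1 else 0 := by
  have h0 : A x y = 0 := by
    by_contra hne
    exact (hA x y hne).1 hx
  rw [Matrix.add_apply, h0, add_zero, Matrix.one_apply]

theorem sU_in (P : Par R C) {i : ℕ} (hi : i < P.F + 6) {k : ℕ} {r : R}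
    (hk : kap P (⟨i, hi⟩, Sum.inl r) ≤ k) : sU P i (Pi.single r 1) ∈ EJ P k := by
  rw [sU_mem_EJ P hi]
  intro r' hr'
  have hne : r' ≠ r := by
    rintro rfl
    omega
  simp [hne]

theorem sW_in (P : Par R C) {i : ℕ} (hi : i < P.F + 6) {k : ℕ} {c : C}
    (hk : kap P (⟨i, hi⟩, Sum.inr c) ≤ k) : sW P i (Pi.single c 1) ∈ EJ P k := by
  rw [sW_mem_EJ P hi]
  intro c' hc'
  have hne : c' ≠ c := by
    rintro rfl
    omega
  simp [hne]

theorem colU (h : Good P Φ pos tim) {g : GL (Fin n) ℂ} {k i : ℕ}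
    (H : ∀ x, kap P x ≤ k → ∃ v ∈ fl pos g k, v x = 1 ∧ ∀ y, kap P y ≤ k → y ≠ x → v y = 0)
    {S : Blk R} {A : Matrix R R ℂ} (hA : Supp S A)
    (hk : ∀ (j : Fin (P.F + 6)) r', (j : ℕ) = i → (kap P (j, Sum.inl r') ≤ k ↔ S.piv r'))
    {r : R} (hr : S.piv r) (hv : sU P i ((1 + A).mulVec (Pi.single r 1)) ∈ fl pos g k)
    (j : Fin (P.F + 6)) (hj : (j : ℕ) = i) (r' : R) :
    evalAt g (mx pos tim k (j, Sum.inl r) (j, Sum.inl r')) =
      (1 + A) r' r * evalAt g (mu pos tim k) := by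
  have hx : kap P (j, Sum.inl r) ≤ k := (hk j r hj).2 hr
  have h1 : ∀ r', sU P i ((1 + A).mulVec (Pi.single r 1)) (j, Sum.inl r') = (1 + A) r' r := by
    intro r'
    rw [sU_apply, if_pos hj, Sum.elim_inl, Matrix.mulVec_single_one, Matrix.col_apply]
  have h2 := crd_eq h g k H hx hv
    (by rw [h1, one_add_diag hA hr r hr, if_pos rfl])
    (by
      rintro ⟨j', r2 | c2⟩ hy hne
      · by_cases hj' : (j' : ℕ) = i
        · have hjj : j' = j := Fin.ext (by rw [hj', hj])
          subst hjj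
          rw [h1, one_add_diag hA hr r2 ((hk j' r2 hj').1 hy), if_neg]
          rintro rfl
          exact hne rfl
        · rw [sU_apply, if_neg hj']
      · rw [sU_apply]
        simp)
    (j, Sum.inl r')
  rw [h2, h1]

theorem colW (h : Good P Φ pos tim) {g : GL (Fin n) ℂ} {k i : ℕ}
    (H : ∀ x, kap P x ≤ k → ∃ v ∈ fl pos g k, v x = 1 ∧ ∀ y, kap P y ≤ k → y ≠ x → v y = 0)
    {S : Blk C} {A : Matrix C C ℂ} (hA : Supp S A)
    (hk : ∀ (j : Fin (P.F + 6)) c', (j : ℕ) = i → (kap P (j, Sum.inr c') ≤ k ↔ S.piv c'))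
    {c : C} (hc : S.piv c) (hv : sW P i ((1 + A).mulVec (Pi.single c 1)) ∈ fl pos g k)
    (j : Fin (P.F + 6)) (hj : (j : ℕ) = i) (c' : C) :
    evalAt g (mx pos tim k (j, Sum.inr c) (j, Sum.inr c')) =
      (1 + A) c' c * evalAt g (mu pos tim k) := by
  have hx : kap P (j, Sum.inr c) ≤ k := (hk j c hj).2 hc
  have h1 : ∀ c', sW P i ((1 + A).mulVec (Pi.single c 1)) (j, Sum.inr c') = (1 + A) c' c := by
    intro c'
    rw [sW_apply, if_pos hj, Sum.elim_inr, Matrix.mulVec_single_one, Matrix.col_apply]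
  have h2 := crd_eq h g k H hx hv
    (by rw [h1, one_add_diag hA hc c hc, if_pos rfl])
    (by
      rintro ⟨j', r2 | c2⟩ hy hne
      · rw [sW_apply]
        simp
      · by_cases hj' : (j' : ℕ) = i
        · have hjj : j' = j := Fin.ext (by rw [hj', hj])
          subst hjj
          rw [h1, one_add_diag hA hc c2 ((hk j' c2 hj').1 hy), if_neg]
          rintro rfl
          exact hne rfl
        · rw [sW_apply, if_neg hj'])
    (j, Sum.inr c')
  rw [h2, h1]

end CrdBAux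

open CrdBAux

theorem crd_Mm (h : Good P Φ pos tim) {β β' : Matrix R R ℂ} {ν ν' : Matrix C C ℂ}
    {τ : Matrix R C ℂ} (e : Eqs P Φ β β' ν ν' τ) {g : GL (Fin n) ℂ}
    (hg : ∀ k, fl pos g k = (EJ P k).map (Matrix.mulVecLin (Mm P β β' ν ν' τ))) :
    (∀ k, evalAt g (mu pos tim k) ≠ 0) ∧
    (∀ (i : Fin (P.F + 6)) r r', (i : ℕ) = 0 → P.Rlo.piv r →
      evalAt g (mx pos tim 1 (i, Sum.inl r) (i, Sum.inl r')) =
        (1 + β) r' r * evalAt g (mu pos tim 1)) ∧
    (∀ (i : Fin (P.F + 6)) c c', (i : ℕ) = 0 → P.Clo.piv c →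
      evalAt g (mx pos tim 2 (i, Sum.inr c) (i, Sum.inr c')) =
        (1 + ν) c' c * evalAt g (mu pos tim 2)) ∧
    (∀ (i : Fin (P.F + 6)) r r', (i : ℕ) = P.F + 5 → P.Rhi.piv r →
      evalAt g (mx pos tim (P.F + 7) (i, Sum.inl r) (i, Sum.inl r')) =
        (1 + β') r' r * evalAt g (mu pos tim (P.F + 7))) ∧
    (∀ (i : Fin (P.F + 6)) c c', (i : ℕ) = P.F + 5 → P.Chi.piv c →
      evalAt g (mx pos tim (P.F + 8) (i, Sum.inr c) (i, Sum.inr c')) =
        (1 + ν') c' c * evalAt g (mu pos tim (P.F + 8))) ∧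
    (∀ (i j : Fin (P.F + 6)) r c, (i : ℕ) = 3 → (j : ℕ) = 1 →
      evalAt g (mx pos tim 4 (j, Sum.inr c) (i, Sum.inl r)) =
        τ r c * evalAt g (mu pos tim 4)) := by
  -- the explicit flag
  have hdet : (trn pos (Mm P β β' ν ν' τ)).det ≠ 0 := by
    rw [trn_det]
    exact Mm_det P τ e.sb e.sb' e.sn e.sn'
  obtain ⟨hcs, hfl⟩ := exp_mem h e
    (g := Matrix.GeneralLinearGroup.mkOfDetNeZero (trn pos (Mm P β β' ν ν' τ)) hdet *
      permGL (ww pos tim)) rfl
  have H : ∀ k x, kap P x ≤ k →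
      ∃ v ∈ fl pos g k, v x = 1 ∧ ∀ y, kap P y ≤ k → y ≠ x → v y = 0 := by
    intro k x hx
    obtain ⟨v, hv, h1, h2, -⟩ := fl_reduced h hcs.1 hx
    refine ⟨v, ?_, h1, h2⟩
    rw [hg k, ← hfl k]
    exact hv
  have hU : ∀ (i k : ℕ) (hi : i < P.F + 6) (r : R), kap P (⟨i, hi⟩, Sum.inl r) ≤ k →
      sU P i ((if i ≤ 2 then 1 + β else if i ≤ P.F + 3 then 1 else 1 + β').mulVec
        (Pi.single r 1)) ∈ fl pos g k := by
    intro i k hi r hk
    rw [hg k, ← Mm_sU P β β' ν ν' τ]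
    exact ⟨_, sU_in P hi hk, rfl⟩
  have hW : ∀ (i k : ℕ) (hi : i < P.F + 6) (c : C), kap P (⟨i, hi⟩, Sum.inr c) ≤ k →
      ¬ (1 ≤ i ∧ i ≤ P.F + 2) →
      sW P i ((if i ≤ 1 then 1 + ν else if i ≤ P.F + 2 then 1 else 1 + ν').mulVec
        (Pi.single c 1)) ∈ fl pos g k := by
    intro i k hi c hk hn
    have h1 := Mm_sW P β β' ν ν' τ i (Pi.single c 1)
    rw [if_neg hn, add_zero] at h1
    rw [hg k, ← h1]
    exact ⟨_, sW_in P hi hk, rfl⟩
  refine ⟨fun k => crd_ne h g k (H k), ?_, ?_, ?_, ?_, ?_⟩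
  · intro i r r' hi hr
    refine colU h (H 1) e.sb ?_ hr ?_ i hi r'
    · intro j r2 hj
      constructor
      · intro hle
        by_contra hn
        rw [kapU_lo' P j r2 (by omega) hn] at hle
        omega
      · intro hp
        rw [kapU_lo P j r2 (by omega) hp]
        omega
    · have h1 := hU 0 1 (by omega) r
        (by rw [kapU_lo P ⟨0, by omega⟩ r (Nat.zero_le _) hr])
      rw [if_pos (by omega)] at h1
      exact h1
  · intro i c c' hi hc
    refine colW h (H 2) e.sn ?_ hc ?_ i hi c'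
    · intro j c2 hj
      constructor
      · intro hle
        by_contra hn
        rw [kapW_lo' P j c2 (by omega) hn] at hle
        omega
      · intro hp
        rw [kapW_lo P j c2 (by omega) hp]
        omega
    · have h1 := hW 0 2 (by omega) c
        (by rw [kapW_lo P ⟨0, by omega⟩ c (Nat.zero_le _) hc]) (by omega)
      rw [if_pos (by omega)] at h1
      exact h1
  · intro i r r' hi hr
    refine colU h (H (P.F + 7)) e.sb' ?_ hr ?_ i hi r'
    · intro j r2 hj
      constructor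
      · intro hle
        by_contra hn
        rw [kapU_hi' P j r2 (by omega) hn] at hle
        omega
      · intro hp
        rw [kapU_hi P j r2 (by omega) hp]
        omega
    · have h1 := hU (P.F + 5) (P.F + 7) (by omega) r
        (by rw [kapU_hi P ⟨P.F + 5, by omega⟩ r (by simp) hr])
      rw [if_neg (by omega), if_neg (by omega)] at h1
      exact h1
  · intro i c c' hi hc
    refine colW h (H (P.F + 8)) e.sn' ?_ hc ?_ i hi c'
    · intro j c2 hj
      constructor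
      · intro hle
        by_contra hn
        rw [kapW_hi' P j c2 (by omega) hn] at hle
        omega
      · intro hp
        rw [kapW_hi P j c2 (by omega) hp]
        omega
    · have h1 := hW (P.F + 5) (P.F + 8) (by omega) c
        (by rw [kapW_hi P ⟨P.F + 5, by omega⟩ c (by simp) hc]) (by omega)
      rw [if_neg (by omega), if_neg (by omega)] at h1
      exact h1
  · intro i j r c hi hj
    have hkx : kap P (j, Sum.inr c) ≤ 4 := by
      by_cases hc : P.Clo.piv c
      · rw [kapW_lo P j c (by omega) hc]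
        omega
      · rw [kapW_lo' P j c (by omega) hc]
        omega
    have hinv : (1 + ν).mulVec ((1 - ν).mulVec (Pi.single c 1)) = (Pi.single c 1 : C → ℂ) := by
      rw [Matrix.mulVec_mulVec]
      have h1 : (1 + ν) * (1 - ν) = (1 : Matrix C C ℂ) := by
        have h2 := e.sn.sq
        have h3 : (1 + ν) * (1 - ν) = 1 - ν * ν := by noncomm_ring
        rw [h3, h2, sub_zero]
      rw [h1, Matrix.one_mulVec]
    have hv : sW P 1 (Pi.single c 1) + sU P 3 (τ.mulVec (Pi.single c 1)) ∈ fl pos g 4 := by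
      have h1 := Mm_sW P β β' ν ν' τ 1 ((1 - ν).mulVec (Pi.single c 1))
      rw [if_pos (le_refl 1), if_pos (by omega), if_pos (le_refl 1), hinv] at h1
      rw [hg 4, ← h1]
      refine ⟨_, ?_, rfl⟩
      refine (sW_mem_EJ P (by omega : 1 < P.F + 6) _).2 ?_
      intro c' hc'
      exfalso
      by_cases hc : P.Clo.piv c'
      · rw [kapW_lo P ⟨1, by omega⟩ c' (le_refl 1) hc] at hc'
        simp at hc'
      · rw [kapW_lo' P ⟨1, by omega⟩ c' (le_refl 1) hc] at hc'
        simp at hc'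
    have h2 := crd_eq h g 4 (H 4) hkx hv
      (by
        rw [Pi.add_apply, sW_apply, sU_apply, if_pos hj]
        simp)
      (by
        rintro ⟨j', r2 | c2⟩ hy hne
        · rw [Pi.add_apply, sW_apply, sU_apply]
          by_cases h3 : (j' : ℕ) = 3
          · exfalso
            rw [kapU_mid P j' r2 (by omega) (by omega)] at hy
            omega
          · simp [h3]
        · rw [Pi.add_apply, sW_apply, sU_apply]
          by_cases h1 : (j' : ℕ) = 1
          · have hjj : j' = j := Fin.ext (by rw [h1, hj])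
            subst hjj
            have hcc : c2 ≠ c := by
              rintro rfl
              exact hne rfl
            simp [hcc]
          · simp [h1])
      (i, Sum.inl r)
    rw [h2, Pi.add_apply, sW_apply, sU_apply, if_pos hi, Sum.elim_inl, Matrix.mulVec_single_one]
    simp [Matrix.col_apply]

end Pd6ff58.J
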