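import Pool.Agent.Lib.Pd6J.OpnB

/-!
# Module Dns: the cell is dense in `K0`

PROOF. Let `g ∈ K0`, `fl pos g k = H (EJ k)`, `H = Hm P A A' D D'`, `w = ww pos tim`. `p := (permGL w)⁻¹ *
(trn pos H)⁻¹ * g` satisfies `flagOf p (tt k) = stdFlag n (tt k)` for all `k` (`fl_perm`, `fl_mul`), i.e.
`p ∈ parab {tt k}` (`mem_parab_iff`). For `s ∈ ℂ` put `A_s = (1-s) A + s`, etc.,
`p_s = (1-s) p + s`, `G(s) = trn pos (Hm P A_s A'_s D_s D'_s) * permGL w * p_s` (a matrix with polynomial
entries), `G(0) = g`, `G(1) = permGL w`. Let `f` vanish on `CS pos tim` and suppose `evalAt g f ≠ 0`. The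
polynomials in `s`: `f(G(s))`, `det A_s`, `det A'_s`, `det D_s`, `det D'_s`, `det p_s` and
`mw w t (G(s))`, `t ≤ n`, are all nonzero polynomials (look at `s = 0` resp. `s = 1`, `mw_perm`). So they are
all nonzero at some `s`. For this `s` `G(s)` is an element `g_s` of `K0`
(`BD` is preserved; `fl pos g_s k = Hm(...)_s (fl pos (permGL w * p_s) k) = Hm(...)_s (EJ k)`) in the cell
(`opn`) and in the Springer fibre (`K0_springer`): `f(G(s)) = 0`, a contradiction.
-/

open MvPolynomial

noncomputable section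

namespace Pd6ff58.J

variable {R C : Type} [DecidableEq R] [DecidableEq C] [Fintype R] [Fintype C]
  {P : Par R C} {n : ℕ} {pos tim : Ix P ≃ Fin n} {Φ : Set (Fin P.F)}

/-- an element of `K0` is `Hm * w * p` -/
theorem K0_decomp (h : Good P Φ pos tim) {g : GL (Fin n) ℂ} {H : Matrix (Ix P) (Ix P) ℂ}
    (hd : H.det ≠ 0) (hg : ∀ k, fl pos g k = (EJ P k).map (Matrix.mulVecLin H)) :
    ∃ p ∈ parab (n := n) (Set.range (tt P)),
      g.val = trn pos H * (permGL (ww pos tim)).val * p.val := by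
  have hd' : (trn pos H).det ≠ 0 := by rwa [trn_det]
  let GH : GL (Fin n) ℂ := Matrix.GeneralLinearGroup.mkOfDetNeZero (trn pos H) hd'
  have hGH : GH.val = trn pos H := rfl
  let g' : GL (Fin n) ℂ := GH * permGL (ww pos tim)
  have hg' : g'.val = trn pos H * (permGL (ww pos tim)).val := rfl
  have hfl : ∀ k, fl pos g k = fl pos g' k := by
    intro k
    rw [hg k, fl_mul hg' k, fl_perm h k]
  refine ⟨g'⁻¹ * g, ?_, ?_⟩
  · rw [mem_parab_iff]
    rintro t ⟨k, rfl⟩
    have e1 := flagOf_eq_of_fl (hfl k)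
    have e2 : flagOf g (tt P k) = (flagOf (g'⁻¹ * g) (tt P k)).map (Matrix.mulVecLin g'.val) := by
      rw [← flagOf_mul, mul_inv_cancel_left]
    rw [e1] at e2
    exact (Submodule.map_injective_of_injective (FLAux.inj g') e2).symm
  · rw [← hg', ← Units.val_mul, mul_inv_cancel_left]

theorem K0_comp (h : Good P Φ pos tim) {g p : GL (Fin n) ℂ} {H : Matrix (Ix P) (Ix P) ℂ}
    (hp : p ∈ parab (n := n) (Set.range (tt P)))
    (hg : g.val = trn pos H * (permGL (ww pos tim)).val * p.val) (k : ℕ) :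
    fl pos g k = (EJ P k).map (Matrix.mulVecLin H) := by
  have e1 : g.val = trn pos H * (permGL (ww pos tim) * p).val := by
    rw [hg, Matrix.mul_assoc]; rfl
  have e2 : flagOf (permGL (ww pos tim) * p) (tt P k) = flagOf (permGL (ww pos tim)) (tt P k) := by
    rw [flagOf_mul, mem_parab_iff.1 hp _ ⟨k, rfl⟩]
    rfl
  have e3 : fl pos (permGL (ww pos tim) * p) k = EJ P k := by
    rw [← fl_perm h k]
    unfold fl
    rw [e2]
  rw [fl_mul e1 k, e3]

namespace DnsAux

/-- the polynomial path from `A` to the unit matrix -/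
def pl {T : Type} [DecidableEq T] (A : Matrix T T ℂ) : Matrix T T (Polynomial ℂ) :=
  Matrix.of fun x y => Polynomial.C (A x y) * (1 - Polynomial.X) + if x = y then Polynomial.X else 0

/-- its values -/
def ev {T : Type} [DecidableEq T] (s : ℂ) (A : Matrix T T ℂ) : Matrix T T ℂ :=
  Matrix.of fun x y => A x y * (1 - s) + if x = y then s else 0

theorem pl_map {T : Type} [DecidableEq T] (s : ℂ) (A : Matrix T T ℂ) :
    (pl A).map (Polynomial.evalRingHom s) = ev s A := by
  ext x y
  simp only [pl, ev, Matrix.map_apply, Matrix.of_apply, Polynomial.coe_evalRingHom,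
    Polynomial.eval_add, Polynomial.eval_mul, Polynomial.eval_C, Polynomial.eval_sub,
    Polynomial.eval_one, Polynomial.eval_X]
  split_ifs <;> simp

theorem ev_zero {T : Type} [DecidableEq T] (A : Matrix T T ℂ) : ev 0 A = A := by
  ext x y
  simp [ev]

theorem ev_one {T : Type} [DecidableEq T] (A : Matrix T T ℂ) : ev 1 A = 1 := by
  ext x y
  simp [ev, Matrix.one_apply]

theorem eval_det {T : Type} [DecidableEq T] [Fintype T] (s : ℂ) (A : Matrix T T ℂ) :
    Polynomial.eval s (pl A).det = (ev s A).det := by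
  rw [← pl_map, ← Polynomial.coe_evalRingHom, RingHom.map_det]
  rfl

theorem det_ne {T : Type} [DecidableEq T] [Fintype T] {A : Matrix T T ℂ} (h : A.det ≠ 0) :
    (pl A).det ≠ 0 := by
  intro h0
  apply h
  rw [← ev_zero A, ← DnsAux.eval_det, h0, Polynomial.eval_zero]

theorem bd_ev {T : Type} [DecidableEq T] {S : Blk T} {A : Matrix T T ℂ} (h : BD S A) (s : ℂ) :
    BD S (ev s A) := by
  intro x y hxy
  by_cases e : x = y
  · rw [e]
  · refine h x y fun h0 => hxy ?_
    simp [ev, h0, e]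

theorem eval_eval₂ {σ : Type} (s : ℂ) (G : σ → Polynomial ℂ) (q : MvPolynomial σ ℂ) :
    Polynomial.eval s (MvPolynomial.eval₂ Polynomial.C G q) =
      MvPolynomial.eval (fun i => Polynomial.eval s (G i)) q := by
  induction q using MvPolynomial.induction_on with
  | C a => simp
  | add p q hp hq => simp [hp, hq]
  | mul_X p i hp => simp [hp]

theorem exists_ne {q : Polynomial ℂ} (h : q ≠ 0) : ∃ s, Polynomial.eval s q ≠ 0 := by
  by_contra h0
  push Not at h0
  exact h (Polynomial.funext fun s => by rw [h0 s, Polynomial.eval_zero])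

end DnsAux

open DnsAux

theorem dns (h : Good P Φ pos tim) : K0 pos ⊆ zcl (CS pos tim) := by
  rintro g ⟨A, A', D, D', ⟨b1, b2, b3, b4⟩, ⟨d1, d2, d3, d4⟩, hg⟩ f hf
  obtain ⟨p, hp, hgp⟩ := K0_decomp h (Hm_det P d1 d2 d3 d4) hg
  by_contra hne
  -- the path
  let w := ww pos tim
  let G : Matrix (Fin n) (Fin n) (Polynomial ℂ) :=
    trn pos (Hm P (pl A) (pl A') (pl D) (pl D')) * (permGL w).val.map Polynomial.C * pl p.val
  let Gs : ℂ → Matrix (Fin n) (Fin n) ℂ := fun s =>
    trn pos (Hm P (ev s A) (ev s A') (ev s D) (ev s D')) * (permGL w).val * ev s p.val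
  have hG : ∀ s, G.map (Polynomial.evalRingHom s) = Gs s := by
    intro s
    have e1 : (trn pos (Hm P (pl A) (pl A') (pl D) (pl D'))).map (Polynomial.evalRingHom s) =
        trn pos (Hm P (ev s A) (ev s A') (ev s D) (ev s D')) := by
      rw [← pl_map s A, ← pl_map s A', ← pl_map s D, ← pl_map s D', ← Hm_map]
      rfl
    have e2 : ((permGL w).val.map Polynomial.C).map (Polynomial.evalRingHom s) =
        (permGL w).val := by
      ext i j
      simp
    show (trn pos (Hm P (pl A) (pl A') (pl D) (pl D')) * (permGL w).val.map Polynomial.C *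
      pl p.val).map (Polynomial.evalRingHom s) = _
    rw [Matrix.map_mul, Matrix.map_mul, e1, e2, pl_map]
  let Fq : MvPolynomial (Fin n × Fin n) ℂ → Polynomial ℂ := fun q =>
    MvPolynomial.eval₂ Polynomial.C (fun ij => G ij.1 ij.2) q
  have hF : ∀ s q, Polynomial.eval s (Fq q) = MvPolynomial.eval (fun ij => Gs s ij.1 ij.2) q := by
    intro s q
    rw [eval_eval₂]
    congr 2
    funext ij
    rw [← hG s]
    rfl
  have hG0 : Gs 0 = g.val := by
    show trn pos (Hm P (ev 0 A) (ev 0 A') (ev 0 D) (ev 0 D')) * (permGL w).val * ev 0 p.val = _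
    rw [ev_zero, ev_zero, ev_zero, ev_zero, ev_zero, hgp]
  have hG1 : Gs 1 = (permGL w).val := by
    show trn pos (Hm P (ev 1 A) (ev 1 A') (ev 1 D) (ev 1 D')) * (permGL w).val * ev 1 p.val = _
    rw [ev_one, ev_one, ev_one, ev_one, ev_one, Hm_one, trn_one, one_mul, mul_one]
  have n1 : Fq f ≠ 0 := by
    intro h0
    apply hne
    have := hF 0 f
    rw [h0, Polynomial.eval_zero, hG0] at this
    exact this.symm
  have n2 : ∀ t, Fq (mw w t) ≠ 0 := by
    intro t h0
    apply mw_perm w t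
    have := hF 1 (mw w t)
    rw [h0, Polynomial.eval_zero, hG1] at this
    exact this.symm
  have n3 : (pl p.val).det ≠ 0 := by
    refine det_ne ?_
    exact (Matrix.GeneralLinearGroup.det p).ne_zero
  have nn : Fq f * (pl A).det * (pl A').det * (pl D).det * (pl D').det * (pl p.val).det *
      ∏ t ∈ Finset.range (n + 1), Fq (mw w t) ≠ 0 := by
    refine mul_ne_zero (mul_ne_zero (mul_ne_zero (mul_ne_zero (mul_ne_zero (mul_ne_zero n1
      (det_ne d1)) (det_ne d2)) (det_ne d3)) (det_ne d4)) n3) ?_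
    exact Finset.prod_ne_zero_iff.2 fun t _ => n2 t
  obtain ⟨s, hs⟩ := exists_ne nn
  simp only [Polynomial.eval_mul, Polynomial.eval_prod, DnsAux.eval_det, hF, mul_ne_zero_iff,
    Finset.prod_ne_zero_iff, Finset.mem_range] at hs
  obtain ⟨⟨⟨⟨⟨⟨s1, s2⟩, s3⟩, s4⟩, s5⟩, s6⟩, s7⟩ := hs
  have hdet : (Gs s).det ≠ 0 := by
    show (trn pos (Hm P (ev s A) (ev s A') (ev s D) (ev s D')) * (permGL w).val *
      ev s p.val).det ≠ 0
    rw [Matrix.det_mul, Matrix.det_mul, trn_det]
    exact mul_ne_zero (mul_ne_zero (Hm_det P s2 s3 s4 s5)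
      (Matrix.GeneralLinearGroup.det (permGL w)).ne_zero) s6
  let gs : GL (Fin n) ℂ := Matrix.GeneralLinearGroup.mkOfDetNeZero (Gs s) hdet
  let ps : GL (Fin n) ℂ := Matrix.GeneralLinearGroup.mkOfDetNeZero (ev s p.val) s6
  have hps : ps ∈ parab (n := n) (Set.range (tt P)) := by
    intro t ht a b hb ha
    show ev s p.val a b = 0
    have e1 : p.val a b = 0 := hp t ht a b hb ha
    have e2 : a ≠ b := by
      rintro rfl
      omega
    simp [ev, e1, e2]
  have hgs : gs ∈ K0 pos :=
    ⟨ev s A, ev s A', ev s D, ev s D', ⟨bd_ev b1 s, bd_ev b2 s, bd_ev b3 s, bd_ev b4 s⟩,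
      ⟨s2, s3, s4, s5⟩, fun k => K0_comp h hps rfl k⟩
  have hcell : pt gs ∈ schubertCell (ww pos tim) :=
    opn h hgs fun t ht => s7 t (by omega)
  exact s1 (hf gs ⟨hcell, K0_springer hgs⟩)

end Pd6ff58.J
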