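import Pool.Agent.Lib.Pd6ff58.RD
import Pool.Agent.Lib.Pd6ff58.RG
import Pool.Agent.Lib.Pd6ff58.LI

/-!
# Module RgU: affine space is regular

PROOF. `timesAffine (σ := Empty) (τ := σ) univ = univ` in `(Empty ⊕ σ → ℂ)`; `RG.lean` shows that the local
ring of `S × 𝔸^τ` at `(s, 0)` is regular iff the local ring of `S` at `s` is. For `σ = Empty`: `S = univ` is
one point, its local ring is the field `ℂ`. Translate `s` to `0` and reindex by `localRing_equiv`.
-/

open MvPolynomial

noncomputable section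

namespace Pd6ff58.J

namespace RgUAux

/-- the point -/
def s0 : Empty → ℂ := fun i => i.elim

theorem bij : Function.Bijective (RGAux.evS (Set.univ : Set (Empty → ℂ)) s0 trivial) := by
  refine ⟨?_, RGAux.evS_surj _ _ _⟩
  rw [injective_iff_map_eq_zero]
  intro x hx
  obtain ⟨f, rfl⟩ := Ideal.Quotient.mk_surjective x
  rw [RGAux.evS_mk] at hx
  rw [Ideal.Quotient.eq_zero_iff_mem, mem_vanishingIdeal_iff]
  intro y _
  have : y = s0 := funext fun i => i.elim
  rw [this]
  exact hx

theorem reg0 : IsRegularLocalRing (LocalRing (Set.univ : Set (Empty → ℂ)) s0) := by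
  let e1 := RingEquiv.ofBijective (RGAux.evS (Set.univ : Set (Empty → ℂ)) s0 trivial) bij
  have hf : IsField (MvPolynomial Empty ℂ ⧸ vanishingIdeal ℂ (Set.univ : Set (Empty → ℂ))) :=
    MulEquiv.isField (Field.toIsField ℂ) e1.toMulEquiv
  have hM : (nonvanishing s0).map (Ideal.Quotient.mk
      (vanishingIdeal ℂ (Set.univ : Set (Empty → ℂ)))) ≤ IsUnit.submonoid _ := by
    intro x hx
    rw [RGAux.map_nonvanishing _ _ (Set.mem_univ _)] at hx
    have hx0 : x ≠ 0 := by
      rintro rfl
      exact hx (Ideal.zero_mem _)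
    obtain ⟨y, hy⟩ := hf.mul_inv_cancel hx0
    exact IsUnit.of_mul_eq_one y hy
  let e2 := (IsLocalization.atUnits (MvPolynomial Empty ℂ ⧸ vanishingIdeal ℂ
    (Set.univ : Set (Empty → ℂ))) ((nonvanishing s0).map (Ideal.Quotient.mk
      (vanishingIdeal ℂ (Set.univ : Set (Empty → ℂ))))) (S := LocalRing (Set.univ : Set (Empty → ℂ)) s0) hM)
  exact IsRegularLocalRing.of_ringEquiv (e1.symm.trans e2.toRingEquiv)

end RgUAux

open RgUAux

theorem regular_congr {σ τ : Type} {S : Set (σ → ℂ)} {s : σ → ℂ} {T : Set (τ → ℂ)} {t : τ → ℂ}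
    (h : SameLocalRing S s T t) (hT : RegularAt T t) : RegularAt S s := by
  obtain ⟨e⟩ := h
  unfold RegularAt at hT ⊢
  exact IsRegularLocalRing.of_ringEquiv e.symm.toRingEquiv

theorem regular_univ {σ : Type} [Finite σ] (s : σ → ℂ) :
    RegularAt (Set.univ : Set (σ → ℂ)) s := by
  have h1 : RegularAt (timesAffine (τ := σ) (Set.univ : Set (Empty → ℂ))) (Sum.elim s0 0) :=
    (regular_timesAffine (τ := σ) (Set.univ : Set (Empty → ℂ)) s0 trivial).2 reg0
  refine regular_congr ?_ h1
  refine localRing_equiv _ _ _ _ (fun x => Sum.elim s0 fun i => x i - s i)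
    (fun y i => y (Sum.inr i) + s i) ?_ ?_ ?_ ?_ ?_ ?_
  · rintro (i | i)
    · exact i.elim
    · exact (RegAt.coord s i).sub (RegAt.const s _)
  · intro i
    exact (RegAt.coord _ (Sum.inr i)).add (RegAt.const _ _)
  · funext x
    rcases x with i | i
    · exact i.elim
    · simp
  · funext i
    simp
  · refine Filter.Eventually.of_forall fun x _ => ⟨trivial, ?_⟩
    funext i
    simp
  · refine Filter.Eventually.of_forall fun y _ => ⟨trivial, ?_⟩
    funext x
    rcases x with i | i
    · exact i.elim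
    · simp

end Pd6ff58.J
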