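import Pool.Agent.Lib.Pd6J.BunB
import Pool.Agent.Lib.Pd6J.Dns
import Pool.Agent.Lib.Pd6J.CrdB
import Pool.Agent.Lib.Pd6J.RgU
import Pool.Agent.Lib.Pd6ff58.BL

/-!
# Module BunC (`bun`): `K0` is smooth at every point

PROOF of `bun` by `bundle_local` (read its statement in `Pd6ff58/BL.lean`) with `Ts = Set.range (tt P)`,
`S = univ`, `v₀ = 0`, `ι = Par4 P = SI P.Rlo ⊕ SI P.Rhi ⊕ SI P.Clo ⊕ SI P.Chi`, where
`SI S = {p : T × T // ¬ piv p.1 ∧ piv p.2 ∧ blk p.1 = blk p.2}`; `z : ι → ℂ` is the same as four matrices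
`bz z`, `bz' z`, `nz z`, `nz' z` with `Supp` (`z ↦` entries at the pairs in `SI`, zero elsewhere).
Let `g₀ ∈ K0`, `fl pos g₀ k = H₀ (EJ k)`, `H₀ = Hm P A A' D D'`. `T(z) = trn pos (H₀ * Hm(1+bz z, ...) * H₀⁻¹)`,
`T'(z) = trn pos (H₀ * Hm(1-bz z, ...) * H₀⁻¹)`: polynomial in `z`, `T(z) T'(z) = 1` (`Hm_mul`, `Supp.sq`),
`T(0) = 1`. `K = K0 pos`.
`h1`: `g = T(z) g₀ p`: `fl pos g k = H₀ Hm(1+bz, ...) H₀⁻¹ H₀ (EJ k) = Hm(A(1+bz), ...) (EJ k)`
(`fl_mul`; `fl pos (g₀ * p) k = fl pos g₀ k` for `p ∈ parab`): in `K0`.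
`δ := δ₀(H₀⁻¹ g)`, `δ₀ = mu 1 * mu 2 * mu (F+7) * mu (F+8)` (translated polynomial: `FLAux.lt`,
`evalAt_lt`), `ζ_i := ζ⁰_i(H₀⁻¹ g)`, where for `i = (r', r)` in `SI P.Rlo`:
`ζ⁰_i = mx 1 (0, inl r) (0, inl r') * mu 2 * mu (F+7) * mu (F+8)`, and similarly for the three other
structures with `mx 2 (0, inr c) (0, inr c')`, `mx (F+7) (F+5, inl r) (F+5, inl r')`,
`mx (F+8) (F+5, inr c) (F+5, inr c')`.
`hδ`: `fl pos (H₀⁻¹ g₀) k = EJ k`, `crd_Mm` with the zero data.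
`h3`: `g = T(z) g₀ p`: `fl pos (H₀⁻¹ g) k = Hm(1+bz z, ...) (EJ k)`, `crd_Mm` with the data
`(bz z, bz' z, nz z, nz' z, 0)` (`Mm_zero`; they satisfy `Eqs`).
`h2` (`bun_chart`): `g ∈ K0`, `δ(g) ≠ 0`: `g' = H₀⁻¹ g ∈ K0`, `fl pos g' k = H₁ (EJ k)`,
`H₁ = Hm P A₁ A₁' D₁ D₁'`, `mu k (g') ≠ 0` for `k = 1, 2, F+7, F+8`. By `crd_inj`: a vector of
`H₁ (EJ k)` which vanishes on `J_k` is `0`. `k = 1`: if `u ∈ Epiv Rlo` and `A₁ u` vanishes on the pivots
then `U_0 (A₁ u) ∈ H₁ (EJ 1)` vanishes on `J_1`: `A₁ u = 0`, `u = 0`. By `blk_chart` there is `β` with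
`Supp P.Rlo β` and `A₁ (Epiv) = (1+β) (Epiv)`. The same for `D₁` (`k = 2`, `W_0`), `A₁'` (`k = F+7`, `U_{F+5}`),
`D₁'` (`k = F+8`, `W_{F+5}`). Hence `H₁ (EJ k) = Hm(1+β, 1+β', 1+ν, 1+ν') (EJ k)` for all `k` (`Hm_EJ_congr`:
`EJ k` meets every `U_i`, `i ≤ 2`, in `0`, `Epiv` or everything, etc.). With `z` given by
`(β, β', ν, ν')`: `p := g₀⁻¹ T'(z) g` is in `parab` and `g = T(z) g₀ p`.
So the local ring of `{x | g₀ * lowerGL x ∈ K0}` at `0` is the one of `timesAffine univ = univ`, which is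
regular (`regular_univ`).
PROOF of `blk_chart`: let `A₁₁`, `A₂₁` be the parts (pivots, pivots), (nonpivots, pivots) of `A`; `A₁₁` is
injective, so invertible; `β = A₂₁ A₁₁⁻¹` is block diagonal (`BD.inv`; extend `A₁₁` by `1`),
and `A u = (1+β) (A₁₁ u)` for `u ∈ Epiv`.
-/

open MvPolynomial

noncomputable section

namespace Pd6ff58.J

variable {R C : Type} [DecidableEq R] [DecidableEq C] [Fintype R] [Fintype C]
  {P : Par R C} {n : ℕ} {pos tim : Ix P ≃ Fin n} {Φ : Set (Fin P.F)}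

namespace BunCAux

/-- the index set of the free entries -/
abbrev SI {T : Type} (S : Blk T) : Type :=
  {p : T × T // ¬ S.piv p.1 ∧ S.piv p.2 ∧ S.blk p.1 = S.blk p.2}

section mat

variable {T : Type} {S : Blk T}

open Classical in
/-- the matrix with the given free entries -/
def mat {K : Type} [Zero K] (S : Blk T) (z : SI S → K) : Matrix T T K := Matrix.of fun x y =>
  if h : ¬ S.piv x ∧ S.piv y ∧ S.blk x = S.blk y then z ⟨(x, y), h⟩ else 0

theorem mat_supp (S : Blk T) (z : SI S → ℂ) : Supp S (mat S z) := by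
  classical
  intro x y h
  by_contra h1
  apply h
  simp only [mat, Matrix.of_apply]
  rw [dif_neg h1]

theorem mat_apply {K : Type} [Zero K] (z : SI S → K) (i : SI S) : mat S z i.1.1 i.1.2 = z i := by
  classical
  simp only [mat, Matrix.of_apply]
  rw [dif_pos i.2]

theorem mat_of {β : Matrix T T ℂ} (h : Supp S β) : mat S (fun i => β i.1.1 i.1.2) = β := by
  classical
  ext x y
  simp only [mat, Matrix.of_apply]
  split_ifs with h1
  · rfl
  · by_contra h2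
    exact h1 (h x y (Ne.symm h2))

theorem mat_zero {K : Type} [Zero K] : mat S (fun _ => (0 : K)) = 0 := by
  classical
  ext x y
  simp only [mat, Matrix.of_apply]
  split_ifs <;> rfl

theorem mat_neg {K : Type} [CommRing K] (z : SI S → K) : mat S (fun i => -z i) = -mat S z := by
  classical
  ext x y
  simp only [mat, Matrix.of_apply, Matrix.neg_apply]
  split_ifs
  · rfl
  · rw [neg_zero]

theorem mat_map {K L : Type} [CommRing K] [CommRing L] (f : K →+* L) (z : SI S → K) :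
    (mat S z).map f = mat S (fun i => f (z i)) := by
  classical
  ext x y
  simp only [mat, Matrix.of_apply, Matrix.map_apply]
  split_ifs
  · rfl
  · exact map_zero f

theorem mul_neg_one [Fintype T] [DecidableEq T] {β : Matrix T T ℂ} (h : Supp S β) :
    (1 + β) * (1 + -β) = 1 := by
  have h1 : (1 + β) * (1 + -β) = 1 - β * β := by
    rw [Matrix.add_mul, Matrix.mul_add, Matrix.mul_add, Matrix.one_mul, Matrix.one_mul,
      Matrix.mul_one, Matrix.mul_neg]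
    abel
  rw [h1, h.sq, sub_zero]

end mat

/-- all free entries -/
abbrev I4 (P : Par R C) : Type := SI P.Rlo ⊕ SI P.Rhi ⊕ SI P.Clo ⊕ SI P.Chi

/-- the block matrix with the free entries `z` -/
def MZ {K : Type} [CommRing K] (P : Par R C) (z : I4 P → K) : Matrix (Ix P) (Ix P) K :=
  Hm P (1 + mat P.Rlo fun i => z (Sum.inl i)) (1 + mat P.Rhi fun i => z (Sum.inr (Sum.inl i)))
    (1 + mat P.Clo fun i => z (Sum.inr (Sum.inr (Sum.inl i))))
    (1 + mat P.Chi fun i => z (Sum.inr (Sum.inr (Sum.inr i))))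

theorem MZ_zero (P : Par R C) : MZ P (fun _ => (0 : ℂ)) = 1 := by
  unfold MZ
  rw [mat_zero, mat_zero, mat_zero, mat_zero, add_zero, add_zero, Hm_one]

theorem MZ_neg (P : Par R C) (z : I4 P → ℂ) : MZ P z * MZ P (fun i => -z i) = 1 := by
  unfold MZ
  rw [mat_neg, mat_neg, mat_neg, mat_neg, Hm_mul, mul_neg_one (mat_supp _ _),
    mul_neg_one (mat_supp _ _), mul_neg_one (mat_supp _ _), mul_neg_one (mat_supp _ _), Hm_one]

theorem MZ_map {K L : Type} [CommRing K] [CommRing L] (f : K →+* L) (z : I4 P → K) :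
    (MZ P z).map f = MZ P (fun i => f (z i)) := by
  have h1 : ∀ {T : Type} [DecidableEq T] (M : Matrix T T K), (1 + M).map f = 1 + M.map f := by
    intro T _ M
    rw [Matrix.map_add f (map_add f), Matrix.map_one f (map_zero f) (map_one f)]
  unfold MZ
  rw [Hm_map, h1, h1, h1, h1, mat_map, mat_map, mat_map, mat_map]

theorem map_T (pos : Ix P ≃ Fin n) (w : I4 P → MvPolynomial (I4 P) ℂ)
    (H H' : Matrix (Ix P) (Ix P) ℂ) (z : I4 P → ℂ) :
    (trn pos (H.map (MvPolynomial.C : ℂ →+* MvPolynomial (I4 P) ℂ) * MZ P w *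
      H'.map (MvPolynomial.C : ℂ →+* MvPolynomial (I4 P) ℂ))).map (eval z) =
      trn pos (H * MZ P (fun i => eval z (w i)) * H') := by
  have h0 : ∀ M : Matrix (Ix P) (Ix P) ℂ,
      (M.map (MvPolynomial.C : ℂ →+* MvPolynomial (I4 P) ℂ)).map (eval z) = M := by
    intro M
    ext x y
    simp only [Matrix.map_apply, eval_C]
  have h1 : ∀ M : Matrix (Ix P) (Ix P) (MvPolynomial (I4 P) ℂ),
      (trn pos M).map (eval z) = trn pos (M.map (eval z)) := fun M => rfl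
  rw [h1, Matrix.map_mul, Matrix.map_mul, h0, h0, MZ_map]

theorem map_mulVecLin (A B : Matrix (Ix P) (Ix P) ℂ) (S : Submodule ℂ (Ix P → ℂ)) :
    (S.map (Matrix.mulVecLin B)).map (Matrix.mulVecLin A) = S.map (Matrix.mulVecLin (A * B)) := by
  rw [← Submodule.map_comp, ← Matrix.mulVecLin_mul]

theorem fl_parab (pos : Ix P ≃ Fin n) (g : GL (Fin n) ℂ) {p : GL (Fin n) ℂ}
    (hp : p ∈ parab (n := n) (Set.range (tt P))) (k : ℕ) : fl pos (g * p) k = fl pos g k := by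
  have h1 : flagOf (g * p) (tt P k) = flagOf g (tt P k) := by
    rw [flagOf_mul, mem_parab_iff.1 hp (tt P k) ⟨k, rfl⟩]
    rfl
  unfold fl
  rw [h1]

theorem flagOf_one (j : ℕ) : flagOf (1 : GL (Fin n) ℂ) j = stdFlag n j :=
  mem_borel_iff.1 (borel n).one_mem j

theorem eqs_zero {β β' : Matrix R R ℂ} {ν ν' : Matrix C C ℂ} (h1 : Supp P.Rlo β)
    (h2 : Supp P.Rhi β') (h3 : Supp P.Clo ν) (h4 : Supp P.Chi ν') : Eqs P Φ β β' ν ν' 0 := by
  refine ⟨h1, h2, h3, h4, ?_, ?_, ?_, ?_, ?_⟩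
  · intro r c _
    rw [Matrix.zero_mul]
    rfl
  · intro r c _
    rw [Matrix.zero_mul]
    rfl
  · intro r c _
    rw [Matrix.mul_zero]
  · intro r c _
    rw [Matrix.mul_zero]
  · intro t _
    rfl

theorem offdiag {T : Type} [DecidableEq T] {S : Blk T} (β : Matrix T T ℂ) (i : SI S) :
    (1 + β) i.1.1 i.1.2 = β i.1.1 i.1.2 := by
  have h : i.1.1 ≠ i.1.2 := by
    intro e
    have h1 := i.2.1
    rw [e] at h1
    exact h1 i.2.2.1
  rw [Matrix.add_apply, Matrix.one_apply_ne h, zero_add]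

theorem evalAt_mul (g : GL (Fin n) ℂ) (a b : MvPolynomial (Fin n × Fin n) ℂ) :
    evalAt g (a * b) = evalAt g a * evalAt g b := by
  unfold evalAt
  rw [map_mul]

end BunCAux

open BunCAux in
theorem bun (h : Good P Φ pos tim) {g₀ : GL (Fin n) ℂ} (hg₀ : g₀ ∈ K0 pos) :
    RegularAt {x : Low n → ℂ | g₀ * lowerGL x ∈ K0 pos} 0 := by
  classical
  obtain ⟨A, A', D, D', ⟨bA, bA', bD, bD'⟩, ⟨dA, dA', dD, dD'⟩, hfl⟩ := hg₀
  obtain ⟨H, hH⟩ : ∃ H, H = Hm P A A' D D' := ⟨_, rfl⟩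
  obtain ⟨Hi, hHi⟩ : ∃ Hi, Hi = Hm P A⁻¹ A'⁻¹ D⁻¹ D'⁻¹ := ⟨_, rfl⟩
  have e1 : H * Hi = 1 := by
    rw [hH, hHi, Hm_mul, Matrix.mul_nonsing_inv _ (Ne.isUnit dA),
      Matrix.mul_nonsing_inv _ (Ne.isUnit dA'), Matrix.mul_nonsing_inv _ (Ne.isUnit dD),
      Matrix.mul_nonsing_inv _ (Ne.isUnit dD'), Hm_one]
  have e2 : Hi * H = 1 := mul_eq_one_comm.1 e1
  rw [← hH] at hfl
  let G : GL (Fin n) ℂ := ⟨trn pos H, trn pos Hi, by rw [← trn_mul, e1, trn_one],
    by rw [← trn_mul, e2, trn_one]⟩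
  -- the flags of the points of the family
  have key : ∀ (M : Matrix (Ix P) (Ix P) ℂ) (p : GL (Fin n) ℂ),
      p ∈ parab (n := n) (Set.range (tt P)) → ∀ g : GL (Fin n) ℂ,
      g.val = trn pos (H * M * Hi) * g₀.val * p.val →
      ∀ k, fl pos g k = (EJ P k).map (Matrix.mulVecLin (H * M)) := by
    intro M p hp g hg k
    have h1 : g.val = trn pos (H * M * Hi) * (g₀ * p).val := by
      rw [hg, Units.val_mul, Matrix.mul_assoc]
    rw [fl_mul h1 k, fl_parab pos g₀ hp k, hfl, map_mulVecLin, Matrix.mul_assoc, e2,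
      Matrix.mul_one]
  have keyG : ∀ (M : Matrix (Ix P) (Ix P) ℂ) (g : GL (Fin n) ℂ) (k : ℕ),
      fl pos g k = (EJ P k).map (Matrix.mulVecLin M) →
      fl pos (G⁻¹ * g) k = (EJ P k).map (Matrix.mulVecLin (Hi * M)) := by
    intro M g k hg
    have h1 : (G⁻¹ * g).val = trn pos Hi * g.val := by
      rw [Units.val_mul]
      rfl
    rw [fl_mul h1 k, hg, map_mulVecLin]
  -- the coordinates
  have i0 : 0 < P.F + 6 := by omega
  have i5 : P.F + 5 < P.F + 6 := by omega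
  let δ₀ : MvPolynomial (Fin n × Fin n) ℂ :=
    mu pos tim 1 * mu pos tim 2 * mu pos tim (P.F + 7) * mu pos tim (P.F + 8)
  let ζ₀ : I4 P → MvPolynomial (Fin n × Fin n) ℂ := fun i => match i with
    | Sum.inl i => mx pos tim 1 (⟨0, i0⟩, Sum.inl i.1.2) (⟨0, i0⟩, Sum.inl i.1.1) *
        mu pos tim 2 * mu pos tim (P.F + 7) * mu pos tim (P.F + 8)
    | Sum.inr (Sum.inl i) => mu pos tim 1 * mu pos tim 2 *
        mx pos tim (P.F + 7) (⟨P.F + 5, i5⟩, Sum.inl i.1.2) (⟨P.F + 5, i5⟩, Sum.inl i.1.1) *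
        mu pos tim (P.F + 8)
    | Sum.inr (Sum.inr (Sum.inl i)) => mu pos tim 1 *
        mx pos tim 2 (⟨0, i0⟩, Sum.inr i.1.2) (⟨0, i0⟩, Sum.inr i.1.1) *
        mu pos tim (P.F + 7) * mu pos tim (P.F + 8)
    | Sum.inr (Sum.inr (Sum.inr i)) => mu pos tim 1 * mu pos tim 2 * mu pos tim (P.F + 7) *
        mx pos tim (P.F + 8) (⟨P.F + 5, i5⟩, Sum.inr i.1.2) (⟨P.F + 5, i5⟩, Sum.inr i.1.1)
  have hcrd : ∀ (z : I4 P → ℂ) (g : GL (Fin n) ℂ),
      (∀ k, fl pos g k = (EJ P k).map (Matrix.mulVecLin (MZ P z))) →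
      evalAt g δ₀ ≠ 0 ∧ ∀ i, evalAt g (ζ₀ i) = z i * evalAt g δ₀ := by
    intro z g hg
    have hE : Eqs P Φ (mat P.Rlo fun i => z (Sum.inl i))
        (mat P.Rhi fun i => z (Sum.inr (Sum.inl i)))
        (mat P.Clo fun i => z (Sum.inr (Sum.inr (Sum.inl i))))
        (mat P.Chi fun i => z (Sum.inr (Sum.inr (Sum.inr i)))) 0 :=
      eqs_zero (mat_supp _ _) (mat_supp _ _) (mat_supp _ _) (mat_supp _ _)
    obtain ⟨c0, c1, c2, c3, c4, -⟩ := crd_Mm h hE (g := g) (fun k => by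
      rw [Mm_zero]
      exact hg k)
    refine ⟨?_, ?_⟩
    · change evalAt g (mu pos tim 1 * mu pos tim 2 * mu pos tim (P.F + 7) *
        mu pos tim (P.F + 8)) ≠ 0
      rw [evalAt_mul, evalAt_mul, evalAt_mul]
      exact mul_ne_zero (mul_ne_zero (mul_ne_zero (c0 _) (c0 _)) (c0 _)) (c0 _)
    · intro i
      change _ = z i * evalAt g (mu pos tim 1 * mu pos tim 2 * mu pos tim (P.F + 7) *
        mu pos tim (P.F + 8))
      rcases i with i | i | i | i
      · change evalAt g (mx pos tim 1 (⟨0, i0⟩, Sum.inl i.1.2) (⟨0, i0⟩, Sum.inl i.1.1) *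
          mu pos tim 2 * mu pos tim (P.F + 7) * mu pos tim (P.F + 8)) = _
        have h1 := c1 ⟨0, i0⟩ i.1.2 i.1.1 rfl i.2.2.1
        rw [offdiag, mat_apply] at h1
        simp only [evalAt_mul, h1]
        ring
      · change evalAt g (mu pos tim 1 * mu pos tim 2 *
          mx pos tim (P.F + 7) (⟨P.F + 5, i5⟩, Sum.inl i.1.2) (⟨P.F + 5, i5⟩, Sum.inl i.1.1) *
          mu pos tim (P.F + 8)) = _
        have h1 := c3 ⟨P.F + 5, i5⟩ i.1.2 i.1.1 rfl i.2.2.1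
        rw [offdiag, mat_apply] at h1
        simp only [evalAt_mul, h1]
        ring
      · change evalAt g (mu pos tim 1 *
          mx pos tim 2 (⟨0, i0⟩, Sum.inr i.1.2) (⟨0, i0⟩, Sum.inr i.1.1) *
          mu pos tim (P.F + 7) * mu pos tim (P.F + 8)) = _
        have h1 := c2 ⟨0, i0⟩ i.1.2 i.1.1 rfl i.2.2.1
        rw [offdiag, mat_apply] at h1
        simp only [evalAt_mul, h1]
        ring
      · change evalAt g (mu pos tim 1 * mu pos tim 2 * mu pos tim (P.F + 7) *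
          mx pos tim (P.F + 8) (⟨P.F + 5, i5⟩, Sum.inr i.1.2) (⟨P.F + 5, i5⟩, Sum.inr i.1.1)) = _
        have h1 := c4 ⟨P.F + 5, i5⟩ i.1.2 i.1.1 rfl i.2.2.1
        rw [offdiag, mat_apply] at h1
        simp only [evalAt_mul, h1]
        ring
  -- the family
  let T : Matrix (Fin n) (Fin n) (MvPolynomial (I4 P) ℂ) :=
    trn pos (H.map (MvPolynomial.C : ℂ →+* MvPolynomial (I4 P) ℂ) * MZ P (fun i => X i) *
      Hi.map (MvPolynomial.C : ℂ →+* MvPolynomial (I4 P) ℂ))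
  let T' : Matrix (Fin n) (Fin n) (MvPolynomial (I4 P) ℂ) :=
    trn pos (H.map (MvPolynomial.C : ℂ →+* MvPolynomial (I4 P) ℂ) * MZ P (fun i => -X i) *
      Hi.map (MvPolynomial.C : ℂ →+* MvPolynomial (I4 P) ℂ))
  have hTz : ∀ z : I4 P → ℂ, T.map (eval z) = trn pos (H * MZ P z * Hi) := by
    intro z
    have h1 := map_T pos (fun i => (X i : MvPolynomial (I4 P) ℂ)) H Hi z
    simp only [eval_X] at h1
    exact h1
  have hTz' : ∀ z : I4 P → ℂ, T'.map (eval z) = trn pos (H * MZ P (fun i => -z i) * Hi) := by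
    intro z
    have h1 := map_T pos (fun i => (-X i : MvPolynomial (I4 P) ℂ)) H Hi z
    simp only [map_neg, eval_X] at h1
    exact h1
  have hTT : ∀ z : I4 P → ℂ, T.map (eval z) * T'.map (eval z) = 1 := by
    intro z
    rw [hTz, hTz', ← trn_mul]
    have h1 : H * MZ P z * Hi * (H * MZ P (fun i => -z i) * Hi) = 1 := by
      calc H * MZ P z * Hi * (H * MZ P (fun i => -z i) * Hi)
          = H * MZ P z * (Hi * H) * MZ P (fun i => -z i) * Hi := by
            simp only [Matrix.mul_assoc]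
        _ = H * (MZ P z * MZ P (fun i => -z i)) * Hi := by
            rw [e2, Matrix.mul_one]
            simp only [Matrix.mul_assoc]
        _ = 1 := by rw [MZ_neg, Matrix.mul_one, e1]
    rw [h1, trn_one]
  have hT0 : T.map (eval (fun _ => (0 : ℂ))) = 1 := by
    rw [hTz, MZ_zero, Matrix.mul_one, e1, trn_one]
  have res := bundle_local (Set.range (tt P)) (Set.univ : Set (I4 P → ℂ)) (fun _ => (0 : ℂ))
    (Set.mem_univ _) T T' (fun z _ => hTT z) hT0 g₀ (K0 pos) ?_ (FLAux.lt G⁻¹ δ₀)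
    (fun i => FLAux.lt G⁻¹ (ζ₀ i)) ?_ ?_ ?_
  · have huniv : timesAffine (τ := Lev n (Set.range (tt P))) (Set.univ : Set (I4 P → ℂ)) =
        Set.univ := rfl
    rw [huniv] at res
    exact regular_congr res (regular_univ _)
  · -- h1
    intro z _ p hp g hg
    rw [hTz] at hg
    have h1 := key _ p hp g hg
    unfold MZ at h1
    rw [hH, Hm_mul] at h1
    refine ⟨_, _, _, _, ⟨?_, ?_, ?_, ?_⟩, ⟨?_, ?_, ?_, ?_⟩, h1⟩
    · exact bA.mul (mat_supp _ _).bd
    · exact bA'.mul (mat_supp _ _).bd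
    · exact bD.mul (mat_supp _ _).bd
    · exact bD'.mul (mat_supp _ _).bd
    · rw [Matrix.det_mul]
      exact mul_ne_zero dA (mat_supp _ _).det
    · rw [Matrix.det_mul]
      exact mul_ne_zero dA' (mat_supp _ _).det
    · rw [Matrix.det_mul]
      exact mul_ne_zero dD (mat_supp _ _).det
    · rw [Matrix.det_mul]
      exact mul_ne_zero dD' (mat_supp _ _).det
  · -- hδ
    rw [FLAux.evalAt_lt]
    refine (hcrd (fun _ => 0) (G⁻¹ * g₀) fun k => ?_).1
    rw [keyG H g₀ k (hfl k), e2, MZ_zero]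
  · -- h2
    intro g hg hgδ
    rw [FLAux.evalAt_lt] at hgδ
    obtain ⟨A₁, A₁', D₁, D₁', ⟨c1, c2, c3, c4⟩, ⟨k1, k2, k3, k4⟩, hgfl⟩ := hg
    have hg'K : G⁻¹ * g ∈ K0 pos := by
      refine ⟨A⁻¹ * A₁, A'⁻¹ * A₁', D⁻¹ * D₁, D'⁻¹ * D₁', ⟨?_, ?_, ?_, ?_⟩, ⟨?_, ?_, ?_, ?_⟩,
        fun k => ?_⟩
      · exact (bA.inv dA).mul c1
      · exact (bA'.inv dA').mul c2
      · exact (bD.inv dD).mul c3
      · exact (bD'.inv dD').mul c4
      · rw [Matrix.det_mul, Matrix.det_nonsing_inv]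
        exact mul_ne_zero (IsUnit.ringInverse (Ne.isUnit dA)).ne_zero k1
      · rw [Matrix.det_mul, Matrix.det_nonsing_inv]
        exact mul_ne_zero (IsUnit.ringInverse (Ne.isUnit dA')).ne_zero k2
      · rw [Matrix.det_mul, Matrix.det_nonsing_inv]
        exact mul_ne_zero (IsUnit.ringInverse (Ne.isUnit dD)).ne_zero k3
      · rw [Matrix.det_mul, Matrix.det_nonsing_inv]
        exact mul_ne_zero (IsUnit.ringInverse (Ne.isUnit dD')).ne_zero k4
      · rw [keyG _ g k (hgfl k), hHi, Hm_mul]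
    have hgδ' : evalAt (G⁻¹ * g) (mu pos tim 1) ≠ 0 ∧ evalAt (G⁻¹ * g) (mu pos tim 2) ≠ 0 ∧
        evalAt (G⁻¹ * g) (mu pos tim (P.F + 7)) ≠ 0 ∧
        evalAt (G⁻¹ * g) (mu pos tim (P.F + 8)) ≠ 0 := by
      have h1 : evalAt (G⁻¹ * g) (mu pos tim 1 * mu pos tim 2 * mu pos tim (P.F + 7) *
        mu pos tim (P.F + 8)) ≠ 0 := hgδ
      rw [evalAt_mul, evalAt_mul, evalAt_mul] at h1
      have h2 := left_ne_zero_of_mul h1
      have h3 := left_ne_zero_of_mul h2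
      exact ⟨left_ne_zero_of_mul h3, right_ne_zero_of_mul h3, right_ne_zero_of_mul h2,
        right_ne_zero_of_mul h1⟩
    obtain ⟨m1, m2, m7, m8⟩ := hgδ'
    obtain ⟨β, β', ν, ν', s1, s2, s3, s4, hM⟩ := bun_chart h hg'K m1 m2 m7 m8
    let z : I4 P → ℂ := fun i => match i with
      | Sum.inl i => β i.1.1 i.1.2
      | Sum.inr (Sum.inl i) => β' i.1.1 i.1.2
      | Sum.inr (Sum.inr (Sum.inl i)) => ν i.1.1 i.1.2
      | Sum.inr (Sum.inr (Sum.inr i)) => ν' i.1.1 i.1.2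
    have hz : MZ P z = Hm P (1 + β) (1 + β') (1 + ν) (1 + ν') := by
      have z1 : mat P.Rlo (fun i => z (Sum.inl i)) = β := mat_of s1
      have z2 : mat P.Rhi (fun i => z (Sum.inr (Sum.inl i))) = β' := mat_of s2
      have z3 : mat P.Clo (fun i => z (Sum.inr (Sum.inr (Sum.inl i)))) = ν := mat_of s3
      have z4 : mat P.Chi (fun i => z (Sum.inr (Sum.inr (Sum.inr i)))) = ν' := mat_of s4
      unfold MZ
      rw [z1, z2, z3, z4]
    let Tz : GL (Fin n) ℂ := ⟨T.map (eval z), T'.map (eval z), hTT z, mul_eq_one_comm.1 (hTT z)⟩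
    have hTzv : Tz.val = trn pos (H * MZ P z * Hi) := hTz z
    refine ⟨z, Set.mem_univ _, (Tz * g₀)⁻¹ * g, ?_, ?_⟩
    · rw [mem_parab_iff]
      rintro _ ⟨k, rfl⟩
      have h1 : fl pos g k = fl pos (Tz * g₀) k := by
        have h2 : fl pos (G * (G⁻¹ * g)) k = (fl pos (G⁻¹ * g) k).map (Matrix.mulVecLin H) :=
          fl_mul (by
            rw [Units.val_mul]) k
        rw [mul_inv_cancel_left, hM, map_mulVecLin, ← hz] at h2
        have h3 := key (MZ P z) 1 (fun t _ a b hb ha => by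
          have h : a ≠ b := by
            rintro rfl
            omega
          exact Matrix.one_apply_ne h) (Tz * g₀) (by
            rw [Units.val_mul, hTzv, Units.val_one, Matrix.mul_one]) k
        rw [h2, h3]
      have h4 := flagOf_eq_of_fl h1
      rw [flagOf_mul, h4, ← flagOf_mul, inv_mul_cancel, flagOf_one]
    · have h5 : g = Tz * g₀ * ((Tz * g₀)⁻¹ * g) := by rw [mul_inv_cancel_left]
      conv_lhs => rw [h5]
      rw [Units.val_mul, Units.val_mul]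
  · -- h3
    intro z _ p hp g hg i
    rw [hTz] at hg
    rw [FLAux.evalAt_lt, FLAux.evalAt_lt]
    refine (hcrd z (G⁻¹ * g) fun k => ?_).2 i
    rw [keyG _ g k (key _ p hp g hg k), ← Matrix.mul_assoc, e2, Matrix.one_mul]

end Pd6ff58.J
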