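import Pool.Agent.Lib.Pd6J.Def

/-!
# Module Calc: calculus of the matrices

PROOFS. Everything is entrywise. `Xm_mulVec`: the sum over `y` has the single term
`y = (x.1 + 1, x.2)`. `Hm_sU`, `Hm_sW`, `Tm_sU`, `Tm_sW`: entrywise (`Matrix.mulVec, dotProduct`,
`Fintype.sum_prod_type`, `Fintype.sum_sum_type`). `Hm_mul`: the matrices are block diagonal for
`x.1 = y.1`. `Supp.sq`: `(A * A) x y = ∑ z, A x z * A z y` and `A x z ≠ 0` needs `z` a pivot,
`A z y ≠ 0` needs `z` not a pivot. `BD.inv`: if `A` is invertible and block diagonal, put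
`B := A⁻¹` and let `B₀` be its block diagonal part; `A * B₀ = 1` (for `x, y` in the same block
`(A B₀)_{xy} = (A B)_{xy}`, for `x, y` in different blocks it is `0`), so `B₀ = A⁻¹`.
`Hm_det`: `Hm(A⁻¹, ...)` is an inverse. `Mm_det`: `Tm * Tm = 0` so `(1 + Tm)(1 - Tm) = 1`.
`EJ_le`: `v ∈ EJ P k` is the sum of `v x • sU (x.1) e_r` resp. `sW`, over the `x` with
`kap P x ≤ k`.
-/

open MvPolynomial

noncomputable section

namespace Pd6ff58.J

variable {R C : Type} [DecidableEq R] [DecidableEq C] [Fintype R] [Fintype C]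

theorem Xm_mulVec (P : Par R C) (v : Ix P → ℂ) (x : Ix P) :
    (Xm P).mulVec v x = if h : (x.1 : ℕ) + 1 < P.F + 6 then v (⟨(x.1 : ℕ) + 1, h⟩, x.2) else 0 := by
  rw [Matrix.mulVec, dotProduct]
  split_ifs with h
  · rw [Finset.sum_eq_single (⟨(x.1 : ℕ) + 1, h⟩, x.2)]
    · simp [Xm]
    · rintro ⟨i, z⟩ _ hne
      have : ¬ ((i : ℕ) = (x.1 : ℕ) + 1 ∧ x.2 = z) := by
        rintro ⟨h1, h2⟩
        exact hne (Prod.ext (Fin.ext h1) h2.symm)
      simp [Xm, this]
    · intro h
      exact absurd (Finset.mem_univ _) h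
  · refine Finset.sum_eq_zero ?_
    rintro ⟨i, z⟩ _
    have : ¬ ((i : ℕ) = (x.1 : ℕ) + 1 ∧ x.2 = z) := by
      rintro ⟨h1, h2⟩
      have := i.2
      omega
    simp [Xm, this]

theorem Xm_sU (P : Par R C) {i : ℕ} (hi : i + 1 < P.F + 6) (u : R → ℂ) :
    (Xm P).mulVec (sU P (i + 1) u) = sU P i u := by
  funext x
  rw [Xm_mulVec, sU_apply]
  split_ifs with h1 h2 h2
  · rw [sU_apply, if_pos (by simpa using h2)]
  · rw [sU_apply, if_neg (by simpa using h2)]
  · omega
  · rfl

theorem Xm_sU_zero (P : Par R C) (u : R → ℂ) : (Xm P).mulVec (sU P 0 u) = 0 := by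
  funext x
  rw [Xm_mulVec]
  split_ifs with h1
  · rw [sU_apply, if_neg (by simp)]
    rfl
  · rfl

theorem Xm_sW (P : Par R C) {i : ℕ} (hi : i + 1 < P.F + 6) (w : C → ℂ) :
    (Xm P).mulVec (sW P (i + 1) w) = sW P i w := by
  funext x
  rw [Xm_mulVec, sW_apply]
  split_ifs with h1 h2 h2
  · rw [sW_apply, if_pos (by simpa using h2)]
  · rw [sW_apply, if_neg (by simpa using h2)]
  · omega
  · rfl

theorem Xm_sW_zero (P : Par R C) (w : C → ℂ) : (Xm P).mulVec (sW P 0 w) = 0 := by
  funext x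
  rw [Xm_mulVec]
  split_ifs with h1
  · rw [sW_apply, if_neg (by simp)]
    rfl
  · rfl

theorem Hm_sU (P : Par R C) (A A' : Matrix R R ℂ) (D D' : Matrix C C ℂ) (i : ℕ) (u : R → ℂ) :
    (Hm P A A' D D').mulVec (sU P i u) =
      sU P i ((if i ≤ 2 then A else if i ≤ P.F + 3 then 1 else A').mulVec u) := by
  funext x
  rw [Matrix.mulVec, dotProduct, Fintype.sum_prod_type, Finset.sum_eq_single x.1]
  · rw [Fintype.sum_sum_type]
    rcases x with ⟨j, r | c⟩
    · by_cases hj : (j : ℕ) = i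
      · subst hj
        simp [Hm, sU_apply, Matrix.mulVec, dotProduct]
      · simp [Hm, sU_apply, hj]
    · simp [Hm, sU_apply]
  · intro j _ hj
    refine Finset.sum_eq_zero fun z _ => ?_
    have : ¬ (x.1 = j) := fun h => hj h.symm
    simp [Hm, this]
  · intro h
    exact absurd (Finset.mem_univ _) h

theorem Hm_sW (P : Par R C) (A A' : Matrix R R ℂ) (D D' : Matrix C C ℂ) (i : ℕ) (w : C → ℂ) :
    (Hm P A A' D D').mulVec (sW P i w) =
      sW P i ((if i ≤ 1 then D else if i ≤ P.F + 2 then 1 else D').mulVec w) := by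
  funext x
  rw [Matrix.mulVec, dotProduct, Fintype.sum_prod_type, Finset.sum_eq_single x.1]
  · rw [Fintype.sum_sum_type]
    rcases x with ⟨j, r | c⟩
    · simp [Hm, sW_apply]
    · by_cases hj : (j : ℕ) = i
      · subst hj
        simp [Hm, sW_apply, Matrix.mulVec, dotProduct]
      · simp [Hm, sW_apply, hj]
  · intro j _ hj
    refine Finset.sum_eq_zero fun z _ => ?_
    have : ¬ (x.1 = j) := fun h => hj h.symm
    simp [Hm, this]
  · intro h
    exact absurd (Finset.mem_univ _) h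

theorem Tm_sU (P : Par R C) (τ : Matrix R C ℂ) (i : ℕ) (u : R → ℂ) :
    (Tm P τ).mulVec (sU P i u) = 0 := by
  funext x
  rw [Matrix.mulVec, dotProduct]
  refine Finset.sum_eq_zero ?_
  rintro ⟨j, r' | c'⟩ _
  · rcases x with ⟨l, r | c⟩ <;> simp [Tm]
  · rw [sU_apply]
    split_ifs <;> simp

theorem Tm_sW (P : Par R C) (τ : Matrix R C ℂ) (j : ℕ) (w : C → ℂ) :
    (Tm P τ).mulVec (sW P j w) =
      if 1 ≤ j ∧ j ≤ P.F + 2 then sU P (j + 2) (τ.mulVec w) else 0 := by
  funext x
  rw [Matrix.mulVec, dotProduct]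
  rcases x with ⟨l, r | c⟩
  · by_cases hj : 1 ≤ j ∧ j ≤ P.F + 2
    · rw [if_pos hj, sU_apply, Fintype.sum_prod_type,
        Finset.sum_eq_single (⟨j, by omega⟩ : Fin (P.F + 6))]
      · rw [Fintype.sum_sum_type]
        by_cases hl : (l : ℕ) = j + 2
        · simp [Tm, sW_apply, hl, hj.1, hj.2, Matrix.mulVec, dotProduct]
        · simp [Tm, sW_apply, hl]
      · intro i _ hi
        refine Finset.sum_eq_zero fun z _ => ?_
        have : ¬ ((i : ℕ) = j) := fun h => hi (Fin.ext h)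
        rw [sW_apply]
        simp [this]
      · intro h
        exact absurd (Finset.mem_univ _) h
    · rw [if_neg hj]
      refine Finset.sum_eq_zero ?_
      rintro ⟨i, r' | c'⟩ _
      · simp [Tm]
      · rw [sW_apply]
        by_cases hi : (i : ℕ) = j
        · subst hi
          have : ¬ ((l : ℕ) = i + 2 ∧ 1 ≤ (i : ℕ) ∧ (i : ℕ) ≤ P.F + 2) := fun h => hj h.2
          simp only [Tm, Matrix.of_apply, if_neg this, zero_mul]
        · simp [hi]
  · have h1 : (∑ y : Ix P, Tm P τ (l, Sum.inr c) y * sW P j w y) = 0 := by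
      refine Finset.sum_eq_zero ?_
      rintro ⟨i, r' | c'⟩ _ <;> simp [Tm]
    rw [h1]
    split_ifs
    · rw [sU_apply]
      split_ifs <;> rfl
    · rfl

theorem Hm_mul {K : Type} [CommRing K] (P : Par R C) (A A' B B' : Matrix R R K)
    (D D' E E' : Matrix C C K) :
    Hm P A A' D D' * Hm P B B' E E' = Hm P (A * B) (A' * B') (D * E) (D' * E') := by
  ext x y
  rw [Matrix.mul_apply, Fintype.sum_prod_type, Finset.sum_eq_single x.1]
  · rw [Fintype.sum_sum_type]
    rcases x with ⟨i, r | c⟩ <;> rcases y with ⟨j, r' | c'⟩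
    · by_cases hij : i = j
      · subst hij
        by_cases h1 : (i : ℕ) ≤ 2
        · simp [Hm, h1, Matrix.mul_apply]
        · by_cases h2 : (i : ℕ) ≤ P.F + 3
          · simp [Hm, h1, h2, Matrix.one_apply]
          · simp [Hm, h1, h2, Matrix.mul_apply]
      · simp [Hm, hij]
    · by_cases hij : i = j <;> simp [Hm, hij]
    · by_cases hij : i = j <;> simp [Hm, hij]
    · by_cases hij : i = j
      · subst hij
        by_cases h1 : (i : ℕ) ≤ 1
        · simp [Hm, h1, Matrix.mul_apply]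
        · by_cases h2 : (i : ℕ) ≤ P.F + 2
          · simp [Hm, h1, h2, Matrix.one_apply]
          · simp [Hm, h1, h2, Matrix.mul_apply]
      · simp [Hm, hij]
  · intro j _ hj
    refine Finset.sum_eq_zero fun z _ => ?_
    have : ¬ (x.1 = j) := fun h => hj h.symm
    simp [Hm, this]
  · intro h
    exact absurd (Finset.mem_univ _) h

theorem Hm_one {K : Type} [CommRing K] (P : Par R C) :
    Hm P (1 : Matrix R R K) 1 (1 : Matrix C C K) 1 = 1 := by
  ext x y
  rcases x with ⟨i, r | c⟩ <;> rcases y with ⟨j, r' | c'⟩ <;> by_cases hij : i = j <;>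
    simp [Hm, Matrix.one_apply, hij]

theorem Hm_map {K L : Type} [CommRing K] [CommRing L] (f : K →+* L) (P : Par R C)
    (A A' : Matrix R R K) (D D' : Matrix C C K) :
    (Hm P A A' D D').map f = Hm P (A.map f) (A'.map f) (D.map f) (D'.map f) := by
  ext x y
  rcases x with ⟨i, r | c⟩ <;> rcases y with ⟨j, r' | c'⟩ <;> by_cases hij : i = j
  · subst hij
    by_cases h1 : (i : ℕ) ≤ 2
    · simp [Hm, h1]
    · by_cases h2 : (i : ℕ) ≤ P.F + 3
      · by_cases hr : r = r' <;> simp [Hm, h1, h2, Matrix.one_apply, hr]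
      · simp [Hm, h1, h2]
  · simp [Hm, hij]
  · subst hij
    simp [Hm]
  · simp [Hm, hij]
  · subst hij
    simp [Hm]
  · simp [Hm, hij]
  · subst hij
    by_cases h1 : (i : ℕ) ≤ 1
    · simp [Hm, h1]
    · by_cases h2 : (i : ℕ) ≤ P.F + 2
      · by_cases hr : c = c' <;> simp [Hm, h1, h2, Matrix.one_apply, hr]
      · simp [Hm, h1, h2]
  · simp [Hm, hij]

theorem Hm_det (P : Par R C) {A A' : Matrix R R ℂ} {D D' : Matrix C C ℂ} (hA : A.det ≠ 0)
    (hA' : A'.det ≠ 0) (hD : D.det ≠ 0) (hD' : D'.det ≠ 0) : (Hm P A A' D D').det ≠ 0 := by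
  have h : Hm P A A' D D' * Hm P A⁻¹ A'⁻¹ D⁻¹ D'⁻¹ = 1 := by
    rw [Hm_mul, Matrix.mul_nonsing_inv _ (isUnit_iff_ne_zero.2 hA),
      Matrix.mul_nonsing_inv _ (isUnit_iff_ne_zero.2 hA'),
      Matrix.mul_nonsing_inv _ (isUnit_iff_ne_zero.2 hD),
      Matrix.mul_nonsing_inv _ (isUnit_iff_ne_zero.2 hD'), Hm_one]
  intro h0
  have h2 := congrArg Matrix.det h
  rw [Matrix.det_mul, h0, zero_mul, Matrix.det_one] at h2
  exact zero_ne_one h2

theorem Supp.sq {T : Type} [Fintype T] {S : Blk T} {A : Matrix T T ℂ} (h : Supp S A) :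
    A * A = 0 := by
  ext x y
  rw [Matrix.mul_apply, Matrix.zero_apply]
  refine Finset.sum_eq_zero fun z _ => ?_
  by_contra hne
  have h1 := left_ne_zero_of_mul hne
  have h2 := right_ne_zero_of_mul hne
  exact (h z y h2).1 (h x z h1).2.1

theorem Supp.zero {T : Type} (S : Blk T) : Supp S (0 : Matrix T T ℂ) := by
  intro x y h
  exact absurd rfl h

theorem Supp.smul {T : Type} {S : Blk T} {A : Matrix T T ℂ} (h : Supp S A) (c : ℂ) :
    Supp S (c • A) := by
  intro x y hxy
  rw [Matrix.smul_apply, smul_eq_mul] at hxy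
  exact h x y (right_ne_zero_of_mul hxy)

theorem Supp.det {T : Type} [Fintype T] [DecidableEq T] {S : Blk T} {A : Matrix T T ℂ}
    (h : Supp S A) : (1 + A).det ≠ 0 := by
  have h1 : (1 + A) * (1 - A) = 1 := by
    rw [mul_sub, mul_one, add_mul, one_mul, h.sq, add_zero, add_sub_cancel_right]
  intro h0
  have h2 := congrArg Matrix.det h1
  rw [Matrix.det_mul, h0, zero_mul, Matrix.det_one] at h2
  exact zero_ne_one h2

theorem Supp.bd {T : Type} [DecidableEq T] {S : Blk T} {A : Matrix T T ℂ}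
    (h : Supp S A) : BD S (1 + A) := by
  intro x y hxy
  by_cases he : x = y
  · rw [he]
  · rw [Matrix.add_apply, Matrix.one_apply_ne he, zero_add] at hxy
    exact (h x y hxy).2.2

theorem BD.mul {T : Type} [Fintype T] {S : Blk T} {A B : Matrix T T ℂ} (hA : BD S A)
    (hB : BD S B) : BD S (A * B) := by
  intro x y hxy
  rw [Matrix.mul_apply] at hxy
  obtain ⟨z, _, hz⟩ := Finset.exists_ne_zero_of_sum_ne_zero hxy
  exact (hA x z (left_ne_zero_of_mul hz)).trans (hB z y (right_ne_zero_of_mul hz))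

theorem BD.inv {T : Type} [Fintype T] [DecidableEq T] {S : Blk T} {A : Matrix T T ℂ}
    (hA : BD S A) (h : A.det ≠ 0) : BD S A⁻¹ := by
  have h1 : A * A⁻¹ = 1 := Matrix.mul_nonsing_inv _ (isUnit_iff_ne_zero.2 h)
  set B : Matrix T T ℂ := Matrix.of fun x y => if S.blk x = S.blk y then A⁻¹ x y else 0 with hB
  have h2 : A * B = 1 := by
    ext x y
    rw [Matrix.mul_apply]
    by_cases hxy : S.blk x = S.blk y
    · rw [← h1, Matrix.mul_apply]
      refine Finset.sum_congr rfl fun z _ => ?_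
      by_cases hz : A x z = 0
      · rw [hz, zero_mul, zero_mul]
      · rw [hB, Matrix.of_apply, if_pos ((hA x z hz).symm.trans hxy)]
    · rw [Matrix.one_apply_ne (fun hh => hxy (congrArg S.blk hh))]
      refine Finset.sum_eq_zero fun z _ => ?_
      by_cases hz : A x z = 0
      · rw [hz, zero_mul]
      · rw [hB, Matrix.of_apply, if_neg (fun hh => hxy ((hA x z hz).trans hh)), mul_zero]
  have h3 : A⁻¹ = B := Matrix.inv_eq_right_inv h2
  intro x y hxy
  rw [h3, hB, Matrix.of_apply] at hxy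
  by_contra hne
  exact hxy (if_neg hne)

theorem Mm_sU (P : Par R C) (β β' : Matrix R R ℂ) (ν ν' : Matrix C C ℂ) (τ : Matrix R C ℂ)
    (i : ℕ) (u : R → ℂ) : (Mm P β β' ν ν' τ).mulVec (sU P i u) =
      sU P i ((if i ≤ 2 then 1 + β else if i ≤ P.F + 3 then 1 else 1 + β').mulVec u) := by
  rw [Mm, ← Matrix.mulVec_mulVec, Hm_sU, Matrix.add_mulVec, Matrix.one_mulVec, Tm_sU, add_zero]

theorem Mm_sW (P : Par R C) (β β' : Matrix R R ℂ) (ν ν' : Matrix C C ℂ) (τ : Matrix R C ℂ)
    (j : ℕ) (w : C → ℂ) : (Mm P β β' ν ν' τ).mulVec (sW P j w) =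
      sW P j ((if j ≤ 1 then 1 + ν else if j ≤ P.F + 2 then 1 else 1 + ν').mulVec w) +
      (if 1 ≤ j ∧ j ≤ P.F + 2 then sU P (j + 2)
        (τ.mulVec ((if j ≤ 1 then 1 + ν else 1).mulVec w)) else 0) := by
  rw [Mm, ← Matrix.mulVec_mulVec, Hm_sW, Matrix.add_mulVec, Matrix.one_mulVec, Tm_sW]
  congr 1
  by_cases h : 1 ≤ j ∧ j ≤ P.F + 2
  · rw [if_pos h, if_pos h]
    by_cases h1 : j ≤ 1
    · rw [if_pos h1, if_pos h1]
    · rw [if_neg h1, if_neg h1, if_pos h.2]
  · rw [if_neg h, if_neg h]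

theorem Mm_det (P : Par R C) {β β' : Matrix R R ℂ} {ν ν' : Matrix C C ℂ} (τ : Matrix R C ℂ)
    (hb : Supp P.Rlo β) (hb' : Supp P.Rhi β') (hn : Supp P.Clo ν) (hn' : Supp P.Chi ν') :
    (Mm P β β' ν ν' τ).det ≠ 0 := by
  rw [Mm, Matrix.det_mul]
  refine mul_ne_zero ?_ (Hm_det P hb.det hb'.det hn.det hn'.det)
  have h0 : Tm P τ * Tm P τ = 0 := by
    ext x y
    rw [Matrix.mul_apply, Matrix.zero_apply]
    refine Finset.sum_eq_zero fun z _ => ?_
    rcases x with ⟨i, r | c⟩ <;> rcases z with ⟨j, r' | c'⟩ <;> rcases y with ⟨l, r'' | c''⟩ <;>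
      simp [Tm]
  have h1 : (1 + Tm P τ) * (1 - Tm P τ) = 1 := by
    rw [mul_sub, mul_one, add_mul, one_mul, h0, add_zero, add_sub_cancel_right]
  intro h
  have h2 := congrArg Matrix.det h1
  rw [Matrix.det_mul, h, zero_mul, Matrix.det_one] at h2
  exact zero_ne_one h2

theorem Mm_zero (P : Par R C) (β β' : Matrix R R ℂ) (ν ν' : Matrix C C ℂ) :
    Mm P β β' ν ν' 0 = Hm P (1 + β) (1 + β') (1 + ν) (1 + ν') := by
  have h : Tm P (0 : Matrix R C ℂ) = 0 := by
    ext x y
    rcases x with ⟨i, r | c⟩ <;> rcases y with ⟨j, r' | c'⟩ <;> simp [Tm]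
  rw [Mm, h, add_zero, one_mul]

/-- membership in the coordinate subspaces -/
theorem sU_mem_EJ (P : Par R C) {k i : ℕ} (hi : i < P.F + 6) (u : R → ℂ) :
    sU P i u ∈ EJ P k ↔ ∀ r, k < kap P (⟨i, hi⟩, Sum.inl r) → u r = 0 := by
  rw [mem_EJ]
  constructor
  · intro h r hr
    have := h _ hr
    rw [sU_apply] at this
    simpa using this
  · rintro h ⟨j, r | c⟩ hx
    · rw [sU_apply]
      split_ifs with hj
      · simp only at hj
        subst hj
        exact h r hx
      · rfl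
    · rw [sU_apply]
      split_ifs <;> rfl

theorem sW_mem_EJ (P : Par R C) {k i : ℕ} (hi : i < P.F + 6) (w : C → ℂ) :
    sW P i w ∈ EJ P k ↔ ∀ c, k < kap P (⟨i, hi⟩, Sum.inr c) → w c = 0 := by
  rw [mem_EJ]
  constructor
  · intro h r hr
    have := h _ hr
    rw [sW_apply] at this
    simpa using this
  · rintro h ⟨j, r | c⟩ hx
    · rw [sW_apply]
      split_ifs <;> rfl
    · rw [sW_apply]
      split_ifs with hj
      · simp only at hj
        subst hj
        exact h c hx
      · rfl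

theorem EJ_le (P : Par R C) {k : ℕ} {f : (Ix P → ℂ) →ₗ[ℂ] (Ix P → ℂ)}
    {G : Submodule ℂ (Ix P → ℂ)}
    (h1 : ∀ (i : Fin (P.F + 6)) r, kap P (i, Sum.inl r) ≤ k → f (sU P i (Pi.single r 1)) ∈ G)
    (h2 : ∀ (i : Fin (P.F + 6)) c, kap P (i, Sum.inr c) ≤ k → f (sW P i (Pi.single c 1)) ∈ G) :
    (EJ P k).map f ≤ G := by
  rintro _ ⟨v, hv, rfl⟩
  have e : ∀ x : Ix P, kap P x ≤ k → f (Pi.single x 1) ∈ G := by
    rintro ⟨i, r | c⟩ hx
    · have : (Pi.single (i, Sum.inl r) 1 : Ix P → ℂ) = sU P i (Pi.single r 1) := by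
        funext y
        rcases y with ⟨j, r' | c'⟩
        · rw [sU_apply]
          by_cases hj : j = i
          · subst hj
            by_cases hr : r' = r
            · subst hr
              simp
            · simp [Pi.single_apply, hr]
          · have : (j : ℕ) ≠ i := fun h => hj (Fin.ext h)
            simp [Pi.single_apply, hj, this]
        · rw [sU_apply]
          simp [Pi.single_apply]
      rw [this]
      exact h1 i r hx
    · have : (Pi.single (i, Sum.inr c) 1 : Ix P → ℂ) = sW P i (Pi.single c 1) := by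
        funext y
        rcases y with ⟨j, r' | c'⟩
        · rw [sW_apply]
          simp [Pi.single_apply]
        · rw [sW_apply]
          by_cases hj : j = i
          · subst hj
            by_cases hr : c' = c
            · subst hr
              simp
            · simp [Pi.single_apply, hr]
          · have : (j : ℕ) ≠ i := fun h => hj (Fin.ext h)
            simp [Pi.single_apply, hj, this]
      rw [this]
      exact h2 i c hx
  have hsum : v = ∑ x, v x • (Pi.single x 1 : Ix P → ℂ) := by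
    funext y
    simp [Finset.sum_apply, Pi.single_apply]
  rw [hsum, map_sum]
  refine Submodule.sum_mem _ fun x _ => ?_
  rw [map_smul]
  by_cases hx : kap P x ≤ k
  · exact Submodule.smul_mem _ _ (e x hx)
  · rw [hv x (not_le.1 hx), zero_smul]
    exact Submodule.zero_mem _

theorem EJ_mono (P : Par R C) : Monotone (EJ P) := by
  intro k k' hk v hv x hx
  exact hv x (lt_of_le_of_lt hk hx)

theorem finrank_EJ (P : Par R C) (k : ℕ) : Module.finrank ℂ (EJ P k) = tt P k := by
  classical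
  have e : EJ P k ≃ₗ[ℂ] ({x : Ix P // kap P x ≤ k} → ℂ) :=
    { toFun := fun v x => v.1 x.1
      invFun := fun u => ⟨fun x => if h : kap P x ≤ k then u ⟨x, h⟩ else 0, by
        intro x hx
        exact dif_neg (not_le.2 hx)⟩
      left_inv := by
        intro v
        apply Subtype.ext
        funext x
        by_cases h : kap P x ≤ k
        · simp [h]
        · simp [h, v.2 x (not_le.1 h)]
      right_inv := by
        intro u
        funext x
        simp [x.2]
      map_add' := fun _ _ => rfl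
      map_smul' := fun _ _ => rfl }
  rw [e.finrank_eq, Module.finrank_fintype_fun_eq_card, tt, Nat.card_eq_fintype_card]

theorem kap_le (P : Par R C) : ∀ x, 1 ≤ kap P x ∧ kap P x ≤ P.F + 9 := by
  rintro ⟨i, r | c⟩
  · have := i.2
    simp only [kap]
    split_ifs <;> omega
  · have := i.2
    simp only [kap]
    split_ifs <;> omega

end Pd6ff58.J
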