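import Pool.Agent.Lib.Pd6J.ZRk

/-!
# Module ClA: properties of the flags in `K0`

`lab` is the partition of the coordinates into the blocks of the matrices `Hm`.
PROOFS. Let `fl pos g k = H (EJ k)`, `H = Hm P A A' D D'`. `H` maps `cS {lab = l}` into itself (`BD`), and
is invertible (`Hm_det`), so onto itself; so `fl k ⊓ cS {lab = l} = H (EJ k ⊓ cS {lab = l})`:
`K0_rank`.
`K0_X`: `X H (EJ (k+1)) ⊆ H (EJ k)`: by `EJ_le` applied to `X ∘ H`, for `x` with `kap x ≤ k + 1`:
`X H (U_i e_r) = X U_i (A_i e_r) = U_{i-1} (A_i e_r)` (`0` for `i = 0`), where `A_i = A` (`i ≤ 2`), `1`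
(`3 ≤ i ≤ F+3`), `A'` (`i ≥ F+4`). If `A_i = A_{i-1}` (`i ≠ 3, F+4`) it is `H (U_{i-1} e_r)` and
`kap (i-1, inl r) + 1 ≤ kap (i, inl r)`. For `i = 3`: `k ≥ 4` and all of `U_2` is in `J_4` (then
`U_2 u = H (U_2 (A⁻¹ u)) ∈ H (EJ k)`); for `i = F+4`: `k ≥ F + 5` and all of `U_{F+3}` is in `J_{F+5}`.
Same for `W`: `D_i = D` (`i ≤ 1`), `1` (`2 ≤ i ≤ F+2`), `D'` (`i ≥ F+3`); the exceptional cases are `i = 2`
(`k ≥ 4`, all of `W_1` is in `J_4`) and `i = F+3` (`k ≥ F+5`, all of `W_{F+2}` is in `J_{F+5}`).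
`K0_springer`: `springer_of`.
-/

open MvPolynomial

noncomputable section

namespace Pd6ff58.J

variable {R C : Type} [DecidableEq R] [DecidableEq C] [Fintype R] [Fintype C]
  {P : Par R C} {n : ℕ} {pos tim : Ix P ≃ Fin n} {Φ : Set (Fin P.F)}

/-- the partition of the coordinates into blocks -/
def lab (P : Par R C) : Ix P → Fin (P.F + 6) × (ℕ ⊕ ℕ)
  | (i, Sum.inl r) => (i, Sum.inl (if (i : ℕ) ≤ 2 then P.Rlo.blk r else
      if (i : ℕ) ≤ P.F + 3 then 0 else P.Rhi.blk r))
  | (i, Sum.inr c) => (i, Sum.inr (if (i : ℕ) ≤ 1 then P.Clo.blk c else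
      if (i : ℕ) ≤ P.F + 2 then 0 else P.Chi.blk c))

namespace ClAux

theorem Hm_lab {A A' : Matrix R R ℂ} {D D' : Matrix C C ℂ} (hA : BD P.Rlo A) (hA' : BD P.Rhi A')
    (hD : BD P.Clo D) (hD' : BD P.Chi D') (x y : Ix P) (h : Hm P A A' D D' x y ≠ 0) :
    lab P x = lab P y := by
  rcases x with ⟨i, r | c⟩ <;> rcases y with ⟨j, r' | c'⟩ <;> by_cases hij : i = j
  · subst hij
    by_cases h1 : (i : ℕ) ≤ 2
    · have h2 : A r r' ≠ 0 := by simpa [Hm, h1] using h
      simp [lab, h1, hA r r' h2]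
    · by_cases h2 : (i : ℕ) ≤ P.F + 3
      · simp [lab, h1, h2]
      · have h3 : A' r r' ≠ 0 := by simpa [Hm, h1, h2] using h
        simp [lab, h1, h2, hA' r r' h3]
  · exact absurd (by simp [Hm, hij]) h
  · subst hij
    exact absurd (by simp [Hm]) h
  · exact absurd (by simp [Hm, hij]) h
  · subst hij
    exact absurd (by simp [Hm]) h
  · exact absurd (by simp [Hm, hij]) h
  · subst hij
    by_cases h1 : (i : ℕ) ≤ 1
    · have h2 : D c c' ≠ 0 := by simpa [Hm, h1] using h
      simp [lab, h1, hD c c' h2]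
    · by_cases h2 : (i : ℕ) ≤ P.F + 2
      · simp [lab, h1, h2]
      · have h3 : D' c c' ≠ 0 := by simpa [Hm, h1, h2] using h
        simp [lab, h1, h2, hD' c c' h3]
  · exact absurd (by simp [Hm, hij]) h

theorem Hm_cS {A A' : Matrix R R ℂ} {D D' : Matrix C C ℂ} (hA : BD P.Rlo A) (hA' : BD P.Rhi A')
    (hD : BD P.Clo D) (hD' : BD P.Chi D') (l : Fin (P.F + 6) × (ℕ ⊕ ℕ)) {v : Ix P → ℂ}
    (hv : v ∈ cS {x | lab P x = l}) :
    (Hm P A A' D D').mulVec v ∈ cS {x | lab P x = l} := by
  rw [mem_cS] at hv ⊢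
  intro x hx
  rw [Matrix.mulVec, dotProduct]
  refine Finset.sum_eq_zero fun y _ => ?_
  by_cases h : Hm P A A' D D' x y = 0
  · rw [h, zero_mul]
  · rw [hv y, mul_zero]
    intro hy
    exact hx ((Hm_lab hA hA' hD hD' x y h).trans hy)

theorem Hm_inv_left {A A' : Matrix R R ℂ} {D D' : Matrix C C ℂ} (hA : A.det ≠ 0)
    (hA' : A'.det ≠ 0) (hD : D.det ≠ 0) (hD' : D'.det ≠ 0) :
    Hm P A⁻¹ A'⁻¹ D⁻¹ D'⁻¹ * Hm P A A' D D' = 1 := by
  rw [Hm_mul, Matrix.nonsing_inv_mul _ (isUnit_iff_ne_zero.2 hA),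
    Matrix.nonsing_inv_mul _ (isUnit_iff_ne_zero.2 hA'),
    Matrix.nonsing_inv_mul _ (isUnit_iff_ne_zero.2 hD),
    Matrix.nonsing_inv_mul _ (isUnit_iff_ne_zero.2 hD'), Hm_one]

end ClAux

open ClAux

theorem K0_rank {g : GL (Fin n) ℂ} (hg : g ∈ K0 pos) (k : ℕ) (l : Fin (P.F + 6) × (ℕ ⊕ ℕ)) :
    Module.finrank ℂ (EJ P k ⊓ cS {x | lab P x = l} : Submodule ℂ (Ix P → ℂ)) =
      Module.finrank ℂ (fl pos g k ⊓ cS {x | lab P x = l} : Submodule ℂ (Ix P → ℂ)) := by
  obtain ⟨A, A', D, D', ⟨bA, bA', bD, bD'⟩, ⟨dA, dA', dD, dD'⟩, hk⟩ := hg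
  have hli := Hm_inv_left (P := P) dA dA' dD dD'
  have hinj : Function.Injective (Matrix.mulVecLin (Hm P A A' D D')) := by
    intro u v huv
    have h := congrArg (fun z => (Hm P A⁻¹ A'⁻¹ D⁻¹ D'⁻¹).mulVec z) huv
    simpa only [Matrix.mulVecLin_apply, Matrix.mulVec_mulVec, hli, Matrix.one_mulVec] using h
  have key : fl pos g k ⊓ cS {x | lab P x = l} =
      (EJ P k ⊓ cS {x | lab P x = l}).map (Matrix.mulVecLin (Hm P A A' D D')) := by
    ext v
    constructor
    · rintro ⟨h1, h2⟩
      rw [hk k] at h1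
      obtain ⟨u, hu, rfl⟩ := h1
      refine ⟨u, ⟨hu, ?_⟩, rfl⟩
      have h3 := Hm_cS (bA.inv dA) (bA'.inv dA') (bD.inv dD) (bD'.inv dD') l h2
      rwa [Matrix.mulVecLin_apply, Matrix.mulVec_mulVec, hli, Matrix.one_mulVec] at h3
    · rintro ⟨u, ⟨h1, h2⟩, rfl⟩
      refine ⟨?_, Hm_cS bA bA' bD bD' l h2⟩
      rw [hk k]
      exact ⟨u, h1, rfl⟩
  rw [key]
  exact (Submodule.equivMapOfInjective _ hinj _).finrank_eq

theorem K0_X {g : GL (Fin n) ℂ} (hg : g ∈ K0 pos) (k : ℕ) :
    (fl pos g (k + 1)).map (Matrix.mulVecLin (Xm P)) ≤ fl pos g k := by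
  obtain ⟨A, A', D, D', -, ⟨dA, dA', dD, dD'⟩, hk⟩ := hg
  rw [hk, hk, ← Submodule.map_comp]
  refine EJ_le P (fun i r hi => ?_) (fun i c hi => ?_)
  · rw [LinearMap.comp_apply, Matrix.mulVecLin_apply, Matrix.mulVecLin_apply, Hm_sU]
    obtain ⟨i, hi6⟩ := i
    rcases i with _ | i
    · rw [Xm_sU_zero]
      exact Submodule.zero_mem _
    · simp only at hi ⊢
      rw [Xm_sU P hi6]
      have step : ∀ w : R → ℂ,
          (if i ≤ 2 then A else if i ≤ P.F + 3 then 1 else A').mulVec w =
            (if i + 1 ≤ 2 then A else if i + 1 ≤ P.F + 3 then 1 else A').mulVec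
              (Pi.single r 1) →
          (∀ r', k < kap P (⟨i, by omega⟩, Sum.inl r') → w r' = 0) →
          sU P i ((if i + 1 ≤ 2 then A else if i + 1 ≤ P.F + 3 then 1 else A').mulVec
              (Pi.single r 1)) ∈ (EJ P k).map (Matrix.mulVecLin (Hm P A A' D D')) := by
        intro w hw hw2
        refine ⟨sU P i w, (sU_mem_EJ P (by omega) w).2 hw2, ?_⟩
        rw [Matrix.mulVecLin_apply, Hm_sU, hw]
      by_cases e3 : i = 2
      · subst e3
        refine step (A⁻¹.mulVec (Pi.single r 1)) ?_ ?_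
        · rw [if_pos le_rfl, if_neg (by omega), if_pos (by omega), Matrix.mulVec_mulVec,
            Matrix.mul_nonsing_inv _ (isUnit_iff_ne_zero.2 dA)]
        · intro r' hr'
          exfalso
          simp only [kap] at hi hr'
          split_ifs at hi hr' <;> omega
      · by_cases e4 : i = P.F + 3
        · refine step (A'.mulVec (Pi.single r 1)) ?_ ?_
          · rw [if_neg (by omega), if_pos (by omega), if_neg (by omega), if_neg (by omega),
              Matrix.one_mulVec]
          · intro r' hr'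
            exfalso
            simp only [kap] at hi hr'
            split_ifs at hi hr' <;> omega
        · refine step (Pi.single r 1) ?_ ?_
          · have : (if i ≤ 2 then A else if i ≤ P.F + 3 then 1 else A') =
                (if i + 1 ≤ 2 then A else if i + 1 ≤ P.F + 3 then 1 else A') := by
              split_ifs <;> first | rfl | omega
            rw [this]
          · intro r' hr'
            by_cases hrr : r' = r
            · exfalso
              subst hrr
              simp only [kap] at hi hr'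
              split_ifs at hi hr' <;> omega
            · rw [Pi.single_eq_of_ne hrr]
  · rw [LinearMap.comp_apply, Matrix.mulVecLin_apply, Matrix.mulVecLin_apply, Hm_sW]
    obtain ⟨i, hi6⟩ := i
    rcases i with _ | i
    · rw [Xm_sW_zero]
      exact Submodule.zero_mem _
    · simp only at hi ⊢
      rw [Xm_sW P hi6]
      have step : ∀ w : C → ℂ,
          (if i ≤ 1 then D else if i ≤ P.F + 2 then 1 else D').mulVec w =
            (if i + 1 ≤ 1 then D else if i + 1 ≤ P.F + 2 then 1 else D').mulVec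
              (Pi.single c 1) →
          (∀ c', k < kap P (⟨i, by omega⟩, Sum.inr c') → w c' = 0) →
          sW P i ((if i + 1 ≤ 1 then D else if i + 1 ≤ P.F + 2 then 1 else D').mulVec
              (Pi.single c 1)) ∈ (EJ P k).map (Matrix.mulVecLin (Hm P A A' D D')) := by
        intro w hw hw2
        refine ⟨sW P i w, (sW_mem_EJ P (by omega) w).2 hw2, ?_⟩
        rw [Matrix.mulVecLin_apply, Hm_sW, hw]
      by_cases e3 : i = 1
      · subst e3
        refine step (D⁻¹.mulVec (Pi.single c 1)) ?_ ?_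
        · rw [if_pos le_rfl, if_neg (by omega), if_pos (by omega), Matrix.mulVec_mulVec,
            Matrix.mul_nonsing_inv _ (isUnit_iff_ne_zero.2 dD)]
        · intro r' hr'
          exfalso
          simp only [kap] at hi hr'
          split_ifs at hi hr' <;> omega
      · by_cases e4 : i = P.F + 2
        · refine step (D'.mulVec (Pi.single c 1)) ?_ ?_
          · rw [if_neg (by omega), if_pos (by omega), if_neg (by omega), if_neg (by omega),
              Matrix.one_mulVec]
          · intro r' hr'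
            exfalso
            simp only [kap] at hi hr'
            split_ifs at hi hr' <;> omega
        · refine step (Pi.single c 1) ?_ ?_
          · have : (if i ≤ 1 then D else if i ≤ P.F + 2 then 1 else D') =
                (if i + 1 ≤ 1 then D else if i + 1 ≤ P.F + 2 then 1 else D') := by
              split_ifs <;> first | rfl | omega
            rw [this]
          · intro r' hr'
            by_cases hrr : r' = c
            · exfalso
              subst hrr
              simp only [kap] at hi hr'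
              split_ifs at hi hr' <;> omega
            · rw [Pi.single_eq_of_ne hrr]

theorem K0_springer {g : GL (Fin n) ℂ} (hg : g ∈ K0 pos) : pt g ∈ springerFiber (Xn pos) :=
  springer_of g fun k => K0_X hg k

end Pd6ff58.J
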