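import Pool.Agent.Lib.Pd6J.ZRk

/-!
# Module SplA (`split`, `finrank_parts`): linear algebra of coordinate partitions

`cS {x | lab x = l}` is the part with the label `l`.
PROOF of `split`: the sum of the subspaces `G ⊓ cS {lab = l}`, `l ∈ s`, is direct (the parts are
independent), so it has dimension `∑ finrank (G ⊓ part l) ≥ ∑ d l ≥ finrank G`, and it is contained in
`G`: it is `G` and all inequalities are equalities. So the component `v|_l` of a `v ∈ G` is in `G`.
PROOF of `exists_BD`: for every label `l` of a block, `B ⊓ part l` and `Epiv ⊓ part l` are subspaces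
of the coordinate space `part l` of the same dimension: there is a linear automorphism `A_l` of
`part l` mapping the second onto the first (extend bases; or `LinearEquiv` of complements). `A` := the
block diagonal matrix with the blocks `A_l`. (`T` is finite, only finitely many labels occur.)
-/

open MvPolynomial

noncomputable section

namespace Pd6ff58.J

namespace SplAAux

/-- the intersection of `G` with the part of the label `l` -/
def Pt {I Λ : Type} (lab : I → Λ) (G : Submodule ℂ (I → ℂ)) (l : Λ) : Submodule ℂ (I → ℂ) :=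
  G ⊓ cS {x | lab x = l}

/-- the sum map -/
def sm {I Λ : Type} (lab : I → Λ) (s : Finset Λ) (G : Submodule ℂ (I → ℂ)) :
    ((l : s) → Pt lab G (l : Λ)) →ₗ[ℂ] (I → ℂ) where
  toFun p := ∑ l, (p l : I → ℂ)
  map_add' p q := by
    simp only [Pi.add_apply, Submodule.coe_add, Finset.sum_add_distrib]
  map_smul' c p := by
    simp only [Pi.smul_apply, Submodule.coe_smul, Finset.smul_sum, RingHom.id_apply]

theorem sm_apply {I Λ : Type} {lab : I → Λ} {s : Finset Λ}
    (G : Submodule ℂ (I → ℂ)) (p : (l : s) → Pt lab G (l : Λ)) (x : I) (l : s) (hl : lab x = l) :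
    sm lab s G p x = (p l : I → ℂ) x := by
  have h1 : sm lab s G p x = ∑ l, (p l : I → ℂ) x := by
    show (∑ l, (p l : I → ℂ)) x = _
    rw [Finset.sum_apply]
  rw [h1, Finset.sum_eq_single l]
  · intro l' _ hne
    have h2 := (Submodule.mem_inf.mp (p l').2).2
    apply mem_cS.mp h2
    intro h3
    apply hne
    apply Subtype.ext
    have h4 : lab x = (l' : Λ) := h3
    rw [← h4, hl]
  · intro h
    exact absurd (Finset.mem_univ _) h

theorem sm_inj {I Λ : Type} [Fintype I] {lab : I → Λ} {s : Finset Λ}
    (G : Submodule ℂ (I → ℂ)) : Function.Injective (sm lab s G) := by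
  rw [← LinearMap.ker_eq_bot, LinearMap.ker_eq_bot']
  intro p hp
  funext l
  apply Subtype.ext
  funext x
  by_cases hx : lab x = l
  · have h1 := sm_apply G p x l hx
    rw [hp] at h1
    rw [← h1]
    rfl
  · have h2 := (Submodule.mem_inf.mp (p l).2).2
    rw [mem_cS.mp h2 x hx]
    rfl

theorem sm_range_le {I Λ : Type} {lab : I → Λ} {s : Finset Λ}
    (G : Submodule ℂ (I → ℂ)) : LinearMap.range (sm lab s G) ≤ G := by
  rintro v ⟨p, rfl⟩
  exact Submodule.sum_mem _ (fun l _ => (Submodule.mem_inf.mp (p l).2).1)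

theorem sm_finrank {I Λ : Type} [Fintype I] (lab : I → Λ) (s : Finset Λ)
    (G : Submodule ℂ (I → ℂ)) : Module.finrank ℂ (LinearMap.range (sm lab s G)) =
      ∑ l ∈ s, Module.finrank ℂ (G ⊓ cS {x | lab x = l} : Submodule ℂ (I → ℂ)) := by
  rw [LinearMap.finrank_range_of_inj (sm_inj G), Module.finrank_pi_fintype]
  exact Finset.sum_coe_sort s
    (fun l => Module.finrank ℂ (G ⊓ cS {x | lab x = l} : Submodule ℂ (I → ℂ)))

end SplAAux

open SplAAux in
theorem split {I Λ : Type} [Fintype I] [DecidableEq Λ] (lab : I → Λ) (s : Finset Λ)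
    (hs : ∀ x, lab x ∈ s) (G : Submodule ℂ (I → ℂ)) (d : Λ → ℕ)
    (h : ∀ l ∈ s, d l ≤ Module.finrank ℂ (G ⊓ cS {x | lab x = l} : Submodule ℂ (I → ℂ)))
    (hG : Module.finrank ℂ G ≤ ∑ l ∈ s, d l) :
    (∀ l ∈ s, Module.finrank ℂ (G ⊓ cS {x | lab x = l} : Submodule ℂ (I → ℂ)) = d l) ∧
    ∀ v ∈ G, ∀ l, (fun x => if lab x = l then v x else 0) ∈ G := by
  have h1 := Submodule.finrank_mono (sm_range_le (lab := lab) (s := s) G)
  rw [sm_finrank] at h1
  have h2 := Finset.sum_le_sum h
  refine ⟨?_, ?_⟩
  · have h3 := (Finset.sum_eq_sum_iff_of_le h).mp (le_antisymm h2 (h1.trans hG))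
    intro l hl
    exact (h3 l hl).symm
  · have h3 : LinearMap.range (sm lab s G) = G := by
      apply Submodule.eq_of_le_of_finrank_le (sm_range_le G)
      rw [sm_finrank]
      exact hG.trans h2
    intro v hv l
    rw [← h3] at hv
    obtain ⟨p, rfl⟩ := hv
    by_cases hl : l ∈ s
    · have h4 : (fun x => if lab x = l then sm lab s G p x else 0) = (p ⟨l, hl⟩ : I → ℂ) := by
        funext x
        by_cases hx : lab x = l
        · rw [if_pos hx]
          exact sm_apply G p x ⟨l, hl⟩ hx
        · rw [if_neg hx]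
          have h5 := (Submodule.mem_inf.mp (p ⟨l, hl⟩).2).2
          rw [mem_cS.mp h5 x hx]
      rw [h4]
      exact (Submodule.mem_inf.mp (p ⟨l, hl⟩).2).1
    · have h4 : (fun x => if lab x = l then sm lab s G p x else 0) = (0 : I → ℂ) := by
        funext x
        rw [if_neg (fun hx : lab x = l => hl (hx ▸ hs x))]
        rfl
      rw [h4]
      exact G.zero_mem

open SplAAux in
/-- dimension of a coordinate subspace as the sum over the parts -/
theorem finrank_parts {I Λ : Type} [Fintype I] [DecidableEq Λ] (lab : I → Λ) (s : Finset Λ)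
    (hs : ∀ x, lab x ∈ s) (T : Set I) :
    Module.finrank ℂ (cS T) =
      ∑ l ∈ s, Module.finrank ℂ (cS T ⊓ cS {x | lab x = l} : Submodule ℂ (I → ℂ)) := by
  have h3 : LinearMap.range (sm lab s (cS T)) = cS T := by
    apply le_antisymm (sm_range_le _)
    intro v hv
    refine ⟨fun l => ⟨fun x => if lab x = l then v x else 0, ?_⟩, ?_⟩
    · refine Submodule.mem_inf.mpr ⟨?_, ?_⟩
      · rw [mem_cS]
        intro x hx
        rw [mem_cS.mp hv x hx]
        split_ifs <;> rfl
      · rw [mem_cS]
        intro x hx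
        exact if_neg hx
    · funext x
      rw [sm_apply (cS T) _ x ⟨lab x, hs x⟩ rfl]
      exact if_pos rfl
  rw [← sm_finrank, h3]

end Pd6ff58.J
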