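import Pool.Agent.Lib.Pd6J.ZRk

/-!
# Module SplB (`exists_BD`): linear algebra of coordinate partitions

`cS {x | lab x = l}` is the part with the label `l`.
PROOF of `split`: the sum of the subspaces `G ⊓ cS {lab = l}`, `l ∈ s`, is direct (the parts are
independent), so it has dimension `∑ finrank (G ⊓ part l) ≥ ∑ d l ≥ finrank G`, and it is contained in
`G`: it is `G` and all inequalities are equalities. So the component `v|_l` of a `v ∈ G` is in `G`.
PROOF of `exists_BD`: for every label `l` of a block, `B ⊓ part l` and `Epiv ⊓ part l` are subspaces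
of the coordinate space `part l` of the same dimension: there is a linear automorphism `A_l` of
`part l` mapping the second onto the first (extend bases; or `LinearEquiv` of complements). `A` := the
block diagonal matrix with the blocks `A_l`. (`T` is finite, only finitely many labels occur.)
-/

open MvPolynomial

noncomputable section

namespace Pd6ff58.J

namespace SplBAux

/-- two subspaces of the same dimension are conjugate -/
theorem exists_equiv_map {W : Type} [AddCommGroup W] [Module ℂ W] [FiniteDimensional ℂ W]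
    (E B : Submodule ℂ W) (h : Module.finrank ℂ E = Module.finrank ℂ B) :
    ∃ e : W ≃ₗ[ℂ] W, ∀ v, v ∈ E ↔ e v ∈ B := by
  obtain ⟨E', hE⟩ := E.exists_isCompl
  obtain ⟨B', hB⟩ := B.exists_isCompl
  have h' : Module.finrank ℂ E' = Module.finrank ℂ B' := by
    have h1 := Submodule.finrank_add_eq_of_isCompl hE
    have h2 := Submodule.finrank_add_eq_of_isCompl hB
    omega
  let f := LinearEquiv.ofFinrankEq E B h
  let f' := LinearEquiv.ofFinrankEq E' B' h'
  let e : W ≃ₗ[ℂ] W := ((E.prodEquivOfIsCompl E' hE).symm.trans (f.prodCongr f')).trans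
    (B.prodEquivOfIsCompl B' hB)
  have key : ∀ (a : E) (b : E'), e (a + b) = (f a : W) + (f' b : W) := by
    intro a b
    have h1 : (E.prodEquivOfIsCompl E' hE).symm ((a : W) + b) = (a, b) := by
      rw [LinearEquiv.symm_apply_eq]
      rfl
    change (B.prodEquivOfIsCompl B' hB) ((f.prodCongr f')
      ((E.prodEquivOfIsCompl E' hE).symm ((a : W) + b))) = _
    rw [h1]
    rfl
  refine ⟨e, fun v => ?_⟩
  obtain ⟨⟨a, b⟩, hab⟩ := (E.prodEquivOfIsCompl E' hE).surjective v
  have hv : v = (a : W) + b := hab.symm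
  rw [hv, key]
  constructor
  · intro hm
    have hb : (b : W) ∈ E := (Submodule.add_mem_iff_right E a.2).1 hm
    have hb0 : (b : W) = 0 := (Submodule.disjoint_def.1 hE.disjoint) _ hb b.2
    have : b = 0 := Subtype.ext hb0
    rw [this, map_zero]
    simp
  · intro hm
    have hb : (f' b : W) ∈ B := (Submodule.add_mem_iff_right B (f a).2).1 hm
    have hb0 : (f' b : W) = 0 := (Submodule.disjoint_def.1 hB.disjoint) _ hb (f' b).2
    have h1 : f' b = 0 := Subtype.ext hb0
    have h2 : b = 0 := by simpa using h1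
    rw [h2]
    simp

variable {T : Type}

/-- projection onto a part -/
def pr (S : Blk T) (l : ℕ) : (T → ℂ) →ₗ[ℂ] (cS {x | S.blk x = l} : Submodule ℂ (T → ℂ)) where
  toFun v := ⟨fun x => if S.blk x = l then v x else 0, fun x hx => if_neg hx⟩
  map_add' a b := by
    apply Subtype.ext
    funext x
    by_cases h : S.blk x = l <;> simp [h]
  map_smul' t a := by
    apply Subtype.ext
    funext x
    by_cases h : S.blk x = l <;> simp [h]

theorem pr_apply (S : Blk T) (l : ℕ) (v : T → ℂ) (x : T) :
    (pr S l v : T → ℂ) x = if S.blk x = l then v x else 0 := rfl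

theorem pr_ext (S : Blk T) {v w : T → ℂ} (h : ∀ l, pr S l v = pr S l w) : v = w := by
  funext x
  have := congrFun (congrArg Subtype.val (h (S.blk x))) x
  change (pr S (S.blk x) v : T → ℂ) x = (pr S (S.blk x) w : T → ℂ) x at this
  rwa [pr_apply, pr_apply, if_pos rfl, if_pos rfl] at this

theorem mem_of [Fintype T] (S : Blk T) {B : Submodule ℂ (T → ℂ)} {w : T → ℂ}
    (h : ∀ l, (pr S l w : T → ℂ) ∈ B) : w ∈ B := by
  classical
  have e : w = ∑ l ∈ Finset.univ.image S.blk, (pr S l w : T → ℂ) := by
    funext x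
    rw [Finset.sum_apply]
    simp only [pr_apply]
    rw [Finset.sum_ite_eq, if_pos (Finset.mem_image_of_mem _ (Finset.mem_univ x))]
  rw [e]
  exact B.sum_mem fun l _ => h l

end SplBAux

open SplBAux

theorem exists_BD {T : Type} [Fintype T] [DecidableEq T] (S : Blk T) (B : Submodule ℂ (T → ℂ))
    (hB : ∀ v ∈ B, ∀ l, (fun x => if S.blk x = l then v x else 0) ∈ B)
    (hd : ∀ l, Module.finrank ℂ (B ⊓ cS {x | S.blk x = l} : Submodule ℂ (T → ℂ)) =
      Module.finrank ℂ (Epiv S ⊓ cS {x | S.blk x = l} : Submodule ℂ (T → ℂ))) :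
    ∃ A : Matrix T T ℂ, BD S A ∧ A.det ≠ 0 ∧ B = (Epiv S).map (Matrix.mulVecLin A) := by
  have hex : ∀ l, ∃ e : (cS {x | S.blk x = l} : Submodule ℂ (T → ℂ)) ≃ₗ[ℂ]
      (cS {x | S.blk x = l} : Submodule ℂ (T → ℂ)),
      ∀ v : (cS {x | S.blk x = l} : Submodule ℂ (T → ℂ)),
        (v : T → ℂ) ∈ Epiv S ↔ (e v : T → ℂ) ∈ B := by
    intro l
    refine exists_equiv_map ((Epiv S).comap (cS {x | S.blk x = l}).subtype)
      (B.comap (cS {x | S.blk x = l}).subtype) ?_
    rw [← Submodule.finrank_map_subtype_eq, Submodule.map_comap_subtype,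
      ← Submodule.finrank_map_subtype_eq (cS {x | S.blk x = l})
        (B.comap (cS {x | S.blk x = l}).subtype), Submodule.map_comap_subtype,
      inf_comm, ← hd l, inf_comm]
  choose e he using hex
  let f : (T → ℂ) →ₗ[ℂ] (T → ℂ) :=
    { toFun := fun v x => (e (S.blk x) (pr S (S.blk x) v) : T → ℂ) x
      map_add' := by
        intro a b
        funext x
        simp
      map_smul' := by
        intro t a
        funext x
        simp }
  have hf : ∀ v x, f v x = (e (S.blk x) (pr S (S.blk x) v) : T → ℂ) x := fun _ _ => rfl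
  have hpr : ∀ v l, pr S l (f v) = e l (pr S l v) := by
    intro v l
    apply Subtype.ext
    funext x
    rw [pr_apply]
    by_cases hx : S.blk x = l
    · subst hx
      rw [if_pos rfl, hf]
    · rw [if_neg hx]
      exact ((e l (pr S l v)).2 x hx).symm
  have hEpr : ∀ v ∈ Epiv S, ∀ l, (pr S l v : T → ℂ) ∈ Epiv S := by
    intro v hv l x hx
    rw [pr_apply, hv x hx]
    simp
  have hA : ∀ v, (LinearMap.toMatrix' f).mulVec v = f v := fun v => by
    rw [LinearMap.toMatrix'_mulVec]
  refine ⟨LinearMap.toMatrix' f, ?_, ?_, le_antisymm ?_ ?_⟩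
  · intro x y hxy
    rw [LinearMap.toMatrix'_apply, hf] at hxy
    by_contra hne
    apply hxy
    have h1 : pr S (S.blk x) (fun j' => if j' = y then (1 : ℂ) else 0) = 0 := by
      apply Subtype.ext
      funext z
      rw [pr_apply]
      by_cases hz : S.blk z = S.blk x
      · rw [if_pos hz, if_neg]
        · rfl
        · rintro rfl
          exact hne hz.symm
      · rw [if_neg hz]
        rfl
    have h2 : (Pi.single y 1 : T → ℂ) = fun j' => if j' = y then (1 : ℂ) else 0 := by
      funext j
      rw [Pi.single_apply]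
    rw [h2, h1, map_zero]
    rfl
  · intro hdet
    obtain ⟨v, hv, hv0⟩ := Matrix.exists_mulVec_eq_zero_iff.2 hdet
    apply hv
    rw [hA] at hv0
    apply pr_ext S
    intro l
    have h1 := hpr v l
    rw [hv0, map_zero] at h1
    rw [map_zero]
    exact (LinearEquiv.map_eq_zero_iff (e l)).1 h1.symm
  · intro b hb
    let u : ∀ l, (cS {x | S.blk x = l} : Submodule ℂ (T → ℂ)) := fun l => (e l).symm (pr S l b)
    let v : T → ℂ := fun x => (u (S.blk x) : T → ℂ) x
    have hu : ∀ l, (u l : T → ℂ) ∈ Epiv S := by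
      intro l
      rw [he l (u l)]
      change ((e l ((e l).symm (pr S l b)) : (cS {x | S.blk x = l} : Submodule ℂ (T → ℂ))) :
        T → ℂ) ∈ B
      rw [LinearEquiv.apply_symm_apply]
      exact hB b hb l
    have hv : ∀ l, pr S l v = u l := by
      intro l
      apply Subtype.ext
      funext x
      rw [pr_apply]
      by_cases hx : S.blk x = l
      · subst hx
        rw [if_pos rfl]
      · rw [if_neg hx]
        exact ((u l).2 x hx).symm
    refine ⟨v, fun x hx => hu (S.blk x) x hx, ?_⟩
    rw [Matrix.mulVecLin_apply, hA]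
    apply pr_ext S
    intro l
    rw [hpr, hv]
    exact LinearEquiv.apply_symm_apply _ _
  · rintro _ ⟨v, hv, rfl⟩
    rw [Matrix.mulVecLin_apply, hA]
    apply mem_of S
    intro l
    rw [hpr, ← he l]
    exact hEpr v hv l

end Pd6ff58.J
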