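import Pool.Agent.Lib.Pd6J.ClA
import Pool.Agent.Lib.Pd6J.SplA
import Pool.Agent.Lib.Pd6J.SplB

/-!
# Module ClB: `K0` is closed

PROOF of `K0_of`. Write `G_k = fl pos g k`, `part l = cS {lab = l}`. `finrank G_k = tt k = finrank (EJ k) =
∑ finrank (EJ k ⊓ part l)` (`finrank_parts`, `EJ k = cS {kap ≤ k}`), so `split` (`s` = the image of `lab`)
gives: `finrank (G_k ⊓ part l) = finrank (EJ k ⊓ part l)` for all `l`, and `G_k` is graded by `lab`.
In particular (FULL) if all `x` with `lab x = l` have `kap x ≤ k` then `part l ≤ G_k`.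
`B := (G_1).comap (sU P 0)`: graded by `Rlo.blk`, and `finrank (B ⊓ {blk = b}) = finrank (G_1 ⊓ part (0, inl b))
= finrank (EJ 1 ⊓ part (0, inl b)) = finrank (Epiv ⊓ {blk = b})`. `exists_BD` gives `A` with `BD`,
`det ≠ 0`, `B = A (Epiv)`. For `i = 1, 2`: `(G_{i+1}).comap (sU i) ≤ (G_i).comap (sU (i-1))` by `h2` (`X U_i u =
U_{i-1} u`) and the dimensions are equal (both `= ∑_b finrank (Epiv ⊓ {blk = b})`), so
`(G_{i+1}).comap (sU i) = B` for `i ≤ 2`.
`N := (G_2).comap (sW 0)`, `(G_3).comap (sW 1) = N`: gives `D`.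
`B' := (G_{F+7}).comap (sU (F+5)) = (G_{F+6}).comap (sU (F+4))`: gives `A'`.
`N' := (G_{F+8}).comap (sW (F+5)) = (G_{F+7}).comap (sW (F+4)) = (G_{F+6}).comap (sW (F+3))`: gives `D'`.
`H := Hm P A A' D D'`. `H (EJ k) ≤ G_k` by `EJ_le`, hence equality (dimensions, `Hm_det`): `H (U_i e_r) =
U_i (A_i e_r)`. `i ≤ 2`, `r` a pivot: `A e_r ∈ B`, in `G_{i+1}`; `r` not a pivot: `k ≥ i + 2` and (FULL) for
all labels `(i, inl b)`. `3 ≤ i ≤ F+3`: (FULL), `k ≥ i + 2`. `i ≥ F+4`: the same with `B'`. The `W_i`: the same.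
PROOF of `zcl_K0`: the hypotheses of `K0_of` are closed conditions (`zcl_fl`, `zcl_flX`) which hold
on `K0` (`K0_rank`, `K0_X`).
-/

open MvPolynomial

noncomputable section

namespace Pd6ff58.J

variable {R C : Type} [DecidableEq R] [DecidableEq C] [Fintype R] [Fintype C]
  {P : Par R C} {n : ℕ} {pos tim : Ix P ≃ Fin n} {Φ : Set (Fin P.F)}

namespace ClBAux

section gen

variable {I T Λ : Type}

/-- `s` places the coordinates `T` at `ι`, with the labels of the blocks -/
structure Plc (lb : I → Λ) (s : (T → ℂ) →ₗ[ℂ] (I → ℂ)) (ι : T → I) (blk : T → ℕ)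
    (L : ℕ → Λ) : Prop where
  at_ : ∀ u t, s u (ι t) = u t
  off : ∀ u x, (∀ t, x ≠ ι t) → s u x = 0
  lb1 : ∀ t b, lb (ι t) = L b ↔ blk t = b
  lb2 : ∀ x b, lb x = L b → ∃ t, x = ι t

variable {lb : I → Λ} {s : (T → ℂ) →ₗ[ℂ] (I → ℂ)} {ι : T → I} {blk : T → ℕ} {L : ℕ → Λ}

theorem Plc.inj (h : Plc lb s ι blk L) : Function.Injective s := by
  intro u u' e
  funext t
  rw [← h.at_ u t, e, h.at_ u' t]

theorem Plc.map_eq (h : Plc lb s ι blk L) (G : Submodule ℂ (I → ℂ)) (b : ℕ) :
    (G.comap s ⊓ cS {t | blk t = b}).map s = G ⊓ cS {x | lb x = L b} := by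
  ext v
  constructor
  · rintro ⟨u, ⟨hu1, hu2⟩, rfl⟩
    refine ⟨hu1, ?_⟩
    intro x hx
    by_cases hxt : ∃ t, x = ι t
    · obtain ⟨t, rfl⟩ := hxt
      rw [h.at_]
      apply hu2
      intro hb
      exact hx ((h.lb1 _ _).2 hb)
    · exact h.off _ _ (fun t ht => hxt ⟨t, ht⟩)
  · rintro ⟨hv1, hv2⟩
    have e : s (fun t => v (ι t)) = v := by
      funext x
      by_cases hxt : ∃ t, x = ι t
      · obtain ⟨t, rfl⟩ := hxt
        rw [h.at_]
      · rw [h.off _ _ (fun t ht => hxt ⟨t, ht⟩)]
        symm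
        apply hv2
        intro hx
        exact hxt (h.lb2 _ _ hx)
    refine ⟨fun t => v (ι t), ⟨?_, ?_⟩, e⟩
    · show s (fun t => v (ι t)) ∈ G
      rw [e]
      exact hv1
    · intro t ht
      apply hv2
      intro hx
      exact ht ((h.lb1 _ _).1 hx)

theorem Plc.finrank (h : Plc lb s ι blk L) (G : Submodule ℂ (I → ℂ)) (b : ℕ) :
    Module.finrank ℂ (G.comap s ⊓ cS {t | blk t = b} : Submodule ℂ (T → ℂ)) =
      Module.finrank ℂ (G ⊓ cS {x | lb x = L b} : Submodule ℂ (I → ℂ)) := by
  rw [← h.map_eq G b]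
  exact (Submodule.equivMapOfInjective s h.inj _).finrank_eq

theorem Plc.graded [DecidableEq Λ] (h : Plc lb s ι blk L) {G : Submodule ℂ (I → ℂ)}
    (hG : ∀ v ∈ G, ∀ l, (fun x => if lb x = l then v x else 0) ∈ G) :
    ∀ u ∈ G.comap s, ∀ b, (fun t => if blk t = b then u t else 0) ∈ G.comap s := by
  intro u hu b
  have e : s (fun t => if blk t = b then u t else 0) =
      fun x => if lb x = L b then s u x else 0 := by
    funext x
    by_cases hxt : ∃ t, x = ι t
    · obtain ⟨t, rfl⟩ := hxt
      simp only [h.at_, h.lb1]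
    · rw [h.off _ _ (fun t ht => hxt ⟨t, ht⟩), h.off u x (fun t ht => hxt ⟨t, ht⟩)]
      simp
  show s (fun t => if blk t = b then u t else 0) ∈ G
  rw [e]
  exact hG _ hu _

theorem graded_le [Fintype T] {B B' : Submodule ℂ (T → ℂ)} (blk : T → ℕ)
    (hB : ∀ v ∈ B, ∀ l, (fun x => if blk x = l then v x else 0) ∈ B)
    (h : ∀ l, B ⊓ cS {x | blk x = l} ≤ B') : B ≤ B' := by
  intro v hv
  have e : v = ∑ l ∈ Finset.univ.image blk, (fun x => if blk x = l then v x else 0) := by
    funext x
    rw [Finset.sum_apply, Finset.sum_ite_eq]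
    simp
  rw [e]
  refine Submodule.sum_mem _ fun l _ => h l ⟨hB v hv l, ?_⟩
  intro x hx
  have hx' : ¬ blk x = l := hx
  show (if blk x = l then v x else 0) = 0
  rw [if_neg hx']

theorem Plc.full [Fintype T] (h : Plc lb s ι blk L) {G E : Submodule ℂ (I → ℂ)}
    (hd : ∀ l, Module.finrank ℂ (G ⊓ cS {x | lb x = l} : Submodule ℂ (I → ℂ)) =
      Module.finrank ℂ (E ⊓ cS {x | lb x = l} : Submodule ℂ (I → ℂ)))
    (hE : E.comap s = ⊤) : ∀ u, s u ∈ G := by
  have h1 : ∀ b, G.comap s ⊓ cS {t | blk t = b} = cS {t | blk t = b} := by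
    intro b
    apply Submodule.eq_of_le_of_finrank_eq inf_le_right
    rw [h.finrank, hd, ← h.finrank, hE, top_inf_eq]
  have h2 : (⊤ : Submodule ℂ (T → ℂ)) ≤ G.comap s := by
    refine graded_le blk (fun _ _ _ => trivial) (fun b => ?_)
    rw [top_inf_eq, ← h1 b]
    exact inf_le_left
  intro u
  exact h2 (show u ∈ (⊤ : Submodule ℂ (T → ℂ)) from trivial)

theorem fam [Fintype T] [DecidableEq T] (S : Blk T) (B : ℕ → Submodule ℂ (T → ℂ)) (m : ℕ)
    (F1 : ∀ j ≤ m, ∀ v ∈ B j, ∀ l, (fun x => if S.blk x = l then v x else 0) ∈ B j)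
    (F2 : ∀ j ≤ m, ∀ l,
      Module.finrank ℂ (B j ⊓ cS {x | S.blk x = l} : Submodule ℂ (T → ℂ)) =
      Module.finrank ℂ (Epiv S ⊓ cS {x | S.blk x = l} : Submodule ℂ (T → ℂ)))
    (F3 : ∀ j, j + 1 ≤ m → B (j + 1) ≤ B j) :
    ∃ A : Matrix T T ℂ, BD S A ∧ A.det ≠ 0 ∧
      ∀ j ≤ m, B j = (Epiv S).map (Matrix.mulVecLin A) := by
  obtain ⟨A, hA1, hA2, hA3⟩ := exists_BD S (B 0) (F1 0 (Nat.zero_le _)) (F2 0 (Nat.zero_le _))
  refine ⟨A, hA1, hA2, ?_⟩
  intro j
  induction j with
  | zero => intro _; exact hA3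
  | succ j ih =>
    intro hj
    rw [← ih (by omega)]
    refine le_antisymm (F3 j hj) ?_
    refine graded_le S.blk (F1 j (by omega)) (fun l => ?_)
    have h1 : B (j + 1) ⊓ cS {x | S.blk x = l} = B j ⊓ cS {x | S.blk x = l} := by
      apply Submodule.eq_of_le_of_finrank_eq (inf_le_inf_right _ (F3 j hj))
      rw [F2 _ hj, F2 _ (by omega)]
    rw [← h1]
    exact inf_le_left

end gen

section spec

variable {R C : Type}

/-- the labels of the blocks of `U_i` -/
def blkU (P : Par R C) (i : ℕ) (r : R) : ℕ :=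
  if i ≤ 2 then P.Rlo.blk r else if i ≤ P.F + 3 then 0 else P.Rhi.blk r

/-- the labels of the blocks of `W_i` -/
def blkW (P : Par R C) (i : ℕ) (c : C) : ℕ :=
  if i ≤ 1 then P.Clo.blk c else if i ≤ P.F + 2 then 0 else P.Chi.blk c

theorem plcU [DecidableEq R] [DecidableEq C] [Fintype R] [Fintype C] (P : Par R C) {i : ℕ}
    (hi : i < P.F + 6) :
    Plc (lab P) (sU P i) (fun r => ((⟨i, hi⟩ : Fin (P.F + 6)), Sum.inl r)) (blkU P i)
      (fun b => ((⟨i, hi⟩ : Fin (P.F + 6)), Sum.inl b)) := by
  constructor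
  · intro u t
    rw [sU_apply]
    simp
  · rintro u ⟨j, r | c⟩ hx
    · rw [sU_apply]
      rw [if_neg]
      intro hj
      apply hx r
      have : j = ⟨i, hi⟩ := Fin.ext hj
      rw [this]
    · rw [sU_apply]
      simp
  · intro t b
    show (((⟨i, hi⟩ : Fin (P.F + 6)), Sum.inl (if i ≤ 2 then P.Rlo.blk t else
      if i ≤ P.F + 3 then 0 else P.Rhi.blk t)) : Fin (P.F + 6) × (ℕ ⊕ ℕ)) =
      ((⟨i, hi⟩ : Fin (P.F + 6)), Sum.inl b) ↔ blkU P i t = b
    rw [Prod.mk.injEq, Sum.inl.injEq]
    unfold blkU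
    simp
  · rintro ⟨j, r | c⟩ b hx
    · refine ⟨r, ?_⟩
      have : j = ⟨i, hi⟩ := congrArg Prod.fst hx
      rw [this]
    · have := congrArg Prod.snd hx
      exact absurd this (by simp [lab])

theorem plcW [DecidableEq R] [DecidableEq C] [Fintype R] [Fintype C] (P : Par R C) {i : ℕ}
    (hi : i < P.F + 6) :
    Plc (lab P) (sW P i) (fun c => ((⟨i, hi⟩ : Fin (P.F + 6)), Sum.inr c)) (blkW P i)
      (fun b => ((⟨i, hi⟩ : Fin (P.F + 6)), Sum.inr b)) := by
  constructor
  · intro u t
    rw [sW_apply]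
    simp
  · rintro u ⟨j, r | c⟩ hx
    · rw [sW_apply]
      simp
    · rw [sW_apply]
      rw [if_neg]
      intro hj
      apply hx c
      have : j = ⟨i, hi⟩ := Fin.ext hj
      rw [this]
  · intro t b
    show (((⟨i, hi⟩ : Fin (P.F + 6)), Sum.inr (if i ≤ 1 then P.Clo.blk t else
      if i ≤ P.F + 2 then 0 else P.Chi.blk t)) : Fin (P.F + 6) × (ℕ ⊕ ℕ)) =
      ((⟨i, hi⟩ : Fin (P.F + 6)), Sum.inr b) ↔ blkW P i t = b
    rw [Prod.mk.injEq, Sum.inr.injEq]
    unfold blkW
    simp
  · rintro ⟨j, r | c⟩ b hx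
    · have := congrArg Prod.snd hx
      exact absurd this (by simp [lab])
    · refine ⟨c, ?_⟩
      have : j = ⟨i, hi⟩ := congrArg Prod.fst hx
      rw [this]

end spec

end ClBAux

open ClBAux in
theorem K0_of {g : GL (Fin n) ℂ}
    (h1 : ∀ k l, Module.finrank ℂ (EJ P k ⊓ cS {x | lab P x = l} : Submodule ℂ (Ix P → ℂ)) ≤
      Module.finrank ℂ (fl pos g k ⊓ cS {x | lab P x = l} : Submodule ℂ (Ix P → ℂ)))
    (h2 : ∀ k, (fl pos g (k + 1)).map (Matrix.mulVecLin (Xm P)) ≤ fl pos g k) : g ∈ K0 pos := by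
  have hs : ∀ x, lab P x ∈ (Finset.univ.image (lab P)) := by
    intro x
    exact Finset.mem_image_of_mem _ (Finset.mem_univ _)
  have key : ∀ k, (∀ l, Module.finrank ℂ (fl pos g k ⊓ cS {x | lab P x = l} :
        Submodule ℂ (Ix P → ℂ)) =
      Module.finrank ℂ (EJ P k ⊓ cS {x | lab P x = l} : Submodule ℂ (Ix P → ℂ))) ∧
      ∀ v ∈ fl pos g k, ∀ l, (fun x => if lab P x = l then v x else 0) ∈ fl pos g k := by
    intro k
    have hE : EJ P k = cS {x | kap P x ≤ k} := by
      ext v
      rw [mem_EJ, mem_cS]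
      constructor
      · intro h x hx
        exact h x (not_le.1 hx)
      · intro h x hx
        exact h x (not_le.2 hx)
    have h3 := split (lab P) (Finset.univ.image (lab P)) hs (fl pos g k)
      (fun l => Module.finrank ℂ (EJ P k ⊓ cS {x | lab P x = l} : Submodule ℂ (Ix P → ℂ)))
      (fun l _ => h1 k l) (by
        rw [finrank_fl, ← finrank_EJ, hE]
        exact (finrank_parts (lab P) _ hs _).le)
    refine ⟨fun l => ?_, h3.2⟩
    by_cases hl : l ∈ Finset.univ.image (lab P)
    · exact h3.1 l hl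
    · have hb : (cS {x | lab P x = l} : Submodule ℂ (Ix P → ℂ)) = ⊥ := by
        rw [Submodule.eq_bot_iff]
        intro v hv
        funext x
        apply hv
        intro hx
        exact hl (hx ▸ hs x)
      rw [hb, inf_bot_eq, inf_bot_eq]
  -- the full subspaces
  have fullU : ∀ (k i : ℕ) (hi : i < P.F + 6), (∀ r, kap P (⟨i, hi⟩, Sum.inl r) ≤ k) →
      ∀ u, sU P i u ∈ fl pos g k := by
    intro k i hi hk
    refine (plcU P hi).full (key k).1 ?_
    rw [Submodule.eq_top_iff']
    intro u
    show sU P i u ∈ EJ P k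
    rw [sU_mem_EJ P hi]
    intro r hr
    exact absurd hr (not_lt.2 (hk r))
  have fullW : ∀ (k i : ℕ) (hi : i < P.F + 6), (∀ c, kap P (⟨i, hi⟩, Sum.inr c) ≤ k) →
      ∀ u, sW P i u ∈ fl pos g k := by
    intro k i hi hk
    refine (plcW P hi).full (key k).1 ?_
    rw [Submodule.eq_top_iff']
    intro u
    show sW P i u ∈ EJ P k
    rw [sW_mem_EJ P hi]
    intro r hr
    exact absurd hr (not_lt.2 (hk r))
  -- the families
  have famU : ∀ (S : Blk R) (i0 k0 m : ℕ), i0 + m < P.F + 6 →
      (∀ j ≤ m, blkU P (i0 + j) = S.blk) →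
      (∀ j ≤ m, ∀ (hi : i0 + j < P.F + 6) r,
        k0 + j < kap P (⟨i0 + j, hi⟩, Sum.inl r) ↔ ¬ S.piv r) →
      ∃ A : Matrix R R ℂ, BD S A ∧ A.det ≠ 0 ∧
        ∀ j ≤ m, (fl pos g (k0 + j)).comap (sU P (i0 + j)) =
          (Epiv S).map (Matrix.mulVecLin A) := by
    intro S i0 k0 m him hb hk
    refine fam S (fun j => (fl pos g (k0 + j)).comap (sU P (i0 + j))) m ?_ ?_ ?_
    · intro j hj
      have := (plcU P (show i0 + j < P.F + 6 by omega)).graded (key (k0 + j)).2
      rw [hb j hj] at this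
      exact this
    · intro j hj l
      have hi : i0 + j < P.F + 6 := by omega
      have e1 := (plcU P hi).finrank (fl pos g (k0 + j)) l
      have e2 := (plcU P hi).finrank (EJ P (k0 + j)) l
      rw [hb j hj] at e1 e2
      have e3 : (EJ P (k0 + j)).comap (sU P (i0 + j)) = Epiv S := by
        ext u
        show sU P (i0 + j) u ∈ EJ P (k0 + j) ↔ ∀ x, ¬ S.piv x → u x = 0
        rw [sU_mem_EJ P hi]
        constructor
        · intro h r hr
          exact h r ((hk j hj hi r).2 hr)
        · intro h r hr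
          exact h r ((hk j hj hi r).1 hr)
      rw [e3] at e2
      show Module.finrank ℂ ((fl pos g (k0 + j)).comap (sU P (i0 + j)) ⊓
        cS {x | S.blk x = l} : Submodule ℂ (R → ℂ)) = _
      rw [e1, (key (k0 + j)).1, ← e2]
    · intro j hj u hu
      have hu' : sU P (i0 + (j + 1)) u ∈ fl pos g (k0 + (j + 1)) := hu
      show sU P (i0 + j) u ∈ fl pos g (k0 + j)
      have := h2 (k0 + j) (Submodule.mem_map_of_mem hu')
      rw [Matrix.mulVecLin_apply] at this
      rw [← Xm_sU P (show i0 + j + 1 < P.F + 6 by omega)]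
      exact this
  have famW : ∀ (S : Blk C) (i0 k0 m : ℕ), i0 + m < P.F + 6 →
      (∀ j ≤ m, blkW P (i0 + j) = S.blk) →
      (∀ j ≤ m, ∀ (hi : i0 + j < P.F + 6) r,
        k0 + j < kap P (⟨i0 + j, hi⟩, Sum.inr r) ↔ ¬ S.piv r) →
      ∃ A : Matrix C C ℂ, BD S A ∧ A.det ≠ 0 ∧
        ∀ j ≤ m, (fl pos g (k0 + j)).comap (sW P (i0 + j)) =
          (Epiv S).map (Matrix.mulVecLin A) := by
    intro S i0 k0 m him hb hk
    refine fam S (fun j => (fl pos g (k0 + j)).comap (sW P (i0 + j))) m ?_ ?_ ?_
    · intro j hj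
      have := (plcW P (show i0 + j < P.F + 6 by omega)).graded (key (k0 + j)).2
      rw [hb j hj] at this
      exact this
    · intro j hj l
      have hi : i0 + j < P.F + 6 := by omega
      have e1 := (plcW P hi).finrank (fl pos g (k0 + j)) l
      have e2 := (plcW P hi).finrank (EJ P (k0 + j)) l
      rw [hb j hj] at e1 e2
      have e3 : (EJ P (k0 + j)).comap (sW P (i0 + j)) = Epiv S := by
        ext u
        show sW P (i0 + j) u ∈ EJ P (k0 + j) ↔ ∀ x, ¬ S.piv x → u x = 0
        rw [sW_mem_EJ P hi]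
        constructor
        · intro h r hr
          exact h r ((hk j hj hi r).2 hr)
        · intro h r hr
          exact h r ((hk j hj hi r).1 hr)
      rw [e3] at e2
      show Module.finrank ℂ ((fl pos g (k0 + j)).comap (sW P (i0 + j)) ⊓
        cS {x | S.blk x = l} : Submodule ℂ (C → ℂ)) = _
      rw [e1, (key (k0 + j)).1, ← e2]
    · intro j hj u hu
      have hu' : sW P (i0 + (j + 1)) u ∈ fl pos g (k0 + (j + 1)) := hu
      show sW P (i0 + j) u ∈ fl pos g (k0 + j)
      have := h2 (k0 + j) (Submodule.mem_map_of_mem hu')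
      rw [Matrix.mulVecLin_apply] at this
      rw [← Xm_sW P (show i0 + j + 1 < P.F + 6 by omega)]
      exact this
  obtain ⟨A, hA1, hA2, hA3⟩ := famU P.Rlo 0 1 2 (by omega)
    (by
      intro j hj
      funext r
      unfold blkU
      rw [if_pos (by omega)])
    (by
      intro j hj hi r
      have hj2 : 0 + j ≤ 2 := by omega
      by_cases hr : P.Rlo.piv r
      · simp only [kap, hj2, if_true, hr, not_true_eq_false, iff_false]
        omega
      · simp only [kap, hj2, if_true, hr, if_false, not_false_eq_true, iff_true]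
        omega)
  obtain ⟨A', hA'1, hA'2, hA'3⟩ := famU P.Rhi (P.F + 4) (P.F + 6) 1 (by omega)
    (by
      intro j hj
      funext r
      unfold blkU
      rw [if_neg (by omega), if_neg (by omega)])
    (by
      intro j hj hi r
      have hj2 : ¬ (P.F + 4 + j ≤ 2) := by omega
      have hj3 : ¬ (P.F + 4 + j ≤ P.F + 3) := by omega
      by_cases hr : P.Rhi.piv r
      · simp only [kap, hj2, hj3, if_true, if_false, hr, not_true_eq_false, iff_false]
        omega
      · simp only [kap, hj2, hj3, if_false, hr, not_false_eq_true, iff_true]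
        omega)
  obtain ⟨D, hD1, hD2, hD3⟩ := famW P.Clo 0 2 1 (by omega)
    (by
      intro j hj
      funext r
      unfold blkW
      rw [if_pos (by omega)])
    (by
      intro j hj hi r
      have hj2 : 0 + j ≤ 1 := by omega
      by_cases hr : P.Clo.piv r
      · simp only [kap, hj2, if_true, hr, not_true_eq_false, iff_false]
        omega
      · simp only [kap, hj2, if_true, hr, if_false, not_false_eq_true, iff_true]
        omega)
  obtain ⟨D', hD'1, hD'2, hD'3⟩ := famW P.Chi (P.F + 3) (P.F + 6) 2 (by omega)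
    (by
      intro j hj
      funext r
      unfold blkW
      rw [if_neg (by omega), if_neg (by omega)])
    (by
      intro j hj hi r
      have hj2 : ¬ (P.F + 3 + j ≤ 1) := by omega
      have hj3 : ¬ (P.F + 3 + j ≤ P.F + 2) := by omega
      by_cases hr : P.Chi.piv r
      · simp only [kap, hj2, hj3, if_true, if_false, hr, not_true_eq_false, iff_false]
        omega
      · simp only [kap, hj2, hj3, if_false, hr, not_false_eq_true, iff_true]
        omega)
  have pivmem : ∀ {T : Type} [Fintype T] [DecidableEq T] (S : Blk T) (B : Matrix T T ℂ) (t : T),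
      S.piv t → B.mulVec (Pi.single t 1) ∈ (Epiv S).map (Matrix.mulVecLin B) := by
    intro T _ _ S B t ht
    refine ⟨Pi.single t 1, ?_, rfl⟩
    intro x hx
    have : x ≠ t := fun e => hx (e ▸ ht)
    exact Pi.single_eq_of_ne this 1
  refine ⟨A, A', D, D', ⟨hA1, hA'1, hD1, hD'1⟩, ⟨hA2, hA'2, hD2, hD'2⟩, ?_⟩
  intro k
  have hle : (EJ P k).map (Matrix.mulVecLin (Hm P A A' D D')) ≤ fl pos g k := by
    apply EJ_le
    · rintro ⟨i, hi⟩ r hk
      rw [Matrix.mulVecLin_apply]
      rw [Hm_sU]
      show sU P i ((if i ≤ 2 then A else if i ≤ P.F + 3 then 1 else A').mulVec _) ∈ _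
      by_cases c1 : i ≤ 2
      · rw [if_pos c1]
        by_cases hr : P.Rlo.piv r
        · have hk1 : i + 1 ≤ k := by
            simpa only [kap, c1, if_true, hr] using hk
          have := hA3 i c1
          have h5 : A.mulVec (Pi.single r 1) ∈ (fl pos g (1 + i)).comap (sU P (0 + i)) := by
            rw [this]
            exact pivmem P.Rlo A r hr
          have h6 : sU P (0 + i) (A.mulVec (Pi.single r 1)) ∈ fl pos g (1 + i) := h5
          rw [Nat.zero_add] at h6
          exact fl_mono g (by omega) h6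
        · have hk1 : i + 2 ≤ k := by
            simpa only [kap, c1, if_true, hr, if_false] using hk
          refine fullU k i hi (fun r' => ?_) _
          simp only [kap, c1, if_true]
          split_ifs <;> omega
      · rw [if_neg c1]
        by_cases c2 : i ≤ P.F + 3
        · have hk1 : i + 2 ≤ k := by
            simpa only [kap, c1, c2, if_true, if_false] using hk
          refine fullU k i hi (fun r' => ?_) _
          simp only [kap, c1, c2, if_true, if_false]
          omega
        · rw [if_neg c2]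
          by_cases hr : P.Rhi.piv r
          · have hk1 : i + 2 ≤ k := by
              simpa only [kap, c1, c2, if_true, if_false, hr] using hk
            have := hA'3 (i - (P.F + 4)) (by omega)
            rw [show P.F + 4 + (i - (P.F + 4)) = i by omega,
              show P.F + 6 + (i - (P.F + 4)) = i + 2 by omega] at this
            have h5 : A'.mulVec (Pi.single r 1) ∈ (fl pos g (i + 2)).comap (sU P i) := by
              rw [this]
              exact pivmem P.Rhi A' r hr
            exact fl_mono g hk1 h5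
          · have hk1 : i + 3 ≤ k := by
              simpa only [kap, c1, c2, if_true, if_false, hr] using hk
            refine fullU k i hi (fun r' => ?_) _
            simp only [kap, c1, c2, if_false]
            split_ifs <;> omega
    · rintro ⟨i, hi⟩ r hk
      rw [Matrix.mulVecLin_apply]
      rw [Hm_sW]
      show sW P i ((if i ≤ 1 then D else if i ≤ P.F + 2 then 1 else D').mulVec _) ∈ _
      by_cases c1 : i ≤ 1
      · rw [if_pos c1]
        by_cases hr : P.Clo.piv r
        · have hk1 : i + 2 ≤ k := by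
            simpa only [kap, c1, if_true, hr] using hk
          have := hD3 i c1
          have h5 : D.mulVec (Pi.single r 1) ∈ (fl pos g (2 + i)).comap (sW P (0 + i)) := by
            rw [this]
            exact pivmem P.Clo D r hr
          have h6 : sW P (0 + i) (D.mulVec (Pi.single r 1)) ∈ fl pos g (2 + i) := h5
          rw [Nat.zero_add] at h6
          exact fl_mono g (by omega) h6
        · have hk1 : i + 3 ≤ k := by
            simpa only [kap, c1, if_true, hr, if_false] using hk
          refine fullW k i hi (fun r' => ?_) _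
          simp only [kap, c1, if_true]
          split_ifs <;> omega
      · rw [if_neg c1]
        by_cases c2 : i ≤ P.F + 2
        · have hk1 : i + 3 ≤ k := by
            simpa only [kap, c1, c2, if_true, if_false] using hk
          refine fullW k i hi (fun r' => ?_) _
          simp only [kap, c1, c2, if_true, if_false]
          omega
        · rw [if_neg c2]
          by_cases hr : P.Chi.piv r
          · have hk1 : i + 3 ≤ k := by
              simpa only [kap, c1, c2, if_true, if_false, hr] using hk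
            have := hD'3 (i - (P.F + 3)) (by omega)
            rw [show P.F + 3 + (i - (P.F + 3)) = i by omega,
              show P.F + 6 + (i - (P.F + 3)) = i + 3 by omega] at this
            have h5 : D'.mulVec (Pi.single r 1) ∈ (fl pos g (i + 3)).comap (sW P i) := by
              rw [this]
              exact pivmem P.Chi D' r hr
            exact fl_mono g hk1 h5
          · have hk1 : i + 4 ≤ k := by
              simpa only [kap, c1, c2, if_true, if_false, hr] using hk
            refine fullW k i hi (fun r' => ?_) _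
            simp only [kap, c1, c2, if_false]
            split_ifs <;> omega
  symm
  apply Submodule.eq_of_le_of_finrank_eq hle
  rw [finrank_fl, ← finrank_EJ]
  have hinj : Function.Injective (Matrix.mulVecLin (Hm P A A' D D')) := by
    have hdet := Hm_det P hA2 hA'2 hD2 hD'2
    have := Matrix.mulVec_injective_of_isUnit
      ((Matrix.isUnit_iff_isUnit_det _).2 (isUnit_iff_ne_zero.2 hdet))
    exact this
  exact (Submodule.equivMapOfInjective _ hinj _).finrank_eq.symm

theorem zcl_K0 {S : Set (GL (Fin n) ℂ)} (hS : S ⊆ K0 pos) : zcl S ⊆ K0 pos := by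
  intro g hg
  refine K0_of (fun k l => ?_) (fun k => ?_)
  · exact zcl_fl _ (fun h hh => (K0_rank (hS hh) k l).le) hg
  · exact zcl_flX (fun h hh => K0_X (hS hh) k) hg

end Pd6ff58.J
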