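import Pool.Agent.Lib.Pd6ff58.FL

/-!
# Module Cmb: a combinatorial lemma on permutations

PROOF of `perm_eq`. Let `r(s, i) = #{a | a < s, w a < i}`, `r'(s, i)` the same for `w'`. Induction on
`a`: let `w' b = w b` for all `b < a`, so `r(a, i) = r'(a, i)`. By `h1` for `s = a + 1`, `w' a < i`
implies `w a < i`, so `w a ≤ w' a`. Let `t k ≤ a < t (k+1)`. By `h1`, `h2` for `s = t (k+1)`, the sets
`w {b | b < t (k+1)}` and `w' {b | b < t (k+1)}` are equal, so `w' a = w b` with `b < t (k+1)`, and
`a ≤ b` as `w b' = w' b'` for `b' < a`; `w` decreases on the window, so `w' a = w b ≤ w a`.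
PROOF of `finrank_perm`: `flagOf (permGL w) s ⊓ stdFlag n i` is the coordinate subspace of the set
`{w a | a < s, w a < i}`.
-/

open MvPolynomial

noncomputable section

namespace Pd6ff58.J

namespace CmbAux

variable {n : ℕ}

/-- the rank numbers -/
def cnt (w : Equiv.Perm (Fin n)) (s i : ℕ) : ℕ :=
  (Finset.univ.filter fun a : Fin n => (a : ℕ) < s ∧ (w a : ℕ) < i).card

theorem card_eq (w : Equiv.Perm (Fin n)) (s i : ℕ) :
    Nat.card {a : Fin n // (a : ℕ) < s ∧ (w a : ℕ) < i} = cnt w s i := by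
  rw [Nat.card_eq_fintype_card, Fintype.card_subtype]
  rfl

theorem cnt_s (w : Equiv.Perm (Fin n)) (a : Fin n) (i : ℕ) :
    cnt w ((a : ℕ) + 1) i = cnt w a i + if (w a : ℕ) < i then 1 else 0 := by
  unfold cnt
  split_ifs with h
  · have e : (Finset.univ.filter fun b : Fin n => (b : ℕ) < (a : ℕ) + 1 ∧ (w b : ℕ) < i) =
        insert a (Finset.univ.filter fun b : Fin n => (b : ℕ) < (a : ℕ) ∧ (w b : ℕ) < i) := by
      ext b
      simp only [Finset.mem_filter, Finset.mem_univ, true_and, Finset.mem_insert]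
      constructor
      · rintro ⟨h1, h2⟩
        rcases Nat.lt_succ_iff_lt_or_eq.1 h1 with h3 | h3
        · exact Or.inr ⟨h3, h2⟩
        · exact Or.inl (Fin.ext h3)
      · rintro (rfl | ⟨h1, h2⟩)
        · exact ⟨Nat.lt_succ_self _, h⟩
        · exact ⟨Nat.lt_succ_of_lt h1, h2⟩
    rw [e, Finset.card_insert_of_notMem]
    simp
  · have e : (Finset.univ.filter fun b : Fin n => (b : ℕ) < (a : ℕ) + 1 ∧ (w b : ℕ) < i) =
        (Finset.univ.filter fun b : Fin n => (b : ℕ) < (a : ℕ) ∧ (w b : ℕ) < i) := by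
      ext b
      simp only [Finset.mem_filter, Finset.mem_univ, true_and]
      constructor
      · rintro ⟨h1, h2⟩
        rcases Nat.lt_succ_iff_lt_or_eq.1 h1 with h3 | h3
        · exact ⟨h3, h2⟩
        · have hb : b = a := Fin.ext h3
          subst hb
          exact absurd h2 h
      · rintro ⟨h1, h2⟩
        exact ⟨Nat.lt_succ_of_lt h1, h2⟩
    rw [e, add_zero]

theorem cnt_i (w : Equiv.Perm (Fin n)) (s : ℕ) (j : Fin n) :
    cnt w s ((j : ℕ) + 1) = cnt w s j + if (w.symm j : ℕ) < s then 1 else 0 := by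
  unfold cnt
  split_ifs with h
  · have e : (Finset.univ.filter fun b : Fin n => (b : ℕ) < s ∧ (w b : ℕ) < (j : ℕ) + 1) =
        insert (w.symm j)
          (Finset.univ.filter fun b : Fin n => (b : ℕ) < s ∧ (w b : ℕ) < (j : ℕ)) := by
      ext b
      simp only [Finset.mem_filter, Finset.mem_univ, true_and, Finset.mem_insert]
      constructor
      · rintro ⟨h1, h2⟩
        rcases Nat.lt_succ_iff_lt_or_eq.1 h2 with h3 | h3
        · exact Or.inr ⟨h1, h3⟩
        · exact Or.inl (by rw [← Fin.ext h3, Equiv.symm_apply_apply])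
      · rintro (rfl | ⟨h1, h2⟩)
        · refine ⟨h, ?_⟩
          rw [Equiv.apply_symm_apply]
          exact Nat.lt_succ_self _
        · exact ⟨h1, Nat.lt_succ_of_lt h2⟩
    rw [e, Finset.card_insert_of_notMem]
    simp
  · have e : (Finset.univ.filter fun b : Fin n => (b : ℕ) < s ∧ (w b : ℕ) < (j : ℕ) + 1) =
        (Finset.univ.filter fun b : Fin n => (b : ℕ) < s ∧ (w b : ℕ) < (j : ℕ)) := by
      ext b
      simp only [Finset.mem_filter, Finset.mem_univ, true_and]
      constructor
      · rintro ⟨h1, h2⟩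
        rcases Nat.lt_succ_iff_lt_or_eq.1 h2 with h3 | h3
        · exact ⟨h1, h3⟩
        · rw [← Fin.ext h3, Equiv.symm_apply_apply] at h
          exact absurd h1 h
      · rintro ⟨h1, h2⟩
        exact ⟨h1, Nat.lt_succ_of_lt h2⟩
    rw [e, add_zero]

theorem cnt_congr {w w' : Equiv.Perm (Fin n)} {a : Fin n} (h : ∀ b < a, w' b = w b) (i : ℕ) :
    cnt w a i = cnt w' a i := by
  unfold cnt
  congr 1
  ext b
  simp only [Finset.mem_filter, Finset.mem_univ, true_and]
  constructor
  · rintro ⟨h1, h2⟩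
    exact ⟨h1, by rwa [h b h1]⟩
  · rintro ⟨h1, h2⟩
    exact ⟨h1, by rwa [h b h1] at h2⟩

theorem mem_flagOf_perm (w : Equiv.Perm (Fin n)) (s : ℕ) (y : Fin n → ℂ) :
    y ∈ flagOf (permGL w) s ↔ ∀ a : Fin n, s ≤ (a : ℕ) → y (w a) = 0 := by
  have key : ∀ (x : Fin n → ℂ) (a : Fin n),
      Matrix.mulVecLin (permGL w).val x (w a) = x a := by
    intro x a
    rw [Matrix.mulVecLin_apply, Matrix.mulVec, dotProduct, Finset.sum_eq_single a]
    · simp [permGL]
    · intro b _ hb
      have : ¬ w a = w b := fun h => hb (w.injective h).symm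
      simp [permGL, this]
    · simp
  constructor
  · rintro ⟨x, hx, rfl⟩ a ha
    rw [key]
    exact hx a ha
  · intro h
    refine ⟨fun a => y (w a), fun a ha => h a ha, ?_⟩
    funext b
    obtain ⟨a, rfl⟩ := w.surjective b
    rw [key]

end CmbAux

open CmbAux

theorem perm_eq {n : ℕ} (w w' : Equiv.Perm (Fin n)) (t : ℕ → ℕ) (N : ℕ) (ht : Monotone t)
    (h0 : t 0 = 0) (hN : t N = n)
    (hdec : ∀ (k : ℕ) (a b : Fin n), t k ≤ (a : ℕ) → a < b → (b : ℕ) < t (k + 1) → w b < w a)
    (h1 : ∀ s ≤ n, ∀ i ≤ n, Nat.card {a : Fin n // (a : ℕ) < s ∧ (w' a : ℕ) < i} ≤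
      Nat.card {a : Fin n // (a : ℕ) < s ∧ (w a : ℕ) < i})
    (h2 : ∀ k, ∀ i ≤ n, Nat.card {a : Fin n // (a : ℕ) < t k ∧ (w a : ℕ) < i} ≤
      Nat.card {a : Fin n // (a : ℕ) < t k ∧ (w' a : ℕ) < i}) : w' = w := by
  simp only [card_eq] at h1 h2
  have main : ∀ a : Fin n, w' a = w a := by
    intro a
    induction a using WellFoundedLT.induction with
    | ind a ih =>
      -- `w a ≤ w' a`
      have g1 : w a ≤ w' a := by
        have h3 := h1 ((a : ℕ) + 1) a.2 ((w' a : ℕ) + 1) (w' a).2
        rw [cnt_s, cnt_s, cnt_congr ih, if_pos (Nat.lt_succ_self _)] at h3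
        by_contra hc
        have hc' : ¬ (w a : ℕ) < (w' a : ℕ) + 1 := by
          intro h4
          exact hc (Fin.le_def.2 (Nat.lt_succ_iff.1 h4))
        rw [if_neg hc'] at h3
        omega
      -- the window of `a`
      have hex : ∃ K, (a : ℕ) < t K := ⟨N, by rw [hN]; exact a.2⟩
      have hK0 : Nat.find hex ≠ 0 := by
        intro h
        have := Nat.find_spec hex
        rw [h, h0] at this
        exact absurd this (Nat.not_lt_zero _)
      obtain ⟨k, hk⟩ : ∃ k, Nat.find hex = k + 1 := Nat.exists_eq_succ_of_ne_zero hK0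
      have hk1 : (a : ℕ) < t (k + 1) := by
        rw [← hk]
        exact Nat.find_spec hex
      have hk2 : t k ≤ (a : ℕ) := by
        have := Nat.find_min hex (m := k) (by omega)
        exact not_lt.1 this
      have hk3 : t (k + 1) ≤ n := by
        rw [← hN, ← hk]
        exact ht (Nat.find_min' hex (by rw [hN]; exact a.2))
      -- `w' a = w b`
      have heq : ∀ i ≤ n, cnt w (t (k + 1)) i = cnt w' (t (k + 1)) i := fun i hi =>
        le_antisymm (h2 (k + 1) i hi) (h1 _ hk3 i hi)
      have g2 : (w.symm (w' a) : ℕ) < t (k + 1) := by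
        have h3 := heq ((w' a : ℕ) + 1) (w' a).2
        rw [cnt_i, cnt_i, heq _ (w' a).2.le, Equiv.symm_apply_apply, if_pos hk1] at h3
        by_contra hc
        rw [if_neg hc] at h3
        omega
      have g3 : a ≤ w.symm (w' a) := by
        by_contra hc
        have hlt := not_le.1 hc
        have h3 := ih _ hlt
        rw [Equiv.apply_symm_apply] at h3
        exact hlt.ne (w'.injective h3)
      rcases eq_or_lt_of_le g3 with h3 | h3
      · have h4 := congrArg w h3
        rw [Equiv.apply_symm_apply] at h4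
        exact h4.symm
      · have h4 := hdec k a _ hk2 h3 g2
        rw [Equiv.apply_symm_apply] at h4
        exact absurd h4 (not_lt.2 g1)
  exact Equiv.ext main

theorem finrank_perm {n : ℕ} (w : Equiv.Perm (Fin n)) {s i : ℕ} (hs : s ≤ n) (hi : i ≤ n) :
    Module.finrank ℂ (flagOf (permGL w) s ⊓ stdFlag n i : Submodule ℂ (Fin n → ℂ)) =
      Nat.card {a : Fin n // (a : ℕ) < s ∧ (w a : ℕ) < i} := by
  have e : (flagOf (permGL w) s ⊓ stdFlag n i : Submodule ℂ (Fin n → ℂ)) ≃ₗ[ℂ]
      ({a : Fin n // (a : ℕ) < s ∧ (w a : ℕ) < i} → ℂ) :=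
    { toFun := fun y a => y.1 (w a.1)
      map_add' := fun a b => rfl
      map_smul' := fun c a => rfl
      invFun := fun z => ⟨fun b => if h : ((w.symm b : Fin n) : ℕ) < s ∧
          ((w (w.symm b) : Fin n) : ℕ) < i then z ⟨w.symm b, h⟩ else 0, by
        refine ⟨(mem_flagOf_perm w s _).2 fun a ha => ?_, fun b hb => ?_⟩
        · have : ¬ ((w.symm (w a) : Fin n) : ℕ) < s := by
            rw [Equiv.symm_apply_apply]
            exact not_lt.2 ha
          exact dif_neg fun h => this h.1
        · have : ¬ ((w (w.symm b) : Fin n) : ℕ) < i := by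
            rw [Equiv.apply_symm_apply]
            exact not_lt.2 hb
          exact dif_neg fun h => this h.2⟩
      left_inv := by
        rintro ⟨y, hy1, hy2⟩
        apply Subtype.ext
        funext b
        obtain ⟨a, rfl⟩ := w.surjective b
        simp only [Equiv.symm_apply_apply]
        by_cases h : (a : ℕ) < s ∧ ((w a : Fin n) : ℕ) < i
        · rw [dif_pos h]
        · rw [dif_neg h]
          rcases not_and_or.1 h with h3 | h3
          · exact ((mem_flagOf_perm w s y).1 hy1 a (not_lt.1 h3)).symm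
          · exact (hy2 (w a) (not_lt.1 h3)).symm
      right_inv := by
        intro z
        funext a
        obtain ⟨a, ha⟩ := a
        simp only [Equiv.symm_apply_apply]
        exact dif_pos ha }
  rw [e.finrank_eq, Module.finrank_fintype_fun_eq_card, Nat.card_eq_fintype_card]

end Pd6ff58.J
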