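import Pool.Agent.Lib.Pd6J.Def

/-!
# Module Col: the parameters for graph colouring

`m` vertices `Fin m`, cyclic successor `finRotate m`. COLUMNS `Cc m = Fin m ⊕ Fin m × Fin 3`:
`inl j = a_j`, `inr (j, o) = ℓ_{j o}` (vertex `j` has colour `o`). ROWS
`Rr m = Fin (m*m*3) ⊕ Fin (m*m*3) × Fin 2`: for `q ~ (u, v, o)`: `inl q = α_q`, `inr (q, 0) = ρ_q`,
`inr (q, 1) = ρ'_q`. Possible forbidden entries: `t : Fin (m*m*6)`, `t ~ ((u, v), k)`, `k : Fin 6`,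
`o = k / 2`, `ε = k % 2`: `ε = 0`: `(ρ_q, ℓ_{u o})`; `ε = 1`: `(ρ'_q, ℓ_{v o})`, `q ~ (u, v, o)`.
`Rlo`: blocks `{α_q, ρ_q, ρ'_q}`, pivots `ρ_q, ρ'_q`. `Rhi`: blocks `{ρ_q, ρ'_q, α_{q+1}}`, pivots `α`.
`Clo`: blocks `{a_j, ℓ_{j o}}`, pivots `a_j`. `Chi`: blocks `{ℓ_{j o}, a_{j+1}}`, pivots `ℓ`.

THE EQUATIONS `Eqs` UNFOLDED (`τ = (τ_{r c})`):
(e1) `τ_{r, a_j} = - ∑_o ν_{jo} τ_{r, ℓ_{jo}}`; (e2) `τ_{r, ℓ_{jo}} = - ν'_{jo} τ_{r, a_{j+1}}`;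
(e3) `τ_{α_q, c} = b_q τ_{ρ_q, c} + b'_q τ_{ρ'_q, c}`; (e4) `τ_{ρ_q, c} = c_q τ_{α_{q+1}, c}`,
`τ_{ρ'_q, c} = c'_q τ_{α_{q+1}, c}`.

PROOF of `col_imp` (`→`). By (e1), (e2) `τ_{r, a_j} = κ_j τ_{r, a_{j+1}}` with `κ_j = ∑_o ν_{jo} ν'_{jo}`
independent of `r`. So every column is a multiple of the column `a_{j₀}` (`j₀` any; go round the
cycle): `τ_{r c} = g_r h_c` with `g_r = τ_{r, a_{j₀}}`, and `g ≠ 0` as `τ ≠ 0`, `h_{a_{j₀}} = 1`. From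
`τ_{r, a_j} = κ_j τ_{r, a_{j+1}}`: `h_{a_j} ≠ 0 → h_{a_{j+1}} ≠ 0`, so `h_{a_j} ≠ 0` for all `j` (cycle), and by
(e1) for every `j` there is `o = χ(j)` with `h_{ℓ_{j o}} ≠ 0`. Rows: (e3), (e4) say
`g_{α_q} = b_q g_{ρ_q} + b'_q g_{ρ'_q}`, `g_{ρ_q} = c_q g_{α_{q+1}}`, `g_{ρ'_q} = c'_q g_{α_{q+1}}`: as `g ≠ 0`, some
`g_{α_q} ≠ 0` (from (e4)), `g_{α_q} ≠ 0 → g_{α_{q+1}} ≠ 0` so all `g_{α_q} ≠ 0`, and for every `q`
`g_{ρ_q} ≠ 0` or `g_{ρ'_q} ≠ 0`. `χ` is proper: let `u ~ v` adjacent, `χ(u) = χ(v) = o`, `q ~ (u, v, o)`: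
the forbidden entries give `g_{ρ_q} h_{ℓ_{u o}} = 0`, `g_{ρ'_q} h_{ℓ_{v o}} = 0`, so `g_{ρ_q} = g_{ρ'_q} = 0`.
PROOF of `col_of` (`←`). `χ` a proper colouring. `h_{a_j} = 1`, `h_{ℓ_{jo}} = 1` if `χ j = o`, else `0`;
`g_{α_q} = 1`, `g_{ρ_q} = 1` if `χ u ≠ o` else `0`, `g_{ρ'_q} = 1 - g_{ρ_q}` (`q ~ (u, v, o)`);
`τ_{r c} = g_r h_c`; `ν_{jo} = ν'_{jo} = - h_{ℓ_{jo}}`; `b_q = b'_q = 1`, `c_q = g_{ρ_q}`, `c'_q = g_{ρ'_q}`.
-/

noncomputable section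

namespace Pd6ff58.J

/-- the columns -/
abbrev Cc (m : ℕ) : Type := Fin m ⊕ (Fin m × Fin 3)

/-- the rows -/
abbrev Rr (m : ℕ) : Type := Fin (m * m * 3) ⊕ (Fin (m * m * 3) × Fin 2)

/-- the first vertex of the pair number `t` -/
def uu {m : ℕ} (t : Fin (m * m * 6)) : Fin m :=
  (finProdFinEquiv.symm (finProdFinEquiv.symm t).1).1

/-- the second vertex -/
def vv {m : ℕ} (t : Fin (m * m * 6)) : Fin m :=
  (finProdFinEquiv.symm (finProdFinEquiv.symm t).1).2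

/-- the index in `Fin 6` -/
def kk {m : ℕ} (t : Fin (m * m * 6)) : Fin 6 := (finProdFinEquiv.symm t).2

/-- the colour -/
def oo (k : Fin 6) : Fin 3 := ⟨(k : ℕ) / 2, by omega⟩

/-- the side -/
def ee (k : Fin 6) : Fin 2 := ⟨(k : ℕ) % 2, by omega⟩

/-- the row index of `(u, v, o)` -/
def qq {m : ℕ} (u v : Fin m) (o : Fin 3) : Fin (m * m * 3) :=
  finProdFinEquiv (finProdFinEquiv (u, v), o)

/-- the parameters -/
def PP (m : ℕ) : Par (Rr m) (Cc m) where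
  F := m * m * 6
  ent t := (Sum.inr (qq (uu t) (vv t) (oo (kk t)), ee (kk t)),
    Sum.inr (if ee (kk t) = 0 then uu t else vv t, oo (kk t)))
  Rlo := ⟨fun r => match r with | Sum.inl q => (q : ℕ) | Sum.inr p => (p.1 : ℕ),
    fun r => match r with | Sum.inl _ => False | Sum.inr _ => True⟩
  Rhi := ⟨fun r => match r with | Sum.inl q => (((finRotate _).symm q : Fin _) : ℕ)
                                | Sum.inr p => (p.1 : ℕ),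
    fun r => match r with | Sum.inl _ => True | Sum.inr _ => False⟩
  Clo := ⟨fun c => match c with | Sum.inl j => (j : ℕ) | Sum.inr p => (p.1 : ℕ),
    fun c => match c with | Sum.inl _ => True | Sum.inr _ => False⟩
  Chi := ⟨fun c => match c with | Sum.inl j => (((finRotate _).symm j : Fin _) : ℕ)
                                | Sum.inr p => (p.1 : ℕ),
    fun c => match c with | Sum.inl _ => False | Sum.inr _ => True⟩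

theorem PP_compl (m : ℕ) (c : Cc m) : (PP m).Chi.piv c ↔ ¬ (PP m).Clo.piv c := by
  rcases c with j | p <;> simp [PP]

/-- the forbidden entries of a graph -/
def PhiG {m : ℕ} (G : SimpleGraph (Fin m)) : Set (Fin (PP m).F) :=
  {t : Fin (m * m * 6) | G.Adj (uu t) (vv t)}

end Pd6ff58.J
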