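import Pool.Agent.Lib.Pd6J.Col

/-!
# Module ColA: a solution gives a colouring

PROOF: see the header of `Col.lean` (`col_imp`).
-/

noncomputable section

namespace Pd6ff58.J

namespace ColAAux

/-- induction around the cycle -/
theorem cyc {n : ℕ} (P : Fin n → Prop) (hP : ∀ j, P j → P (finRotate n j)) (j0 : Fin n)
    (h0 : P j0) : ∀ j, P j := by
  cases n with
  | zero => exact j0.elim0
  | succ n =>
    have h1 : ∀ k : ℕ, P (j0 + Fin.ofNat (n + 1) k) := by
      intro k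
      induction k with
      | zero =>
        have h2 : j0 + Fin.ofNat (n + 1) 0 = j0 := by
          apply Fin.ext
          simp
        rw [h2]
        exact h0
      | succ k ih =>
        have h2 := hP _ ih
        rw [finRotate_apply] at h2
        have h3 : j0 + Fin.ofNat (n + 1) k + 1 = j0 + Fin.ofNat (n + 1) (k + 1) := by
          apply Fin.ext
          simp [Fin.val_add, add_assoc]
        rw [h3] at h2
        exact h2
    intro j
    have h4 := h1 ((j : ℕ) + (n + 1 - (j0 : ℕ)))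
    have h5 : j0 + Fin.ofNat (n + 1) ((j : ℕ) + (n + 1 - (j0 : ℕ))) = j := by
      apply Fin.ext
      have h6 := j0.2
      have h7 := j.2
      have h8 : (j0 : ℕ) + ((j : ℕ) + (n + 1 - (j0 : ℕ))) = j + (n + 1) := by omega
      simp only [Fin.val_add, Fin.ofNat, Nat.add_mod_mod]
      rw [h8, Nat.add_mod_right, Nat.mod_eq_of_lt h7]
    rw [h5] at h4
    exact h4

variable {m : ℕ} {Φ : Set (Fin (PP m).F)} {β β' : Matrix (Rr m) (Rr m) ℂ}
    {ν ν' : Matrix (Cc m) (Cc m) ℂ} {τ : Matrix (Rr m) (Cc m) ℂ}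

theorem e1u (e : Eqs (PP m) Φ β β' ν ν' τ) (r : Rr m) (j : Fin m) :
    τ r (Sum.inl j) = - ∑ o : Fin 3, τ r (Sum.inr (j, o)) * ν (Sum.inr (j, o)) (Sum.inl j) := by
  have h := e.e1 r (Sum.inl j) trivial
  have hA : ∀ j', ν (Sum.inl j') (Sum.inl j) = 0 := by
    intro j'
    by_contra h1
    exact (e.sn _ _ h1).1 trivial
  have hB : ∀ p : Fin m × Fin 3, p.1 ≠ j → ν (Sum.inr p) (Sum.inl j) = 0 := by
    intro p hp
    by_contra h1
    exact hp (Fin.ext (e.sn _ _ h1).2.2)
  rw [Matrix.mul_add, Matrix.mul_one, Matrix.add_apply, Matrix.mul_apply, Fintype.sum_sum_type,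
    Fintype.sum_prod_type, Finset.sum_eq_single j (fun j' _ hj => Finset.sum_eq_zero fun o _ => by
      rw [hB (j', o) hj, mul_zero]) (fun hj => absurd (Finset.mem_univ j) hj)] at h
  simp only [hA, mul_zero, Finset.sum_const_zero, zero_add] at h
  exact eq_neg_of_add_eq_zero_left h

theorem e2u (e : Eqs (PP m) Φ β β' ν ν' τ) (r : Rr m) (j : Fin m) (o : Fin 3) :
    τ r (Sum.inr (j, o)) =
      - (τ r (Sum.inl (finRotate m j)) * ν' (Sum.inl (finRotate m j)) (Sum.inr (j, o))) := by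
  have h := e.e2 r (Sum.inr (j, o)) trivial
  have hA : ∀ p, ν' (Sum.inr p) (Sum.inr (j, o)) = 0 := by
    intro j'
    by_contra h1
    exact (e.sn' _ _ h1).1 trivial
  have hB : ∀ j', j' ≠ finRotate m j → ν' (Sum.inl j') (Sum.inr (j, o)) = 0 := by
    intro j' hp
    by_contra h1
    have h2 : (finRotate m).symm j' = j := Fin.ext (e.sn' _ _ h1).2.2
    exact hp (by rw [← h2, Equiv.apply_symm_apply])
  rw [Matrix.mul_add, Matrix.mul_one, Matrix.add_apply, Matrix.mul_apply, Fintype.sum_sum_type,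
    Finset.sum_eq_single (finRotate m j) (fun j' _ hj => by
      rw [hB j' hj, mul_zero]) (fun hj => absurd (Finset.mem_univ _) hj)] at h
  simp only [hA, mul_zero, Finset.sum_const_zero, add_zero] at h
  exact eq_neg_of_add_eq_zero_left h

theorem e3u (e : Eqs (PP m) Φ β β' ν ν' τ) (q : Fin (m * m * 3)) (c : Cc m) :
    τ (Sum.inl q) c = ∑ i : Fin 2, β (Sum.inl q) (Sum.inr (q, i)) * τ (Sum.inr (q, i)) c := by
  have h := e.e3 (Sum.inl q) c (fun h => h)
  have hA : ∀ q', β (Sum.inl q) (Sum.inl q') = 0 := by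
    intro j'
    by_contra h1
    exact (e.sb _ _ h1).2.1
  have hB : ∀ p : Fin (m * m * 3) × Fin 2, p.1 ≠ q → β (Sum.inl q) (Sum.inr p) = 0 := by
    intro p hp
    by_contra h1
    exact hp (Fin.ext (e.sb _ _ h1).2.2.symm)
  rw [Matrix.mul_apply, Fintype.sum_sum_type,
    Fintype.sum_prod_type, Finset.sum_eq_single q (fun j' _ hj => Finset.sum_eq_zero fun o _ => by
      rw [hB (j', o) hj, zero_mul]) (fun hj => absurd (Finset.mem_univ q) hj)] at h
  simp only [hA, zero_mul, Finset.sum_const_zero, zero_add] at h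
  exact h

theorem e4u (e : Eqs (PP m) Φ β β' ν ν' τ) (q : Fin (m * m * 3)) (i : Fin 2) (c : Cc m) :
    τ (Sum.inr (q, i)) c =
      β' (Sum.inr (q, i)) (Sum.inl (finRotate _ q)) * τ (Sum.inl (finRotate _ q)) c := by
  have h := e.e4 (Sum.inr (q, i)) c (fun h => h)
  have hA : ∀ p, β' (Sum.inr (q, i)) (Sum.inr p) = 0 := by
    intro j'
    by_contra h1
    exact (e.sb' _ _ h1).2.1
  have hB : ∀ q', q' ≠ finRotate _ q → β' (Sum.inr (q, i)) (Sum.inl q') = 0 := by
    intro j' hp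
    by_contra h1
    have h2 : q = (finRotate _).symm j' := Fin.ext (e.sb' _ _ h1).2.2
    exact hp (by rw [h2, Equiv.apply_symm_apply])
  rw [Matrix.mul_apply, Fintype.sum_sum_type,
    Finset.sum_eq_single (finRotate _ q) (fun j' _ hj => by
      rw [hB j' hj, zero_mul]) (fun hj => absurd (Finset.mem_univ _) hj)] at h
  simp only [hA, zero_mul, Finset.sum_const_zero, add_zero] at h
  exact h

/-- the forbidden entries -/
theorem e5u {G : SimpleGraph (Fin m)} (e : Eqs (PP m) (PhiG G) β β' ν ν' τ) {u v : Fin m}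
    (h : G.Adj u v) (o : Fin 3) (i : Fin 2) :
    τ (Sum.inr (qq u v o, i)) (Sum.inr (if i = 0 then u else v, o)) = 0 := by
  let k : Fin 6 := ⟨2 * (o : ℕ) + (i : ℕ), by omega⟩
  have hk1 : oo k = o := by
    apply Fin.ext
    change (2 * (o : ℕ) + (i : ℕ)) / 2 = o
    omega
  have hk2 : ee k = i := by
    apply Fin.ext
    change (2 * (o : ℕ) + (i : ℕ)) % 2 = i
    omega
  let t : Fin (m * m * 6) := finProdFinEquiv (finProdFinEquiv (u, v), k)
  have h1 : uu t = u := by simp [uu, t]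
  have h2 : vv t = v := by simp [vv, t]
  have h3 : kk t = k := by simp [kk, t]
  have h4 := e.e5 t (show G.Adj (uu t) (vv t) by rw [h1, h2]; exact h)
  have h5 : (PP m).ent t = (Sum.inr (qq (uu t) (vv t) (oo (kk t)), ee (kk t)),
    Sum.inr (if ee (kk t) = 0 then uu t else vv t, oo (kk t))) := rfl
  rw [h5, h1, h2, h3, hk1, hk2] at h4
  exact h4

end ColAAux

open ColAAux

theorem col_imp {m : ℕ} (G : SimpleGraph (Fin m)) {β β' : Matrix (Rr m) (Rr m) ℂ}
    {ν ν' : Matrix (Cc m) (Cc m) ℂ} {τ : Matrix (Rr m) (Cc m) ℂ}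
    (e : Eqs (PP m) (PhiG G) β β' ν ν' τ) (hτ : τ ≠ 0) : G.Colorable 3 := by
  -- columns: around the cycle
  have hcol : ∀ (r : Rr m) (c : Cc m), τ r c ≠ 0 → ∀ j, τ r (Sum.inl j) ≠ 0 := by
    intro r c hc
    have hs : ∀ j, τ r (Sum.inl j) ≠ 0 → τ r (Sum.inl (finRotate m j)) ≠ 0 := by
      intro j hj hj'
      apply hj
      rw [e1u e r j, neg_eq_zero]
      refine Finset.sum_eq_zero fun o _ => ?_
      rw [e2u e r j o, hj', zero_mul, neg_zero, zero_mul]
    rcases c with j0 | ⟨j0, o0⟩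
    · exact cyc _ hs j0 hc
    · refine cyc _ hs (finRotate m j0) fun h0 => hc ?_
      rw [e2u e r j0 o0, h0, zero_mul, neg_zero]
  -- rows
  have hrow : ∀ (r : Rr m) (c : Cc m), τ r c ≠ 0 → ∀ q, τ (Sum.inl q) c ≠ 0 := by
    intro r c hc
    have hs : ∀ q, τ (Sum.inl q) c ≠ 0 → τ (Sum.inl (finRotate _ q)) c ≠ 0 := by
      intro j hj hj'
      apply hj
      rw [e3u e j c]
      refine Finset.sum_eq_zero fun o _ => ?_
      rw [e4u e j o c, hj', mul_zero, mul_zero]
    rcases r with j0 | ⟨j0, o0⟩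
    · exact cyc _ hs j0 hc
    · refine cyc _ hs (finRotate _ j0) fun h0 => hc ?_
      rw [e4u e j0 o0 c, h0, mul_zero]
  obtain ⟨r0, c0, h0⟩ : ∃ r c, τ r c ≠ 0 := by
    by_contra hcon
    push Not at hcon
    exact hτ (Matrix.ext hcon)
  have hall : ∀ q j, τ (Sum.inl q) (Sum.inl j) ≠ 0 := fun q j =>
    hcol _ _ (hrow r0 c0 h0 q) j
  -- the colour of a vertex
  have hchi : ∀ j, ∃ o, ∀ r, τ r (Sum.inl (finRotate m j)) ≠ 0 → τ r (Sum.inr (j, o)) ≠ 0 := by
    intro j
    by_contra hcon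
    push Not at hcon
    have h1 : ∀ o, ν' (Sum.inl (finRotate m j)) (Sum.inr (j, o)) = 0 := by
      intro o
      obtain ⟨r, h2, h3⟩ := hcon o
      rw [e2u e r j o, neg_eq_zero] at h3
      exact (mul_eq_zero.1 h3).resolve_left h2
    refine hcol r0 c0 h0 j ?_
    rw [e1u e r0 j, neg_eq_zero]
    refine Finset.sum_eq_zero fun o _ => ?_
    rw [e2u e r0 j o, h1, mul_zero, neg_zero, zero_mul]
  choose χ hχ using hchi
  have hi : ∀ q, ∃ i, ∀ c, τ (Sum.inl (finRotate _ q)) c ≠ 0 → τ (Sum.inr (q, i)) c ≠ 0 := by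
    intro q
    by_contra hcon
    push Not at hcon
    have h1 : ∀ i, β' (Sum.inr (q, i)) (Sum.inl (finRotate _ q)) = 0 := by
      intro i
      obtain ⟨c, h2, h3⟩ := hcon i
      rw [e4u e q i c] at h3
      exact (mul_eq_zero.1 h3).resolve_right h2
    refine hrow r0 c0 h0 q ?_
    rw [e3u e q c0]
    refine Finset.sum_eq_zero fun i _ => ?_
    rw [e4u e q i c0, h1, zero_mul, mul_zero]
  refine ⟨SimpleGraph.Coloring.mk χ ?_⟩
  intro u v huv hc
  obtain ⟨i, h1⟩ := hi (qq u v (χ u))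
  have h2 : ∀ j, τ (Sum.inr (qq u v (χ u), i)) (Sum.inl j) ≠ 0 := fun j => h1 _ (hall _ j)
  have h3 : ∀ j, τ (Sum.inr (qq u v (χ u), i)) (Sum.inr (j, χ j)) ≠ 0 := fun j => hχ j _ (h2 _)
  have h4 := e5u e huv (χ u) i
  split_ifs at h4 with h5
  · exact h3 u h4
  · rw [hc] at h4
    have h6 := h3 v
    rw [hc] at h6
    exact h6 h4

end Pd6ff58.J
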