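import Pool.Agent.Lib.Pd6J.Col

/-!
# Module ColB: a colouring gives a solution

PROOF: see the header of `Col.lean` (`col_of`).
-/

noncomputable section

namespace Pd6ff58.J

namespace ColBAux

variable {m : ℕ}

/-- the factor of the columns -/
def hh (χ : Fin m → Fin 3) : Cc m → ℂ
  | Sum.inl _ => 1
  | Sum.inr p => if χ p.1 = p.2 then 1 else 0

/-- the first vertex of the row number `q` -/
def uq (q : Fin (m * m * 3)) : Fin m := (finProdFinEquiv.symm (finProdFinEquiv.symm q).1).1

/-- the colour of the row number `q` -/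
def oq (q : Fin (m * m * 3)) : Fin 3 := (finProdFinEquiv.symm q).2

/-- the factor of the rows -/
def gg (χ : Fin m → Fin 3) : Rr m → ℂ
  | Sum.inl _ => 1
  | Sum.inr p => if p.2 = 0 then (if χ (uq p.1) = oq p.1 then 0 else 1)
      else (if χ (uq p.1) = oq p.1 then 1 else 0)

/-- the solution -/
def tau (χ : Fin m → Fin 3) : Matrix (Rr m) (Cc m) ℂ := Matrix.of fun r c => gg χ r * hh χ c

/-- the first matrix on the columns -/
def nu (χ : Fin m → Fin 3) : Matrix (Cc m) (Cc m) ℂ := Matrix.of fun x y =>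
  match x, y with
  | Sum.inr p, Sum.inl j => if p.1 = j then -hh χ (Sum.inr p) else 0
  | Sum.inl _, Sum.inl _ => 0
  | Sum.inl _, Sum.inr _ => 0
  | Sum.inr _, Sum.inr _ => 0

/-- the second matrix on the columns -/
def nu' (χ : Fin m → Fin 3) : Matrix (Cc m) (Cc m) ℂ := Matrix.of fun x y =>
  match x, y with
  | Sum.inl j, Sum.inr p => if j = finRotate _ p.1 then -hh χ (Sum.inr p) else 0
  | Sum.inl _, Sum.inl _ => 0
  | Sum.inr _, Sum.inl _ => 0
  | Sum.inr _, Sum.inr _ => 0

/-- the first matrix on the rows -/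
def bt (m : ℕ) : Matrix (Rr m) (Rr m) ℂ := Matrix.of fun x y =>
  match x, y with
  | Sum.inl q, Sum.inr p => if q = p.1 then 1 else 0
  | Sum.inl _, Sum.inl _ => 0
  | Sum.inr _, Sum.inl _ => 0
  | Sum.inr _, Sum.inr _ => 0

/-- the second matrix on the rows -/
def bt' (χ : Fin m → Fin 3) : Matrix (Rr m) (Rr m) ℂ := Matrix.of fun x y =>
  match x, y with
  | Sum.inr p, Sum.inl q => if finRotate _ p.1 = q then gg χ (Sum.inr p) else 0
  | Sum.inl _, Sum.inl _ => 0
  | Sum.inl _, Sum.inr _ => 0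
  | Sum.inr _, Sum.inr _ => 0

theorem supp_nu (χ : Fin m → Fin 3) : Supp (PP m).Clo (nu χ) := by
  intro x y h
  rcases x with i | p <;> rcases y with j | p'
  · exact absurd rfl h
  · exact absurd rfl h
  · have h1 : (if p.1 = j then -hh χ (Sum.inr p) else 0) ≠ 0 := h
    have h2 : p.1 = j := by
      by_contra hc
      exact h1 (if_neg hc)
    exact ⟨fun h3 => h3, trivial, congrArg Fin.val h2⟩
  · exact absurd rfl h

theorem supp_nu' (χ : Fin m → Fin 3) : Supp (PP m).Chi (nu' χ) := by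
  intro x y h
  rcases x with i | p <;> rcases y with j | p'
  · exact absurd rfl h
  · have h1 : (if i = finRotate _ p'.1 then -hh χ (Sum.inr p') else 0) ≠ 0 := h
    have h2 : i = finRotate _ p'.1 := by
      by_contra hc
      exact h1 (if_neg hc)
    refine ⟨fun h3 => h3, trivial, ?_⟩
    change (((finRotate _).symm i : Fin _) : ℕ) = (p'.1 : ℕ)
    rw [h2, Equiv.symm_apply_apply]
  · exact absurd rfl h
  · exact absurd rfl h

theorem supp_bt (m : ℕ) : Supp (PP m).Rlo (bt m) := by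
  intro x y h
  rcases x with i | p <;> rcases y with j | p'
  · exact absurd rfl h
  · have h1 : (if i = p'.1 then (1 : ℂ) else 0) ≠ 0 := h
    have h2 : i = p'.1 := by
      by_contra hc
      exact h1 (if_neg hc)
    exact ⟨fun h3 => h3, trivial, congrArg Fin.val h2⟩
  · exact absurd rfl h
  · exact absurd rfl h

theorem supp_bt' (χ : Fin m → Fin 3) : Supp (PP m).Rhi (bt' χ) := by
  intro x y h
  rcases x with i | p <;> rcases y with j | p'
  · exact absurd rfl h
  · exact absurd rfl h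
  · have h1 : (if finRotate _ p.1 = j then gg χ (Sum.inr p) else 0) ≠ 0 := h
    have h2 : finRotate _ p.1 = j := by
      by_contra hc
      exact h1 (if_neg hc)
    refine ⟨fun h3 => h3, trivial, ?_⟩
    change (p.1 : ℕ) = (((finRotate _).symm j : Fin _) : ℕ)
    rw [← h2, Equiv.symm_apply_apply]
  · exact absurd rfl h

theorem eq1 (χ : Fin m → Fin 3) (r : Rr m) (j : Fin m) :
    (tau χ * (1 + nu χ) : Matrix (Rr m) (Cc m) ℂ) r (Sum.inl j) = 0 := by
  rw [Matrix.mul_add, Matrix.mul_one, Matrix.add_apply, Matrix.mul_apply, Fintype.sum_sum_type,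
    Fintype.sum_prod_type]
  have h1 : ∀ i : Fin m, ∑ o : Fin 3, tau χ r (Sum.inr (i, o)) * nu χ (Sum.inr (i, o)) (Sum.inl j) =
      if i = j then - gg χ r else 0 := by
    intro i
    by_cases hij : i = j
    · rw [if_pos hij]
      have h2 : ∀ o : Fin 3, tau χ r (Sum.inr (i, o)) * nu χ (Sum.inr (i, o)) (Sum.inl j) =
          if χ i = o then - gg χ r else 0 := by
        intro o
        change (gg χ r * (if χ i = o then 1 else 0)) *
          (if i = j then -(if χ i = o then (1 : ℂ) else 0) else 0) = _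
        rw [if_pos hij]
        by_cases ho : χ i = o
        · rw [if_pos ho, if_pos ho]
          ring
        · rw [if_neg ho, if_neg ho]
          ring
      rw [Finset.sum_congr rfl fun o _ => h2 o, Finset.sum_ite_eq, if_pos (Finset.mem_univ _)]
    · rw [if_neg hij]
      refine Finset.sum_eq_zero fun o _ => ?_
      change _ * (if i = j then _ else _) = _
      rw [if_neg hij, mul_zero]
  have h3 : ∀ i : Fin m, tau χ r (Sum.inl i) * nu χ (Sum.inl i) (Sum.inl j) = 0 :=
    fun i => mul_zero _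
  rw [Finset.sum_congr rfl fun i _ => h3 i, Finset.sum_congr rfl fun i _ => h1 i,
    Finset.sum_const_zero, Finset.sum_ite_eq', if_pos (Finset.mem_univ _)]
  change gg χ r * 1 + (0 + - gg χ r) = 0
  ring

theorem eq2 (χ : Fin m → Fin 3) (r : Rr m) (p : Fin m × Fin 3) :
    (tau χ * (1 + nu' χ) : Matrix (Rr m) (Cc m) ℂ) r (Sum.inr p) = 0 := by
  rw [Matrix.mul_add, Matrix.mul_one, Matrix.add_apply, Matrix.mul_apply, Fintype.sum_sum_type]
  have h1 : ∀ i : Fin m, tau χ r (Sum.inl i) * nu' χ (Sum.inl i) (Sum.inr p) =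
      if i = finRotate _ p.1 then -(gg χ r * hh χ (Sum.inr p)) else 0 := by
    intro i
    change (gg χ r * 1) * (if i = finRotate _ p.1 then -hh χ (Sum.inr p) else 0) = _
    by_cases hi : i = finRotate _ p.1
    · rw [if_pos hi, if_pos hi]
      ring
    · rw [if_neg hi, if_neg hi, mul_zero]
  have h3 : ∀ x : Fin m × Fin 3, tau χ r (Sum.inr x) * nu' χ (Sum.inr x) (Sum.inr p) = 0 :=
    fun i => mul_zero _
  rw [Finset.sum_congr rfl fun i _ => h1 i, Finset.sum_congr rfl fun i _ => h3 i,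
    Finset.sum_const_zero, Finset.sum_ite_eq', if_pos (Finset.mem_univ _)]
  change gg χ r * hh χ (Sum.inr p) + (-(gg χ r * hh χ (Sum.inr p)) + 0) = 0
  ring

theorem gg_add (χ : Fin m → Fin 3) (q : Fin (m * m * 3)) :
    gg χ (Sum.inr (q, 0)) + gg χ (Sum.inr (q, 1)) = 1 := by
  by_cases h : χ (uq q) = oq q <;> simp [gg, h]

theorem eq3 (χ : Fin m → Fin 3) (q : Fin (m * m * 3)) (c : Cc m) :
    tau χ (Sum.inl q) c = (bt m * tau χ) (Sum.inl q) c := by
  rw [Matrix.mul_apply, Fintype.sum_sum_type, Fintype.sum_prod_type]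
  have h1 : ∀ i : Fin (m * m * 3), ∑ e : Fin 2, bt m (Sum.inl q) (Sum.inr (i, e)) *
      tau χ (Sum.inr (i, e)) c = if q = i then hh χ c else 0 := by
    intro i
    rw [Fin.sum_univ_two]
    change (if q = i then (1 : ℂ) else 0) * (gg χ (Sum.inr (i, 0)) * hh χ c) +
      (if q = i then (1 : ℂ) else 0) * (gg χ (Sum.inr (i, 1)) * hh χ c) = _
    by_cases hi : q = i
    · rw [if_pos hi, if_pos hi]
      linear_combination (hh χ c) * gg_add χ i
    · rw [if_neg hi, if_neg hi]
      ring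
  have h3 : ∀ i : Fin (m * m * 3), bt m (Sum.inl q) (Sum.inl i) * tau χ (Sum.inl i) c = 0 :=
    fun i => zero_mul _
  rw [Finset.sum_congr rfl fun i _ => h3 i, Finset.sum_congr rfl fun i _ => h1 i,
    Finset.sum_const_zero, Finset.sum_ite_eq, if_pos (Finset.mem_univ _)]
  change 1 * hh χ c = 0 + hh χ c
  ring

theorem eq4 (χ : Fin m → Fin 3) (p : Fin (m * m * 3) × Fin 2) (c : Cc m) :
    tau χ (Sum.inr p) c = (bt' χ * tau χ) (Sum.inr p) c := by
  rw [Matrix.mul_apply, Fintype.sum_sum_type]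
  have h1 : ∀ i : Fin (m * m * 3), bt' χ (Sum.inr p) (Sum.inl i) * tau χ (Sum.inl i) c =
      if finRotate _ p.1 = i then gg χ (Sum.inr p) * hh χ c else 0 := by
    intro i
    change (if finRotate _ p.1 = i then gg χ (Sum.inr p) else 0) * (1 * hh χ c) = _
    by_cases hi : finRotate _ p.1 = i
    · rw [if_pos hi, if_pos hi, one_mul]
    · rw [if_neg hi, if_neg hi, zero_mul]
  have h3 : ∀ x : Fin (m * m * 3) × Fin 2, bt' χ (Sum.inr p) (Sum.inr x) *
      tau χ (Sum.inr x) c = 0 := fun i => zero_mul _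
  rw [Finset.sum_congr rfl fun i _ => h1 i, Finset.sum_congr rfl fun i _ => h3 i,
    Finset.sum_const_zero, Finset.sum_ite_eq, if_pos (Finset.mem_univ _), add_zero]
  rfl

theorem uq_qq (u v : Fin m) (o : Fin 3) : uq (qq u v o) = u := by
  simp [uq, qq]

theorem oq_qq (u v : Fin m) (o : Fin 3) : oq (qq u v o) = o := by
  simp [oq, qq]

theorem forb (χ : Fin m → Fin 3) {u v : Fin m} (h : χ u ≠ χ v) (o : Fin 3) (e : Fin 2) :
    tau χ (Sum.inr (qq u v o, e)) (Sum.inr (if e = 0 then u else v, o)) = 0 := by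
  change (if e = 0 then (if χ (uq (qq u v o)) = oq (qq u v o) then (0 : ℂ) else 1)
      else (if χ (uq (qq u v o)) = oq (qq u v o) then 1 else 0)) *
    (if χ (if e = 0 then u else v) = o then 1 else 0) = 0
  rw [uq_qq, oq_qq]
  by_cases he : e = 0
  · rw [if_pos he, if_pos he]
    by_cases ho : χ u = o
    · rw [if_pos ho, zero_mul]
    · rw [if_neg ho, if_neg ho, mul_zero]
  · rw [if_neg he, if_neg he]
    by_cases ho : χ u = o
    · have h1 : ¬ χ v = o := fun h2 => h (ho.trans h2.symm)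
      rw [if_neg h1, mul_zero]
    · rw [if_neg ho, zero_mul]

end ColBAux

open ColBAux

theorem col_of {m : ℕ} (hm : 0 < m) (G : SimpleGraph (Fin m)) (hG : G.Colorable 3) :
    ∃ (β β' : Matrix (Rr m) (Rr m) ℂ) (ν ν' : Matrix (Cc m) (Cc m) ℂ)
      (τ : Matrix (Rr m) (Cc m) ℂ), Eqs (PP m) (PhiG G) β β' ν ν' τ ∧ τ ≠ 0 := by
  obtain ⟨χ⟩ := hG
  refine ⟨bt m, bt' χ, nu χ, nu' χ, tau χ, ⟨supp_bt m, supp_bt' χ, supp_nu χ, supp_nu' χ,
    ?_, ?_, ?_, ?_, ?_⟩, ?_⟩
  · intro r c hc
    rcases c with j | p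
    · exact eq1 χ r j
    · exact hc.elim
  · intro r c hc
    rcases c with j | p
    · exact hc.elim
    · exact eq2 χ r p
  · intro r c hr
    rcases r with q | p
    · exact eq3 χ q c
    · exact absurd trivial hr
  · intro r c hr
    rcases r with q | p
    · exact absurd trivial hr
    · exact eq4 χ p c
  · intro t ht
    have h1 : G.Adj (uu t) (vv t) := ht
    exact forb χ (χ.valid h1) (oo (kk t)) (ee (kk t))
  · intro h0
    have h1 := congrFun (congrFun h0 (Sum.inl (qq ⟨0, hm⟩ ⟨0, hm⟩ 0))) (Sum.inl ⟨0, hm⟩)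
    have h2 : (1 : ℂ) * 1 = 0 := h1
    norm_num at h2

end Pd6ff58.J
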