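import Pool.Agent.Lib.Pd6ff58.LU
import Pool.Agent.Lib.Pd6ff58.FL

/-!
# Module Crv: curves through a point, seen in the chart

PROOF. Take `ell` from `exists_lu`. View `s` as a point of `Unit → ℂ` (one variable). The matrix
`A(s) = g₀⁻¹ G(s)` has polynomial entries and `A(0) = 1`. So `x(s) = ell (A(s))` is regular at `0`
(`RegAt.comp`, as in `BL.lean`: `RegM.ell`), `x(0) = 0` (`ell 1 = 0` by the last property of `ell` with
`b = 1`), and for `s` in a Zariski neighbourhood of `0` (complement of a finite set):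
`A(s) = lowerMat (x(s)) * b(s)`, `b(s)` upper triangular, invertible (`tendsto_zNhds`), and
`eval (x(s)) D ≠ 0`. The function `s ↦ p(G(s))` is a polynomial which is not zero at `s₁`. So there is
an `s` with all three properties (a product of nonzero polynomials in one variable over `ℂ` is
nonzero somewhere). Then `G(s)` is invertible, `g := G(s) ∈ S`, and
`g₀ * lowerGL (x(s)) = g * b(s)⁻¹` is in `S` by `hSB`, and `p` is not zero there by `hp`.
-/

open MvPolynomial

noncomputable section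

namespace Pd6ff58.J

variable {n : ℕ}

namespace CrvAux

theorem entries_one {σ : Type} {s : σ → ℂ} {F : (σ → ℂ) → Matrix (Fin n) (Fin n) ℂ}
    (h1 : F s = 1) : (fun p : Fin n × Fin n => F s p.1 p.2) = oneEntries n := by
  rw [h1]
  rfl

theorem ell_reg {σ : Type} {s : σ → ℂ} {F : (σ → ℂ) → Matrix (Fin n) (Fin n) ℂ}
    (hF : ∀ a b, RegAt s fun x => F x a b) (h1 : F s = 1)
    {ell : Matrix (Fin n) (Fin n) ℂ → (Low n → ℂ)}
    (hl : ∀ p, RegAt (oneEntries n) fun A => ell (toMat A) p) (p : Low n) :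
    RegAt s fun x => ell (F x) p := by
  have h2 := hl p
  rw [← entries_one h1] at h2
  have h : ∀ p : Fin n × Fin n, RegAt s fun x => F x p.1 p.2 := fun p => hF p.1 p.2
  exact RegAt.comp (s := s) (φ := fun x (p : Fin n × Fin n) => F x p.1 p.2) h h2

theorem near {σ : Type} {s : σ → ℂ} {F : (σ → ℂ) → Matrix (Fin n) (Fin n) ℂ}
    (hF : ∀ a b, RegAt s fun x => F x a b) (h1 : F s = 1)
    {p : Matrix (Fin n) (Fin n) ℂ → Prop}
    (hp : ∀ᶠ A in zNhds (oneEntries n), p (toMat A)) : ∀ᶠ x in zNhds s, p (F x) := by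
  have h2 := tendsto_zNhds (φ := fun x (p : Fin n × Fin n) => F x p.1 p.2)
    (fun p => hF p.1 p.2)
  rw [entries_one h1] at h2
  exact h2.eventually hp

theorem lowerMat_zero : lowerMat (0 : Low n → ℂ) = 1 := by
  ext i j
  by_cases h : j < i
  · simp [lowerMat, h, h.ne']
  · simp [lowerMat, h, Matrix.one_apply]

/-- a polynomial in one variable as a polynomial in the variables `Unit` -/
theorem lift1 (Q : Polynomial ℂ) :
    ∃ P : MvPolynomial Unit ℂ, ∀ s : Unit → ℂ, eval s P = Q.eval (s ()) := by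
  refine ⟨Polynomial.aeval (X () : MvPolynomial Unit ℂ) Q, fun s => ?_⟩
  induction Q using Polynomial.induction_on' with
  | add p q hp hq => rw [map_add, map_add, hp, hq, Polynomial.eval_add]
  | monomial k c => simp [Polynomial.aeval_monomial]

end CrvAux

open CrvAux in
theorem curve_hit {S : Set (GL (Fin n) ℂ)} (hSB : ∀ g ∈ S, ∀ b ∈ borel n, g * b ∈ S)
    (G : ℂ → Matrix (Fin n) (Fin n) ℂ)
    (hG : ∀ a b, ∃ Q : Polynomial ℂ, ∀ s, G s a b = Q.eval s)
    (g₀ : GL (Fin n) ℂ) (h0 : G 0 = g₀.val)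
    (hS : ∀ s, ∀ g : GL (Fin n) ℂ, g.val = G s → g ∈ S)
    (p : MvPolynomial (Fin n × Fin n) ℂ)
    (hp : ∀ g ∈ S, ∀ b ∈ borel n, evalAt g p ≠ 0 → evalAt (g * b) p ≠ 0)
    (s₁ : ℂ) (h1 : eval (fun q : Fin n × Fin n => G s₁ q.1 q.2) p ≠ 0)
    (D : MvPolynomial (Low n) ℂ) (hD : eval 0 D ≠ 0) :
    ∃ x : Low n → ℂ, g₀ * lowerGL x ∈ S ∧ eval x D ≠ 0 ∧ evalAt (g₀ * lowerGL x) p ≠ 0 := by
  obtain ⟨ell, hl1, hl2, hl3⟩ := exists_lu n
  have hGp : ∀ a b, ∃ P : MvPolynomial Unit ℂ, ∀ s : Unit → ℂ, eval s P = G (s ()) a b := by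
    intro a b
    obtain ⟨Q, hQ⟩ := hG a b
    obtain ⟨P, hP⟩ := lift1 Q
    exact ⟨P, fun s => by rw [hP, hQ]⟩
  choose PG hPG using hGp
  have hGreg : ∀ a b, RegAt (0 : Unit → ℂ) fun s => G (s ()) a b := by
    intro a b
    exact (RegAt.poly 0 (PG a b)).congr (Filter.Eventually.of_forall fun s => (hPG a b s).symm)
  set F : (Unit → ℂ) → Matrix (Fin n) (Fin n) ℂ := fun s => (g₀⁻¹).val * G (s ()) with hF
  have hFreg : ∀ a b, RegAt (0 : Unit → ℂ) fun s => F s a b := by
    intro a b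
    simp only [hF, Matrix.mul_apply]
    exact RegAt.sum _ fun c _ => (RegAt.const 0 _).mul (hGreg c b)
  have hinv : (g₀⁻¹).val * g₀.val = 1 := by
    rw [← Units.val_mul, inv_mul_cancel, Units.val_one]
  have hinv' : g₀.val * (g₀⁻¹).val = 1 := by
    rw [← Units.val_mul, mul_inv_cancel, Units.val_one]
  have hF0 : F 0 = 1 := by
    simp only [hF, Pi.zero_apply, h0]
    exact hinv
  have hx : ∀ p, RegAt (0 : Unit → ℂ) fun s => ell (F s) p := fun p => ell_reg hFreg hF0 hl1 p
  have hx0 : ell (F 0) = 0 := by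
    have h2 := hl3 0 1 (by
      intro i j hij
      have hij' : j < i := hij
      exact Matrix.one_apply_ne hij'.ne') (by rw [Matrix.det_one]; exact one_ne_zero)
    rw [lowerMat_zero, one_mul] at h2
    rw [hF0]
    exact h2
  have hD1 : ∀ᶠ s in zNhds (0 : Unit → ℂ), eval (ell (F s)) D ≠ 0 := by
    have h2 := RegAt.eval_comp (s := (0 : Unit → ℂ)) (φ := fun s => ell (F s)) hx D
    exact h2.ne_zero (by
      simp only [hx0]
      exact hD)
  have hN := near (p := fun A => ∃ b : Matrix (Fin n) (Fin n) ℂ, b.BlockTriangular id ∧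
    b.det ≠ 0 ∧ A = lowerMat (ell A) * b) hFreg hF0 hl2
  obtain ⟨D', hD'0, hD'⟩ := eventually_zNhds.1 (hD1.and hN)
  -- the polynomial `p (G s)`
  set R : MvPolynomial Unit ℂ := bind₁ (fun q : Fin n × Fin n => PG q.1 q.2) p with hR
  have hRe : ∀ s : Unit → ℂ, eval s R = eval (fun q : Fin n × Fin n => G (s ()) q.1 q.2) p := by
    intro s
    rw [hR]
    have h2 := eval₂Hom_bind₁ (RingHom.id ℂ) s (fun q : Fin n × Fin n => PG q.1 q.2) p
    change eval₂Hom (RingHom.id ℂ) s _ = eval₂Hom (RingHom.id ℂ) _ p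
    rw [h2]
    congr 2
    funext q
    exact hPG q.1 q.2 s
  have hR0 : R ≠ 0 := by
    intro h2
    apply h1
    have h3 := hRe (fun _ => s₁)
    rw [h2, map_zero] at h3
    exact h3.symm
  have hD0 : D' ≠ 0 := by
    rintro rfl
    exact hD'0 (map_zero _)
  obtain ⟨s, hs⟩ : ∃ s : Unit → ℂ, eval s (R * D') ≠ 0 := by
    by_contra hcon
    push Not at hcon
    exact mul_ne_zero hR0 hD0 (MvPolynomial.funext fun s => by rw [hcon s, map_zero])
  rw [map_mul] at hs
  have hs1 := left_ne_zero_of_mul hs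
  obtain ⟨k1, b, kb, kd, ke⟩ := hD' s (right_ne_zero_of_mul hs)
  rw [hRe] at hs1
  set x := ell (F s) with hxd
  -- the matrix `b` as an element of the Borel subgroup
  set bG : GL (Fin n) ℂ := Matrix.GeneralLinearGroup.mkOfDetNeZero b kd with hbG
  have hbv : bG.val = b := rfl
  have hbB : bG ∈ borel n := kb
  have hbB' : bG⁻¹ ∈ borel n := (borel n).inv_mem hbB
  have hval : (g₀ * lowerGL x * bG).val = G (s ()) := by
    rw [Units.val_mul, Units.val_mul, hbv]
    have h2 : (lowerGL x).val = lowerMat x := rfl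
    rw [h2, Matrix.mul_assoc]
    have h3 : lowerMat x * b = (g₀⁻¹).val * G (s ()) := ke.symm
    rw [h3, ← Matrix.mul_assoc]
    have h4 : (g₀.val * (g₀⁻¹).val) * G (s ()) = G (s ()) := by
      rw [hinv', Matrix.one_mul]
    exact h4
  have hmem := hS (s ()) _ hval
  have hmem2 := hSB _ hmem _ hbB'
  rw [mul_inv_cancel_right] at hmem2
  have hev : evalAt (g₀ * lowerGL x * bG) p ≠ 0 := by
    unfold evalAt
    rw [hval]
    exact hs1
  have hev2 := hp _ hmem _ hbB' hev
  rw [mul_inv_cancel_right] at hev2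
  exact ⟨x, hmem2, k1, hev2⟩

/-- a polynomial in the matrix entries, in the chart -/
theorem chart_poly (g₀ : GL (Fin n) ℂ) (p : MvPolynomial (Fin n × Fin n) ℂ) :
    ∃ p' : MvPolynomial (Low n) ℂ, ∀ x, eval x p' = evalAt (g₀ * lowerGL x) p := by
  set T : Fin n × Fin n → MvPolynomial (Low n) ℂ := fun q =>
    ∑ k, C (g₀.val q.1 k) * (if h : q.2 < k then X ⟨(k, q.2), h⟩ else
      if k = q.2 then 1 else 0) with hT
  refine ⟨bind₁ T p, fun x => ?_⟩
  have h := eval₂Hom_bind₁ (RingHom.id ℂ) x T p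
  unfold evalAt
  change eval₂Hom (RingHom.id ℂ) x _ = eval₂Hom (RingHom.id ℂ) _ p
  rw [h]
  congr 2
  funext q
  have h2 : (g₀ * lowerGL x).val q.1 q.2 = ∑ k, g₀.val q.1 k * lowerMat x k q.2 := by
    rw [Units.val_mul, Matrix.mul_apply]
    rfl
  rw [h2, hT]
  simp only [map_sum, map_mul]
  refine Finset.sum_congr rfl fun k _ => ?_
  congr 1
  · simp
  · by_cases h3 : q.2 < k
    · simp [h3, lowerMat]
    · by_cases h4 : k = q.2
      · simp [h4, lowerMat]
      · simp [h3, h4, lowerMat]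

end Pd6ff58.J
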