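import Pool.Agent.Lib.Pd6ff58.FL
import Pool.Agent.Lib.Pd6ff58.RD

/-!
# Package Pd6J (Springer cells of matrices in Jordan form): definitions

COORDINATES. `R` (rows), `C` (columns) finite types. The ambient space is `Ix P → ℂ` with
`Ix P = Fin (F + 6) × (R ⊕ C)`: there are `M = F + 6` copies `U_0, ..., U_{M-1}` of `ℂ^R` and
`W_0, ..., W_{M-1}` of `ℂ^C`. The nilpotent matrix `Xm` maps `U_{i+1} → U_i`, `W_{i+1} → W_i`
identically, `U_0, W_0 → 0`. The (global) level of `U_i` is `i`, the one of `W_i` is `i + 2`.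
`kap x` is the moment at which the coordinate `x` enters the flag; `J_k = {x | kap x ≤ k}`,
`EJ k` the coordinate subspace of `J_k`, `tt k = |J_k|`. `fl pos g k` is the member of the flag of
`g` of dimension `tt k`, viewed in `Ix P → ℂ` via `pos : Ix P ≃ Fin n`, the ORDER OF THE BASIS;
`tim : Ix P ≃ Fin n` is the order in time (first by moment, inside a moment DEcreasing in `pos`), and
`ww = pos ∘ tim⁻¹` is the permutation `w`.

BLOCK STRUCTURES. `Rlo` acts on `U_0, U_1, U_2`; `Rhi` on `U_{F+4}, U_{F+5}`; `Clo` on `W_0, W_1`;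
`Chi` on `W_{F+3}, W_{F+4}, W_{F+5}`. The moments (`G_k = fl g k`, pure subspaces):
`G_1 = B@U_0`; `G_2 = U_0, B@U_1, N@W_0`; `G_3 = U_0, U_1, B@U_2, W_0, N@W_1`;
`G_k` (`4 ≤ k ≤ F+5`) `= (all of level < k-1), P@(U_{k-1}, W_{k-3})`, `P` the graph of
`τ : ℂ^C → ℂ^R`; `G_{F+6} = (level < F+4), B'@U_{F+4}, W_{F+2}, N'@W_{F+3}`;
`G_{F+7} = (level < F+5), B'@U_{F+5}, W_{F+3}, N'@W_{F+4}`; `G_{F+8} = (level ≤ F+6), N'@W_{F+5}`;
`G_{F+9}` = everything. Here `B, B' ⊆ ℂ^R`, `N, N' ⊆ ℂ^C` and (this is the content of the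
structure theorem) `N, N' ⊆ ker τ`, `im τ ⊆ B ∩ B'`.
-/

open MvPolynomial

noncomputable section

namespace Pd6ff58.J

/-- a block structure on `T`: labels of the blocks, and the pivots -/
structure Blk (T : Type) where
  blk : T → ℕ
  piv : T → Prop

/-- the parameters: `F` possible forbidden entries `ent t`, four block structures -/
structure Par (R C : Type) where
  F : ℕ
  ent : Fin F → R × C
  Rlo : Blk R
  Rhi : Blk R
  Clo : Blk C
  Chi : Blk C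

/-- the index set of the coordinates -/
abbrev Ix {R C : Type} (P : Par R C) : Type := Fin (P.F + 6) × (R ⊕ C)

section defs

variable {R C : Type}

/-- the global level -/
def lev (P : Par R C) : Ix P → ℕ
  | (i, Sum.inl _) => (i : ℕ)
  | (i, Sum.inr _) => (i : ℕ) + 2

open Classical in
/-- the moment at which a coordinate enters -/
def kap (P : Par R C) : Ix P → ℕ
  | (i, Sum.inl r) =>
    if (i : ℕ) ≤ 2 then (if P.Rlo.piv r then (i : ℕ) + 1 else (i : ℕ) + 2)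
    else if (i : ℕ) ≤ P.F + 3 then (i : ℕ) + 2
    else (if P.Rhi.piv r then (i : ℕ) + 2 else (i : ℕ) + 3)
  | (i, Sum.inr c) =>
    if (i : ℕ) ≤ 1 then (if P.Clo.piv c then (i : ℕ) + 2 else (i : ℕ) + 3)
    else if (i : ℕ) ≤ P.F + 2 then (i : ℕ) + 3
    else (if P.Chi.piv c then (i : ℕ) + 3 else (i : ℕ) + 4)

/-- the number of coordinates present at the moment `k` -/
def tt (P : Par R C) (k : ℕ) : ℕ := Nat.card {x : Ix P // kap P x ≤ k}

/-- the coordinate subspace of the moment `k` -/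
def EJ (P : Par R C) (k : ℕ) : Submodule ℂ (Ix P → ℂ) where
  carrier := {v | ∀ x, k < kap P x → v x = 0}
  zero_mem' := fun _ _ => rfl
  add_mem' := by
    intro a b ha hb x hx
    simp [ha x hx, hb x hx]
  smul_mem' := by
    intro c a ha x hx
    simp [ha x hx]

theorem mem_EJ {P : Par R C} {k : ℕ} {v : Ix P → ℂ} :
    v ∈ EJ P k ↔ ∀ x, k < kap P x → v x = 0 := Iff.rfl

/-- the vector `u` placed in `U_i` -/
def sU (P : Par R C) (i : ℕ) : (R → ℂ) →ₗ[ℂ] (Ix P → ℂ) where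
  toFun u := fun x => if (x.1 : ℕ) = i then Sum.elim u (fun _ => 0) x.2 else 0
  map_add' a b := by
    funext x
    rcases x with ⟨j, r | c⟩ <;> by_cases h : (j : ℕ) = i <;> simp [h]
  map_smul' t a := by
    funext x
    rcases x with ⟨j, r | c⟩ <;> by_cases h : (j : ℕ) = i <;> simp [h]

/-- the vector `w` placed in `W_i` -/
def sW (P : Par R C) (i : ℕ) : (C → ℂ) →ₗ[ℂ] (Ix P → ℂ) where
  toFun w := fun x => if (x.1 : ℕ) = i then Sum.elim (fun _ => 0) w x.2 else 0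
  map_add' a b := by
    funext x
    rcases x with ⟨j, r | c⟩ <;> by_cases h : (j : ℕ) = i <;> simp [h]
  map_smul' t a := by
    funext x
    rcases x with ⟨j, r | c⟩ <;> by_cases h : (j : ℕ) = i <;> simp [h]

theorem sU_apply (P : Par R C) (i : ℕ) (u : R → ℂ) (x : Ix P) :
    sU P i u x = if (x.1 : ℕ) = i then Sum.elim u (fun _ => 0) x.2 else 0 := rfl

theorem sW_apply (P : Par R C) (i : ℕ) (w : C → ℂ) (x : Ix P) :
    sW P i w x = if (x.1 : ℕ) = i then Sum.elim (fun _ => 0) w x.2 else 0 := rfl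

/-- the support of a block matrix: rows nonpivots, columns pivots, same block -/
def Supp {T : Type} (S : Blk T) (A : Matrix T T ℂ) : Prop :=
  ∀ x y, A x y ≠ 0 → ¬ S.piv x ∧ S.piv y ∧ S.blk x = S.blk y

/-- block diagonal -/
def BD {T : Type} (S : Blk T) (A : Matrix T T ℂ) : Prop :=
  ∀ x y, A x y ≠ 0 → S.blk x = S.blk y

/-- the coordinate subspace of the pivots -/
def Epiv {T : Type} (S : Blk T) : Submodule ℂ (T → ℂ) where
  carrier := {v | ∀ x, ¬ S.piv x → v x = 0}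
  zero_mem' := fun _ _ => rfl
  add_mem' := by
    intro a b ha hb x hx
    simp [ha x hx, hb x hx]
  smul_mem' := by
    intro c a ha x hx
    simp [ha x hx]

variable [DecidableEq R] [DecidableEq C]

/-- the nilpotent matrix, in the coordinates `Ix P` -/
def Xm (P : Par R C) : Matrix (Ix P) (Ix P) ℂ := Matrix.of fun x y =>
  if (y.1 : ℕ) = (x.1 : ℕ) + 1 ∧ x.2 = y.2 then 1 else 0

/-- the block matrices: `A` on `U_0, U_1, U_2`, `A'` on `U_{F+4}, U_{F+5}`, `D` on `W_0, W_1`, `D'` on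
`W_{F+3}, W_{F+4}, W_{F+5}`, the identity elsewhere -/
def Hm {K : Type} [CommRing K] (P : Par R C) (A A' : Matrix R R K) (D D' : Matrix C C K) :
    Matrix (Ix P) (Ix P) K := Matrix.of fun x y =>
  if x.1 = y.1 then
    match x.2, y.2 with
    | Sum.inl r, Sum.inl r' => (if (x.1 : ℕ) ≤ 2 then A else if (x.1 : ℕ) ≤ P.F + 3 then 1 else A') r r'
    | Sum.inr c, Sum.inr c' => (if (x.1 : ℕ) ≤ 1 then D else if (x.1 : ℕ) ≤ P.F + 2 then 1 else D') c c'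
    | Sum.inl _, Sum.inr _ => 0
    | Sum.inr _, Sum.inl _ => 0
  else 0

/-- `τ` placed as a map `W_j → U_{j+2}`, `1 ≤ j ≤ F + 2` -/
def Tm (P : Par R C) (τ : Matrix R C ℂ) : Matrix (Ix P) (Ix P) ℂ := Matrix.of fun x y =>
  match x.2, y.2 with
  | Sum.inl r, Sum.inr c =>
    if (x.1 : ℕ) = (y.1 : ℕ) + 2 ∧ 1 ≤ (y.1 : ℕ) ∧ (y.1 : ℕ) ≤ P.F + 2 then τ r c else 0
  | Sum.inl _, Sum.inl _ => 0
  | Sum.inr _, Sum.inl _ => 0
  | Sum.inr _, Sum.inr _ => 0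

variable [Fintype R] [Fintype C]

/-- the matrix of the data -/
def Mm (P : Par R C) (β β' : Matrix R R ℂ) (ν ν' : Matrix C C ℂ) (τ : Matrix R C ℂ) :
    Matrix (Ix P) (Ix P) ℂ :=
  (1 + Tm P τ) * Hm P (1 + β) (1 + β') (1 + ν) (1 + ν')

/-- the equations -/
structure Eqs (P : Par R C) (Φ : Set (Fin P.F)) (β β' : Matrix R R ℂ) (ν ν' : Matrix C C ℂ)
    (τ : Matrix R C ℂ) : Prop where
  sb : Supp P.Rlo β
  sb' : Supp P.Rhi β'
  sn : Supp P.Clo ν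
  sn' : Supp P.Chi ν'
  e1 : ∀ r c, P.Clo.piv c → (τ * (1 + ν) : Matrix R C ℂ) r c = 0
  e2 : ∀ r c, P.Chi.piv c → (τ * (1 + ν') : Matrix R C ℂ) r c = 0
  e3 : ∀ r c, ¬ P.Rlo.piv r → τ r c = (β * τ) r c
  e4 : ∀ r c, ¬ P.Rhi.piv r → τ r c = (β' * τ) r c
  e5 : ∀ t ∈ Φ, τ (P.ent t).1 (P.ent t).2 = 0

/-- the conditions on the two orders `pos`, `tim` (`Φ` is the set of forbidden entries) -/
structure Good (P : Par R C) (Φ : Set (Fin P.F)) {n : ℕ} (pos tim : Ix P ≃ Fin n) : Prop where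
  lev_lt : ∀ x y, lev P x < lev P y → pos x < pos y
  tim_kap : ∀ x y, kap P x < kap P y → tim x < tim y
  tim_pos : ∀ x y, kap P x = kap P y → pos y < pos x → tim x < tim y
  blo : ∀ (i : Fin (P.F + 6)) r r', (i : ℕ) ≤ 2 → P.Rlo.blk r = P.Rlo.blk r' → ¬ P.Rlo.piv r →
    P.Rlo.piv r' → pos (i, Sum.inl r) < pos (i, Sum.inl r')
  blo0 : ∀ (i : Fin (P.F + 6)) r r', (i : ℕ) = 0 → ¬ P.Rlo.piv r → P.Rlo.piv r' →
    pos (i, Sum.inl r) < pos (i, Sum.inl r') → P.Rlo.blk r ≤ P.Rlo.blk r'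
  blo1 : ∀ (i : Fin (P.F + 6)) r r', (i : ℕ) = 1 → ¬ P.Rlo.piv r → P.Rlo.piv r' →
    pos (i, Sum.inl r) < pos (i, Sum.inl r') → P.Rlo.blk r' ≤ P.Rlo.blk r
  bhi : ∀ (i : Fin (P.F + 6)) r r', P.F + 4 ≤ (i : ℕ) → P.Rhi.blk r = P.Rhi.blk r' →
    ¬ P.Rhi.piv r → P.Rhi.piv r' → pos (i, Sum.inl r) < pos (i, Sum.inl r')
  bhi0 : ∀ (i : Fin (P.F + 6)) r r', (i : ℕ) = P.F + 4 → ¬ P.Rhi.piv r → P.Rhi.piv r' →
    pos (i, Sum.inl r) < pos (i, Sum.inl r') → P.Rhi.blk r ≤ P.Rhi.blk r'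
  bhi1 : ∀ (i : Fin (P.F + 6)) r r', (i : ℕ) = P.F + 5 → ¬ P.Rhi.piv r → P.Rhi.piv r' →
    pos (i, Sum.inl r) < pos (i, Sum.inl r') → P.Rhi.blk r' ≤ P.Rhi.blk r
  nlo : ∀ (i : Fin (P.F + 6)) c c', (i : ℕ) ≤ 1 → P.Clo.blk c = P.Clo.blk c' → ¬ P.Clo.piv c →
    P.Clo.piv c' → pos (i, Sum.inr c) < pos (i, Sum.inr c')
  nlo0 : ∀ (i : Fin (P.F + 6)) c c', (i : ℕ) = 0 → ¬ P.Clo.piv c → P.Clo.piv c' →
    pos (i, Sum.inr c) < pos (i, Sum.inr c') → P.Clo.blk c ≤ P.Clo.blk c'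
  nlo1 : ∀ (i : Fin (P.F + 6)) c c', (i : ℕ) = 1 → ¬ P.Clo.piv c → P.Clo.piv c' →
    pos (i, Sum.inr c) < pos (i, Sum.inr c') → P.Clo.blk c' ≤ P.Clo.blk c
  nhi : ∀ (i : Fin (P.F + 6)) c c', P.F + 3 ≤ (i : ℕ) → P.Chi.blk c = P.Chi.blk c' →
    ¬ P.Chi.piv c → P.Chi.piv c' → pos (i, Sum.inr c) < pos (i, Sum.inr c')
  nhi0 : ∀ (i : Fin (P.F + 6)) c c', (i : ℕ) = P.F + 4 → ¬ P.Chi.piv c → P.Chi.piv c' →
    pos (i, Sum.inr c) < pos (i, Sum.inr c') → P.Chi.blk c ≤ P.Chi.blk c'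
  nhi1 : ∀ (i : Fin (P.F + 6)) c c', (i : ℕ) = P.F + 5 → ¬ P.Chi.piv c → P.Chi.piv c' →
    pos (i, Sum.inr c) < pos (i, Sum.inr c') → P.Chi.blk c' ≤ P.Chi.blk c
  anc : ∀ (i j : Fin (P.F + 6)) r c, (i : ℕ) = (j : ℕ) + 2 → 1 ≤ (j : ℕ) → (j : ℕ) ≤ P.F + 2 →
    (∀ t ∈ Φ, P.ent t = (r, c) → (j : ℕ) ≠ (t : ℕ) + 2) → pos (i, Sum.inl r) < pos (j, Sum.inr c)
  forb : ∀ t ∈ Φ, ∀ i j : Fin (P.F + 6), (j : ℕ) = (t : ℕ) + 2 → (i : ℕ) = (t : ℕ) + 4 →
    pos (j, Sum.inr (P.ent t).2) < pos (i, Sum.inl (P.ent t).1)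

variable {n : ℕ}

/-- transport of a matrix to `Fin n` -/
def trn {P : Par R C} (pos : Ix P ≃ Fin n) {K : Type} (A : Matrix (Ix P) (Ix P) K) :
    Matrix (Fin n) (Fin n) K := A.submatrix pos.symm pos.symm

/-- the nilpotent matrix -/
def Xn {P : Par R C} (pos : Ix P ≃ Fin n) : Matrix (Fin n) (Fin n) ℂ := trn pos (Xm P)

/-- the permutation -/
def ww {P : Par R C} (pos tim : Ix P ≃ Fin n) : Equiv.Perm (Fin n) := tim.symm.trans pos

/-- the member of the flag of the moment `k`, in the coordinates `Ix P` -/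
def fl {P : Par R C} (pos : Ix P ≃ Fin n) (g : GL (Fin n) ℂ) (k : ℕ) :
    Submodule ℂ (Ix P → ℂ) :=
  (flagOf g (tt P k)).comap (LinearMap.funLeft ℂ ℂ pos.symm)

omit [DecidableEq R] [DecidableEq C] [Fintype R] [Fintype C] in
theorem mem_fl {P : Par R C} {pos : Ix P ≃ Fin n} {g : GL (Fin n) ℂ} {k : ℕ} {v : Ix P → ℂ} :
    v ∈ fl pos g k ↔ (fun a => v (pos.symm a)) ∈ flagOf g (tt P k) := Iff.rfl

/-- the preimage of the Springer cell in `GL` -/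
def CS {P : Par R C} (pos tim : Ix P ≃ Fin n) : Set (GL (Fin n) ℂ) :=
  {g | pt g ∈ schubertCell (ww pos tim) ∩ springerFiber (Xn pos)}

/-- The closed set `K₀`: flags whose members of the moments are `Hm(A, A', D, D') EJ k`. -/
def K0 {P : Par R C} (pos : Ix P ≃ Fin n) : Set (GL (Fin n) ℂ) :=
  {g | ∃ (A A' : Matrix R R ℂ) (D D' : Matrix C C ℂ),
    (BD P.Rlo A ∧ BD P.Rhi A' ∧ BD P.Clo D ∧ BD P.Chi D') ∧
    (A.det ≠ 0 ∧ A'.det ≠ 0 ∧ D.det ≠ 0 ∧ D'.det ≠ 0) ∧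
    ∀ k, fl pos g k = (EJ P k).map (Matrix.mulVecLin (Hm P A A' D D'))}

end defs

end Pd6ff58.J
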