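import Mathlib

/-!
# Module Dom: a regular local ring is an integral domain

Matsumura, Theorem 14.3; Stacks 00NP. Induction on the natural number
`d = (maximalIdeal R).spanFinrank`.
-/

set_option autoImplicit false

namespace Pd6ff58.J

namespace DomAux

open IsLocalRing

/-- an element of `m` not in `m ^ 2` replaces one of the generators -/
theorem exchange {R : Type} [CommRing R] [IsLocalRing R] (s : Finset R)
    (hs : Ideal.span (s : Set R) = maximalIdeal R) (x : R) (hx : x ∈ maximalIdeal R)
    (hx2 : x ∉ maximalIdeal R ^ 2) :
    ∃ T : Finset R, T.card + 1 = s.card ∧ T ⊆ s ∧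
      maximalIdeal R ≤ Ideal.span (insert x (T : Set R)) := by
  classical
  have h1 : x ∈ Submodule.span R (s : Set R) := by
    have : x ∈ Ideal.span (s : Set R) := by rw [hs]; exact hx
    exact this
  obtain ⟨a, _, ha⟩ := Submodule.mem_span_finset.1 h1
  have h2 : ∃ y ∈ s, a y ∉ maximalIdeal R := by
    by_contra hcon
    push Not at hcon
    apply hx2
    rw [← ha, pow_two]
    apply Ideal.sum_mem
    intro y hy
    rw [smul_eq_mul]
    apply Ideal.mul_mem_mul (hcon y hy)
    rw [← hs]
    exact Ideal.subset_span hy
  obtain ⟨y, hy, hay⟩ := h2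
  have hu : IsUnit (a y) := by
    by_contra hu
    exact hay ((mem_maximalIdeal _).2 hu)
  refine ⟨s.erase y, ?_, Finset.erase_subset _ _, ?_⟩
  · exact Finset.card_erase_add_one hy
  · rw [← hs, Ideal.span_le]
    intro z hz
    have hT : ∀ w ∈ s.erase y, w ∈ Ideal.span (insert x ((s.erase y : Finset R) : Set R)) :=
      fun w hw => Ideal.subset_span (Set.mem_insert_of_mem _ hw)
    by_cases hzy : z = y
    · subst hzy
      obtain ⟨u, hu⟩ := hu
      have h3 : a z * z = x - ∑ w ∈ s.erase z, a w * w := by
        rw [← ha, ← Finset.add_sum_erase s _ hy]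
        simp only [smul_eq_mul]
        ring
      have h4 : a z * z ∈ Ideal.span (insert x ((s.erase z : Finset R) : Set R)) := by
        rw [h3]
        apply Ideal.sub_mem _ (Ideal.subset_span (Set.mem_insert _ _))
        apply Ideal.sum_mem
        intro w hw
        exact Ideal.mul_mem_left _ _ (hT w hw)
      have h5 := Ideal.mul_mem_left _ (↑u⁻¹ : R) h4
      rw [← mul_assoc, ← hu, Units.inv_mul, one_mul] at h5
      exact h5
    · exact hT z (Finset.mem_erase.2 ⟨hzy, hz⟩)

theorem main (d : ℕ) : ∀ (R : Type) [CommRing R] [IsRegularLocalRing R],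
    (maximalIdeal R).spanFinrank = d → IsDomain R := by
  classical
  induction d with
  | zero =>
      intro R _ _ h
      have h1 : maximalIdeal R = ⊥ :=
        (Submodule.spanFinrank_eq_zero_iff_eq_bot (IsNoetherian.noetherian _)).1 h
      have h2 : (⊥ : Ideal R).IsPrime := by
        rw [← h1]; exact (maximalIdeal.isMaximal R).isPrime
      exact IsDomain.of_bot_isPrime R
  | succ d ih =>
      intro R _ _ h
      have hreg := IsRegularLocalRing.spanFinrank_maximalIdeal (R := R)
      rw [h] at hreg
      have hfg : (maximalIdeal R).FG := IsNoetherian.noetherian _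
      have hbot : maximalIdeal R ≠ ⊥ := by
        intro h1
        rw [(Submodule.spanFinrank_eq_zero_iff_eq_bot hfg).2 h1] at h
        omega
      have hjac : maximalIdeal R ≤ Ideal.jacobson ⊥ := by
        rw [IsLocalRing.jacobson_eq_maximalIdeal ⊥ bot_ne_top]
      -- the element
      have hx : ∃ x ∈ maximalIdeal R, x ∉ maximalIdeal R ^ 2 ∧ ∀ p ∈ minimalPrimes R, x ∉ p := by
        by_contra hcon
        push Not at hcon
        have hfin := minimalPrimes.finite_of_isNoetherianRing R
        have h1 := (Ideal.subset_union_prime (s := insert (maximalIdeal R ^ 2) hfin.toFinset)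
          (f := id) (maximalIdeal R ^ 2) (maximalIdeal R ^ 2) (by
            intro i hi hi1 _
            rcases Finset.mem_insert.1 hi with hi | hi
            · exact absurd hi hi1
            · exact (hfin.mem_toFinset.1 hi).1.1) (I := maximalIdeal R)).1 (by
            intro x hx
            by_cases hx2 : x ∈ maximalIdeal R ^ 2
            · exact Set.mem_biUnion (x := maximalIdeal R ^ 2) (by simp) hx2
            · obtain ⟨p, hp, hxp⟩ := hcon x hx hx2
              exact Set.mem_biUnion (x := p) (by simp [hp]) hxp)
        obtain ⟨p, hp, hmp⟩ := h1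
        rcases Finset.mem_insert.1 hp with hp | hp
        · apply hbot
          apply Submodule.eq_bot_of_le_smul_of_le_jacobson_bot (maximalIdeal R) _ hfg _ hjac
          rw [smul_eq_mul, ← pow_two, ← hp]
          exact hmp
        · have hp := hfin.mem_toFinset.1 hp
          have hpp : p.IsPrime := hp.1.1
          have h2 : p = maximalIdeal R :=
            le_antisymm (IsLocalRing.le_maximalIdeal hpp.ne_top) hmp
          have h3 : (maximalIdeal R).height = 0 := by
            rw [Ideal.height_eq_zero_iff, ← h2]; exact hp
          have h4 := IsLocalRing.maximalIdeal_height_eq_ringKrullDim (R := R)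
          rw [h3, ← hreg] at h4
          norm_cast at h4
      obtain ⟨x, hxm, hx2, hxp⟩ := hx
      obtain ⟨s, hs1, hs2⟩ := Submodule.FG.exists_span_finset_card_eq_spanFinrank hfg
      obtain ⟨T, hT1, hTs, hT2⟩ := exchange s hs2 x hxm hx2
      have hTd : T.card = d := by omega
      -- the quotient
      have hle : Ideal.span {x} ≤ maximalIdeal R := by
        rw [Ideal.span_le]; simpa using hxm
      have hne : Ideal.span {x} ≠ ⊤ := fun e => (maximalIdeal.isMaximal R).ne_top
        (top_le_iff.1 (e ▸ hle))
      haveI : Nontrivial (R ⧸ Ideal.span {x}) := Ideal.Quotient.nontrivial_iff.2 hne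
      haveI : IsLocalRing (R ⧸ Ideal.span {x}) :=
        IsLocalRing.of_surjective' (Ideal.Quotient.mk (Ideal.span {x}))
          Ideal.Quotient.mk_surjective
      have hcom : (maximalIdeal (R ⧸ Ideal.span {x})).comap (Ideal.Quotient.mk (Ideal.span {x})) =
          maximalIdeal R :=
        IsLocalRing.eq_maximalIdeal
          (Ideal.comap_isMaximal_of_surjective _ Ideal.Quotient.mk_surjective)
      have hmax : maximalIdeal (R ⧸ Ideal.span {x}) =
          Ideal.span ((T.image (Ideal.Quotient.mk (Ideal.span {x})) : Finset _) : Set _) := by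
        apply le_antisymm
        · rw [← Ideal.map_comap_of_surjective _ Ideal.Quotient.mk_surjective
            (maximalIdeal (R ⧸ Ideal.span {x})), hcom]
          refine (Ideal.map_mono hT2).trans ?_
          rw [Ideal.map_span, Ideal.span_le]
          rintro _ ⟨y, hy, rfl⟩
          rcases hy with rfl | hy
          · have : Ideal.Quotient.mk (Ideal.span {y}) y = 0 :=
              Ideal.Quotient.eq_zero_iff_mem.2 (Ideal.mem_span_singleton_self y)
            rw [this]
            exact Ideal.zero_mem _
          · apply Ideal.subset_span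
            rw [Finset.coe_image]
            exact Set.mem_image_of_mem _ hy
        · rw [Ideal.span_le]
          intro y hy
          rw [Finset.coe_image] at hy
          obtain ⟨w, hw, rfl⟩ := hy
          have h1 : w ∈ maximalIdeal R := by
            rw [← hs2]
            exact Submodule.subset_span (hTs hw)
          rw [← hcom] at h1
          exact h1
      have hrank : (maximalIdeal (R ⧸ Ideal.span {x})).spanFinrank ≤ d := by
        rw [hmax]
        refine (Submodule.spanFinrank_span_le_ncard_of_finite (Finset.finite_toSet _)).trans ?_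
        rw [Set.ncard_coe_finset]
        exact Finset.card_image_le.trans hTd.le
      have hdim : (d : WithBot ℕ∞) ≤ ringKrullDim (R ⧸ Ideal.span {x}) := by
        have h1 := Ideal.height_le_ringKrullDim_quotient_add_one hxm
        rw [IsLocalRing.maximalIdeal_height_eq_ringKrullDim, ← hreg] at h1
        have h2 : ((d + 1 : ℕ) : WithBot ℕ∞) = (d : WithBot ℕ∞) + 1 := by norm_cast
        rw [h2] at h1
        exact (ENat.WithBot.add_le_add_one_right_iff).1 h1
      haveI : IsRegularLocalRing (R ⧸ Ideal.span {x}) := by
        apply IsRegularLocalRing.of_spanFinrank_maximalIdeal_le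
        refine le_trans ?_ hdim
        exact_mod_cast hrank
      have hrank2 : (maximalIdeal (R ⧸ Ideal.span {x})).spanFinrank = d := by
        apply le_antisymm hrank
        have h1 := IsRegularLocalRing.spanFinrank_maximalIdeal (R := R ⧸ Ideal.span {x})
        rw [← h1] at hdim
        exact_mod_cast hdim
      have hdom := ih _ hrank2
      have hprime : (Ideal.span {x}).IsPrime := (Ideal.Quotient.isDomain_iff_prime _).1 hdom
      obtain ⟨p, hp, hpx⟩ := Ideal.exists_minimalPrimes_le (I := (⊥ : Ideal R)) (J := Ideal.span {x})
        bot_le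
      have hpp : p.IsPrime := hp.1.1
      have hxp' := hxp p hp
      have h1 : p ≤ maximalIdeal R • p := by
        intro y hy
        obtain ⟨a, ha⟩ := Ideal.mem_span_singleton'.1 (hpx hy)
        have h2 : a ∈ p := by
          rw [← ha] at hy
          exact (hpp.mem_or_mem hy).resolve_right hxp'
        rw [← ha, mul_comm]
        exact Submodule.smul_mem_smul hxm h2
      have h2 : p = ⊥ :=
        Submodule.eq_bot_of_le_smul_of_le_jacobson_bot (maximalIdeal R) p
          (IsNoetherian.noetherian _) h1 hjac
      rw [h2] at hpp
      exact IsDomain.of_bot_isPrime R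

end DomAux

theorem domain_of_regular (R : Type) [CommRing R] [IsRegularLocalRing R] : IsDomain R :=
  DomAux.main _ R rfl

end Pd6ff58.J
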