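import Pool.Agent.Lib.Pd6J.FlB

/-!
# Module ExpU (part CELL of the header: `exp_upper`): the explicit flags are in the Springer cell

PROOF. Let `M = Mm P β β' ν ν' τ` (invertible: `Mm_det`), `w = ww pos tim`, `g = (trn pos M) w`.
CELL (`exp_upper`): `trn pos M` is upper triangular. `M = (1 + Tm τ) Hm(1+β, 1+β', 1+ν, 1+ν')`, a
product of upper triangular matrices: the entries of `Hm(...)` off the diagonal are `β_{r r'}` at
`((i, inl r), (i, inl r'))`, `i ≤ 2`, nonzero only for `r` not a pivot, `r'` a pivot, same block, and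
then `pos (i, inl r) < pos (i, inl r')` by `blo`; similarly `bhi`, `nlo`, `nhi`; the entries of
`Tm τ` are `τ_{r c}` at `((j+2, inl r), (j, inr c))`, `1 ≤ j ≤ F + 2`: by `anc`,
`pos (j+2, inl r) < pos (j, inr c)` unless `ent t = (r, c)` for some `t ∈ Φ`, when `τ_{r c} = 0`
by `e5`. So `g ∈ borel * w`.
SPRINGER (`exp_X`): `fl pos g k = map M (EJ k)` (`fl_mul`, `fl_perm`); by `springer_of` we need
`X M (EJ (k+1)) ⊆ M (EJ k)`. By `EJ_le` (applied to the linear map `X ∘ M`) check it on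
`U_i e_r`, `W_i e_c` with `kap ≤ k + 1`. Below `k` is arbitrary with `kap x ≤ k + 1`.
 U_0: `X U_0 = 0`. U_i, `i = 1, 2`: `X M U_i e_r = U_{i-1} ((1+β) e_r) = M (U_{i-1} e_r)` and
 `kap (i-1, inl r) = kap (i, inl r) - 1`.
 U_3: `X M U_3 e_r = U_2 e_r`, `k ≥ 4`, and `M (EJ k)` contains all of `U_2` (`U_2 u = M (U_2 ((1+β)⁻¹ u))`
 and `kap (2, inl _) ≤ 4`). U_i, `4 ≤ i ≤ F+3`: `M (U_{i-1} e_r)`. U_{F+4}: `X M (U_{F+4} e_r) =
 U_{F+3} ((1+β') e_r)`, `k ≥ F + 5`, all of `U_{F+3}` is there. U_{F+5}: `M (U_{F+4} e_r)`.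
 W_0: `X W_0 = 0`, `M (W_0 e_c) = W_0 (..)`.
 W_1: `X M (W_1 e_c) = W_0 ((1+ν) e_c) + U_2 (τ (1+ν) e_c)`. `c` a pivot: the second term is `0` (`e1`),
 the first is `M (W_0 e_c)`, `kap (0, inr c) = 2 ≤ k`. `c` not a pivot: `k ≥ 3`; `(1+ν) e_c = e_c`;
 `W_0 e_c = M (W_0 e_c)`, `kap (0, inr c) = 3`; and by `e3` `U_2 τ_c` is a combination of the
 `U_2 ((1+β) e_ρ) = M (U_2 e_ρ)`, `ρ` a pivot of `Rlo` (`τ_c = (1 + β) (τ_c restricted to pivots)`),
 `kap (2, inl ρ) = 3`.
 W_2: `k ≥ 4`: `W_1 e_c + U_3 τ_c = (1 + Tm τ) (W_1 e_c) = M (W_1 ((1+ν)⁻¹ e_c))`, all of `W_1` is in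
 `J_4`. (`(1 + ν)(1 - ν) = 1`, `Supp.sq`.) W_i, `3 ≤ i ≤ F+2`: `M (W_{i-1} e_c)`, `kap` drops by 1.
 W_{F+3}: `X M (W_{F+3} e_c) = W_{F+2} ((1+ν') e_c)`. `c` a pivot of `Chi`: `k ≥ F + 5`; it is
 `M (W_{F+2} ((1+ν') e_c))` because `τ (1+ν') e_c = 0` (`e2`). (For `F = 0` too: `F + 2 ≥ 2`, so the
 matrix on `W_{F+2}` is `1`.) `c` not a pivot: `k ≥ F + 6`, `W_{F+2} e_c = M (W_{F+2} e_c) -
 U_{F+4} τ_c` and by `e4` `U_{F+4} τ_c` is a combination of `M (U_{F+4} e_ρ)`, `ρ` a pivot of `Rhi`,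
 `kap (F+4, inl ρ) = F + 6`.
 W_{F+4}, W_{F+5}: `M (W_{i-1} e_c)`, `kap` drops by 1.
-/

open MvPolynomial

noncomputable section

namespace Pd6ff58.J

variable {R C : Type} [DecidableEq R] [DecidableEq C] [Fintype R] [Fintype C]
  {P : Par R C} {n : ℕ} {pos tim : Ix P ≃ Fin n} {Φ : Set (Fin P.F)}

namespace ExpUAux

/-- matrices whose nonzero entries go up in `pos` become upper triangular -/
theorem upper_of {A : Matrix (Ix P) (Ix P) ℂ} (h : ∀ x y, A x y ≠ 0 → x = y ∨ pos x < pos y) :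
    (trn pos A).BlockTriangular id := by
  intro i j hij
  by_contra hne
  have hij' : j < i := hij
  rcases h _ _ hne with h1 | h1
  · exact absurd (pos.symm.injective h1) hij'.ne'
  · rw [pos.apply_symm_apply, pos.apply_symm_apply] at h1
    exact absurd h1 (not_lt.mpr hij'.le)

/-- entries of `1 + A` -/
theorem one_add_ne {T : Type} [DecidableEq T] {A : Matrix T T ℂ} {x y : T}
    (h : (1 + A) x y ≠ 0) : x = y ∨ A x y ≠ 0 := by
  by_cases hxy : x = y
  · exact Or.inl hxy
  · right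
    rwa [Matrix.add_apply, Matrix.one_apply_ne hxy, zero_add] at h

theorem one_ne {T : Type} [DecidableEq T] {x y : T}
    (h : (1 : Matrix T T ℂ) x y ≠ 0) : x = y := by
  by_contra hxy
  exact h (Matrix.one_apply_ne hxy)

theorem Tm_up (h : Good P Φ pos tim) {β β' : Matrix R R ℂ} {ν ν' : Matrix C C ℂ}
    {τ : Matrix R C ℂ} (e : Eqs P Φ β β' ν ν' τ) (x y : Ix P) (hne : Tm P τ x y ≠ 0) :
    pos x < pos y := by
  obtain ⟨i, a⟩ := x
  obtain ⟨j, b⟩ := y
  rcases a with r | c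
  · rcases b with r' | c
    · exact absurd rfl hne
    · have h1 : (if (i : ℕ) = (j : ℕ) + 2 ∧ 1 ≤ (j : ℕ) ∧ (j : ℕ) ≤ P.F + 2 then τ r c else 0) ≠ 0 :=
        hne
      by_cases hc : (i : ℕ) = (j : ℕ) + 2 ∧ 1 ≤ (j : ℕ) ∧ (j : ℕ) ≤ P.F + 2
      · rw [if_pos hc] at h1
        refine h.anc i j r c hc.1 hc.2.1 hc.2.2 fun t ht het => ?_
        have h2 := e.e5 t ht
        rw [het] at h2
        exact absurd h2 h1
      · rw [if_neg hc] at h1
        exact absurd rfl h1
  · rcases b with r' | c'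
    · exact absurd rfl hne
    · exact absurd rfl hne

theorem Hm_up (h : Good P Φ pos tim) {β β' : Matrix R R ℂ} {ν ν' : Matrix C C ℂ}
    {τ : Matrix R C ℂ} (e : Eqs P Φ β β' ν ν' τ) (x y : Ix P)
    (hne : Hm P (1 + β) (1 + β') (1 + ν) (1 + ν') x y ≠ 0) :
    x = y ∨ pos x < pos y := by
  obtain ⟨i, a⟩ := x
  obtain ⟨j, b⟩ := y
  by_cases hij : i = j
  · subst hij
    rcases a with r | c
    · rcases b with r' | c'
      · have h1 : (if (i : ℕ) ≤ 2 then (1 + β) else if (i : ℕ) ≤ P.F + 3 then 1 else (1 + β'))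
            r r' ≠ 0 := by
          intro h0
          apply hne
          change (if i = i then _ else _) = (0 : ℂ)
          rw [if_pos rfl]
          exact h0
        by_cases h2 : (i : ℕ) ≤ 2
        · rw [if_pos h2] at h1
          rcases one_add_ne h1 with h3 | h3
          · exact Or.inl (by rw [h3])
          · obtain ⟨s1, s2, s3⟩ := e.sb r r' h3
            exact Or.inr (h.blo i r r' h2 s3 s1 s2)
        · rw [if_neg h2] at h1
          by_cases h4 : (i : ℕ) ≤ P.F + 3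
          · rw [if_pos h4] at h1
            exact Or.inl (by rw [one_ne h1])
          · rw [if_neg h4] at h1
            rcases one_add_ne h1 with h3 | h3
            · exact Or.inl (by rw [h3])
            · obtain ⟨s1, s2, s3⟩ := e.sb' r r' h3
              exact Or.inr (h.bhi i r r' (by omega) s3 s1 s2)
      · exfalso
        apply hne
        change (if i = i then _ else _) = (0 : ℂ)
        rw [if_pos rfl]
    · rcases b with r' | c'
      · exfalso
        apply hne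
        change (if i = i then _ else _) = (0 : ℂ)
        rw [if_pos rfl]
      · have h1 : (if (i : ℕ) ≤ 1 then (1 + ν) else if (i : ℕ) ≤ P.F + 2 then 1 else (1 + ν'))
            c c' ≠ 0 := by
          intro h0
          apply hne
          change (if i = i then _ else _) = (0 : ℂ)
          rw [if_pos rfl]
          exact h0
        by_cases h2 : (i : ℕ) ≤ 1
        · rw [if_pos h2] at h1
          rcases one_add_ne h1 with h3 | h3
          · exact Or.inl (by rw [h3])
          · obtain ⟨s1, s2, s3⟩ := e.sn c c' h3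
            exact Or.inr (h.nlo i c c' h2 s3 s1 s2)
        · rw [if_neg h2] at h1
          by_cases h4 : (i : ℕ) ≤ P.F + 2
          · rw [if_pos h4] at h1
            exact Or.inl (by rw [one_ne h1])
          · rw [if_neg h4] at h1
            rcases one_add_ne h1 with h3 | h3
            · exact Or.inl (by rw [h3])
            · obtain ⟨s1, s2, s3⟩ := e.sn' c c' h3
              exact Or.inr (h.nhi i c c' (by omega) s3 s1 s2)
  · exfalso
    apply hne
    change (if i = j then _ else _) = (0 : ℂ)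
    rw [if_neg hij]

end ExpUAux

open ExpUAux in
theorem exp_upper (h : Good P Φ pos tim) {β β' : Matrix R R ℂ} {ν ν' : Matrix C C ℂ}
    {τ : Matrix R C ℂ} (e : Eqs P Φ β β' ν ν' τ) :
    (trn pos (Mm P β β' ν ν' τ)).BlockTriangular id := by
  have h1 : trn pos (Mm P β β' ν ν' τ) =
      trn pos (1 + Tm P τ) * trn pos (Hm P (1 + β) (1 + β') (1 + ν) (1 + ν')) := by
    unfold trn Mm
    exact (Matrix.submatrix_mul_equiv _ _ _ _ _).symm
  rw [h1]
  refine Matrix.BlockTriangular.mul ?_ ?_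
  · refine upper_of fun x y hne => ?_
    rcases one_add_ne hne with h2 | h2
    · exact Or.inl h2
    · exact Or.inr (Tm_up h e x y h2)
  · exact upper_of (Hm_up h e)

end Pd6ff58.J
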