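import Pool.Agent.Lib.Pd6J.Main

/-!
# Module Frm: the pairs of the graphs, in the form used for circuits
-/

open MvPolynomial

noncomputable section

namespace Pd6ff58

/-- `(X, w)` is a pair with `X` a strictly upper triangular matrix which is, after a renumbering of the
basis, the Jordan matrix with `k` blocks of size `b`, and `w B` in the Springer fibre of `X`. -/
def JordanPair {n : ℕ} (k b : ℕ) (X : Matrix (Fin n) (Fin n) ℂ) (w : Equiv.Perm (Fin n)) : Prop :=
  (∃ e : Fin n ≃ Fin k × Fin b,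
    ∀ i j, X i j = if (e i).1 = (e j).1 ∧ ((e i).2 : ℕ) + 1 = (e j).2 then 1 else 0) ∧
  (∀ i j, X i j ≠ 0 → i < j) ∧ pt (permGL w) ∈ springerFiber X

/-- `(X, w)` and `(X', w')` have the same entries and values at the positions in `I`. -/
def SameOn {n : ℕ} (I : Finset (Fin n)) (X : Matrix (Fin n) (Fin n) ℂ) (w : Equiv.Perm (Fin n))
    (X' : Matrix (Fin n) (Fin n) ℂ) (w' : Equiv.Perm (Fin n)) : Prop :=
  (∀ i ∈ I, ∀ j ∈ I, X i j = X' i j) ∧ ∀ i ∈ I, w i = w' i ∧ w.symm i = w'.symm i

namespace J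

theorem frame {m n : ℕ} (hm : 0 < m) (hn : n = 6 * m * (9 * m + 4) * (m ^ 2 + 1)) :
    ∃ (Φ : SimpleGraph (Fin m) → Matrix (Fin n) (Fin n) ℂ × Equiv.Perm (Fin n))
      (A : Finset (Fin n) → Finset (Fin m × Fin m)),
      (∀ I, (A I).card ≤ 2 * I.card) ∧
      (∀ G, JordanPair (m * (9 * m + 4)) (6 * (m ^ 2 + 1)) (Φ G).1 (Φ G).2) ∧
      (∀ G G' I, (∀ a ∈ A I, (G.Adj a.1 a.2 ↔ G'.Adj a.1 a.2)) →
        SameOn I (Φ G).1 (Φ G).2 (Φ G').1 (Φ G').2) ∧
      ∀ G, FlagSingular (cellClosure (Φ G).1 (Φ G).2) ↔ G.Colorable 3 := by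
  classical
  obtain ⟨X, w, e, p, p', s, hX, hp', hpp, hpq, hG⟩ := J.main (m := m) hm hn
  have hp'inj : ∀ a b, a ≠ b → p' a ≠ p' b := by
    intro a b hab h
    apply hpp a b hab
    have h1 := hp' a
    have h2 := hp' b
    rw [h] at h1
    apply Fin.ext
    omega
  -- the touched indices
  have hT : ∀ I : Finset (Fin n), ((Finset.univ : Finset (Fin m × Fin m × Fin 6)).filter
      fun a => p a ∈ I ∨ p' a ∈ I).card ≤ I.card := by
    intro I
    refine Finset.card_le_card_of_injOn (fun a => if p a ∈ I then p a else p' a) ?_ ?_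
    · intro a ha
      rw [Finset.mem_coe, Finset.mem_filter] at ha
      by_cases h : p a ∈ I
      · simp [h]
      · have ha2 := ha.2.resolve_left h
        simpa [h] using ha2
    · intro a ha b hb hab
      by_contra hne
      by_cases h1 : p a ∈ I <;> by_cases h2 : p b ∈ I <;>
        simp only [h1, h2, if_true, if_false] at hab
      · exact hpp a b hne hab
      · exact hpq a b hab
      · exact hpq b a hab.symm
      · exact hp'inj a b hne hab
  let J : Finset (Fin n) → Finset (Fin n) := fun I => I ∪ I.image w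
  have hJ : ∀ I, (J I).card ≤ 2 * I.card := by
    intro I
    have h1 := Finset.card_union_le I (I.image w)
    have h2 : (I.image w).card ≤ I.card := Finset.card_image_le
    change (I ∪ I.image w).card ≤ _
    omega
  have inv : ∀ (G : SimpleGraph (Fin m)) (i : Fin n), s G i = (s G).symm i := by
    intro G i
    obtain ⟨h1, h2, -⟩ := hG G
    rw [Equiv.eq_symm_apply]
    by_cases c1 : ∃ a : Fin m × Fin m × Fin 6, G.Adj a.1 a.2.1 ∧ (i = p a ∨ i = p' a)
    · obtain ⟨a, ha, rfl | rfl⟩ := c1
      · rw [(h1 a ha).1, (h1 a ha).2]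
      · rw [(h1 a ha).2, (h1 a ha).1]
    · have h3 : s G i = i := h2 i fun a ha =>
        ⟨fun hc => c1 ⟨a, ha, Or.inl hc⟩, fun hc => c1 ⟨a, ha, Or.inr hc⟩⟩
      rw [h3, h3]
  refine ⟨fun G => (X.submatrix (s G).symm (s G).symm, s G * w),
    fun I => (((Finset.univ : Finset (Fin m × Fin m × Fin 6)).filter
      fun a => p a ∈ J I ∨ p' a ∈ J I)).image fun a => (a.1, a.2.1), ?_, ?_, ?_, ?_⟩
  · intro I
    exact Finset.card_image_le.trans ((hT (J I)).trans (hJ I))
  · intro G
    obtain ⟨-, -, h3, h4, -⟩ := hG G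
    refine ⟨⟨(s G).symm.trans e, fun i j => ?_⟩, fun i j h => h3 i j h, h4⟩
    exact hX _ _
  · intro G G' I h0
    have h : ∀ a, p a ∈ J I ∨ p' a ∈ J I → (G.Adj a.1 a.2.1 ↔ G'.Adj a.1 a.2.1) := by
      intro a ha
      refine h0 (a.1, a.2.1) (Finset.mem_image.2 ⟨a, ?_, rfl⟩)
      rw [Finset.mem_filter]
      exact ⟨Finset.mem_univ _, ha⟩
    have hs : ∀ i ∈ J I, (s G).symm i = (s G').symm i := by
      intro i hi
      have key : ∀ G₁ : SimpleGraph (Fin m), (s G₁).symm i =
          if h : ∃ a : Fin m × Fin m × Fin 6, G₁.Adj a.1 a.2.1 ∧ i = p a then p' h.choose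
          else if h : ∃ a : Fin m × Fin m × Fin 6, G₁.Adj a.1 a.2.1 ∧ i = p' a then p h.choose
          else i := by
        intro G₁
        obtain ⟨h1, h2, -⟩ := hG G₁
        rw [Equiv.symm_apply_eq]
        split_ifs with c1 c2
        · have := c1.choose_spec
          rw [(h1 _ this.1).2]
          exact this.2
        · have := c2.choose_spec
          rw [(h1 _ this.1).1]
          exact this.2
        · rw [h2 i]
          intro a ha
          exact ⟨fun hc => c1 ⟨a, ha, hc⟩, fun hc => c2 ⟨a, ha, hc⟩⟩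
      rw [key G, key G']
      by_cases c1 : ∃ a : Fin m × Fin m × Fin 6, i = p a
      · obtain ⟨a, rfl⟩ := c1
        have ha := h a (Or.inl hi)
        have u1 : ∀ G₁ : SimpleGraph (Fin m),
            (∃ b : Fin m × Fin m × Fin 6, G₁.Adj b.1 b.2.1 ∧ p a = p b) ↔ G₁.Adj a.1 a.2.1 := by
          intro G₁
          constructor
          · rintro ⟨b, hb, hab⟩
            by_cases hne : a = b
            · rw [hne]
              exact hb
            · exact absurd hab (hpp a b hne)
          · intro hb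
            exact ⟨a, hb, rfl⟩
        have u2 : ∀ G₁ : SimpleGraph (Fin m),
            ¬ ∃ b : Fin m × Fin m × Fin 6, G₁.Adj b.1 b.2.1 ∧ p a = p' b := by
          rintro G₁ ⟨b, -, hab⟩
          exact hpq a b hab
        have u3 : ∀ (G₁ : SimpleGraph (Fin m))
            (hc : ∃ b : Fin m × Fin m × Fin 6, G₁.Adj b.1 b.2.1 ∧ p a = p b), hc.choose = a := by
          intro G₁ hc
          by_contra hne
          exact hpp a _ (Ne.symm hne) hc.choose_spec.2
        by_cases c2 : G.Adj a.1 a.2.1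
        · have c3 := ha.1 c2
          rw [dif_pos ((u1 G).2 c2), dif_pos ((u1 G').2 c3), u3 G, u3 G']
        · have c3 : ¬ G'.Adj a.1 a.2.1 := fun hh => c2 (ha.2 hh)
          rw [dif_neg (fun hh => c2 ((u1 G).1 hh)), dif_neg (fun hh => c3 ((u1 G').1 hh)),
            dif_neg (u2 G), dif_neg (u2 G')]
      · have c1' : ∀ G₁ : SimpleGraph (Fin m),
            ¬ ∃ b : Fin m × Fin m × Fin 6, G₁.Adj b.1 b.2.1 ∧ i = p b := by
          rintro G₁ ⟨b, -, hb⟩
          exact c1 ⟨b, hb⟩
        rw [dif_neg (c1' G), dif_neg (c1' G')]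
        by_cases c4 : ∃ a : Fin m × Fin m × Fin 6, i = p' a
        · obtain ⟨a, rfl⟩ := c4
          have ha := h a (Or.inr hi)
          have u1 : ∀ G₁ : SimpleGraph (Fin m),
              (∃ b : Fin m × Fin m × Fin 6, G₁.Adj b.1 b.2.1 ∧ p' a = p' b) ↔
                G₁.Adj a.1 a.2.1 := by
            intro G₁
            constructor
            · rintro ⟨b, hb, hab⟩
              by_cases hne : a = b
              · rw [hne]
                exact hb
              · exact absurd hab (hp'inj a b hne)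
            · intro hb
              exact ⟨a, hb, rfl⟩
          have u3 : ∀ (G₁ : SimpleGraph (Fin m))
              (hc : ∃ b : Fin m × Fin m × Fin 6, G₁.Adj b.1 b.2.1 ∧ p' a = p' b),
              hc.choose = a := by
            intro G₁ hc
            by_contra hne
            exact hp'inj a _ (Ne.symm hne) hc.choose_spec.2
          by_cases c2 : G.Adj a.1 a.2.1
          · have c3 := ha.1 c2
            rw [dif_pos ((u1 G).2 c2), dif_pos ((u1 G').2 c3), u3 G, u3 G']
          · have c3 : ¬ G'.Adj a.1 a.2.1 := fun hh => c2 (ha.2 hh)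
            rw [dif_neg (fun hh => c2 ((u1 G).1 hh)), dif_neg (fun hh => c3 ((u1 G').1 hh))]
        · rw [dif_neg (fun ⟨b, _, hb⟩ => c4 ⟨b, hb⟩), dif_neg (fun ⟨b, _, hb⟩ => c4 ⟨b, hb⟩)]
    refine ⟨fun i hi j hj => ?_, fun i hi => ?_⟩
    · change X ((s G).symm i) ((s G).symm j) = X ((s G').symm i) ((s G').symm j)
      rw [hs i (Finset.mem_union_left _ hi), hs j (Finset.mem_union_left _ hj)]
    · change s G (w i) = s G' (w i) ∧ w.symm ((s G).symm i) = w.symm ((s G').symm i)
      rw [inv G, inv G', hs (w i) (Finset.mem_union_right _ (Finset.mem_image_of_mem _ hi)),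
        hs i (Finset.mem_union_left _ hi)]
      exact ⟨rfl, rfl⟩
  · intro G
    exact (hG G).2.2.2.2

end J

end Pd6ff58
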