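import Pool.Agent.Lib.Pd6J.SingB
import Pool.Agent.Lib.Pd6J.BunC
import Pool.Agent.Lib.Pd6J.ClB

/-!
# Module Mach: the main theorem on the closure of the cell

PROOF. `w B` is in the Springer fibre: `exp_mem` with the zero data (they satisfy `Eqs`; `Mm = 1`).
If there is a solution with `τ ≠ 0`: `sing`. If every solution has `τ = 0`: by `str` every
`g ∈ CS` has `fl pos g k = Mm β β' ν ν' 0 (EJ k) = Hm(1+β, ...) (EJ k)` (`Mm_zero`), so `CS ⊆ K0`
(`Supp.bd`, `Supp.det`), `zcl CS ⊆ K0` (`zcl_K0`), and `K0 ⊆ zcl CS` (`dns`). With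
`mem_zariskiClosure`: `chart g ⁻¹' Z = {x | g * lowerGL x ∈ K0}` for `Z = cellClosure (Xn pos) (ww pos tim)`
and `pt g ∈ Z ↔ g ∈ K0`. By `bun` the local rings are regular: not `FlagSingular Z`.
-/

open MvPolynomial

noncomputable section

namespace Pd6ff58.J

variable {R C : Type} [DecidableEq R] [DecidableEq C] [Fintype R] [Fintype C]
  {P : Par R C} {n : ℕ} {pos tim : Ix P ≃ Fin n} {Φ : Set (Fin P.F)}

namespace MachAux

theorem eqs_zero : Eqs P Φ 0 0 0 0 0 where
  sb := Supp.zero _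
  sb' := Supp.zero _
  sn := Supp.zero _
  sn' := Supp.zero _
  e1 := by
    intro r c _
    rw [Matrix.zero_mul]
    rfl
  e2 := by
    intro r c _
    rw [Matrix.zero_mul]
    rfl
  e3 := by
    intro r c _
    rw [Matrix.zero_mul]
  e4 := by
    intro r c _
    rw [Matrix.zero_mul]
  e5 := fun _ _ => rfl

theorem mem_closure {g : GL (Fin n) ℂ} :
    pt g ∈ cellClosure (Xn pos) (ww pos tim) ↔ g ∈ zcl (CS pos tim) :=
  mem_zariskiClosure

end MachAux

open MachAux

theorem mach (h : Good P Φ pos tim) (hc : ∀ c, P.Chi.piv c ↔ ¬ P.Clo.piv c) :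
    pt (permGL (ww pos tim)) ∈ springerFiber (Xn pos) ∧
    (FlagSingular (cellClosure (Xn pos) (ww pos tim)) ↔
      ∃ (β β' : Matrix R R ℂ) (ν ν' : Matrix C C ℂ) (τ : Matrix R C ℂ),
        Eqs P Φ β β' ν ν' τ ∧ τ ≠ 0) := by
  constructor
  · have e : Eqs P Φ (0 : Matrix R R ℂ) 0 (0 : Matrix C C ℂ) 0 0 := eqs_zero
    have h1 := exp_mem h e (g := permGL (ww pos tim)) (by
      rw [Mm_zero, add_zero, add_zero, Hm_one, trn_one, one_mul])
    exact h1.1.2
  · constructor
    · intro hs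
      by_contra hcon
      push Not at hcon
      have h1 : CS pos tim ⊆ K0 pos := by
        intro g hg
        obtain ⟨β, β', ν, ν', τ, e, hf⟩ := str h hg
        have ht : τ = 0 := hcon β β' ν ν' τ e
        subst ht
        refine ⟨1 + β, 1 + β', 1 + ν, 1 + ν', ⟨e.sb.bd, e.sb'.bd, e.sn.bd, e.sn'.bd⟩,
          ⟨e.sb.det, e.sb'.det, e.sn.det, e.sn'.det⟩, fun k => ?_⟩
        rw [hf k, Mm_zero]
      have h2 : zcl (CS pos tim) = K0 pos := by
        apply Set.Subset.antisymm
        · exact zcl_K0 h1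
        · exact dns h
      obtain ⟨g, hg, hreg⟩ := hs
      apply hreg
      have hgK : g ∈ K0 pos := by
        rw [← h2]
        exact mem_closure.1 hg
      have h3 := bun h hgK
      have h4 : chart g ⁻¹' cellClosure (Xn pos) (ww pos tim) =
          {x : Low n → ℂ | g * lowerGL x ∈ K0 pos} := by
        ext x
        rw [← h2]
        exact mem_closure
      rw [h4]
      exact h3
    · rintro ⟨β, β', ν, ν', τ, e, ht⟩
      exact sing h hc e ht

end Pd6ff58.J
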