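import Pool.Agent.Lib.Pd6J.Def

/-!
# Module Pos: existence of the two orders

`exists_sort`: sort a finite type by a key (ties are broken arbitrarily). `exists_pos`: `pos` from
the key `(lev x, grp x, bkey x, pkey x)`, lexicographically, `tim` from the key `(kap x, n - pos x)`.
-/

noncomputable section

namespace Pd6ff58.J

theorem exists_sort {I K : Type} [Fintype I] [LinearOrder K] (key : I → K) :
    ∃ e : I ≃ Fin (Fintype.card I), ∀ x y, key x < key y → e x < e y := by
  classical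
  obtain ⟨g, hg⟩ : ∃ g : I → Lex (K × Fin (Fintype.card I)),
      g = fun x => toLex (key x, Fintype.equivFin I x) := ⟨_, rfl⟩
  have hinj : Function.Injective g := by
    intro x y hxy
    rw [hg] at hxy
    have h1 := toLex.injective hxy
    exact (Fintype.equivFin I).injective (Prod.ext_iff.mp h1).2
  let _ : LinearOrder I := LinearOrder.lift' g hinj
  refine ⟨(Fintype.orderIsoFinOfCardEq I rfl).symm.toEquiv, fun x y hxy => ?_⟩
  have h : x < y := by
    show g x < g y
    rw [hg]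
    exact Prod.Lex.toLex_lt_toLex.mpr (Or.inl hxy)
  exact (Fintype.orderIsoFinOfCardEq I rfl).symm.lt_iff_lt.mpr h

namespace PosAux

variable {R C : Type}

open Classical in
/-- the group inside a level -/
def grp (P : Par R C) : Ix P → ℕ
  | (i, Sum.inl r) => if ∃ t : Fin P.F, (i : ℕ) = (t : ℕ) + 4 ∧ (P.ent t).1 = r then 1 else 0
  | (i, Sum.inr c) => if ∃ t : Fin P.F, (i : ℕ) = (t : ℕ) + 2 ∧ (P.ent t).2 = c then 2 else 3

/-- the key of the block -/
def bkey (P : Par R C) : Ix P → ℤ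
  | (i, Sum.inl r) =>
    if (i : ℕ) = 0 then (P.Rlo.blk r : ℤ) else if (i : ℕ) = 1 then -(P.Rlo.blk r : ℤ)
    else if (i : ℕ) = P.F + 4 then (P.Rhi.blk r : ℤ)
    else if (i : ℕ) = P.F + 5 then -(P.Rhi.blk r : ℤ) else 0
  | (i, Sum.inr c) =>
    if (i : ℕ) = 0 then (P.Clo.blk c : ℤ) else if (i : ℕ) = 1 then -(P.Clo.blk c : ℤ)
    else if (i : ℕ) = P.F + 4 then (P.Chi.blk c : ℤ)
    else if (i : ℕ) = P.F + 5 then -(P.Chi.blk c : ℤ) else 0

open Classical in
/-- the key of the pivots -/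
def pkey (P : Par R C) : Ix P → ℕ
  | (i, Sum.inl r) =>
    if (i : ℕ) ≤ 2 then (if P.Rlo.piv r then 1 else 0)
    else if P.F + 4 ≤ (i : ℕ) then (if P.Rhi.piv r then 1 else 0) else 0
  | (i, Sum.inr c) =>
    if (i : ℕ) ≤ 1 then (if P.Clo.piv c then 1 else 0)
    else if P.F + 3 ≤ (i : ℕ) then (if P.Chi.piv c then 1 else 0) else 0

/-- the key -/
def key (P : Par R C) (x : Ix P) : Lex (ℕ × Lex (ℕ × Lex (ℤ × ℕ))) :=
  toLex (lev P x, toLex (grp P x, toLex (bkey P x, pkey P x)))

theorem key_lt1 {P : Par R C} {x y : Ix P} (h : lev P x < lev P y) : key P x < key P y :=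
  Prod.Lex.toLex_lt_toLex.mpr (Or.inl h)

theorem key_lt2 {P : Par R C} {x y : Ix P} (h : lev P x = lev P y) (h2 : grp P x < grp P y) :
    key P x < key P y :=
  Prod.Lex.toLex_lt_toLex.mpr (Or.inr ⟨h, Prod.Lex.toLex_lt_toLex.mpr (Or.inl h2)⟩)

theorem key_lt3 {P : Par R C} {x y : Ix P} (h : lev P x = lev P y) (h2 : grp P x = grp P y)
    (h3 : bkey P x < bkey P y) : key P x < key P y :=
  Prod.Lex.toLex_lt_toLex.mpr (Or.inr ⟨h, Prod.Lex.toLex_lt_toLex.mpr (Or.inr ⟨h2,
    Prod.Lex.toLex_lt_toLex.mpr (Or.inl h3)⟩)⟩)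

theorem key_lt4 {P : Par R C} {x y : Ix P} (h : lev P x = lev P y) (h2 : grp P x = grp P y)
    (h3 : bkey P x = bkey P y) (h4 : pkey P x < pkey P y) : key P x < key P y :=
  Prod.Lex.toLex_lt_toLex.mpr (Or.inr ⟨h, Prod.Lex.toLex_lt_toLex.mpr (Or.inr ⟨h2,
    Prod.Lex.toLex_lt_toLex.mpr (Or.inr ⟨h3, h4⟩)⟩)⟩)

theorem grp_inl_le (P : Par R C) (i : Fin (P.F + 6)) (r : R) : grp P (i, Sum.inl r) ≤ 1 := by
  classical
  show (if _ then 1 else 0) ≤ 1
  split_ifs <;> omega

theorem grp_inr_ge (P : Par R C) (i : Fin (P.F + 6)) (c : C) : 2 ≤ grp P (i, Sum.inr c) := by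
  classical
  show 2 ≤ (if _ then 2 else 3)
  split_ifs <;> omega

theorem grp_inl_zero {P : Par R C} {i : Fin (P.F + 6)} (r : R)
    (h : (i : ℕ) ≤ 3 ∨ P.F + 4 ≤ (i : ℕ)) : grp P (i, Sum.inl r) = 0 := by
  classical
  refine if_neg ?_
  rintro ⟨t, h1, -⟩
  have := t.2
  omega

theorem grp_inr_three {P : Par R C} {i : Fin (P.F + 6)} (c : C)
    (h : (i : ℕ) ≤ 1 ∨ P.F + 2 ≤ (i : ℕ)) : grp P (i, Sum.inr c) = 3 := by
  classical
  refine if_neg ?_
  rintro ⟨t, h1, -⟩
  have := t.2
  omega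

theorem grp_one {P : Par R C} {x : Ix P} {t : Fin P.F} (hl : lev P x = (t : ℕ) + 4)
    (hg : grp P x = 1) : ((x.1 : ℕ) = (t : ℕ) + 4) ∧ x.2 = Sum.inl (P.ent t).1 := by
  classical
  rcases x with ⟨i, r | c⟩
  · have hl' : (i : ℕ) = (t : ℕ) + 4 := hl
    have hg' : (if ∃ t : Fin P.F, (i : ℕ) = (t : ℕ) + 4 ∧ (P.ent t).1 = r then 1 else 0) = 1 := hg
    refine ⟨hl', ?_⟩
    by_cases hex : ∃ t : Fin P.F, (i : ℕ) = (t : ℕ) + 4 ∧ (P.ent t).1 = r
    · obtain ⟨t', h1, h2⟩ := hex
      have : t' = t := Fin.ext (by omega)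
      subst this
      exact congrArg Sum.inl h2.symm
    · rw [if_neg hex] at hg'
      omega
  · have := grp_inr_ge P i c
    omega

theorem grp_two {P : Par R C} {x : Ix P} {t : Fin P.F} (hl : lev P x = (t : ℕ) + 4)
    (hg : grp P x = 2) : ((x.1 : ℕ) = (t : ℕ) + 2) ∧ x.2 = Sum.inr (P.ent t).2 := by
  classical
  rcases x with ⟨i, r | c⟩
  · have := grp_inl_le P i r
    omega
  · have hl' : (i : ℕ) + 2 = (t : ℕ) + 4 := hl
    have hg' : (if ∃ t : Fin P.F, (i : ℕ) = (t : ℕ) + 2 ∧ (P.ent t).2 = c then 2 else 3) = 2 := hg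
    refine ⟨by show (i : ℕ) = _; omega, ?_⟩
    by_cases hex : ∃ t : Fin P.F, (i : ℕ) = (t : ℕ) + 2 ∧ (P.ent t).2 = c
    · obtain ⟨t', h1, h2⟩ := hex
      have : t' = t := Fin.ext (by omega)
      subst this
      exact congrArg Sum.inr h2.symm
    · rw [if_neg hex] at hg'
      omega

theorem grp_ent1 {P : Par R C} {t : Fin P.F} {i : Fin (P.F + 6)} (hi : (i : ℕ) = (t : ℕ) + 4) :
    grp P (i, Sum.inl (P.ent t).1) = 1 := by
  classical
  exact if_pos ⟨t, hi, rfl⟩

theorem grp_ent2 {P : Par R C} {t : Fin P.F} {j : Fin (P.F + 6)} (hj : (j : ℕ) = (t : ℕ) + 2) :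
    grp P (j, Sum.inr (P.ent t).2) = 2 := by
  classical
  exact if_pos ⟨t, hj, rfl⟩

end PosAux

open PosAux

variable {R C : Type} [DecidableEq R] [DecidableEq C] [Fintype R] [Fintype C]

theorem exists_pos (P : Par R C) :
    ∃ pos tim : Ix P ≃ Fin (Fintype.card (Ix P)), Good P ∅ pos tim ∧
      ∀ (t : Fin P.F) (i j : Fin (P.F + 6)), (i : ℕ) = (t : ℕ) + 4 → (j : ℕ) = (t : ℕ) + 2 →
        (pos (j, Sum.inr (P.ent t).2) : ℕ) = (pos (i, Sum.inl (P.ent t).1) : ℕ) + 1 := by
  classical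
  obtain ⟨pos, hpos⟩ := exists_sort (key P)
  obtain ⟨tim, htim⟩ := exists_sort (fun x : Ix P =>
    toLex (kap P x, OrderDual.toDual (pos x)))
  have hle : ∀ x y, pos x < pos y → ¬ key P y < key P x := by
    intro x y hxy h
    exact absurd (hpos _ _ h) (not_lt.mpr hxy.le)
  refine ⟨pos, tim, ?_, ?_⟩
  · refine ⟨?_, ?_, ?_, ?_, ?_, ?_, ?_, ?_, ?_, ?_, ?_, ?_, ?_, ?_, ?_, ?_, ?_⟩
    · intro x y h
      exact hpos _ _ (key_lt1 h)
    · intro x y h
      exact htim _ _ (Prod.Lex.toLex_lt_toLex.mpr (Or.inl h))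
    · intro x y h h2
      exact htim _ _ (Prod.Lex.toLex_lt_toLex.mpr (Or.inr ⟨h, OrderDual.toDual_lt_toDual.mpr h2⟩))
    · -- blo
      intro i r r' hi hb h1 h2
      refine hpos _ _ (key_lt4 rfl ?_ ?_ ?_)
      · rw [grp_inl_zero r (Or.inl (by omega)), grp_inl_zero r' (Or.inl (by omega))]
      · have h3 : ¬ (i : ℕ) = P.F + 4 := by omega
        have h4 : ¬ (i : ℕ) = P.F + 5 := by omega
        simp only [bkey, hb, if_neg h3, if_neg h4]
      · simp only [pkey, if_pos hi, if_neg h1, if_pos h2]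
        omega
    · -- blo0
      intro i r r' hi h1 h2 h
      by_contra hcon
      refine hle _ _ h (key_lt3 rfl ?_ ?_)
      · rw [grp_inl_zero r (Or.inl (by omega)), grp_inl_zero r' (Or.inl (by omega))]
      · simp only [bkey, if_pos hi]
        omega
    · -- blo1
      intro i r r' hi h1 h2 h
      by_contra hcon
      refine hle _ _ h (key_lt3 rfl ?_ ?_)
      · rw [grp_inl_zero r (Or.inl (by omega)), grp_inl_zero r' (Or.inl (by omega))]
      · have h0 : ¬ (i : ℕ) = 0 := by omega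
        simp only [bkey, if_pos hi, if_neg h0]
        omega
    · -- bhi
      intro i r r' hi hb h1 h2
      refine hpos _ _ (key_lt4 rfl ?_ ?_ ?_)
      · rw [grp_inl_zero r (Or.inr (by omega)), grp_inl_zero r' (Or.inr (by omega))]
      · have h0 : ¬ (i : ℕ) = 0 := by omega
        have h1 : ¬ (i : ℕ) = 1 := by omega
        simp only [bkey, hb, if_neg h0, if_neg h1]
      · have h3 : ¬ (i : ℕ) ≤ 2 := by omega
        simp only [pkey, if_neg h3, if_pos hi, if_neg h1, if_pos h2]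
        omega
    · -- bhi0
      intro i r r' hi h1 h2 h
      by_contra hcon
      refine hle _ _ h (key_lt3 rfl ?_ ?_)
      · rw [grp_inl_zero r (Or.inr (by omega)), grp_inl_zero r' (Or.inr (by omega))]
      · have h0 : ¬ (i : ℕ) = 0 := by omega
        have h1 : ¬ (i : ℕ) = 1 := by omega
        simp only [bkey, if_neg h0, if_neg h1, if_pos hi]
        omega
    · -- bhi1
      intro i r r' hi h1 h2 h
      by_contra hcon
      refine hle _ _ h (key_lt3 rfl ?_ ?_)
      · rw [grp_inl_zero r (Or.inr (by omega)), grp_inl_zero r' (Or.inr (by omega))]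
      · have h0 : ¬ (i : ℕ) = 0 := by omega
        have h1 : ¬ (i : ℕ) = 1 := by omega
        have h3 : ¬ (i : ℕ) = P.F + 4 := by omega
        simp only [bkey, if_neg h0, if_neg h1, if_neg h3, if_pos hi]
        omega
    · -- nlo
      intro i r r' hi hb h1 h2
      refine hpos _ _ (key_lt4 rfl ?_ ?_ ?_)
      · rw [grp_inr_three r (Or.inl (by omega)), grp_inr_three r' (Or.inl (by omega))]
      · have h3 : ¬ (i : ℕ) = P.F + 4 := by omega
        have h4 : ¬ (i : ℕ) = P.F + 5 := by omega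
        simp only [bkey, hb, if_neg h3, if_neg h4]
      · simp only [pkey, if_pos hi, if_neg h1, if_pos h2]
        omega
    · -- nlo0
      intro i r r' hi h1 h2 h
      by_contra hcon
      refine hle _ _ h (key_lt3 rfl ?_ ?_)
      · rw [grp_inr_three r (Or.inl (by omega)), grp_inr_three r' (Or.inl (by omega))]
      · simp only [bkey, if_pos hi]
        omega
    · -- nlo1
      intro i r r' hi h1 h2 h
      by_contra hcon
      refine hle _ _ h (key_lt3 rfl ?_ ?_)
      · rw [grp_inr_three r (Or.inl (by omega)), grp_inr_three r' (Or.inl (by omega))]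
      · have h0 : ¬ (i : ℕ) = 0 := by omega
        simp only [bkey, if_pos hi, if_neg h0]
        omega
    · -- nhi
      intro i r r' hi hb h1 h2
      refine hpos _ _ (key_lt4 rfl ?_ ?_ ?_)
      · rw [grp_inr_three r (Or.inr (by omega)), grp_inr_three r' (Or.inr (by omega))]
      · have h0 : ¬ (i : ℕ) = 0 := by omega
        have h1 : ¬ (i : ℕ) = 1 := by omega
        simp only [bkey, hb, if_neg h0, if_neg h1]
      · have h3 : ¬ (i : ℕ) ≤ 1 := by omega
        simp only [pkey, if_neg h3, if_pos hi, if_neg h1, if_pos h2]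
        omega
    · -- nhi0
      intro i r r' hi h1 h2 h
      by_contra hcon
      refine hle _ _ h (key_lt3 rfl ?_ ?_)
      · rw [grp_inr_three r (Or.inr (by omega)), grp_inr_three r' (Or.inr (by omega))]
      · have h0 : ¬ (i : ℕ) = 0 := by omega
        have h1 : ¬ (i : ℕ) = 1 := by omega
        simp only [bkey, if_neg h0, if_neg h1, if_pos hi]
        omega
    · -- nhi1
      intro i r r' hi h1 h2 h
      by_contra hcon
      refine hle _ _ h (key_lt3 rfl ?_ ?_)
      · rw [grp_inr_three r (Or.inr (by omega)), grp_inr_three r' (Or.inr (by omega))]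
      · have h0 : ¬ (i : ℕ) = 0 := by omega
        have h1 : ¬ (i : ℕ) = 1 := by omega
        have h3 : ¬ (i : ℕ) = P.F + 4 := by omega
        simp only [bkey, if_neg h0, if_neg h1, if_neg h3, if_pos hi]
        omega
    · -- anc
      intro i j r c hij _ _ _
      refine hpos _ _ (key_lt2 ?_ ?_)
      · show (i : ℕ) = (j : ℕ) + 2
        exact hij
      · have h1 := grp_inl_le P i r
        have h2 := grp_inr_ge P j c
        omega
    · -- forb
      intro t ht
      exact absurd ht (Set.notMem_empty t)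
  · intro t i j hi hj
    obtain ⟨x, hx⟩ : ∃ x : Ix P, x = (i, Sum.inl (P.ent t).1) := ⟨_, rfl⟩
    obtain ⟨y, hy⟩ : ∃ y : Ix P, y = (j, Sum.inr (P.ent t).2) := ⟨_, rfl⟩
    rw [← hx, ← hy]
    have hlx : lev P x = (t : ℕ) + 4 := by
      rw [hx]; exact hi
    have hly : lev P y = (t : ℕ) + 4 := by
      rw [hy]; show (j : ℕ) + 2 = _; omega
    have hgx : grp P x = 1 := by
      rw [hx]; exact grp_ent1 hi
    have hgy : grp P y = 2 := by
      rw [hy]; exact grp_ent2 hj
    have hxy : pos x < pos y := hpos _ _ (key_lt2 (hlx.trans hly.symm) (by omega))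
    by_contra hcon
    have hlt : (pos x : ℕ) + 1 < (pos y : ℕ) := by
      have : (pos x : ℕ) < (pos y : ℕ) := hxy
      omega
    have hb : (pos x : ℕ) + 1 < Fintype.card (Ix P) := lt_trans hlt (pos y).2
    obtain ⟨z, hz⟩ : ∃ z : Ix P, z = pos.symm ⟨(pos x : ℕ) + 1, hb⟩ := ⟨_, rfl⟩
    have hpz : (pos z : ℕ) = (pos x : ℕ) + 1 := by
      rw [hz, Equiv.apply_symm_apply]
    have hxz : pos x < pos z := by
      show (pos x : ℕ) < (pos z : ℕ)
      omega
    have hzy : pos z < pos y := by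
      show (pos z : ℕ) < (pos y : ℕ)
      omega
    have h1 := hle _ _ hxz
    have h2 := hle _ _ hzy
    have hlz : lev P z = (t : ℕ) + 4 := by
      have h3 : ¬ lev P z < lev P x := fun h => h1 (key_lt1 h)
      have h4 : ¬ lev P y < lev P z := fun h => h2 (key_lt1 h)
      omega
    have hg1 : ¬ grp P z < grp P x := fun h => h1 (key_lt2 (hlz.trans hlx.symm) h)
    have hg2 : ¬ grp P y < grp P z := fun h => h2 (key_lt2 (hly.trans hlz.symm) h)
    have hg3 : grp P z = 1 ∨ grp P z = 2 := by omega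
    rcases hg3 with hg3 | hg3
    · obtain ⟨h5, h6⟩ := grp_one hlz hg3
      have : z = x := by
        rw [hx]
        exact Prod.ext (Fin.ext (h5.trans hi.symm)) h6
      rw [this] at hxz
      exact lt_irrefl _ hxz
    · obtain ⟨h5, h6⟩ := grp_two hlz hg3
      have : z = y := by
        rw [hy]
        exact Prod.ext (Fin.ext (h5.trans hj.symm)) h6
      rw [this] at hzy
      exact lt_irrefl _ hzy

end Pd6ff58.J
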