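import Pool.Agent.Lib.Pd6J.Def

/-!
# Module Swp: exchanging adjacent positions

For `t ∈ Φ` the positions of `(t+4, inl r_t)`, `(t+2, inr c_t)` are exchanged by `s`.
-/

noncomputable section

namespace Pd6ff58.J

variable {R C : Type} [DecidableEq R] [DecidableEq C] [Fintype R] [Fintype C]
  {P : Par R C} {n : ℕ} {pos tim : Ix P ≃ Fin n}

theorem swp (h : Good P ∅ pos tim)
    (hadj : ∀ (t : Fin P.F) (i j : Fin (P.F + 6)), (i : ℕ) = (t : ℕ) + 4 → (j : ℕ) = (t : ℕ) + 2 →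
      (pos (j, Sum.inr (P.ent t).2) : ℕ) = (pos (i, Sum.inl (P.ent t).1) : ℕ) + 1)
    (Φ : Set (Fin P.F)) (s : Equiv.Perm (Fin n))
    (hs : ∀ t ∈ Φ, ∀ i j : Fin (P.F + 6), (i : ℕ) = (t : ℕ) + 4 → (j : ℕ) = (t : ℕ) + 2 →
      s (pos (i, Sum.inl (P.ent t).1)) = pos (j, Sum.inr (P.ent t).2) ∧
      s (pos (j, Sum.inr (P.ent t).2)) = pos (i, Sum.inl (P.ent t).1))
    (hs' : ∀ x : Ix P, (∀ t ∈ Φ, ∀ i j : Fin (P.F + 6), (i : ℕ) = (t : ℕ) + 4 →
      (j : ℕ) = (t : ℕ) + 2 → x ≠ (i, Sum.inl (P.ent t).1) ∧ x ≠ (j, Sum.inr (P.ent t).2)) →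
      s (pos x) = pos x) :
    Good P Φ (pos.trans s) tim := by
  classical
  -- the three kinds of elements
  have tri : ∀ x : Ix P, (∃ t ∈ Φ, ∃ i j : Fin (P.F + 6), (i : ℕ) = (t : ℕ) + 4 ∧
      (j : ℕ) = (t : ℕ) + 2 ∧ x = (i, Sum.inl (P.ent t).1) ∧
      s (pos x) = pos (j, Sum.inr (P.ent t).2) ∧ (s (pos x) : ℕ) = (pos x : ℕ) + 1) ∨
      ((s (pos x) : ℕ) ≤ pos x ∧ (pos x : ℕ) ≤ (s (pos x) : ℕ) + 1) := by
    intro x
    by_cases hx : ∀ t ∈ Φ, ∀ i j : Fin (P.F + 6), (i : ℕ) = (t : ℕ) + 4 →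
      (j : ℕ) = (t : ℕ) + 2 → x ≠ (i, Sum.inl (P.ent t).1) ∧ x ≠ (j, Sum.inr (P.ent t).2)
    · right
      rw [hs' x hx]
      omega
    · push Not at hx
      obtain ⟨t, ht, i, j, hi, hj, hx⟩ := hx
      by_cases h1 : x = (i, Sum.inl (P.ent t).1)
      · left
        refine ⟨t, ht, i, j, hi, hj, h1, ?_, ?_⟩
        · rw [h1]
          exact (hs t ht i j hi hj).1
        · rw [h1, (hs t ht i j hi hj).1]
          exact hadj t i j hi hj
      · right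
        rw [hx h1, (hs t ht i j hi hj).2]
        have := hadj t i j hi hj
        omega
  have mono : ∀ x y : Ix P, pos x < pos y →
      (∀ t ∈ Φ, ∀ i j : Fin (P.F + 6), (i : ℕ) = (t : ℕ) + 4 → (j : ℕ) = (t : ℕ) + 2 →
        ¬ (x = (i, Sum.inl (P.ent t).1) ∧ y = (j, Sum.inr (P.ent t).2))) →
      s (pos x) < s (pos y) := by
    intro x y hxy hne
    have hxy' : (pos x : ℕ) < pos y := hxy
    have hne' : (s (pos x) : ℕ) ≠ s (pos y) := by
      intro hh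
      have := s.injective (Fin.ext hh)
      rw [this] at hxy'
      exact lt_irrefl _ hxy'
    by_contra hcon
    have hcon' : (s (pos y) : ℕ) ≤ s (pos x) := not_lt.1 hcon
    have hy : (pos y : ℕ) ≤ (s (pos y) : ℕ) + 1 := by
      rcases tri y with ⟨t, ht, i, j, hi, hj, h1, h2, h3⟩ | h1
      · omega
      · exact h1.2
    rcases tri x with ⟨t, ht, i, j, hi, hj, h1, h2, h3⟩ | h1
    · refine hne t ht i j hi hj ⟨h1, ?_⟩
      apply pos.injective
      rw [← h2]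
      apply Fin.ext
      omega
    · have := h1.1
      omega
  have mono2 : ∀ x y : Ix P, s (pos x) < s (pos y) →
      (∀ t ∈ Φ, ∀ i j : Fin (P.F + 6), (i : ℕ) = (t : ℕ) + 4 → (j : ℕ) = (t : ℕ) + 2 →
        ¬ (y = (i, Sum.inl (P.ent t).1) ∧ x = (j, Sum.inr (P.ent t).2))) →
      pos x < pos y := by
    intro x y hxy hne
    by_contra hcon
    rcases (not_lt.1 hcon).lt_or_eq with h1 | h1
    · exact absurd hxy (not_lt.2 (mono y x h1 hne).le)
    · rw [h1] at hxy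
      exact lt_irrefl _ hxy
  have ii : ∀ (i j : Fin (P.F + 6)) (r r' : R), pos (i, Sum.inl r) < pos (j, Sum.inl r') →
      s (pos (i, Sum.inl r)) < s (pos (j, Sum.inl r')) := fun i j r r' hh =>
    mono _ _ hh fun t _ i j _ _ hc => by simpa using congrArg Prod.snd hc.2
  have ii2 : ∀ (i j : Fin (P.F + 6)) (r r' : R),
      s (pos (i, Sum.inl r)) < s (pos (j, Sum.inl r')) →
      pos (i, Sum.inl r) < pos (j, Sum.inl r') := fun i j r r' hh =>
    mono2 _ _ hh fun t _ i j _ _ hc => by simpa using congrArg Prod.snd hc.2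
  have jj : ∀ (i j : Fin (P.F + 6)) (r r' : C), pos (i, Sum.inr r) < pos (j, Sum.inr r') →
      s (pos (i, Sum.inr r)) < s (pos (j, Sum.inr r')) := fun i j r r' hh =>
    mono _ _ hh fun t _ i j _ _ hc => by simpa using congrArg Prod.snd hc.1
  have jj2 : ∀ (i j : Fin (P.F + 6)) (r r' : C),
      s (pos (i, Sum.inr r)) < s (pos (j, Sum.inr r')) →
      pos (i, Sum.inr r) < pos (j, Sum.inr r') := fun i j r r' hh =>
    mono2 _ _ hh fun t _ i j _ _ hc => by simpa using congrArg Prod.snd hc.1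
  constructor
  · intro x y hxy
    refine mono x y (h.lev_lt x y hxy) ?_
    rintro t ht i j hi hj ⟨rfl, rfl⟩
    simp only [lev] at hxy
    omega
  · exact h.tim_kap
  · intro x y hxy hp
    refine h.tim_pos x y hxy (mono2 y x hp ?_)
    rintro t ht i j hi hj ⟨rfl, rfl⟩
    have := t.2
    simp only [kap] at hxy
    split_ifs at hxy <;> omega
  · intro i r r' h1 h2 h3 h4
    exact ii _ _ _ _ (h.blo i r r' h1 h2 h3 h4)
  · intro i r r' h1 h2 h3 h4
    exact h.blo0 i r r' h1 h2 h3 (ii2 _ _ _ _ h4)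
  · intro i r r' h1 h2 h3 h4
    exact h.blo1 i r r' h1 h2 h3 (ii2 _ _ _ _ h4)
  · intro i r r' h1 h2 h3 h4
    exact ii _ _ _ _ (h.bhi i r r' h1 h2 h3 h4)
  · intro i r r' h1 h2 h3 h4
    exact h.bhi0 i r r' h1 h2 h3 (ii2 _ _ _ _ h4)
  · intro i r r' h1 h2 h3 h4
    exact h.bhi1 i r r' h1 h2 h3 (ii2 _ _ _ _ h4)
  · intro i r r' h1 h2 h3 h4
    exact jj _ _ _ _ (h.nlo i r r' h1 h2 h3 h4)
  · intro i r r' h1 h2 h3 h4
    exact h.nlo0 i r r' h1 h2 h3 (jj2 _ _ _ _ h4)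
  · intro i r r' h1 h2 h3 h4
    exact h.nlo1 i r r' h1 h2 h3 (jj2 _ _ _ _ h4)
  · intro i r r' h1 h2 h3 h4
    exact jj _ _ _ _ (h.nhi i r r' h1 h2 h3 h4)
  · intro i r r' h1 h2 h3 h4
    exact h.nhi0 i r r' h1 h2 h3 (jj2 _ _ _ _ h4)
  · intro i r r' h1 h2 h3 h4
    exact h.nhi1 i r r' h1 h2 h3 (jj2 _ _ _ _ h4)
  · intro i j r c h1 h2 h3 h4
    refine mono _ _ (h.anc i j r c h1 h2 h3 (by simp)) ?_
    rintro t ht i' j' hi hj ⟨e1, e2⟩
    rw [Prod.mk.injEq] at e1 e2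
    obtain ⟨e1, e1'⟩ := e1
    obtain ⟨e2, e2'⟩ := e2
    have e1'' := Sum.inl_injective e1'
    have e2'' := Sum.inr_injective e2'
    refine h4 t ht (Prod.ext e1''.symm e2''.symm) ?_
    rw [e2, hj]
  · intro t ht i j hj hi
    obtain ⟨h1, h2⟩ := hs t ht i j hi hj
    change s (pos _) < s (pos _)
    rw [h1, h2]
    have := hadj t i j hi hj
    change (pos _ : ℕ) < pos _
    omega

end Pd6ff58.J
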