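import Pool.Agent.Lib.Pd6J.Mach
import Pool.Agent.Lib.Pd6J.Pos
import Pool.Agent.Lib.Pd6J.Swp
import Pool.Agent.Lib.Pd6J.ColA
import Pool.Agent.Lib.Pd6J.ColB

/-!
# Module Main: the final theorem

PROOF. `P = PP m`, `pos₀, tim` from `exists_pos`; `Fintype.card (Ix P) = (m*m*6 + 6) * (9 m^2 + 4 m) = n`
(`exists_pos` composed with `finCongr`, or `subst`). `X = Xn pos₀`, `w = ww pos₀ tim`, `e i = ` the pair of
the number of `(pos₀.symm i).2` (via `Rr m ⊕ Cc m ≃ Fin (m * (9 m + 4))`) and of `(pos₀.symm i).1`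
(`PP m .F + 6 = 6 (m ^ 2 + 1)`). For `a = (u, v, k)` let `t = finProdFinEquiv (finProdFinEquiv (u, v), k)`,
`p a = pos₀ (t+4, inl (ent t).1)`, `p' a = pos₀ (t+2, inr (ent t).2)`. `s G` is the permutation which
exchanges `p a` and `p' a` for the `a` with `G.Adj a.1 a.2.1` (define it as an involutive function,
`Function.Involutive.toPerm`; the `p a`, `p' a` are pairwise distinct because the levels are).
`swp` with `Φ = PhiG G` gives `Good P (PhiG G) (pos₀.trans (s G)) tim`; `Xn (pos₀.trans s) =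
(Xn pos₀).submatrix s.symm s.symm`, `ww (pos₀.trans s) tim = s * ww pos₀ tim`. Then `mach`, `col_imp`,
`col_of`. Strictly upper triangular: `Good.lev_lt`.
-/

open MvPolynomial

noncomputable section

namespace Pd6ff58.J

namespace MainAux

theorem exists_swap {A I : Type} (p p' : A → I) (h1 : ∀ a b, a ≠ b → p a ≠ p b)
    (h2 : ∀ a b, a ≠ b → p' a ≠ p' b) (h3 : ∀ a b, p a ≠ p' b) (Q : A → Prop) :
    ∃ s : Equiv.Perm I, (∀ a, Q a → s (p a) = p' a ∧ s (p' a) = p a) ∧
      ∀ i, (∀ a, Q a → i ≠ p a ∧ i ≠ p' a) → s i = i := by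
  classical
  let f : I → I := fun i =>
    if h : ∃ a, Q a ∧ i = p a then p' h.choose
    else if h : ∃ a, Q a ∧ i = p' a then p h.choose else i
  have f1 : ∀ a, Q a → f (p a) = p' a := by
    intro a ha
    have h : ∃ b, Q b ∧ p a = p b := ⟨a, ha, rfl⟩
    have hb : h.choose = a := by
      by_contra hne
      exact h1 a _ (Ne.symm hne) h.choose_spec.2
    change (if h : ∃ b, Q b ∧ p a = p b then p' h.choose else _) = _
    rw [dif_pos h, hb]
  have f2 : ∀ a, Q a → f (p' a) = p a := by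
    intro a ha
    have h0 : ¬ ∃ b, Q b ∧ p' a = p b := by
      rintro ⟨b, -, hb⟩
      exact h3 b a hb.symm
    have h : ∃ b, Q b ∧ p' a = p' b := ⟨a, ha, rfl⟩
    have hb : h.choose = a := by
      by_contra hne
      exact h2 a _ (Ne.symm hne) h.choose_spec.2
    change (if h : ∃ b, Q b ∧ p' a = p b then p' h.choose else
      if h : ∃ b, Q b ∧ p' a = p' b then p h.choose else p' a) = _
    rw [dif_neg h0, dif_pos h, hb]
  have f3 : ∀ i, (∀ a, Q a → i ≠ p a ∧ i ≠ p' a) → f i = i := by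
    intro i hi
    have h0 : ¬ ∃ b, Q b ∧ i = p b := by
      rintro ⟨b, hb, hb'⟩
      exact (hi b hb).1 hb'
    have h4 : ¬ ∃ b, Q b ∧ i = p' b := by
      rintro ⟨b, hb, hb'⟩
      exact (hi b hb).2 hb'
    change (if h : ∃ b, Q b ∧ i = p b then p' h.choose else
      if h : ∃ b, Q b ∧ i = p' b then p h.choose else i) = _
    rw [dif_neg h0, dif_neg h4]
  have hf : Function.Involutive f := by
    intro i
    by_cases c1 : ∃ a, Q a ∧ i = p a
    · obtain ⟨a, ha, rfl⟩ := c1
      rw [f1 a ha, f2 a ha]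
    · by_cases c2 : ∃ a, Q a ∧ i = p' a
      · obtain ⟨a, ha, rfl⟩ := c2
        rw [f2 a ha, f1 a ha]
      · have h := f3 i fun a ha => ⟨fun hh => c1 ⟨a, ha, hh⟩, fun hh => c2 ⟨a, ha, hh⟩⟩
        rw [h, h]
  exact ⟨hf.toPerm, fun a ha => ⟨f1 a ha, f2 a ha⟩, fun i hi => f3 i hi⟩

theorem card_RC (m : ℕ) : Fintype.card (Rr m ⊕ Cc m) = m * (9 * m + 4) := by
  simp only [Fintype.card_sum, Fintype.card_prod, Fintype.card_fin]
  ring

theorem F_eq (m : ℕ) : (PP m).F + 6 = 6 * (m ^ 2 + 1) := by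
  change m * m * 6 + 6 = _
  ring

theorem card_Ix (m : ℕ) : Fintype.card (Ix (PP m)) = 6 * m * (9 * m + 4) * (m ^ 2 + 1) := by
  unfold Ix
  rw [Fintype.card_prod, card_RC, Fintype.card_fin, F_eq]
  ring

/-- the numbering of the triples -/
def tq (m : ℕ) : Fin m × Fin m × Fin 6 ≃ Fin (m * m * 6) :=
  (Equiv.prodAssoc _ _ _).symm.trans
    ((finProdFinEquiv.prodCongr (Equiv.refl _)).trans finProdFinEquiv)

theorem uu_tq {m : ℕ} (a : Fin m × Fin m × Fin 6) : uu (tq m a) = a.1 := by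
  simp [uu, tq]

theorem vv_tq {m : ℕ} (a : Fin m × Fin m × Fin 6) : vv (tq m a) = a.2.1 := by
  simp [vv, tq]

theorem adj_tq {m : ℕ} (G : SimpleGraph (Fin m)) (t : Fin (m * m * 6)) :
    t ∈ (PhiG G : Set (Fin (PP m).F)) ↔ G.Adj ((tq m).symm t).1 ((tq m).symm t).2.1 := by
  obtain ⟨a, rfl⟩ := (tq m).surjective t
  rw [Equiv.symm_apply_apply]
  change G.Adj (uu (tq m a)) (vv (tq m a)) ↔ _
  rw [uu_tq, vv_tq]

/-- the upper coordinate of a pair -/
def xa {m : ℕ} (t : Fin (PP m).F) : Ix (PP m) :=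
  (⟨(t : ℕ) + 4, by have := t.2; omega⟩, Sum.inl ((PP m).ent t).1)

/-- the lower coordinate of a pair -/
def ya {m : ℕ} (t : Fin (PP m).F) : Ix (PP m) :=
  (⟨(t : ℕ) + 2, by have := t.2; omega⟩, Sum.inr ((PP m).ent t).2)

theorem xa_inj {m : ℕ} {t t' : Fin (PP m).F} (h : xa t = xa t') : t = t' := by
  have h1 := congrArg (fun x : Ix (PP m) => (x.1 : ℕ)) h
  simp only [xa] at h1
  apply Fin.ext
  omega

theorem ya_inj {m : ℕ} {t t' : Fin (PP m).F} (h : ya t = ya t') : t = t' := by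
  have h1 := congrArg (fun x : Ix (PP m) => (x.1 : ℕ)) h
  simp only [ya] at h1
  apply Fin.ext
  omega

theorem xa_ne_ya {m : ℕ} (t t' : Fin (PP m).F) : xa t ≠ ya t' := by
  intro h
  have h1 := congrArg (fun x : Ix (PP m) => x.2) h
  simp [xa, ya] at h1

end MainAux

open MainAux

theorem main {m n : ℕ} (hm : 0 < m) (hn : n = 6 * m * (9 * m + 4) * (m ^ 2 + 1)) :
    ∃ (X : Matrix (Fin n) (Fin n) ℂ) (w : Equiv.Perm (Fin n))
      (e : Fin n ≃ Fin (m * (9 * m + 4)) × Fin (6 * (m ^ 2 + 1)))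
      (p p' : Fin m × Fin m × Fin 6 → Fin n)
      (s : SimpleGraph (Fin m) → Equiv.Perm (Fin n)),
      (∀ i j, X i j = if (e i).1 = (e j).1 ∧ ((e i).2 : ℕ) + 1 = (e j).2 then 1 else 0) ∧
      (∀ a, (p' a : ℕ) = p a + 1) ∧ (∀ a b, a ≠ b → p a ≠ p b) ∧ (∀ a b, p a ≠ p' b) ∧
      ∀ G : SimpleGraph (Fin m),
        (∀ a : Fin m × Fin m × Fin 6, G.Adj a.1 a.2.1 → s G (p a) = p' a ∧ s G (p' a) = p a) ∧
        (∀ i, (∀ a : Fin m × Fin m × Fin 6, G.Adj a.1 a.2.1 → i ≠ p a ∧ i ≠ p' a) → s G i = i) ∧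
        (∀ i j, X ((s G).symm i) ((s G).symm j) ≠ 0 → i < j) ∧
        pt (permGL (s G * w)) ∈ springerFiber (X.submatrix (s G).symm (s G).symm) ∧
        (FlagSingular (cellClosure (X.submatrix (s G).symm (s G).symm) (s G * w)) ↔
          G.Colorable 3) := by
  classical
  obtain ⟨pos, tim, hgood, hadj⟩ := exists_pos (PP m)
  obtain rfl : n = Fintype.card (Ix (PP m)) := by rw [hn, card_Ix]
  let p : Fin m × Fin m × Fin 6 → Fin (Fintype.card (Ix (PP m))) := fun a => pos (xa (tq m a))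
  let p' : Fin m × Fin m × Fin 6 → Fin (Fintype.card (Ix (PP m))) := fun a => pos (ya (tq m a))
  have hpp : ∀ a b, a ≠ b → p a ≠ p b := by
    intro a b hab h
    exact hab ((tq m).injective (xa_inj (pos.injective h)))
  have hpp' : ∀ a b, a ≠ b → p' a ≠ p' b := by
    intro a b hab h
    exact hab ((tq m).injective (ya_inj (pos.injective h)))
  have hpq : ∀ a b, p a ≠ p' b := by
    intro a b h
    exact xa_ne_ya _ _ (pos.injective h)
  choose s hs1 hs2 using fun G : SimpleGraph (Fin m) =>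
    exists_swap p p' hpp hpp' hpq fun a => G.Adj a.1 a.2.1
  have hG : ∀ G : SimpleGraph (Fin m), Good (PP m) (PhiG G) (pos.trans (s G)) tim := by
    intro G
    refine swp hgood hadj (PhiG G) (s G) ?_ ?_
    · intro t ht i j hi hj
      have hQ := (adj_tq G t).1 ht
      have h := hs1 G _ hQ
      have ei : ((i, Sum.inl ((PP m).ent t).1) : Ix (PP m)) = xa t :=
        Prod.ext (Fin.ext hi) rfl
      have ej : ((j, Sum.inr ((PP m).ent t).2) : Ix (PP m)) = ya t :=
        Prod.ext (Fin.ext hj) rfl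
      have e1 : p ((tq m).symm t) = pos (xa t) := by
        change pos (xa (tq m ((tq m).symm t))) = _
        rw [Equiv.apply_symm_apply]
      have e2 : p' ((tq m).symm t) = pos (ya t) := by
        change pos (ya (tq m ((tq m).symm t))) = _
        rw [Equiv.apply_symm_apply]
      rw [e1, e2] at h
      rw [ei, ej]
      exact h
    · intro x hx
      apply hs2 G
      intro a ha
      have ht : (tq m a) ∈ (PhiG G : Set (Fin (PP m).F)) := by
        rw [adj_tq, Equiv.symm_apply_apply]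
        exact ha
      have h := hx (tq m a) ht (xa (tq m a)).1 (ya (tq m a)).1 rfl rfl
      exact ⟨fun hh => h.1 (pos.injective hh), fun hh => h.2 (pos.injective hh)⟩
  let e : Fin (Fintype.card (Ix (PP m))) ≃ Fin (m * (9 * m + 4)) × Fin (6 * (m ^ 2 + 1)) :=
    pos.symm.trans ((Equiv.prodComm _ _).trans
      ((Fintype.equivFinOfCardEq (card_RC m)).prodCongr (finCongr (F_eq m))))
  refine ⟨Xn pos, ww pos tim, e, p, p', s, ?_, ?_, hpp, hpq, fun G => ⟨hs1 G, hs2 G, ?_⟩⟩
  · intro i j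
    change (if (((pos.symm j).1 : Fin _) : ℕ) = (((pos.symm i).1 : Fin _) : ℕ) + 1 ∧
      (pos.symm i).2 = (pos.symm j).2 then (1 : ℂ) else 0) = _
    refine if_congr ?_ rfl rfl
    have e1 : (e i).1 = (e j).1 ↔ (pos.symm i).2 = (pos.symm j).2 :=
      (Fintype.equivFinOfCardEq (card_RC m)).apply_eq_iff_eq
    have e2 : ∀ k, ((e k).2 : ℕ) = (((pos.symm k).1 : Fin _) : ℕ) := fun k => rfl
    rw [e1, e2, e2]
    constructor
    · rintro ⟨h1, h2⟩
      exact ⟨h2, h1.symm⟩
    · rintro ⟨h1, h2⟩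
      exact ⟨h2.symm, h1⟩
  · intro a
    exact hadj (tq m a) (xa (tq m a)).1 (ya (tq m a)).1 rfl rfl
  · have hX : Xn (pos.trans (s G)) = (Xn pos).submatrix (s G).symm (s G).symm := rfl
    have hw : ww (pos.trans (s G)) tim = s G * ww pos tim := rfl
    have hM := mach (hG G) (PP_compl m)
    rw [hX, hw] at hM
    refine ⟨?_, hM.1, ?_⟩
    · intro i j hij
      have h1 : (if ((((pos.trans (s G)).symm j).1 : Fin _) : ℕ) =
          ((((pos.trans (s G)).symm i).1 : Fin _) : ℕ) + 1 ∧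
          ((pos.trans (s G)).symm i).2 = ((pos.trans (s G)).symm j).2 then (1 : ℂ) else 0) ≠ 0 :=
        hij
      have h2 : ((((pos.trans (s G)).symm j).1 : Fin _) : ℕ) =
          ((((pos.trans (s G)).symm i).1 : Fin _) : ℕ) + 1 ∧
          ((pos.trans (s G)).symm i).2 = ((pos.trans (s G)).symm j).2 := by
        by_contra hc
        exact h1 (if_neg hc)
      have h3 := (hG G).lev_lt ((pos.trans (s G)).symm i) ((pos.trans (s G)).symm j) (by
        obtain ⟨ha, hb⟩ := h2
        generalize (pos.trans (s G)).symm i = x at ha hb ⊢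
        generalize (pos.trans (s G)).symm j = y at ha hb ⊢
        obtain ⟨x1, x2⟩ := x
        obtain ⟨y1, y2⟩ := y
        simp only at ha hb
        subst hb
        rcases x2 with r | c
        · simp only [lev]
          omega
        · simp only [lev]
          omega)
      rwa [Equiv.apply_symm_apply, Equiv.apply_symm_apply] at h3
    · rw [hM.2]
      constructor
      · rintro ⟨β, β', ν, ν', τ, he, ht⟩
        exact col_imp G he ht
      · intro hc
        exact col_of hm G hc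

end Pd6ff58.J
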