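import Pool.Agent.Lib.Pd6ff58.FL

/-!
# Module Mnr: minors and coordinates of subspaces

`mnr t rows` is the minor of the generic matrix with rows `rows 0, ..., rows (t-1)` and the first `t`
columns. PROOF of `mnr_coord`: let `G` be the `n × t` matrix of the first `t` columns of `g`. By
hypothesis there are vectors `v b ∈ flagOf g t` with `v b (rows c) = δ_{b c}`; `v b = G K_b`, so with
the `t × t` matrix `K`: `(G restricted to the rows rows) * K = 1`; so `det G[rows] * det K = 1`. For
`rows' = Function.update rows a q`: `G[rows'] * K` is the unit matrix with row `a` replaced by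
`(v b q)_b`, with determinant `v a q` (`Matrix.det_updateRow...`, or expand along row `a`). So
`det G[rows'] * det K = v a q`.
-/

open MvPolynomial

noncomputable section

namespace Pd6ff58.J

variable {n : ℕ}

/-- the minor with the given rows and the first `t` columns -/
def mnr (n t : ℕ) (rows : Fin t → Fin n) : MvPolynomial (Fin n × Fin n) ℂ :=
  Matrix.det (Matrix.of fun a b : Fin t =>
    if h : (b : ℕ) < n then (X (rows a, ⟨(b : ℕ), h⟩) : MvPolynomial (Fin n × Fin n) ℂ) else 0)

theorem evalAt_mnr (g : GL (Fin n) ℂ) (t : ℕ) (rows : Fin t → Fin n) :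
    evalAt g (mnr n t rows) = Matrix.det (Matrix.of fun a b : Fin t =>
      if h : (b : ℕ) < n then g.val (rows a) ⟨(b : ℕ), h⟩ else 0) := by
  unfold evalAt mnr
  rw [RingHom.map_det]
  congr 1
  ext a b
  rw [RingHom.mapMatrix_apply, Matrix.map_apply, Matrix.of_apply, Matrix.of_apply]
  by_cases h : (b : ℕ) < n
  · rw [dif_pos h, dif_pos h, eval_X]
  · rw [dif_neg h, dif_neg h, map_zero]

namespace MnrAux

/-- the submatrix with the given rows and the first `t` columns -/
def Gm (g : GL (Fin n) ℂ) {t : ℕ} (ht : t ≤ n) (rows : Fin t → Fin n) : Matrix (Fin t) (Fin t) ℂ :=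
  Matrix.of fun a b => g.val (rows a) (Fin.castLE ht b)

theorem evalAt_eq (g : GL (Fin n) ℂ) {t : ℕ} (ht : t ≤ n) (rows : Fin t → Fin n) :
    evalAt g (mnr n t rows) = (Gm g ht rows).det := by
  rw [evalAt_mnr]
  congr 1
  ext a b
  rw [Matrix.of_apply, dif_pos (b.2.trans_le ht)]
  rfl

theorem mem_flag {g : GL (Fin n) ℂ} {t : ℕ} (ht : t ≤ n) {v : Fin n → ℂ}
    (hv : v ∈ flagOf g t) :
    ∃ k : Fin t → ℂ, ∀ q, v q = ∑ c, g.val q (Fin.castLE ht c) * k c := by
  obtain ⟨x, hx, rfl⟩ := hv
  refine ⟨fun c => x (Fin.castLE ht c), fun q => ?_⟩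
  change (g.val.mulVec x) q = _
  rw [Matrix.mulVec, dotProduct]
  symm
  refine Fintype.sum_of_injective (Fin.castLE ht) (Fin.castLE_injective ht) _ _ ?_ fun _ => rfl
  intro i hi
  have h1 : x i = 0 := by
    refine hx i ?_
    by_contra h2
    exact hi ⟨⟨(i : ℕ), not_le.1 h2⟩, rfl⟩
  change g.val q i * x i = 0
  rw [h1, mul_zero]

theorem exists_K (g : GL (Fin n) ℂ) {t : ℕ} (ht : t ≤ n)
    (v : Fin t → Fin n → ℂ) (hv : ∀ b, v b ∈ flagOf g t) :
    ∃ K : Matrix (Fin t) (Fin t) ℂ, ∀ rows : Fin t → Fin n,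
      Gm g ht rows * K = Matrix.of fun c b => v b (rows c) := by
  choose k hk using fun b => mem_flag ht (hv b)
  refine ⟨Matrix.of fun c b => k b c, fun rows => ?_⟩
  ext a b
  rw [Matrix.mul_apply, Matrix.of_apply, hk]
  rfl

theorem det_updateRow_one {t : ℕ} (a : Fin t) (u : Fin t → ℂ) :
    ((1 : Matrix (Fin t) (Fin t) ℂ).updateRow a u).det = u a := by
  rw [← Matrix.cramer_transpose_apply, Matrix.transpose_one, Matrix.cramer_one]
  rfl

end MnrAux

open MnrAux

theorem mnr_ne_zero (g : GL (Fin n) ℂ) {t : ℕ} (ht : t ≤ n) (rows : Fin t → Fin n)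
    (v : Fin t → Fin n → ℂ) (hv : ∀ b, v b ∈ flagOf g t)
    (hd : ∀ b c, v b (rows c) = if b = c then 1 else 0) : evalAt g (mnr n t rows) ≠ 0 := by
  obtain ⟨K, hK⟩ := exists_K g ht v hv
  have h1 : Gm g ht rows * K = 1 := by
    rw [hK]
    ext a b
    rw [Matrix.of_apply, hd, Matrix.one_apply]
    simp only [eq_comm]
  have h2 := congrArg Matrix.det h1
  rw [Matrix.det_mul, Matrix.det_one] at h2
  rw [evalAt_eq g ht]
  exact left_ne_zero_of_mul_eq_one h2

theorem mnr_coord (g : GL (Fin n) ℂ) {t : ℕ} (ht : t ≤ n) (rows : Fin t → Fin n)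
    (v : Fin t → Fin n → ℂ) (hv : ∀ b, v b ∈ flagOf g t)
    (hd : ∀ b c, v b (rows c) = if b = c then 1 else 0) (a : Fin t) (q : Fin n) :
    evalAt g (mnr n t (Function.update rows a q)) = v a q * evalAt g (mnr n t rows) := by
  obtain ⟨K, hK⟩ := exists_K g ht v hv
  have h1 : Gm g ht rows * K = 1 := by
    rw [hK]
    ext a b
    rw [Matrix.of_apply, hd, Matrix.one_apply]
    simp only [eq_comm]
  have h2 : (Gm g ht rows).det * K.det = 1 := by
    rw [← Matrix.det_mul, h1, Matrix.det_one]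
  have h3 : Gm g ht (Function.update rows a q) * K =
      (1 : Matrix (Fin t) (Fin t) ℂ).updateRow a fun b => v b q := by
    rw [hK]
    ext c b
    rw [Matrix.of_apply]
    by_cases hc : c = a
    · subst hc
      rw [Function.update_self, Matrix.updateRow_self]
    · rw [Function.update_of_ne hc, Matrix.updateRow_ne hc, hd, Matrix.one_apply]
      simp only [eq_comm]
  have h4 : (Gm g ht (Function.update rows a q)).det * K.det = v a q := by
    rw [← Matrix.det_mul, h3, det_updateRow_one]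
  rw [evalAt_eq g ht, evalAt_eq g ht, ← h4]
  linear_combination (-(Gm g ht (Function.update rows a q)).det) * h2

/-- if the minor is not zero then the restriction of `flagOf g t` to the rows is injective -/
theorem mnr_inj (g : GL (Fin n) ℂ) {t : ℕ} (ht : t ≤ n) (rows : Fin t → Fin n)
    (h : evalAt g (mnr n t rows) ≠ 0) {v : Fin n → ℂ} (hv : v ∈ flagOf g t)
    (h0 : ∀ b, v (rows b) = 0) : v = 0 := by
  obtain ⟨k, hk⟩ := mem_flag ht hv
  rw [evalAt_eq g ht] at h
  have h1 : (Gm g ht rows).mulVec k = 0 := by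
    funext b
    rw [Pi.zero_apply, ← h0 b, hk (rows b)]
    rfl
  have h2 := Matrix.eq_zero_of_mulVec_eq_zero h h1
  funext q
  rw [hk q, h2]
  simp

/-- the minor with the rows `w 0, ..., w (t-1)` -/
def mw (w : Equiv.Perm (Fin n)) (t : ℕ) : MvPolynomial (Fin n × Fin n) ℂ :=
  if h : t ≤ n then mnr n t (fun a => w ⟨(a : ℕ), a.2.trans_le h⟩) else 1

/-- the same with the row number `a` replaced by `q` -/
def mwx (w : Equiv.Perm (Fin n)) (t : ℕ) (a q : Fin n) : MvPolynomial (Fin n × Fin n) ℂ :=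
  if h : t ≤ n ∧ (a : ℕ) < t then
    mnr n t (Function.update (fun b : Fin t => w ⟨(b : ℕ), b.2.trans_le h.1⟩) ⟨(a : ℕ), h.2⟩ q)
  else 0

theorem mw_perm (w : Equiv.Perm (Fin n)) (t : ℕ) : evalAt (permGL w) (mw w t) ≠ 0 := by
  unfold mw
  by_cases h : t ≤ n
  · rw [dif_pos h, evalAt_eq (permGL w) h]
    have h1 : Gm (permGL w) h (fun a => w ⟨(a : ℕ), a.2.trans_le h⟩) = 1 := by
      ext a b
      change (if w ⟨(a : ℕ), _⟩ = w (Fin.castLE h b) then (1 : ℂ) else 0) = _
      rw [Matrix.one_apply]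
      by_cases hab : a = b
      · subst hab
        rw [if_pos rfl]
        exact if_pos rfl
      · rw [if_neg hab, if_neg]
        intro h2
        apply hab
        have h3 := congrArg Fin.val (w.injective h2)
        exact Fin.ext h3
    rw [h1, Matrix.det_one]
    exact one_ne_zero
  · rw [dif_neg h]
    unfold evalAt
    rw [map_one]
    exact one_ne_zero

end Pd6ff58.J
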