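import Pool.Agent.Lib.Pd6J.Frm

/-!
# Module NoPat: no criterion by small patterns
-/

open MvPolynomial

noncomputable section

namespace Pd6ff58

namespace J

/-- the wheel with the rim edge `k, k + 1` removed (not removed if `k` is large) -/
def whl (L k : ℕ) : SimpleGraph (Fin (L + 1)) := SimpleGraph.fromRel fun i j =>
  (i : ℕ) = L ∨ ((i : ℕ) + 1 = j ∧ (i : ℕ) ≠ k) ∨ ((i : ℕ) = 0 ∧ (j : ℕ) + 1 = L)

theorem fin3 {h a b c : Fin 3} (h1 : a ≠ h) (h2 : b ≠ h) (h3 : c ≠ h) (h4 : a ≠ b) (h5 : b ≠ c) :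
    a = c := by
  omega

theorem whl_not {N : ℕ} : ¬ (whl (2 * N + 3) (2 * N + 3)).Colorable 3 := by
  rintro ⟨c⟩
  set L := 2 * N + 3 with hL
  have hub : ∀ i : Fin (L + 1), (i : ℕ) < L → c i ≠ c (Fin.last L) := by
    intro i hi
    apply c.valid
    refine ⟨?_, Or.inr (Or.inl rfl)⟩
    intro h
    rw [h] at hi
    simp at hi
  have rim : ∀ i j : Fin (L + 1), (i : ℕ) + 1 = j → (j : ℕ) < L → c i ≠ c j := by
    intro i j hij hj
    apply c.valid
    refine ⟨?_, Or.inl (Or.inr (Or.inl ⟨hij, ?_⟩))⟩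
    · intro h
      rw [h] at hij
      omega
    · omega
  have key : ∀ t : ℕ, ∀ ht : 2 * t < L, c ⟨2 * t, by omega⟩ = c ⟨0, by omega⟩ := by
    intro t
    induction t with
    | zero => intro _; rfl
    | succ t ih =>
      intro ht
      have h1 := ih (by omega)
      rw [← h1]
      have a1 := hub ⟨2 * t, by omega⟩ (by simp; omega)
      have a2 := hub ⟨2 * t + 1, by omega⟩ (by simp; omega)
      have a3 := hub ⟨2 * (t + 1), by omega⟩ (by simpa using ht)
      have b1 := rim ⟨2 * t, by omega⟩ ⟨2 * t + 1, by omega⟩ rfl (by simp; omega)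
      have b2 := rim ⟨2 * t + 1, by omega⟩ ⟨2 * (t + 1), by omega⟩ (by simp; ring) (by simpa using ht)
      exact (fin3 a1 a2 a3 b1 b2).symm
  have h1 := key (N + 1) (by omega)
  have h2 : c ⟨0, by omega⟩ ≠ c ⟨2 * (N + 1), by omega⟩ := by
    apply c.valid
    refine ⟨?_, Or.inl (Or.inr (Or.inr ⟨rfl, ?_⟩))⟩
    · intro h
      have := congrArg Fin.val h
      simp at this
    · simp
      omega
  exact h2 h1.symm

theorem whl_col {N k : ℕ} (hk : k + 1 < 2 * N + 3) : (whl (2 * N + 3) k).Colorable 3 := by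
  set L := 2 * N + 3 with hL
  refine ⟨SimpleGraph.Coloring.mk (fun i : Fin (L + 1) =>
    if (i : ℕ) = L then (2 : Fin 3) else if (i : ℕ) ≤ k then (if (i : ℕ) % 2 = 0 then 0 else 1)
    else (if (i : ℕ) % 2 = 0 then 1 else 0)) ?_⟩
  have main : ∀ i j : Fin (L + 1), i ≠ j → ((i : ℕ) = L ∨ ((i : ℕ) + 1 = j ∧ (i : ℕ) ≠ k) ∨
      ((i : ℕ) = 0 ∧ (j : ℕ) + 1 = L)) →
      (if (i : ℕ) = L then (2 : Fin 3) else if (i : ℕ) ≤ k then (if (i : ℕ) % 2 = 0 then 0 else 1)
        else (if (i : ℕ) % 2 = 0 then 1 else 0)) ≠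
      (if (j : ℕ) = L then (2 : Fin 3) else if (j : ℕ) ≤ k then (if (j : ℕ) % 2 = 0 then 0 else 1)
        else (if (j : ℕ) % 2 = 0 then 1 else 0)) := by
    intro i j hij h
    have hij' : (i : ℕ) ≠ j := fun h => hij (Fin.ext h)
    have hi := i.2
    have hj := j.2
    split_ifs <;> first | omega | decide
  intro i j hadj
  obtain ⟨hne, h | h⟩ := hadj
  · exact main i j hne h
  · exact (main j i hne.symm h).symm

/-- the complete graph on a set of vertices -/
def cmp {m : ℕ} (S : Finset (Fin m)) : SimpleGraph (Fin m) :=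
  SimpleGraph.fromRel fun i j => i ∈ S ∧ j ∈ S

theorem cmp_not {m : ℕ} (S : Finset (Fin m)) (hS : 4 ≤ S.card) : ¬ (cmp S).Colorable 3 := by
  rintro ⟨c⟩
  have h : Set.InjOn c (S : Set (Fin m)) := by
    intro i hi j hj hij
    by_contra hne
    exact c.valid (show (cmp S).Adj i j from ⟨hne, Or.inl ⟨hi, hj⟩⟩) hij
  have h1 := Finset.card_le_card_of_injOn (t := (Finset.univ : Finset (Fin 3))) c
    (fun _ _ => Finset.mem_coe.2 (Finset.mem_univ _)) h
  simp at h1
  omega

theorem bot_col (m : ℕ) : (⊥ : SimpleGraph (Fin m)).Colorable 3 :=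
  ⟨SimpleGraph.Coloring.mk (fun _ => 0) fun h => absurd h (by simp)⟩

end J

theorem no_patterns (N : ℕ) {m n : ℕ} (hm : m = 4 * N + 4)
    (hn : n = 6 * m * (9 * m + 4) * (m ^ 2 + 1)) :
    ∃ (X₁ X₂ : Matrix (Fin n) (Fin n) ℂ) (w₁ w₂ : Equiv.Perm (Fin n)),
      JordanPair (m * (9 * m + 4)) (6 * (m ^ 2 + 1)) X₁ w₁ ∧
      JordanPair (m * (9 * m + 4)) (6 * (m ^ 2 + 1)) X₂ w₂ ∧
      FlagSingular (cellClosure X₁ w₁) ∧ ¬ FlagSingular (cellClosure X₂ w₂) ∧
      ∀ I : Finset (Fin n), I.card ≤ N →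
        (∃ X w, JordanPair (m * (9 * m + 4)) (6 * (m ^ 2 + 1)) X w ∧ SameOn I X w X₁ w₁ ∧
          ¬ FlagSingular (cellClosure X w)) ∧
        (∃ X w, JordanPair (m * (9 * m + 4)) (6 * (m ^ 2 + 1)) X w ∧ SameOn I X w X₂ w₂ ∧
          FlagSingular (cellClosure X w)) := by
  classical
  obtain ⟨Φ, A, hA, hJ, hagree, hG⟩ := J.frame (m := m) (by omega) hn
  subst hm
  have h43 : 2 * (2 * N) + 4 = 4 * N + 4 := by omega
  have hwn : ¬ (J.whl (4 * N + 3) (4 * N + 3)).Colorable 3 := by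
    have := J.whl_not (N := 2 * N)
    rwa [show 2 * (2 * N) + 3 = 4 * N + 3 by omega] at this
  have hwc : ∀ k, k < 4 * N + 2 → (J.whl (4 * N + 3) k).Colorable 3 := by
    intro k hk
    have := J.whl_col (N := 2 * N) (k := k) (by omega)
    rwa [show 2 * (2 * N) + 3 = 4 * N + 3 by omega] at this
  refine ⟨_, _, _, _, hJ ⊥, hJ (J.whl (4 * N + 3) (4 * N + 3)),
    (hG ⊥).2 (J.bot_col _), fun h => hwn ((hG _).1 h), fun I hI => ⟨?_, ?_⟩⟩
  · -- four untouched vertices
    set V := (A I).image (fun a => a.1) ∪ (A I).image (fun a => a.2) with hV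
    have hVc : V.card ≤ 4 * N := by
      have h1 : V.card ≤ ((A I).image fun a => a.1).card + ((A I).image fun a => a.2).card :=
        Finset.card_union_le _ _
      have h2 : ((A I).image fun a => a.1).card ≤ (A I).card := Finset.card_image_le
      have h3 : ((A I).image fun a => a.2).card ≤ (A I).card := Finset.card_image_le
      have h4 := hA I
      omega
    have hVcc : 4 ≤ (Vᶜ).card := by
      rw [Finset.card_compl, Fintype.card_fin]
      omega
    refine ⟨_, _, hJ (J.cmp Vᶜ), hagree _ _ I ?_, fun h => J.cmp_not _ hVcc ((hG _).1 h)⟩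
    intro a ha
    have h1 : a.1 ∈ V := Finset.mem_union_left _ (Finset.mem_image_of_mem _ ha)
    constructor
    · rintro ⟨-, h | h⟩
      · exact absurd h1 (Finset.mem_compl.1 h.1)
      · exact absurd h1 (Finset.mem_compl.1 h.2)
    · intro h
      exact absurd h (by simp)
  · -- an untouched rim edge
    set K := (A I).image (fun a => min (a.1 : ℕ) (a.2 : ℕ)) with hK
    have hKc : K.card ≤ 2 * N := by
      have h1 : K.card ≤ (A I).card := Finset.card_image_le
      have h4 := hA I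
      omega
    obtain ⟨k, hk, hkK⟩ : ∃ k ∈ Finset.range (4 * N + 2), k ∉ K := by
      by_contra hcon
      push Not at hcon
      have : (Finset.range (4 * N + 2)).card ≤ K.card := Finset.card_le_card fun k hk => hcon k hk
      rw [Finset.card_range] at this
      omega
    have hk' : k < 4 * N + 2 := Finset.mem_range.1 hk
    refine ⟨_, _, hJ (J.whl (4 * N + 3) k), hagree _ _ I ?_, (hG _).2 (hwc k hk')⟩
    intro a ha
    have h1 : min (a.1 : ℕ) (a.2 : ℕ) ≠ k := by
      intro h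
      exact hkK (h ▸ Finset.mem_image_of_mem _ ha)
    have l1 := a.1.2
    have l2 := a.2.2
    unfold J.whl
    rw [SimpleGraph.fromRel_adj, SimpleGraph.fromRel_adj]
    constructor <;> rintro ⟨hne, h⟩ <;> refine ⟨hne, ?_⟩ <;> omega

end Pd6ff58
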