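import Pool.Agent.Lib.Pd6ff58.RD
import Pool.Agent.Lib.Pd6J.Dom

/-!
# Module NotR: a criterion for a local ring not to be regular

PROOF. Suppose `LocalRing S s` is regular; then it is a domain (`domain_of_regular`). The images of
`p`, `q` in it have product `0` (`p * q` vanishes on `S`, so it is `0` in `ℂ[x] / I(S)`). So one of
them, say that of `p`, is `0`: by definition of the localization there is `D` with `eval s D ≠ 0` and
`D * p ∈ I(S)`. This contradicts `hp`.
-/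

open MvPolynomial

noncomputable section

namespace Pd6ff58.J

namespace NotRAux

/-- an element which is zero in the local ring -/
theorem eq_zero_imp {σ : Type} (S : Set (σ → ℂ)) (s : σ → ℂ) (p : MvPolynomial σ ℂ)
    (h : algebraMap (MvPolynomial σ ℂ ⧸ vanishingIdeal ℂ S) (LocalRing S s)
      (Ideal.Quotient.mk (vanishingIdeal ℂ S) p) = 0) :
    ∃ D : MvPolynomial σ ℂ, eval s D ≠ 0 ∧ ∀ x ∈ S, eval x D * eval x p = 0 := by
  obtain ⟨⟨m, hm⟩, h1⟩ := (IsLocalization.map_eq_zero_iff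
    ((nonvanishing s).map (Ideal.Quotient.mk (vanishingIdeal ℂ S))) _ _).1 h
  obtain ⟨D, hD, rfl⟩ := hm
  refine ⟨D, hD, fun x hx => ?_⟩
  have h2 : Ideal.Quotient.mk (vanishingIdeal ℂ S) (D * p) = 0 := by
    rw [map_mul]
    exact h1
  rw [Ideal.Quotient.eq_zero_iff_mem, mem_vanishingIdeal_iff] at h2
  have h3 := h2 x hx
  rw [← map_mul]
  simpa [aeval_eq_eval] using h3

end NotRAux

open NotRAux

theorem not_regular_of {σ : Type} (S : Set (σ → ℂ)) (s : σ → ℂ) (p q : MvPolynomial σ ℂ)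
    (hpq : ∀ x ∈ S, eval x p * eval x q = 0)
    (hp : ∀ D : MvPolynomial σ ℂ, eval s D ≠ 0 → ∃ x ∈ S, eval x D ≠ 0 ∧ eval x p ≠ 0)
    (hq : ∀ D : MvPolynomial σ ℂ, eval s D ≠ 0 → ∃ x ∈ S, eval x D ≠ 0 ∧ eval x q ≠ 0) :
    ¬ RegularAt S s := by
  intro hreg
  have : IsRegularLocalRing (LocalRing S s) := hreg
  have : IsDomain (LocalRing S s) := domain_of_regular (LocalRing S s)
  have hI : p * q ∈ vanishingIdeal ℂ S := by
    rw [mem_vanishingIdeal_iff]
    intro x hx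
    have h3 := hpq x hx
    rw [← map_mul] at h3
    simpa [aeval_eq_eval] using h3
  have h0 : algebraMap (MvPolynomial σ ℂ ⧸ vanishingIdeal ℂ S) (LocalRing S s)
      (Ideal.Quotient.mk (vanishingIdeal ℂ S) p) *
      algebraMap (MvPolynomial σ ℂ ⧸ vanishingIdeal ℂ S) (LocalRing S s)
      (Ideal.Quotient.mk (vanishingIdeal ℂ S) q) = 0 := by
    rw [← map_mul, ← map_mul, Ideal.Quotient.eq_zero_iff_mem.2 hI, map_zero]
  rcases mul_eq_zero.1 h0 with h1 | h1
  · obtain ⟨D, hD, h2⟩ := eq_zero_imp S s p h1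
    obtain ⟨x, hx, hx1, hx2⟩ := hp D hD
    exact mul_ne_zero hx1 hx2 (h2 x hx)
  · obtain ⟨D, hD, h2⟩ := eq_zero_imp S s q h1
    obtain ⟨x, hx, hx1, hx2⟩ := hq D hD
    exact mul_ne_zero hx1 hx2 (h2 x hx)

end Pd6ff58.J
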