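import Pool.Agent.Lib.Pd6J.ClA
import Pool.Agent.Lib.Pd6J.SplA

/-!
# Module OpnA (`lab_order`, `opn_ge`): the cell is open in `K0`

PROOF of `opn`. By `bruhat` `g ∈ borel * permGL w' * borel` for some `w'`; we show `w' = w := ww pos tim` by
`perm_eq` with `t = tt P` (`tt_zero`, `tt_top`, `tt_mono`). `hdec`: `tt k ≤ a < b < tt (k+1)`: the
coordinates `tim.symm a`, `tim.symm b` have the same moment (`tim_lt`), so by `tim_pos`
`w b = pos (tim.symm b) < w a`. The numbers in `h1`, `h2` are `finrank (flagOf g s ⊓ stdFlag n i)` for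
`w'` (`finrank_cell`, `perm_cell` of `HC.lean` i.e. `permGL w'` is in its cell, `finrank_perm`).
`h1`: `mnr_inj` (the minor `mw w s` is not zero): a vector of `flagOf g s ⊓ stdFlag n i` is determined by
its coordinates `w a`, `a < s`, and the ones with `w a ≥ i` vanish.
`h2` (`opn_ge`): for `t = tt k`, in the coordinates `Ix P`, with `E = cS {x | pos x < i}`:
`finrank (fl k ⊓ E) ≥ ∑_l finrank (fl k ⊓ part l ⊓ E)` (`part l = cS {lab = l}`, these are
independent), and `finrank (fl k ⊓ part l ⊓ E) ≥ #(J_k ∩ l ∩ [pos < i])`: indeed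
`finrank (fl k ⊓ part l) = #(J_k ∩ l)` (`K0_rank`) and `dim (X ⊓ Y) ≥ dim X + dim Y - dim part l` for
`X = fl k ⊓ part l`, `Y = part l ⊓ E`, `dim Y = #(l ∩ [pos < i])`; and inside a label the elements not
in `J_k` come BEFORE the ones in `J_k` (`lab_order`): if some `x ∈ J_k ∩ l` has `pos x < i` then all
elements of `l` not in `J_k` have `pos < i` and
`#(J_k ∩ l) + #(l ∩ [< i]) - #l = #(J_k ∩ l ∩ [< i])`; otherwise the right side is `0`.
`lab_order`: `lab x = lab y`, `kap x ≤ k < kap y`: the label is a block of `Rlo` in `U_i`, `i ≤ 2` (or of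
`Rhi`, `Clo`, `Chi`), `x` is a pivot, `y` is not: `blo` (`bhi`, `nlo`, `nhi`).
-/

open MvPolynomial

noncomputable section

namespace Pd6ff58.J

variable {R C : Type} [DecidableEq R] [DecidableEq C] [Fintype R] [Fintype C]
  {P : Par R C} {n : ℕ} {pos tim : Ix P ≃ Fin n} {Φ : Set (Fin P.F)}

namespace OpnAAux

theorem nc {I : Type} [Fintype I] (p : I → Prop) [DecidablePred p] :
    Nat.card {x : I // p x} = (Finset.univ.filter p).card := by
  rw [Nat.card_eq_fintype_card, Fintype.card_subtype]

theorem finrank_cS' {I : Type} [Fintype I] (p : I → Prop) [DecidablePred p] :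
    Module.finrank ℂ (cS {x | p x}) = (Finset.univ.filter p).card := by
  rw [finrank_cS, ← nc]
  rfl

/-- the parts are independent -/
theorem sum_parts {I Λ : Type} [Fintype I] [DecidableEq Λ] (lab : I → Λ) (s : Finset Λ)
    (G : Submodule ℂ (I → ℂ)) :
    ∑ l ∈ s, Module.finrank ℂ (G ⊓ cS {x | lab x = l} : Submodule ℂ (I → ℂ)) ≤
      Module.finrank ℂ G := by
  classical
  let f : ((l : s) → (G ⊓ cS {x | lab x = l.1} : Submodule ℂ (I → ℂ))) →ₗ[ℂ] G :=
    { toFun := fun v => ⟨∑ l, (v l).1, Submodule.sum_mem _ fun l _ => (v l).2.1⟩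
      map_add' := by
        intro v w
        apply Subtype.ext
        simp [Finset.sum_add_distrib]
      map_smul' := by
        intro c v
        apply Subtype.ext
        simp [Finset.smul_sum] }
  have hf : Function.Injective f := by
    rw [← LinearMap.ker_eq_bot, LinearMap.ker_eq_bot']
    intro v hv
    have hv' : ∑ l, (v l).1 = 0 := congrArg Subtype.val hv
    funext l
    apply Subtype.ext
    funext x
    by_cases hx : lab x = l.1
    · have h1 := congrFun hv' x
      rw [Finset.sum_apply, Finset.sum_eq_single l] at h1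
      · exact h1
      · intro m _ hm
        have h2 := (v m).2.2
        refine h2 x ?_
        intro h3
        apply hm
        apply Subtype.ext
        exact (h3.symm.trans hx)
      · intro h
        exact absurd (Finset.mem_univ _) h
    · exact (v l).2.2 x hx
  have h := LinearMap.finrank_le_finrank_of_injective hf
  rw [Module.finrank_pi_fintype] at h
  rw [← Finset.sum_coe_sort]
  exact h

end OpnAAux

theorem lab_order (h : Good P Φ pos tim) {x y : Ix P} (hl : lab P x = lab P y) {k : ℕ}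
    (hx : kap P x ≤ k) (hy : k < kap P y) : pos y < pos x := by
  have hxy : kap P x < kap P y := lt_of_le_of_lt hx hy
  clear hx hy
  rcases x with ⟨i, r | c⟩ <;> rcases y with ⟨j, r' | c'⟩
  · simp only [lab, Prod.mk.injEq, Sum.inl.injEq] at hl
    obtain ⟨rfl, hl⟩ := hl
    simp only [kap] at hxy
    by_cases h2 : (i : ℕ) ≤ 2
    · rw [if_pos h2, if_pos h2] at hl
      rw [if_pos h2, if_pos h2] at hxy
      by_cases hp : P.Rlo.piv r <;> by_cases hp' : P.Rlo.piv r'
      · simp [hp, hp'] at hxy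
      · exact h.blo i r' r h2 hl.symm hp' hp
      · rw [if_neg hp, if_pos hp'] at hxy
        omega
      · simp [hp, hp'] at hxy
    · rw [if_neg h2, if_neg h2] at hl
      rw [if_neg h2, if_neg h2] at hxy
      by_cases h3 : (i : ℕ) ≤ P.F + 3
      · rw [if_pos h3, if_pos h3] at hxy
        omega
      · rw [if_neg h3, if_neg h3] at hl
        rw [if_neg h3, if_neg h3] at hxy
        by_cases hp : P.Rhi.piv r <;> by_cases hp' : P.Rhi.piv r'
        · simp [hp, hp'] at hxy
        · exact h.bhi i r' r (by omega) hl.symm hp' hp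
        · rw [if_neg hp, if_pos hp'] at hxy
          omega
        · simp [hp, hp'] at hxy
  · simp [lab] at hl
  · simp [lab] at hl
  · simp only [lab, Prod.mk.injEq, Sum.inr.injEq] at hl
    obtain ⟨rfl, hl⟩ := hl
    simp only [kap] at hxy
    by_cases h2 : (i : ℕ) ≤ 1
    · rw [if_pos h2, if_pos h2] at hl
      rw [if_pos h2, if_pos h2] at hxy
      by_cases hp : P.Clo.piv c <;> by_cases hp' : P.Clo.piv c'
      · simp [hp, hp'] at hxy
      · exact h.nlo i c' c h2 hl.symm hp' hp
      · rw [if_neg hp, if_pos hp'] at hxy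
        omega
      · simp [hp, hp'] at hxy
    · rw [if_neg h2, if_neg h2] at hl
      rw [if_neg h2, if_neg h2] at hxy
      by_cases h3 : (i : ℕ) ≤ P.F + 2
      · rw [if_pos h3, if_pos h3] at hxy
        omega
      · rw [if_neg h3, if_neg h3] at hl
        rw [if_neg h3, if_neg h3] at hxy
        by_cases hp : P.Chi.piv c <;> by_cases hp' : P.Chi.piv c'
        · simp [hp, hp'] at hxy
        · exact h.nhi i c' c (by omega) hl.symm hp' hp
        · rw [if_neg hp, if_pos hp'] at hxy
          omega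
        · simp [hp, hp'] at hxy

namespace OpnAAux

theorem part_ge (h : Good P Φ pos tim) {g : GL (Fin n) ℂ} (hg : g ∈ K0 pos) (k i : ℕ)
    (l : Fin (P.F + 6) × (ℕ ⊕ ℕ)) [DecidablePred fun x : Ix P =>
      (kap P x ≤ k ∧ (pos x : ℕ) < i) ∧ lab P x = l] :
    (Finset.univ.filter fun x : Ix P => (kap P x ≤ k ∧ (pos x : ℕ) < i) ∧ lab P x = l).card ≤
      Module.finrank ℂ ((fl pos g k ⊓ cS {x | (pos x : ℕ) < i}) ⊓ cS {x | lab P x = l} :
        Submodule ℂ (Ix P → ℂ)) := by
  classical
  by_cases hne : ∃ x : Ix P, (kap P x ≤ k ∧ (pos x : ℕ) < i) ∧ lab P x = l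
  · obtain ⟨x0, ⟨hk0, hi0⟩, hl0⟩ := hne
    have hord : ∀ y : Ix P, lab P y = l → k < kap P y → (pos y : ℕ) < i := by
      intro y hy hky
      have := lab_order h (x := x0) (y := y) (hl0.trans hy.symm) hk0 hky
      exact lt_trans (Fin.lt_def.1 this) hi0
    have e1 : (EJ P k ⊓ cS {x | lab P x = l} : Submodule ℂ (Ix P → ℂ)) =
        cS {x | kap P x ≤ k ∧ lab P x = l} := by
      ext v
      simp only [Submodule.mem_inf, mem_EJ, mem_cS, Set.mem_setOf_eq]
      constructor
      · rintro ⟨h1, h2⟩ x hx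
        by_cases h3 : kap P x ≤ k
        · exact h2 x fun h4 => hx ⟨h3, h4⟩
        · exact h1 x (not_le.1 h3)
      · intro h1
        refine ⟨fun x hx => h1 x fun h2 => ?_, fun x hx => h1 x fun h2 => hx h2.2⟩
        exact absurd h2.1 (not_le.2 hx)
    have e2 : (cS {x : Ix P | (pos x : ℕ) < i} ⊓ cS {x | lab P x = l} : Submodule ℂ (Ix P → ℂ)) =
        cS {x | (pos x : ℕ) < i ∧ lab P x = l} := by
      ext v
      simp only [Submodule.mem_inf, mem_cS, Set.mem_setOf_eq]
      constructor
      · rintro ⟨h1, h2⟩ x hx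
        by_cases h3 : (pos x : ℕ) < i
        · exact h2 x fun h4 => hx ⟨h3, h4⟩
        · exact h1 x h3
      · intro h1
        exact ⟨fun x hx => h1 x fun h2 => hx h2.1, fun x hx => h1 x fun h2 => hx h2.2⟩
    have f1 : Module.finrank ℂ (fl pos g k ⊓ cS {x | lab P x = l} : Submodule ℂ (Ix P → ℂ)) =
        (Finset.univ.filter fun x : Ix P => kap P x ≤ k ∧ lab P x = l).card := by
      rw [← K0_rank hg, e1, finrank_cS']
    have f2 : Module.finrank ℂ (cS {x : Ix P | (pos x : ℕ) < i} ⊓ cS {x | lab P x = l} :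
        Submodule ℂ (Ix P → ℂ)) =
        (Finset.univ.filter fun x : Ix P => (pos x : ℕ) < i ∧ lab P x = l).card := by
      rw [e2, finrank_cS']
    have f3 : Module.finrank ℂ (cS {x : Ix P | lab P x = l}) =
        (Finset.univ.filter fun x : Ix P => lab P x = l).card := finrank_cS' _
    have s1 := Submodule.finrank_sup_add_finrank_inf_eq
      (fl pos g k ⊓ cS {x | lab P x = l} : Submodule ℂ (Ix P → ℂ))
      (cS {x : Ix P | (pos x : ℕ) < i} ⊓ cS {x | lab P x = l} : Submodule ℂ (Ix P → ℂ))
    have s2 : Module.finrank ℂ ((fl pos g k ⊓ cS {x | lab P x = l}) ⊔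
      (cS {x : Ix P | (pos x : ℕ) < i} ⊓ cS {x | lab P x = l}) : Submodule ℂ (Ix P → ℂ)) ≤
        Module.finrank ℂ (cS {x : Ix P | lab P x = l}) :=
      Submodule.finrank_mono (sup_le inf_le_right inf_le_right)
    have e3 : ((fl pos g k ⊓ cS {x | lab P x = l}) ⊓
      (cS {x : Ix P | (pos x : ℕ) < i} ⊓ cS {x | lab P x = l}) : Submodule ℂ (Ix P → ℂ)) =
        (fl pos g k ⊓ cS {x | (pos x : ℕ) < i}) ⊓ cS {x | lab P x = l} := by
      ext v
      simp only [Submodule.mem_inf]
      tauto
    rw [e3, f1, f2] at s1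
    rw [f3] at s2
    -- counting
    have c1 : (Finset.univ.filter fun x : Ix P => lab P x = l).card =
        (Finset.univ.filter fun x : Ix P => kap P x ≤ k ∧ lab P x = l).card +
        (Finset.univ.filter fun x : Ix P => ¬ kap P x ≤ k ∧ lab P x = l).card := by
      rw [← Finset.card_union_of_disjoint]
      · congr 1
        ext x
        simp only [Finset.mem_filter, Finset.mem_univ, true_and, Finset.mem_union]
        tauto
      · rw [Finset.disjoint_left]
        intro x hx hx'
        simp only [Finset.mem_filter, Finset.mem_univ, true_and] at hx hx'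
        exact hx'.1 hx.1
    have c2 : (Finset.univ.filter fun x : Ix P => (pos x : ℕ) < i ∧ lab P x = l).card =
        (Finset.univ.filter fun x : Ix P => (kap P x ≤ k ∧ (pos x : ℕ) < i) ∧ lab P x = l).card +
        (Finset.univ.filter fun x : Ix P => ¬ kap P x ≤ k ∧ lab P x = l).card := by
      rw [← Finset.card_union_of_disjoint]
      · congr 1
        ext x
        simp only [Finset.mem_filter, Finset.mem_univ, true_and, Finset.mem_union]
        constructor
        · rintro ⟨h1, h2⟩
          by_cases h3 : kap P x ≤ k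
          · exact Or.inl ⟨⟨h3, h1⟩, h2⟩
          · exact Or.inr ⟨h3, h2⟩
        · rintro (⟨⟨h1, h2⟩, h3⟩ | ⟨h1, h2⟩)
          · exact ⟨h2, h3⟩
          · exact ⟨hord x h2 (not_le.1 h1), h2⟩
      · rw [Finset.disjoint_left]
        intro x hx hx'
        simp only [Finset.mem_filter, Finset.mem_univ, true_and] at hx hx'
        exact hx'.1 hx.1.1
    omega
  · have : (Finset.univ.filter fun x : Ix P =>
        (kap P x ≤ k ∧ (pos x : ℕ) < i) ∧ lab P x = l) = ∅ := by
      ext x
      simp only [Finset.mem_filter, Finset.mem_univ, true_and, Finset.notMem_empty, iff_false]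
      intro hx
      exact hne ⟨x, hx⟩
    rw [this, Finset.card_empty]
    exact Nat.zero_le _

end OpnAAux

theorem opn_ge (h : Good P Φ pos tim) {g : GL (Fin n) ℂ} (hg : g ∈ K0 pos) (k i : ℕ) (hi : i ≤ n) :
    Nat.card {x : Ix P // kap P x ≤ k ∧ (pos x : ℕ) < i} ≤
      Module.finrank ℂ (flagOf g (tt P k) ⊓ stdFlag n i : Submodule ℂ (Fin n → ℂ)) := by
  classical
  have e1 : Module.finrank ℂ (flagOf g (tt P k) ⊓ stdFlag n i : Submodule ℂ (Fin n → ℂ)) =
      Module.finrank ℂ (fl pos g k ⊓ cS {x | (pos x : ℕ) < i} : Submodule ℂ (Ix P → ℂ)) := by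
    have e2 : (fl pos g k ⊓ cS {x | (pos x : ℕ) < i} : Submodule ℂ (Ix P → ℂ)) =
        (flagOf g (tt P k) ⊓ stdFlag n i).comap
          (LinearEquiv.funCongrLeft ℂ ℂ pos.symm : (Ix P → ℂ) ≃ₗ[ℂ] (Fin n → ℂ)).toLinearMap := by
      ext v
      simp only [Submodule.mem_inf, mem_fl, mem_cS, Set.mem_setOf_eq, Submodule.mem_comap]
      have e3 : (LinearEquiv.funCongrLeft ℂ ℂ pos.symm : (Ix P → ℂ) ≃ₗ[ℂ] (Fin n → ℂ)).toLinearMap v
          = fun a => v (pos.symm a) := rfl
      rw [e3, mem_stdFlag]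
      constructor
      · rintro ⟨h1, h2⟩
        refine ⟨h1, fun a ha => h2 (pos.symm a) ?_⟩
        rw [Equiv.apply_symm_apply]
        exact not_lt.2 ha
      · rintro ⟨h1, h2⟩
        refine ⟨h1, fun x hx => ?_⟩
        have := h2 (pos x) (not_lt.1 hx)
        rwa [Equiv.symm_apply_apply] at this
    rw [e2, Submodule.comap_equiv_eq_map_symm, LinearEquiv.finrank_map_eq]
  rw [e1]
  let s : Finset (Fin (P.F + 6) × (ℕ ⊕ ℕ)) := Finset.univ.image (lab P)
  refine le_trans ?_ (OpnAAux.sum_parts (lab P) s _)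
  rw [OpnAAux.nc]
  have hcard : (Finset.univ.filter fun x : Ix P => kap P x ≤ k ∧ (pos x : ℕ) < i).card =
      ∑ l ∈ s, (Finset.univ.filter fun x : Ix P =>
        (kap P x ≤ k ∧ (pos x : ℕ) < i) ∧ lab P x = l).card := by
    rw [Finset.card_eq_sum_card_fiberwise (f := lab P) (t := s)]
    · refine Finset.sum_congr rfl fun l _ => ?_
      rw [Finset.filter_filter]
    · intro x _
      simp [s]
  rw [hcard]
  exact Finset.sum_le_sum fun l _ => OpnAAux.part_ge h hg k i l

end Pd6ff58.J
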