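import Pool.Agent.Lib.Pd6J.OpnA
import Pool.Agent.Lib.Pd6J.Cmb
import Pool.Agent.Lib.Pd6J.Mnr
import Pool.Agent.Lib.Pd6ff58.BR
import Pool.Agent.Lib.Pd6ff58.BR

/-!
# Module OpnB (`opn`): the cell is open in `K0`

PROOF of `opn`. By `bruhat` `g ∈ borel * permGL w' * borel` for some `w'`; we show `w' = w := ww pos tim` by
`perm_eq` with `t = tt P` (`tt_zero`, `tt_top`, `tt_mono`). `hdec`: `tt k ≤ a < b < tt (k+1)`: the
coordinates `tim.symm a`, `tim.symm b` have the same moment (`tim_lt`), so by `tim_pos`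
`w b = pos (tim.symm b) < w a`. The numbers in `h1`, `h2` are `finrank (flagOf g s ⊓ stdFlag n i)` for
`w'` (`finrank_cell`, `perm_cell` of `HC.lean` i.e. `permGL w'` is in its cell, `finrank_perm`).
`h1`: `mnr_inj` (the minor `mw w s` is not zero): a vector of `flagOf g s ⊓ stdFlag n i` is determined by
its coordinates `w a`, `a < s`, and the ones with `w a ≥ i` vanish.
`h2` (`opn_ge`): for `t = tt k`, in the coordinates `Ix P`, with `E = cS {x | pos x < i}`:
`finrank (fl k ⊓ E) ≥ ∑_l finrank (fl k ⊓ part l ⊓ E)` (`part l = cS {lab = l}`, these are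
independent), and `finrank (fl k ⊓ part l ⊓ E) ≥ #(J_k ∩ l ∩ [pos < i])`: indeed
`finrank (fl k ⊓ part l) = #(J_k ∩ l)` (`K0_rank`) and `dim (X ⊓ Y) ≥ dim X + dim Y - dim part l` for
`X = fl k ⊓ part l`, `Y = part l ⊓ E`, `dim Y = #(l ∩ [pos < i])`; and inside a label the elements not
in `J_k` come BEFORE the ones in `J_k` (`lab_order`): if some `x ∈ J_k ∩ l` has `pos x < i` then all
elements of `l` not in `J_k` have `pos < i` and
`#(J_k ∩ l) + #(l ∩ [< i]) - #l = #(J_k ∩ l ∩ [< i])`; otherwise the right side is `0`.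
`lab_order`: `lab x = lab y`, `kap x ≤ k < kap y`: the label is a block of `Rlo` in `U_i`, `i ≤ 2` (or of
`Rhi`, `Clo`, `Chi`), `x` is a pivot, `y` is not: `blo` (`bhi`, `nlo`, `nhi`).
-/

open MvPolynomial

noncomputable section

namespace Pd6ff58.J

variable {R C : Type} [DecidableEq R] [DecidableEq C] [Fintype R] [Fintype C]
  {P : Par R C} {n : ℕ} {pos tim : Ix P ≃ Fin n} {Φ : Set (Fin P.F)}

namespace OpnBAux

theorem perm_cell' {n : ℕ} (w : Equiv.Perm (Fin n)) : pt (permGL w) ∈ schubertCell w :=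
  ⟨1, (borel n).one_mem, by rw [one_mul]⟩

omit [DecidableEq R] [DecidableEq C] [Fintype R] [Fintype C] in
theorem ww_apply (pos tim : Ix P ≃ Fin n) (a : Fin n) : ww pos tim a = pos (tim.symm a) := rfl

theorem symm_lt (h : Good P Φ pos tim) (a : Fin n) (k : ℕ) :
    (a : ℕ) < tt P k ↔ kap P (tim.symm a) ≤ k := by
  have := tim_lt h (tim.symm a) k
  rwa [Equiv.apply_symm_apply] at this

theorem le_card (w : Equiv.Perm (Fin n)) {g : GL (Fin n) ℂ} {s i : ℕ} (hs : s ≤ n)
    (hD : evalAt g (mw w s) ≠ 0) :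
    Module.finrank ℂ (flagOf g s ⊓ stdFlag n i : Submodule ℂ (Fin n → ℂ)) ≤
      Nat.card {a : Fin n // (a : ℕ) < s ∧ (w a : ℕ) < i} := by
  classical
  let f : (flagOf g s ⊓ stdFlag n i : Submodule ℂ (Fin n → ℂ)) →ₗ[ℂ]
      ({a : Fin n // (a : ℕ) < s ∧ (w a : ℕ) < i} → ℂ) :=
    { toFun := fun v a => v.1 (w a.1)
      map_add' := fun _ _ => rfl
      map_smul' := fun _ _ => rfl }
  have hf : Function.Injective f := by
    rw [← LinearMap.ker_eq_bot, LinearMap.ker_eq_bot']
    intro v hv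
    apply Subtype.ext
    rw [mw, dif_pos hs] at hD
    refine mnr_inj g hs _ hD v.2.1 ?_
    intro b
    by_cases hb : (w ⟨(b : ℕ), b.2.trans_le hs⟩ : ℕ) < i
    · exact congrFun hv ⟨⟨(b : ℕ), b.2.trans_le hs⟩, b.2, hb⟩
    · exact v.2.2 _ (not_lt.1 hb)
  calc Module.finrank ℂ (flagOf g s ⊓ stdFlag n i : Submodule ℂ (Fin n → ℂ))
      ≤ Module.finrank ℂ ({a : Fin n // (a : ℕ) < s ∧ (w a : ℕ) < i} → ℂ) :=
        LinearMap.finrank_le_finrank_of_injective hf
    _ = Nat.card {a : Fin n // (a : ℕ) < s ∧ (w a : ℕ) < i} := by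
        rw [Module.finrank_fintype_fun_eq_card, Nat.card_eq_fintype_card]

end OpnBAux

open OpnBAux

theorem opn (h : Good P Φ pos tim) {g : GL (Fin n) ℂ} (hg : g ∈ K0 pos)
    (hD : ∀ t ≤ n, evalAt g (mw (ww pos tim) t) ≠ 0) :
    pt g ∈ schubertCell (ww pos tim) := by
  obtain ⟨w', b, hb, b', hb', e⟩ := bruhat g
  have hc : pt g ∈ schubertCell w' := pt_mem_schubertCell.2 ⟨b, hb, b', hb', e⟩
  have hw : w' = ww pos tim := by
    refine perm_eq (ww pos tim) w' (tt P) (P.F + 9) (tt_mono P) (tt_zero P)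
      (tt_top pos le_rfl) ?_ ?_ ?_
    · intro k a b hka hab hbk
      have h1 : ¬ kap P (tim.symm a) ≤ k := by
        rw [← symm_lt h]
        exact not_lt.2 hka
      have h2 : kap P (tim.symm b) ≤ k + 1 := (symm_lt h b _).1 hbk
      have h3 : kap P (tim.symm a) ≤ k + 1 :=
        (symm_lt h a _).1 (lt_trans (Fin.lt_def.1 hab) hbk)
      have h4 : ¬ kap P (tim.symm b) ≤ k := by
        rw [← symm_lt h]
        exact not_lt.2 (hka.trans (Fin.lt_def.1 hab).le)
      have h5 : kap P (tim.symm b) = kap P (tim.symm a) := by omega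
      rw [ww_apply, ww_apply]
      rcases lt_trichotomy (pos (tim.symm b)) (pos (tim.symm a)) with h6 | h6 | h6
      · exact h6
      · exact absurd (tim.symm.injective (pos.injective h6)) (ne_of_gt hab)
      · have h7 := h.tim_pos _ _ h5 h6
        rw [Equiv.apply_symm_apply, Equiv.apply_symm_apply] at h7
        exact absurd h7 (not_lt.2 hab.le)
    · intro s hs i hi
      rw [← finrank_perm w' hs hi, finrank_cell (perm_cell' w') hc]
      exact le_card _ hs (hD s hs)
    · intro k i hi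
      rw [← finrank_perm w' (tt_le pos k) hi, finrank_cell (perm_cell' w') hc]
      refine le_trans (le_of_eq ?_) (opn_ge h hg k i hi)
      refine Nat.card_congr (Equiv.subtypeEquiv tim.symm fun a => ?_)
      rw [symm_lt h, ww_apply]
  rw [← hw]
  exact hc

end Pd6ff58.J
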