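import Pool.Agent.Lib.Pd6J.FlC

/-!
# Module StrB: structure of a flag in the Springer cell, middle part (the anchors)

Notation as in `StrA.lean` (read its header first). `G_k = fl pos g k`. `J_3` = `U_0, U_1`, pivots of
`Rlo` in `U_2`, `W_0`, pivots of `Clo` in `W_1`; for `4 ≤ k ≤ F + 5`: `J_k` = all coordinates of
level `< k - 1` and `W_{k-3}` (i.e. `U_i` for `i ≤ k - 2`, `W_i` for `i ≤ k - 3`).

(1) `c : C`. `v^4_{(W_1,c)}`: levels `≤ 3`, vanishes on all coordinates of level `≤ 2` and on `W_1`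
except `c`: it is `W_1 e_c + U_3 τ_c`. This DEFINES `τ` (column `c` is `τ_c`).
(2) For `1 ≤ j ≤ F + 2` by induction on `j`: `v^{j+3}_{(W_j,c)}`: levels `≤ j + 2`, vanishes on the
coordinates of level `< j + 2` and on `W_j` except `c`: `= W_j e_c + U_{j+2} τ'_c`; for `j ≥ 2`,
`X v = W_{j-1} e_c + U_{j+1} τ'_c ∈ G_{j+2}` agrees with `W_{j-1} e_c + U_{j+1} τ_c` on `J_{j+2}`
(`U_{j+1}` is not in `J_{j+2}`, `W_{j-1}` is), so `τ'_c = τ_c` (`fl_ext`). So
`W_j e_c + U_{j+2} τ_c = v^{j+3}_{(W_j,c)} ∈ G_{j+3}`, and `τ_{r c} ≠ 0` implies that NOT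
`pos (W_j, c) < pos (U_{j+2}, r)`. With `forb` (`j = t + 2`, `i = t + 4`): `e5`.
(3) `e1`: for a pivot `a` of `Clo`: `W_1 ((1+ν) e_a) ∈ G_3 ⊆ G_4`; on `J_4` it agrees with
`∑_c ((1+ν) e_a)_c (W_1 e_c + U_3 τ_c) = W_1 ((1+ν) e_a) + U_3 (τ (1+ν) e_a) ∈ G_4`, so
`τ (1+ν) e_a = 0`.
(4) `e3`: `X (W_1 e_c + U_3 τ_c) = W_0 e_c + U_2 τ_c ∈ G_3`, and `W_0 e_c ∈ G_3`: so `U_2 τ_c ∈ G_3`.
On `J_3` it agrees with `∑_{ρ pivot} τ_{ρ c} U_2 ((1+β) e_ρ) ∈ G_3` so they are equal: for `r` not a
pivot `τ_{r c} = ∑_ρ β_{r ρ} τ_{ρ c} = (β τ)_{r c}` (`β_{r ρ} = 0` unless `ρ` is a pivot).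
-/

open MvPolynomial

noncomputable section

namespace Pd6ff58.J

variable {R C : Type} [DecidableEq R] [DecidableEq C] [Fintype R] [Fintype C]
  {P : Par R C} {n : ℕ} {pos tim : Ix P ≃ Fin n} {Φ : Set (Fin P.F)}

namespace StrBAux

omit [DecidableEq R] [DecidableEq C] [Fintype R] [Fintype C] in
open Classical in
theorem kapU (P : Par R C) (i : Fin (P.F + 6)) (r : R) : kap P (i, Sum.inl r) =
    if (i : ℕ) ≤ 2 then (if P.Rlo.piv r then (i : ℕ) + 1 else (i : ℕ) + 2)
    else if (i : ℕ) ≤ P.F + 3 then (i : ℕ) + 2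
    else (if P.Rhi.piv r then (i : ℕ) + 2 else (i : ℕ) + 3) := by
  rw [kap]

omit [DecidableEq R] [DecidableEq C] [Fintype R] [Fintype C] in
open Classical in
theorem kapW (P : Par R C) (i : Fin (P.F + 6)) (c : C) : kap P (i, Sum.inr c) =
    if (i : ℕ) ≤ 1 then (if P.Clo.piv c then (i : ℕ) + 2 else (i : ℕ) + 3)
    else if (i : ℕ) ≤ P.F + 2 then (i : ℕ) + 3
    else (if P.Chi.piv c then (i : ℕ) + 3 else (i : ℕ) + 4) := by
  rw [kap]

theorem vj (h : Good P Φ pos tim) {g : GL (Fin n) ℂ} (hg : pt g ∈ schubertCell (ww pos tim))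
    {j : ℕ} (j1 : 1 ≤ j) (j2 : j ≤ P.F + 2) (c : C) (ha : j + 2 < P.F + 6) (hb : j < P.F + 6) :
    ∃ t : R → ℂ, sW P j (Pi.single c 1) + sU P (j + 2) t ∈ fl pos g (j + 3) ∧
      ∀ r, t r ≠ 0 → pos (⟨j + 2, ha⟩, Sum.inl r) < pos (⟨j, hb⟩, Sum.inr c) := by
  have hx : kap P (⟨j, hb⟩, Sum.inr c) ≤ j + 3 := by
    rw [kapW]
    dsimp only
    split_ifs <;> omega
  obtain ⟨v, hv, hv1, hv2, hv3⟩ := fl_reduced h hg hx
  refine ⟨fun r => v (⟨j + 2, ha⟩, Sum.inl r), ?_, ?_⟩
  · have hvv : v = sW P j (Pi.single c 1) + sU P (j + 2) (fun r => v (⟨j + 2, ha⟩, Sum.inl r)) := by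
      funext y
      rw [Pi.add_apply, sW_apply, sU_apply]
      rcases y with ⟨⟨i, hi⟩, r | c'⟩
      · dsimp only [Sum.elim_inl]
        rcases lt_trichotomy i (j + 2) with h1 | h1 | h1
        · rw [hv2 _ ?_ (by simp)]
          · rw [if_neg (by omega : ¬ i = j + 2)]
            split_ifs <;> simp
          · rw [kapU]
            dsimp only
            split_ifs <;> omega
        · subst h1
          rw [if_neg (by omega : ¬ j + 2 = j), if_pos rfl, zero_add]
        · rw [hv3 _ ?_]
          · rw [if_neg (by omega : ¬ i = j + 2), if_neg (by omega : ¬ i = j), zero_add]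
          · apply h.lev_lt
            simp only [lev]
            omega
      · dsimp only [Sum.elim_inr]
        rcases lt_trichotomy i j with h1 | h1 | h1
        · rw [hv2 _ ?_ ?_]
          · rw [if_neg (by omega : ¬ i = j), if_neg (by omega : ¬ i = j + 2), zero_add]
          · rw [kapW]
            dsimp only
            split_ifs <;> omega
          · intro h2
            have := congrArg (fun z => (z.1 : ℕ)) h2
            simp only at this
            omega
        · subst h1
          rw [if_pos rfl, if_neg (by omega : ¬ i = i + 2), add_zero]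
          by_cases hc : c' = c
          · subst hc
            rw [hv1, Pi.single_eq_same]
          · rw [Pi.single_eq_of_ne hc, hv2 _ ?_ ?_]
            · rw [kapW]
              dsimp only
              split_ifs <;> omega
            · intro h2
              have := congrArg Prod.snd h2
              simp only [Sum.inr.injEq] at this
              exact hc this
        · rw [hv3 _ ?_]
          · rw [if_neg (by omega : ¬ i = j), zero_add]
            split_ifs <;> rfl
          · apply h.lev_lt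
            simp only [lev]
            omega
    rw [← hvv]
    exact hv
  · intro r hr
    by_contra hcon
    apply hr
    apply hv3
    rcases lt_or_eq_of_le (not_lt.mp hcon) with h1 | h1
    · exact h1
    · have := congrArg Prod.snd (pos.injective h1)
      simp at this

end StrBAux

open StrBAux in
theorem strB (h : Good P Φ pos tim) {g : GL (Fin n) ℂ} (hg : g ∈ CS pos tim)
    {β : Matrix R R ℂ} {ν : Matrix C C ℂ} (sb : Supp P.Rlo β) (sn : Supp P.Clo ν)
    (h1 : ∀ i ≤ 2, ∀ r, P.Rlo.piv r → sU P i ((1 + β).mulVec (Pi.single r 1)) ∈ fl pos g (i + 1))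
    (h2 : ∀ i ≤ 1, ∀ c, P.Clo.piv c → sW P i ((1 + ν).mulVec (Pi.single c 1)) ∈ fl pos g (i + 2))
    (h3 : ∀ w : C → ℂ, sW P 0 w ∈ fl pos g 3) :
    ∃ τ : Matrix R C ℂ,
      (∀ j, 1 ≤ j → j ≤ P.F + 2 → ∀ w : C → ℂ,
        sW P j w + sU P (j + 2) (τ.mulVec w) ∈ fl pos g (j + 3)) ∧
      (∀ r c, P.Clo.piv c → (τ * (1 + ν) : Matrix R C ℂ) r c = 0) ∧
      (∀ r c, ¬ P.Rlo.piv r → τ r c = (β * τ) r c) ∧
      ∀ t ∈ Φ, τ (P.ent t).1 (P.ent t).2 = 0 := by
  have hs : pt g ∈ schubertCell (ww pos tim) := hg.1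
  choose t0 ht0 ht0' using fun c => vj h hs (j := 1) le_rfl (by omega) c (by omega) (by omega)
  obtain ⟨τ, hτ⟩ : ∃ τ : Matrix R C ℂ, τ = Matrix.of (fun r c => t0 c r) := ⟨_, rfl⟩
  have hτ0 : ∀ c, (fun r => τ r c) = t0 c := by
    intro c
    funext r
    rw [hτ, Matrix.of_apply]
  -- the anchors
  have key : ∀ j, 1 ≤ j → j ≤ P.F + 2 → ∀ c,
      sW P j (Pi.single c 1) + sU P (j + 2) (fun r => τ r c) ∈ fl pos g (j + 3) ∧
      ∀ (ha : j + 2 < P.F + 6) (hb : j < P.F + 6) r, τ r c ≠ 0 →
        pos (⟨j + 2, ha⟩, Sum.inl r) < pos (⟨j, hb⟩, Sum.inr c) := by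
    intro j
    induction j with
    | zero => intro hj; omega
    | succ j ih =>
      intro _ j2 c
      rcases Nat.eq_zero_or_pos j with rfl | j1
      · rw [hτ0]
        refine ⟨ht0 c, ?_⟩
        intro ha hb r hr
        have : τ r c = t0 c r := congrFun (hτ0 c) r
        rw [this] at hr
        exact ht0' c r hr
      · obtain ⟨ih1, ih2⟩ := ih j1 (by omega) c
        obtain ⟨t, ht, ht'⟩ := vj h hs (j := j + 1) (by omega) j2 c (by omega) (by omega)
        have hX := fl_X h hg (j + 3) ht
        rw [Matrix.mulVec_add, Xm_sW P (by omega), show j + 1 + 2 = (j + 2) + 1 by omega,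
          Xm_sU P (by omega)] at hX
        have he := fl_ext h hs hX ih1 (by
          rintro ⟨⟨i, hi⟩, r | c'⟩ hk
          · rw [Pi.add_apply, Pi.add_apply, sU_apply, sU_apply]
            congr 1
            dsimp only
            by_cases hij : i = j + 2
            · subst hij
              exfalso
              rw [kapU] at hk
              dsimp only at hk
              split_ifs at hk <;> omega
            · rw [if_neg hij, if_neg hij]
          · rw [Pi.add_apply, Pi.add_apply, sU_apply, sU_apply]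
            congr 1)
        have het : t = fun r => τ r c := by
          funext r
          have h5 := congrFun he (⟨j + 2, by omega⟩, Sum.inl r)
          rw [Pi.add_apply, Pi.add_apply, sU_apply, sU_apply] at h5
          simpa using h5
        rw [het] at ht
        refine ⟨ht, ?_⟩
        intro ha hb r hr
        exact ht' r (by rw [het]; exact hr)
  have key' : ∀ j, 1 ≤ j → j ≤ P.F + 2 → ∀ w : C → ℂ,
      sW P j w + sU P (j + 2) (τ.mulVec w) ∈ fl pos g (j + 3) := by
    intro j j1 j2 w
    have h5 := LinearMap.pi_apply_eq_sum_univ ((sW P j) + (sU P (j + 2)).comp τ.mulVecLin) w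
    have h6 : ((sW P j) + (sU P (j + 2)).comp τ.mulVecLin) w =
        sW P j w + sU P (j + 2) (τ.mulVec w) := rfl
    rw [← h6, h5]
    refine Submodule.sum_mem _ (fun c _ => Submodule.smul_mem _ _ ?_)
    have h7 : (fun j => if c = j then (1 : ℂ) else 0) = Pi.single c 1 := by
      funext d
      rw [Pi.single_apply]
      by_cases hd : c = d
      · rw [if_pos hd, if_pos hd.symm]
      · rw [if_neg hd, if_neg (Ne.symm hd)]
    rw [h7]
    have h8 : τ.mulVec (Pi.single c 1) = fun r => τ r c := by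
      rw [Matrix.mulVec_single_one]
      rfl
    have h9 : ((sW P j) + (sU P (j + 2)).comp τ.mulVecLin) (Pi.single c 1) =
        sW P j (Pi.single c 1) + sU P (j + 2) (fun r => τ r c) := by
      rw [← h8]
      rfl
    rw [h9]
    exact (key j j1 j2 c).1
  refine ⟨τ, key', ?_, ?_, ?_⟩
  · intro r a ha
    have h5 := h2 1 le_rfl a ha
    have h6 : sW P 1 ((1 + ν).mulVec (Pi.single a 1)) ∈ fl pos g 4 :=
      fl_mono g (by omega : 3 ≤ 4) h5
    have h7 := key' 1 le_rfl (by omega) ((1 + ν).mulVec (Pi.single a 1))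
    have h8 : sU P 3 (τ.mulVec ((1 + ν).mulVec (Pi.single a 1))) ∈ fl pos g 4 := by
      have := Submodule.sub_mem _ h7 h6
      rwa [add_sub_cancel_left] at this
    have h9 := fl_vanish h hs h8 (by
      rintro ⟨⟨i, hi⟩, r' | c'⟩ hk
      · rw [sU_apply]
        dsimp only
        by_cases hij : i = 3
        · subst hij
          exfalso
          rw [kapU] at hk
          dsimp only at hk
          split_ifs at hk <;> omega
        · rw [if_neg hij]
      · rw [sU_apply]
        split_ifs <;> rfl)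
    have h10 := congrFun h9 (⟨3, by omega⟩, Sum.inl r)
    rw [sU_apply, if_pos rfl, Matrix.mulVec_mulVec, Matrix.mulVec_single_one] at h10
    exact h10
  · intro r c hr
    have h5 := (key 1 le_rfl (by omega) c).1
    have h6 := fl_X h hg 3 h5
    rw [Matrix.mulVec_add, Xm_sW P (by omega), show 1 + 2 = 2 + 1 by omega,
      Xm_sU P (by omega)] at h6
    have h7 : sU P 2 (fun r => τ r c) ∈ fl pos g 3 := by
      have := Submodule.sub_mem _ h6 (h3 (Pi.single c 1))
      rwa [add_sub_cancel_left] at this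
    classical
    have h8 : (∑ ρ ∈ Finset.univ.filter (fun ρ => P.Rlo.piv ρ),
        τ ρ c • sU P 2 ((1 + β).mulVec (Pi.single ρ 1))) ∈ fl pos g 3 := by
      refine Submodule.sum_mem _ (fun ρ hρ => Submodule.smul_mem _ _ ?_)
      exact h1 2 le_rfl ρ (Finset.mem_filter.mp hρ).2
    have hval : ∀ (x : Ix P), (∑ ρ ∈ Finset.univ.filter (fun ρ => P.Rlo.piv ρ),
        τ ρ c • sU P 2 ((1 + β).mulVec (Pi.single ρ 1))) x =
        ∑ ρ ∈ Finset.univ.filter (fun ρ => P.Rlo.piv ρ),
          τ ρ c * (sU P 2 ((1 + β).mulVec (Pi.single ρ 1))) x := by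
      intro x
      rw [Finset.sum_apply]
      rfl
    have h9 := fl_ext h hs h7 h8 (by
      rintro ⟨⟨i, hi⟩, r' | c'⟩ hk
      · rw [hval, sU_apply]
        dsimp only [Sum.elim_inl]
        by_cases hij : i = 2
        · subst hij
          rw [if_pos rfl]
          have hp : P.Rlo.piv r' := by
            by_contra hp
            rw [kapU] at hk
            dsimp only at hk
            rw [if_pos le_rfl, if_neg hp] at hk
            omega
          rw [Finset.sum_eq_single r']
          · rw [sU_apply, if_pos rfl, Sum.elim_inl, Matrix.mulVec_single_one]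
            have hb : β r' r' = 0 := by
              by_contra hb
              exact (sb r' r' hb).1 hp
            simp [Matrix.col_apply, hb]
          · intro ρ _ hρ
            rw [sU_apply, if_pos rfl, Sum.elim_inl, Matrix.mulVec_single_one]
            have hb : β r' ρ = 0 := by
              by_contra hb
              exact (sb r' ρ hb).1 hp
            simp [Matrix.col_apply, hb, Matrix.one_apply_ne (Ne.symm hρ)]
          · intro hn
            exact absurd (Finset.mem_filter.mpr ⟨Finset.mem_univ _, hp⟩) hn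
        · rw [if_neg hij, Finset.sum_eq_zero]
          intro ρ _
          rw [sU_apply]
          dsimp only
          rw [if_neg hij, mul_zero]
      · rw [hval, sU_apply, Finset.sum_eq_zero]
        · split_ifs <;> rfl
        · intro ρ _
          rw [sU_apply]
          split_ifs <;> simp)
    have h10 := congrFun h9 (⟨2, by omega⟩, Sum.inl r)
    rw [hval, sU_apply, if_pos rfl, Sum.elim_inl] at h10
    rw [h10, Matrix.mul_apply]
    rw [← Finset.sum_filter_add_sum_filter_not Finset.univ (fun ρ => P.Rlo.piv ρ)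
      (fun ρ => β r ρ * τ ρ c)]
    have h11 : ∑ ρ ∈ Finset.univ.filter (fun ρ => ¬ P.Rlo.piv ρ), β r ρ * τ ρ c = 0 := by
      apply Finset.sum_eq_zero
      intro ρ hρ
      have hb : β r ρ = 0 := by
        by_contra hb
        exact (Finset.mem_filter.mp hρ).2 (sb r ρ hb).2.1
      rw [hb, zero_mul]
    rw [h11, add_zero]
    apply Finset.sum_congr rfl
    intro ρ hρ
    have hρp := (Finset.mem_filter.mp hρ).2
    have hne : r ≠ ρ := by rintro rfl; exact hr hρp
    rw [sU_apply, if_pos rfl, Sum.elim_inl, Matrix.mulVec_single_one]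
    simp [Matrix.col_apply, Matrix.one_apply_ne hne]
    ring
  · intro t ht
    by_contra hne
    have hF := t.2
    have h5 := (key ((t : ℕ) + 2) (by omega) (by omega) (P.ent t).2).2 (by omega) (by omega)
      (P.ent t).1 hne
    have h6 := h.forb t ht ⟨(t : ℕ) + 2 + 2, by omega⟩ ⟨(t : ℕ) + 2, by omega⟩ rfl rfl
    exact absurd h5 (not_lt.mpr h6.le)

end Pd6ff58.J
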