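import Pool.Agent.Lib.Pd6J.FlC

/-!
# Module StrC: structure of a flag in the Springer cell, top part

Notation as in `StrA.lean` (read its header first). Write `M = F + 6`. `J_{M-1}` = all coordinates
of level `< M - 2 = F + 4` and `W_{M-4} = W_{F+2}`; `J_M` = level `< F + 4`, `W_{F+2}`, pivots of
`Rhi` in `U_{F+4}`, pivots of `Chi` in `W_{F+3}`; `J_{M+1}` = level `≤ F + 4`, `W_{F+3}`, pivots of
`Rhi` in `U_{F+5}`, pivots of `Chi` in `W_{F+4}`; `J_{M+2}` = level `≤ F + 6 = M` (i.e. everything but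
`W_{F+5}`) and the pivots of `Chi` in `W_{F+5}`.

(1) `ℓ` a pivot of `Chi`: `v^{M+2}_{(W_{F+5}, ℓ)}` vanishes on `J_{M+2}` except at `(W_{F+5}, ℓ)`:
it is `W_{F+5} (e_ℓ + ∑_{a not pivot} ν'_{a ℓ} e_a)`, `ν'_{aℓ} ≠ 0` only if
`pos (F+5, a) < pos (F+5, ℓ)`. This DEFINES `ν'`.
(2) `X` of it: `W_{F+4} ((1+ν') e_ℓ) ∈ G_{M+1}`; it vanishes on `J_{M+1}` except that it is `1` at
`(W_{F+4}, ℓ)`: so it is `v^{M+1}_{(W_{F+4}, ℓ)}`, and `ν'_{a ℓ} ≠ 0` only if
`pos (F+4, a) < pos (F+4, ℓ)`. With `nhi0`, `nhi1`: `Supp P.Chi ν'`.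
(3) `X` once more: `W_{F+3} ((1+ν') e_ℓ) ∈ G_M`, `X` once more: `W_{F+2} ((1+ν') e_ℓ) ∈ G_{M-1}`.
On `J_{M-1}` it agrees with `∑_c ((1+ν') e_ℓ)_c (W_{F+2} e_c + U_{F+4} τ_c)`, which is in `G_{M-1}`
by the hypothesis `h4` (`j = F + 2`): so `τ (1+ν') e_ℓ = 0`: `e2`.
(4) `W_{F+4} w ∈ G_{M+2}` for all `w` by `fl_initial` (all coordinates of level `≤ F + 6` are in
`J_{M+2}`); so `W_{F+3} w = X W_{F+4} w ∈ G_{M+1}` and `W_{F+2} w ∈ G_M`.
(5) `ρ` a pivot of `Rhi`: `v^{M+1}_{(U_{F+5}, ρ)}`: levels `≤ F + 5`, vanishes on the levels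
`≤ F + 4`, on `W_{F+3}`, on the other pivots of `U_{F+5}`: `= U_{F+5} (e_ρ + ∑ β'_{αρ} e_α)`,
`β'_{αρ} ≠ 0` only if `α` is not a pivot and `pos (F+5, α) < pos (F+5, ρ)`. This DEFINES `β'`.
`X` of it: `U_{F+4} ((1+β') e_ρ) ∈ G_M`, it is `v^M_{(U_{F+4}, ρ)}`: `β'_{αρ} ≠ 0` only if
`pos (F+4, α) < pos (F+4, ρ)`. With `bhi0`, `bhi1`: `Supp P.Rhi β'`.
(6) `e4`: `W_{F+2} e_c + U_{F+4} τ_c ∈ G_{M-1} ⊆ G_M` and `W_{F+2} e_c ∈ G_M` by (4): so
`U_{F+4} τ_c ∈ G_M`. On `J_M` it agrees with `∑_{ρ pivot} τ_{ρc} U_{F+4} ((1+β') e_ρ)`: so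
`τ_{r c} = (β' τ)_{r c}` for `r` not a pivot of `Rhi`.
-/

open MvPolynomial

noncomputable section

namespace Pd6ff58.J

variable {R C : Type} [DecidableEq R] [DecidableEq C] [Fintype R] [Fintype C]
  {P : Par R C} {n : ℕ} {pos tim : Ix P ≃ Fin n} {Φ : Set (Fin P.F)}

namespace StrCAux

/-- assembling the columns -/
theorem exists_supp {T : Type} [Fintype T] [DecidableEq T] (S : Blk T)
    (p : T → (T → ℂ) → Prop)
    (H : ∀ ρ, S.piv ρ → ∃ u : T → ℂ, u ρ = 1 ∧ (∀ r, S.piv r → r ≠ ρ → u r = 0) ∧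
      (∀ α, ¬ S.piv α → u α ≠ 0 → S.blk α = S.blk ρ) ∧ p ρ u) :
    ∃ β : Matrix T T ℂ, Supp S β ∧
      ∀ ρ, S.piv ρ → p ρ ((1 + β).mulVec (Pi.single ρ 1)) := by
  classical
  choose u h1 h2 h3 h4 using H
  refine ⟨Matrix.of fun α ρ => if h : S.piv ρ then (if S.piv α then 0 else u ρ h α) else 0,
    ?_, ?_⟩
  · intro α ρ h
    rw [Matrix.of_apply] at h
    by_cases hρ : S.piv ρ
    · by_cases hα : S.piv α
      · simp [hα] at h
      · rw [dif_pos hρ, if_neg hα] at h
        exact ⟨hα, hρ, h3 ρ hρ α hα h⟩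
    · simp [hρ] at h
  · intro ρ hρ
    have e : (1 + Matrix.of fun α ρ => if h : S.piv ρ then
        (if S.piv α then 0 else u ρ h α) else 0 : Matrix T T ℂ).mulVec (Pi.single ρ 1)
        = u ρ hρ := by
      rw [Matrix.mulVec_single_one]
      funext α
      rw [Matrix.col_apply, Matrix.add_apply, Matrix.of_apply, dif_pos hρ, Matrix.one_apply]
      by_cases hα : S.piv α
      · rw [if_pos hα]
        by_cases e : α = ρ
        · subst e
          rw [if_pos rfl, h1 α hρ, add_zero]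
        · rw [if_neg e, h2 ρ hρ α hα e, add_zero]
      · rw [if_neg hα, if_neg, zero_add]
        rintro rfl
        exact hα hρ
    rw [e]
    exact h4 ρ hρ

omit [DecidableEq R] [DecidableEq C] [Fintype R] [Fintype C] in
theorem lev_le (h : Good P Φ pos tim) {x y : Ix P} (hxy : pos x ≤ pos y) :
    lev P x ≤ lev P y := by
  by_contra hc
  exact absurd (h.lev_lt y x (not_le.1 hc)) (not_lt.2 hxy)

omit [DecidableEq R] [DecidableEq C] [Fintype R] [Fintype C] in
theorem eq_sW {i : ℕ} (hi : i < P.F + 6) {v : Ix P → ℂ} (hU : ∀ j r, v (j, Sum.inl r) = 0)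
    (hW : ∀ (j : Fin (P.F + 6)) c, (j : ℕ) ≠ i → v (j, Sum.inr c) = 0) :
    v = sW P i (fun c => v (⟨i, hi⟩, Sum.inr c)) := by
  funext x
  rw [sW_apply]
  rcases x with ⟨j, r | c⟩
  · rw [hU]
    split_ifs <;> rfl
  · by_cases e : (j : ℕ) = i
    · subst e
      simp
    · rw [hW j c e, if_neg e]

omit [DecidableEq R] [DecidableEq C] [Fintype R] [Fintype C] in
theorem eq_sU {i : ℕ} (hi : i < P.F + 6) {v : Ix P → ℂ} (hW : ∀ j c, v (j, Sum.inr c) = 0)
    (hU : ∀ (j : Fin (P.F + 6)) r, (j : ℕ) ≠ i → v (j, Sum.inl r) = 0) :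
    v = sU P i (fun r => v (⟨i, hi⟩, Sum.inl r)) := by
  funext x
  rw [sU_apply]
  rcases x with ⟨j, r | c⟩
  · by_cases e : (j : ℕ) = i
    · subst e
      simp
    · rw [hU j r e, if_neg e]
  · rw [hW]
    split_ifs <;> rfl

omit [DecidableEq R] [DecidableEq C] [Fintype R] [Fintype C] in
theorem sW_at {i : ℕ} (hi : i < P.F + 6) (w : C → ℂ) (c : C) :
    sW P i w (⟨i, hi⟩, Sum.inr c) = w c := by
  rw [sW_apply, if_pos rfl]
  rfl

omit [DecidableEq R] [DecidableEq C] [Fintype R] [Fintype C] in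
theorem sU_at {i : ℕ} (hi : i < P.F + 6) (u : R → ℂ) (r : R) :
    sU P i u (⟨i, hi⟩, Sum.inl r) = u r := by
  rw [sU_apply, if_pos rfl]
  rfl

omit [DecidableEq R] [DecidableEq C] [Fintype R] [Fintype C] in
/-- `kap` of the high `W` coordinates -/
theorem kapW_piv {j : Fin (P.F + 6)} (hj : P.F + 3 ≤ (j : ℕ)) {c : C} (hc : P.Chi.piv c) :
    kap P (j, Sum.inr c) = (j : ℕ) + 3 := by
  simp only [kap]
  rw [if_neg (by omega), if_neg (by omega), if_pos hc]

omit [DecidableEq R] [DecidableEq C] [Fintype R] [Fintype C] in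
theorem kapW_npiv {j : Fin (P.F + 6)} (hj : P.F + 3 ≤ (j : ℕ)) {c : C} (hc : ¬ P.Chi.piv c) :
    kap P (j, Sum.inr c) = (j : ℕ) + 4 := by
  simp only [kap]
  rw [if_neg (by omega), if_neg (by omega), if_neg hc]

omit [DecidableEq R] [DecidableEq C] [Fintype R] [Fintype C] in
theorem kapU_piv {j : Fin (P.F + 6)} (hj : P.F + 4 ≤ (j : ℕ)) {r : R} (hr : P.Rhi.piv r) :
    kap P (j, Sum.inl r) = (j : ℕ) + 2 := by
  simp only [kap]
  rw [if_neg (by omega), if_neg (by omega), if_pos hr]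

omit [DecidableEq R] [DecidableEq C] [Fintype R] [Fintype C] in
theorem kapU_npiv {j : Fin (P.F + 6)} (hj : P.F + 4 ≤ (j : ℕ)) {r : R} (hr : ¬ P.Rhi.piv r) :
    kap P (j, Sum.inl r) = (j : ℕ) + 3 := by
  simp only [kap]
  rw [if_neg (by omega), if_neg (by omega), if_neg hr]

omit [DecidableEq R] [DecidableEq C] [Fintype R] [Fintype C] in
/-- general bounds on `kap` -/
theorem kapU_le (j : Fin (P.F + 6)) (r : R) :
    kap P (j, Sum.inl r) ≤ (j : ℕ) + 3 := by
  simp only [kap]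
  split_ifs <;> omega

omit [DecidableEq R] [DecidableEq C] [Fintype R] [Fintype C] in
theorem kapW_le (j : Fin (P.F + 6)) (c : C) :
    kap P (j, Sum.inr c) ≤ (j : ℕ) + 4 := by
  simp only [kap]
  split_ifs <;> omega

/-- (1), (2): the vectors of the pivots of `Chi` -/
theorem colW (h : Good P Φ pos tim) {g : GL (Fin n) ℂ} (hg : g ∈ CS pos tim) {l : C}
    (hl : P.Chi.piv l) :
    ∃ u : C → ℂ, u l = 1 ∧ (∀ c, P.Chi.piv c → c ≠ l → u c = 0) ∧
      (∀ a, ¬ P.Chi.piv a → u a ≠ 0 → P.Chi.blk a = P.Chi.blk l) ∧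
      sW P (P.F + 5) u ∈ fl pos g (P.F + 8) := by
  have h5 : P.F + 5 < P.F + 6 := by omega
  have h4 : P.F + 4 < P.F + 6 := by omega
  obtain ⟨v, hv, v1, v2, v3⟩ := fl_reduced h hg.1 (k := P.F + 8)
    (x := (⟨P.F + 5, h5⟩, Sum.inr l)) (le_of_eq (kapW_piv (by simp) hl))
  obtain ⟨v', hv', w1, w2, w3⟩ := fl_reduced h hg.1 (k := P.F + 7)
    (x := (⟨P.F + 4, h4⟩, Sum.inr l)) (le_of_eq (kapW_piv (by simp) hl))
  -- `v` is concentrated in `W_{F+5}`
  have ev : v = sW P (P.F + 5) (fun c => v (⟨P.F + 5, h5⟩, Sum.inr c)) := by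
    apply eq_sW h5
    · intro j r
      apply v2
      · have := kapU_le (P := P) j r
        omega
      · simp
    · intro j c hj
      apply v2
      · have := kapW_le (P := P) j c
        omega
      · intro e
        apply hj
        have := congrArg (fun y => ((y.1 : Fin (P.F + 6)) : ℕ)) e
        simpa using this
  set u : C → ℂ := fun c => v (⟨P.F + 5, h5⟩, Sum.inr c) with hu
  have ul : u l = 1 := v1
  have up : ∀ c, P.Chi.piv c → c ≠ l → u c = 0 := by
    intro c hc hcl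
    apply v2
    · rw [kapW_piv (by simp) hc]
    · simpa using hcl
  have hX : sW P (P.F + 4) u ∈ fl pos g (P.F + 7) := by
    rw [← Xm_sW P h5, ← ev]
    exact fl_X h hg _ hv
  have hext : sW P (P.F + 4) u = v' := by
    refine fl_ext h hg.1 hX hv' fun x hx => ?_
    by_cases ex : x = (⟨P.F + 4, h4⟩, Sum.inr l)
    · rw [ex, w1, sW_at, ul]
    · rw [w2 x hx ex]
      rcases x with ⟨j, r | c⟩
      · rw [sW_apply]
        split_ifs <;> rfl
      · rw [sW_apply]
        by_cases ej : (j : ℕ) = P.F + 4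
        · rw [if_pos ej]
          have ej' : j = ⟨P.F + 4, h4⟩ := Fin.ext ej
          subst ej'
          by_cases hc : P.Chi.piv c
          · refine up c hc ?_
            rintro rfl
            exact ex rfl
          · rw [kapW_npiv (by simp) hc] at hx
            simp at hx
        · rw [if_neg ej]
  refine ⟨u, ul, up, ?_, ev ▸ hv⟩
  intro a ha hua
  have hal : a ≠ l := by
    rintro rfl
    exact ha hl
  have p5 : pos (⟨P.F + 5, h5⟩, Sum.inr a) < pos (⟨P.F + 5, h5⟩, Sum.inr l) := by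
    rcases lt_trichotomy (pos (⟨P.F + 5, h5⟩, Sum.inr a)) (pos (⟨P.F + 5, h5⟩, Sum.inr l))
      with h' | h' | h'
    · exact h'
    · exact absurd (by simpa using pos.injective h') hal
    · exact absurd (v3 _ h') hua
  have p4 : pos (⟨P.F + 4, h4⟩, Sum.inr a) < pos (⟨P.F + 4, h4⟩, Sum.inr l) := by
    rcases lt_trichotomy (pos (⟨P.F + 4, h4⟩, Sum.inr a)) (pos (⟨P.F + 4, h4⟩, Sum.inr l))
      with h' | h' | h'
    · exact h'
    · exact absurd (by simpa using pos.injective h') hal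
    · have := w3 _ h'
      rw [← hext, sW_at] at this
      exact absurd this hua
  exact le_antisymm (h.nhi0 _ _ _ rfl ha hl p4) (h.nhi1 _ _ _ rfl ha hl p5)

/-- (5): the vectors of the pivots of `Rhi` -/
theorem colU (h : Good P Φ pos tim) {g : GL (Fin n) ℂ} (hg : g ∈ CS pos tim) {l : R}
    (hl : P.Rhi.piv l) :
    ∃ u : R → ℂ, u l = 1 ∧ (∀ c, P.Rhi.piv c → c ≠ l → u c = 0) ∧
      (∀ a, ¬ P.Rhi.piv a → u a ≠ 0 → P.Rhi.blk a = P.Rhi.blk l) ∧
      sU P (P.F + 5) u ∈ fl pos g (P.F + 7) := by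
  have h5 : P.F + 5 < P.F + 6 := by omega
  have h4 : P.F + 4 < P.F + 6 := by omega
  obtain ⟨v, hv, v1, v2, v3⟩ := fl_reduced h hg.1 (k := P.F + 7)
    (x := (⟨P.F + 5, h5⟩, Sum.inl l)) (le_of_eq (kapU_piv (by simp) hl))
  obtain ⟨v', hv', w1, w2, w3⟩ := fl_reduced h hg.1 (k := P.F + 6)
    (x := (⟨P.F + 4, h4⟩, Sum.inl l)) (le_of_eq (kapU_piv (by simp) hl))
  have ev : v = sU P (P.F + 5) (fun c => v (⟨P.F + 5, h5⟩, Sum.inl c)) := by
    apply eq_sU h5
    · intro j c
      by_cases hj : (j : ℕ) ≤ P.F + 3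
      · apply v2
        · have := kapW_le (P := P) j c
          omega
        · simp
      · apply v3
        apply h.lev_lt
        simp only [lev]
        omega
    · intro j r hj
      apply v2
      · have := kapU_le (P := P) j r
        omega
      · intro e
        apply hj
        have := congrArg (fun y => ((y.1 : Fin (P.F + 6)) : ℕ)) e
        simpa using this
  set u : R → ℂ := fun c => v (⟨P.F + 5, h5⟩, Sum.inl c) with hu
  have ul : u l = 1 := v1
  have up : ∀ c, P.Rhi.piv c → c ≠ l → u c = 0 := by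
    intro c hc hcl
    apply v2
    · rw [kapU_piv (by simp) hc]
    · simpa using hcl
  have hX : sU P (P.F + 4) u ∈ fl pos g (P.F + 6) := by
    rw [← Xm_sU P h5, ← ev]
    exact fl_X h hg _ hv
  have hext : sU P (P.F + 4) u = v' := by
    refine fl_ext h hg.1 hX hv' fun x hx => ?_
    by_cases ex : x = (⟨P.F + 4, h4⟩, Sum.inl l)
    · rw [ex, w1, sU_at, ul]
    · rw [w2 x hx ex]
      rcases x with ⟨j, c | r⟩
      · rw [sU_apply]
        by_cases ej : (j : ℕ) = P.F + 4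
        · rw [if_pos ej]
          have ej' : j = ⟨P.F + 4, h4⟩ := Fin.ext ej
          subst ej'
          by_cases hc : P.Rhi.piv c
          · refine up c hc ?_
            rintro rfl
            exact ex rfl
          · rw [kapU_npiv (by simp) hc] at hx
            simp at hx
        · rw [if_neg ej]
      · rw [sU_apply]
        split_ifs <;> rfl
  refine ⟨u, ul, up, ?_, ev ▸ hv⟩
  intro a ha hua
  have hal : a ≠ l := by
    rintro rfl
    exact ha hl
  have p5 : pos (⟨P.F + 5, h5⟩, Sum.inl a) < pos (⟨P.F + 5, h5⟩, Sum.inl l) := by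
    rcases lt_trichotomy (pos (⟨P.F + 5, h5⟩, Sum.inl a)) (pos (⟨P.F + 5, h5⟩, Sum.inl l))
      with h' | h' | h'
    · exact h'
    · exact absurd (by simpa using pos.injective h') hal
    · exact absurd (v3 _ h') hua
  have p4 : pos (⟨P.F + 4, h4⟩, Sum.inl a) < pos (⟨P.F + 4, h4⟩, Sum.inl l) := by
    rcases lt_trichotomy (pos (⟨P.F + 4, h4⟩, Sum.inl a)) (pos (⟨P.F + 4, h4⟩, Sum.inl l))
      with h' | h' | h'
    · exact h'
    · exact absurd (by simpa using pos.injective h') hal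
    · have := w3 _ h'
      rw [← hext, sU_at] at this
      exact absurd this hua
  exact le_antisymm (h.bhi0 _ _ _ rfl ha hl p4) (h.bhi1 _ _ _ rfl ha hl p5)

/-- (4) -/
theorem sW_F4 (h : Good P Φ pos tim) {g : GL (Fin n) ℂ} (hg : g ∈ CS pos tim) (w : C → ℂ) :
    sW P (P.F + 4) w ∈ fl pos g (P.F + 8) := by
  have h4 : P.F + 4 < P.F + 6 := by omega
  have key : ∀ c, sW P (P.F + 4) (Pi.single c 1) ∈ fl pos g (P.F + 8) := by
    intro c
    refine fl_initial h hg.1 (x := (⟨P.F + 4, h4⟩, Sum.inr c)) ?_ ?_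
    · intro y hy
      have hl := lev_le h hy
      rcases y with ⟨j, r | d⟩
      · have := kapU_le (P := P) j r
        have := j.2
        omega
      · have := kapW_le (P := P) j d
        simp only [lev] at hl
        omega
    · intro y hy
      rcases y with ⟨j, r | d⟩
      · rw [sW_apply]
        split_ifs <;> rfl
      · rw [sW_apply]
        by_cases ej : (j : ℕ) = P.F + 4
        · rw [if_pos ej]
          have ej' : j = ⟨P.F + 4, h4⟩ := Fin.ext ej
          subst ej'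
          change (Pi.single c 1 : C → ℂ) d = 0
          rw [Pi.single_eq_of_ne]
          rintro rfl
          exact lt_irrefl _ hy
        · rw [if_neg ej]
  have e : w = ∑ c, w c • (Pi.single c 1 : C → ℂ) := by
    funext d
    simp [Finset.sum_apply, Pi.single_apply]
  rw [e, map_sum]
  refine Submodule.sum_mem _ fun c _ => ?_
  rw [map_smul]
  exact Submodule.smul_mem _ _ (key c)

theorem sW_F3 (h : Good P Φ pos tim) {g : GL (Fin n) ℂ} (hg : g ∈ CS pos tim) (w : C → ℂ) :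
    sW P (P.F + 3) w ∈ fl pos g (P.F + 7) := by
  rw [← Xm_sW P (show P.F + 3 + 1 < P.F + 6 by omega)]
  exact fl_X h hg _ (sW_F4 h hg w)

theorem sW_F2 (h : Good P Φ pos tim) {g : GL (Fin n) ℂ} (hg : g ∈ CS pos tim) (w : C → ℂ) :
    sW P (P.F + 2) w ∈ fl pos g (P.F + 6) := by
  rw [← Xm_sW P (show P.F + 2 + 1 < P.F + 6 by omega)]
  exact fl_X h hg _ (sW_F3 h hg w)

end StrCAux

open StrCAux

theorem strC_W (h : Good P Φ pos tim) {g : GL (Fin n) ℂ} (hg : g ∈ CS pos tim)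
    {τ : Matrix R C ℂ}
    (h4 : ∀ w : C → ℂ, sW P (P.F + 2) w + sU P (P.F + 4) (τ.mulVec w) ∈ fl pos g (P.F + 5)) :
    (∃ ν' : Matrix C C ℂ, Supp P.Chi ν' ∧
      (∀ i, P.F + 3 ≤ i → i < P.F + 6 → ∀ c, P.Chi.piv c →
        sW P i ((1 + ν').mulVec (Pi.single c 1)) ∈ fl pos g (i + 3)) ∧
      ∀ r c, P.Chi.piv c → (τ * (1 + ν') : Matrix R C ℂ) r c = 0) ∧
    ∀ w : C → ℂ, sW P (P.F + 3) w ∈ fl pos g (P.F + 7) := by
  refine ⟨?_, sW_F3 h hg⟩
  obtain ⟨ν', hs, hp⟩ := exists_supp P.Chi (fun _ u => sW P (P.F + 5) u ∈ fl pos g (P.F + 8))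
    (fun l hl => colW h hg hl)
  have m4 : ∀ c, P.Chi.piv c →
      sW P (P.F + 4) ((1 + ν').mulVec (Pi.single c 1)) ∈ fl pos g (P.F + 7) := by
    intro c hc
    rw [← Xm_sW P (show P.F + 4 + 1 < P.F + 6 by omega)]
    exact fl_X h hg _ (hp c hc)
  have m3 : ∀ c, P.Chi.piv c →
      sW P (P.F + 3) ((1 + ν').mulVec (Pi.single c 1)) ∈ fl pos g (P.F + 6) := by
    intro c hc
    rw [← Xm_sW P (show P.F + 3 + 1 < P.F + 6 by omega)]
    exact fl_X h hg _ (m4 c hc)
  have m2 : ∀ c, P.Chi.piv c →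
      sW P (P.F + 2) ((1 + ν').mulVec (Pi.single c 1)) ∈ fl pos g (P.F + 5) := by
    intro c hc
    rw [← Xm_sW P (show P.F + 2 + 1 < P.F + 6 by omega)]
    exact fl_X h hg _ (m3 c hc)
  refine ⟨ν', hs, ?_, ?_⟩
  · intro i hi hi' c hc
    have : i = P.F + 3 ∨ i = P.F + 4 ∨ i = P.F + 5 := by omega
    rcases this with rfl | rfl | rfl
    · exact m3 c hc
    · exact m4 c hc
    · exact hp c hc
  · intro r c hc
    have e1 : sU P (P.F + 4) (τ.mulVec ((1 + ν').mulVec (Pi.single c 1))) ∈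
        fl pos g (P.F + 5) := by
      have := Submodule.sub_mem _ (h4 ((1 + ν').mulVec (Pi.single c 1))) (m2 c hc)
      rwa [add_sub_cancel_left] at this
    have e2 := fl_vanish h hg.1 e1 (fun x hx => by
      rcases x with ⟨j, r' | c'⟩
      · rw [sU_apply]
        by_cases ej : (j : ℕ) = P.F + 4
        · exfalso
          by_cases hr : P.Rhi.piv r'
          · rw [kapU_piv (by omega) hr] at hx
            omega
          · rw [kapU_npiv (by omega) hr] at hx
            omega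
        · rw [if_neg ej]
      · rw [sU_apply]
        split_ifs <;> rfl)
    have e3 := congrFun e2 (⟨P.F + 4, by omega⟩, Sum.inl r)
    rw [sU_at, Matrix.mulVec_mulVec, Matrix.mulVec_single_one] at e3
    exact e3

theorem strC_U (h : Good P Φ pos tim) {g : GL (Fin n) ℂ} (hg : g ∈ CS pos tim)
    {τ : Matrix R C ℂ}
    (h4 : ∀ w : C → ℂ, sW P (P.F + 2) w + sU P (P.F + 4) (τ.mulVec w) ∈ fl pos g (P.F + 5)) :
    ∃ β' : Matrix R R ℂ, Supp P.Rhi β' ∧
      (∀ i, P.F + 4 ≤ i → i < P.F + 6 → ∀ r, P.Rhi.piv r →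
        sU P i ((1 + β').mulVec (Pi.single r 1)) ∈ fl pos g (i + 2)) ∧
      ∀ r c, ¬ P.Rhi.piv r → τ r c = (β' * τ) r c := by
  classical
  obtain ⟨β', hs, hp⟩ := exists_supp P.Rhi (fun _ u => sU P (P.F + 5) u ∈ fl pos g (P.F + 7))
    (fun l hl => colU h hg hl)
  have m4 : ∀ r, P.Rhi.piv r →
      sU P (P.F + 4) ((1 + β').mulVec (Pi.single r 1)) ∈ fl pos g (P.F + 6) := by
    intro c hc
    rw [← Xm_sU P (show P.F + 4 + 1 < P.F + 6 by omega)]
    exact fl_X h hg _ (hp c hc)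
  refine ⟨β', hs, ?_, ?_⟩
  · intro i hi hi' r hr
    have : i = P.F + 4 ∨ i = P.F + 5 := by omega
    rcases this with rfl | rfl
    · exact m4 r hr
    · exact hp r hr
  · intro r c hr
    -- the pivot part of the column
    set z : R → ℂ := fun r' => if P.Rhi.piv r' then τ r' c else 0 with hz
    have e1 : sU P (P.F + 4) (fun r' => τ r' c) ∈ fl pos g (P.F + 6) := by
      have q1 := fl_mono g (show P.F + 5 ≤ P.F + 6 by omega) (h4 (Pi.single c 1))
      have q2 := Submodule.sub_mem _ q1 (sW_F2 h hg (Pi.single c 1))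
      rw [add_sub_cancel_left, Matrix.mulVec_single_one] at q2
      exact q2
    have e2 : sU P (P.F + 4) ((1 + β').mulVec z) ∈ fl pos g (P.F + 6) := by
      have e : z = ∑ r', z r' • (Pi.single r' 1 : R → ℂ) := by
        funext d
        simp [Finset.sum_apply, Pi.single_apply]
      rw [e, Matrix.mulVec_sum, map_sum]
      refine Submodule.sum_mem _ fun r' _ => ?_
      rw [Matrix.mulVec_smul, map_smul]
      by_cases hr' : P.Rhi.piv r'
      · exact Submodule.smul_mem _ _ (m4 r' hr')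
      · have : z r' = 0 := if_neg hr'
        rw [this, zero_smul]
        exact Submodule.zero_mem _
    have hβz : ∀ r', ((1 + β').mulVec z) r' = z r' + (β' * τ) r' c := by
      intro r'
      rw [Matrix.add_mulVec, Matrix.one_mulVec, Pi.add_apply, Matrix.mul_apply]
      congr 1
      refine Finset.sum_congr rfl fun ρ _ => ?_
      by_cases hρ : P.Rhi.piv ρ
      · simp [hz, hρ]
      · have : β' r' ρ = 0 := by
          by_contra hne
          exact hρ (hs _ _ hne).2.1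
        change β' r' ρ * z ρ = β' r' ρ * τ ρ c
        rw [this, zero_mul, zero_mul]
    have hβp : ∀ r', P.Rhi.piv r' → (β' * τ) r' c = 0 := by
      intro r' hr'
      rw [Matrix.mul_apply]
      refine Finset.sum_eq_zero fun ρ _ => ?_
      have : β' r' ρ = 0 := by
        by_contra hne
        exact (hs _ _ hne).1 hr'
      rw [this, zero_mul]
    have e3 := fl_ext h hg.1 e1 e2 (fun x hx => by
      rcases x with ⟨j, r' | c'⟩
      · rw [sU_apply, sU_apply]
        by_cases ej : (j : ℕ) = P.F + 4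
        · rw [if_pos ej, if_pos ej]
          by_cases hr' : P.Rhi.piv r'
          · change τ r' c = ((1 + β').mulVec z) r'
            rw [hβz, hβp r' hr', add_zero]
            simp [hz, hr']
          · rw [kapU_npiv (by omega) hr'] at hx
            omega
        · rw [if_neg ej, if_neg ej]
      · rw [sU_apply, sU_apply]
        split_ifs <;> rfl)
    have e4 := congrFun e3 (⟨P.F + 4, by omega⟩, Sum.inl r)
    rw [sU_at, sU_at, hβz] at e4
    rw [e4]
    simp [hz, hr]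

end Pd6ff58.J
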