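import Pool.Agent.Lib.Pd6J.StrA
import Pool.Agent.Lib.Pd6J.StrB
import Pool.Agent.Lib.Pd6J.StrC

/-!
# Module StrD: the structure theorem

PROOF. Take `β` from `strA_U`, `ν` from `strA_W`, `τ` from `strB`, `ν'` from `strC_W`, `β'` from
`strC_U` (with `j = F + 2` of `strB`). Let `M = Mm P β β' ν ν' τ`. Both sides have dimension `tt k`
(`finrank_fl`, `finrank_EJ`, `Mm_det`), so `map M (EJ k) ≤ fl k` suffices; by `EJ_le` it is enough
that `M (U_i e_r) ∈ fl k` if `kap (i, inl r) ≤ k` and `M (W_i e_c) ∈ fl k` if `kap (i, inr c) ≤ k`.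
Formulas for `M`: `Mm_sU`, `Mm_sW`. By monotony (`fl_mono`) take `k = kap x`.
U, `i ≤ 2`: `r` a pivot: `M (U_i e_r) = U_i ((1+β) e_r) ∈ fl (i+1)`, hypothesis. `r` not a pivot:
`(1+β) e_r = e_r` (`Supp`), `k = i + 2`, and all coordinates of level `≤ i` are in `J_{i+2}`:
`fl_initial` (or: every coordinate before `(i, inl r)` has level `≤ i`).
U, `3 ≤ i ≤ F+3`: `M (U_i e_r) = U_i e_r`, `k = i + 2`, all of level `≤ i` is in `J_{i+2}`.
U, `i ≥ F+4`: `r` a pivot: hypothesis (`k = i + 2`). Not a pivot: `M (U_i e_r) = U_i e_r`,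
`k = i + 3`, level `≤ i` is in `J_{i+3}`.
W, `i = 0`: `c` a pivot: `W_0 ((1+ν) e_c) ∈ fl 2`. Not a pivot: `W_0 e_c ∈ fl 3`.
W, `i = 1`: `c` a pivot: `M (W_1 e_c) = W_1 ((1+ν) e_c) + U_3 (τ (1+ν) e_c)` and the second term is
`0` by `e1`; it is in `fl 3`. Not a pivot: `W_1 e_c + U_3 τ_c ∈ fl 4`.
W, `2 ≤ i ≤ F+2`: `W_i e_c + U_{i+2} τ_c ∈ fl (i+3)`.
W, `i ≥ F+3`: `c` a pivot: hypothesis (`k = i + 3`). Not a pivot: `M (W_i e_c) = W_i e_c`,
`k = i + 4`: for `i = F+3` it is the last hypothesis of `strC_W`; for `i = F+4`: `k = F+8` and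
level `≤ F + 6` is in `J_{F+8}`; for `i = F+5`: `fl (F+9) = ⊤`.
-/

open MvPolynomial

noncomputable section

namespace Pd6ff58.J

variable {R C : Type} [DecidableEq R] [DecidableEq C] [Fintype R] [Fintype C]
  {P : Par R C} {n : ℕ} {pos tim : Ix P ≃ Fin n} {Φ : Set (Fin P.F)}

namespace StrDAux

omit [DecidableEq R] [DecidableEq C] [Fintype R] [Fintype C] in
theorem kap_lev3 (P : Par R C) (x : Ix P) : kap P x ≤ lev P x + 3 := by
  rcases x with ⟨i, r | c⟩
  · simp only [kap, lev]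
    split_ifs <;> omega
  · simp only [kap, lev]
    split_ifs <;> omega

omit [DecidableEq R] [DecidableEq C] [Fintype R] [Fintype C] in
theorem kap_lev2 (P : Par R C) (x : Ix P) (hx : lev P x ≤ P.F + 3) : kap P x ≤ lev P x + 2 := by
  rcases x with ⟨i, r | c⟩
  · simp only [kap, lev] at hx ⊢
    split_ifs <;> omega
  · simp only [kap, lev] at hx ⊢
    split_ifs <;> omega

omit [DecidableEq R] [DecidableEq C] [Fintype R] [Fintype C] in
theorem kap_lev6 (P : Par R C) (x : Ix P) (hx : lev P x ≤ P.F + 6) : kap P x ≤ P.F + 8 := by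
  rcases x with ⟨i, r | c⟩
  · have hi := i.2
    simp only [kap, lev] at hx ⊢
    split_ifs <;> omega
  · have hi := i.2
    simp only [kap, lev] at hx ⊢
    split_ifs <;> omega

theorem levU (h : Good P Φ pos tim) {g : GL (Fin n) ℂ} (hg : g ∈ CS pos tim) {k : ℕ}
    (i : Fin (P.F + 6)) (r : R) (hk : ∀ y, lev P y ≤ (i : ℕ) → kap P y ≤ k) :
    sU P i (Pi.single r 1) ∈ fl pos g k := by
  refine fl_initial h hg.1 (x := (i, Sum.inl r)) ?_ ?_
  · intro y hy
    refine hk y ?_
    by_contra hc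
    have hlt : lev P (i, Sum.inl r) < lev P y := by
      change (i : ℕ) < lev P y
      omega
    exact absurd (h.lev_lt _ _ hlt) (not_lt.2 hy)
  · rintro ⟨j, z⟩ hy
    rw [sU_apply]
    by_cases hj : (j : ℕ) = i
    · rw [if_pos hj]
      have hji : j = i := Fin.ext hj
      subst hji
      rcases z with r' | c'
      · have hne : r' ≠ r := by
          rintro rfl
          exact lt_irrefl _ hy
        simp [hne]
      · rfl
    · rw [if_neg hj]

theorem levW (h : Good P Φ pos tim) {g : GL (Fin n) ℂ} (hg : g ∈ CS pos tim) {k : ℕ}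
    (i : Fin (P.F + 6)) (c : C) (hk : ∀ y, lev P y ≤ (i : ℕ) + 2 → kap P y ≤ k) :
    sW P i (Pi.single c 1) ∈ fl pos g k := by
  refine fl_initial h hg.1 (x := (i, Sum.inr c)) ?_ ?_
  · intro y hy
    refine hk y ?_
    by_contra hc
    have hlt : lev P (i, Sum.inr c) < lev P y := by
      change (i : ℕ) + 2 < lev P y
      omega
    exact absurd (h.lev_lt _ _ hlt) (not_lt.2 hy)
  · rintro ⟨j, z⟩ hy
    rw [sW_apply]
    by_cases hj : (j : ℕ) = i
    · rw [if_pos hj]
      have hji : j = i := Fin.ext hj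
      subst hji
      rcases z with r' | c'
      · rfl
      · have hne : c' ≠ c := by
          rintro rfl
          exact lt_irrefl _ hy
        simp [hne]
    · rw [if_neg hj]

theorem supp_single {T : Type} [DecidableEq T] [Fintype T] {S : Blk T} {A : Matrix T T ℂ}
    (hA : Supp S A) {y : T} (hy : ¬ S.piv y) :
    (1 + A).mulVec (Pi.single y 1) = Pi.single y 1 := by
  rw [Matrix.add_mulVec, Matrix.one_mulVec]
  have h0 : A.mulVec (Pi.single y 1) = 0 := by
    funext x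
    rw [Matrix.mulVec_single_one, Matrix.col_apply]
    by_contra hne
    exact hy (hA x y hne).2.1
  rw [h0, add_zero]

omit [DecidableEq R] [Fintype R] in
theorem tau_single {τ : Matrix R C ℂ} {ν : Matrix C C ℂ} {c : C}
    (h0 : ∀ r, (τ * (1 + ν) : Matrix R C ℂ) r c = 0) :
    τ.mulVec ((1 + ν).mulVec (Pi.single c 1)) = 0 := by
  rw [Matrix.mulVec_mulVec]
  funext r
  rw [Matrix.mulVec_single_one, Matrix.col_apply]
  exact h0 r

omit [DecidableEq R] [DecidableEq C] [Fintype R] [Fintype C] in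
theorem kapU_lo (P : Par R C) (i : Fin (P.F + 6)) (r : R) (hi : (i : ℕ) ≤ 2)
    (hr : P.Rlo.piv r) : kap P (i, Sum.inl r) = (i : ℕ) + 1 := by
  simp only [kap, if_pos hi, if_pos hr]

omit [DecidableEq R] [DecidableEq C] [Fintype R] [Fintype C] in
theorem kapU_lo' (P : Par R C) (i : Fin (P.F + 6)) (r : R) (hi : (i : ℕ) ≤ 2)
    (hr : ¬ P.Rlo.piv r) : kap P (i, Sum.inl r) = (i : ℕ) + 2 := by
  simp only [kap, if_pos hi, if_neg hr]

omit [DecidableEq R] [DecidableEq C] [Fintype R] [Fintype C] in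
theorem kapU_mid (P : Par R C) (i : Fin (P.F + 6)) (r : R) (hi : ¬ (i : ℕ) ≤ 2)
    (hi' : (i : ℕ) ≤ P.F + 3) : kap P (i, Sum.inl r) = (i : ℕ) + 2 := by
  simp only [kap, if_neg hi, if_pos hi']

omit [DecidableEq R] [DecidableEq C] [Fintype R] [Fintype C] in
theorem kapU_hi (P : Par R C) (i : Fin (P.F + 6)) (r : R) (hi : ¬ (i : ℕ) ≤ P.F + 3)
    (hr : P.Rhi.piv r) : kap P (i, Sum.inl r) = (i : ℕ) + 2 := by
  have h2 : ¬ (i : ℕ) ≤ 2 := by omega
  simp only [kap, if_neg h2, if_neg hi, if_pos hr]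

omit [DecidableEq R] [DecidableEq C] [Fintype R] [Fintype C] in
theorem kapU_hi' (P : Par R C) (i : Fin (P.F + 6)) (r : R) (hi : ¬ (i : ℕ) ≤ P.F + 3)
    (hr : ¬ P.Rhi.piv r) : kap P (i, Sum.inl r) = (i : ℕ) + 3 := by
  have h2 : ¬ (i : ℕ) ≤ 2 := by omega
  simp only [kap, if_neg h2, if_neg hi, if_neg hr]

omit [DecidableEq R] [DecidableEq C] [Fintype R] [Fintype C] in
theorem kapW_lo (P : Par R C) (i : Fin (P.F + 6)) (c : C) (hi : (i : ℕ) ≤ 1)
    (hc : P.Clo.piv c) : kap P (i, Sum.inr c) = (i : ℕ) + 2 := by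
  simp only [kap, if_pos hi, if_pos hc]

omit [DecidableEq R] [DecidableEq C] [Fintype R] [Fintype C] in
theorem kapW_lo' (P : Par R C) (i : Fin (P.F + 6)) (c : C) (hi : (i : ℕ) ≤ 1)
    (hc : ¬ P.Clo.piv c) : kap P (i, Sum.inr c) = (i : ℕ) + 3 := by
  simp only [kap, if_pos hi, if_neg hc]

omit [DecidableEq R] [DecidableEq C] [Fintype R] [Fintype C] in
theorem kapW_mid (P : Par R C) (i : Fin (P.F + 6)) (c : C) (hi : ¬ (i : ℕ) ≤ 1)
    (hi' : (i : ℕ) ≤ P.F + 2) : kap P (i, Sum.inr c) = (i : ℕ) + 3 := by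
  simp only [kap, if_neg hi, if_pos hi']

omit [DecidableEq R] [DecidableEq C] [Fintype R] [Fintype C] in
theorem kapW_hi (P : Par R C) (i : Fin (P.F + 6)) (c : C) (hi : ¬ (i : ℕ) ≤ P.F + 2)
    (hc : P.Chi.piv c) : kap P (i, Sum.inr c) = (i : ℕ) + 3 := by
  have h2 : ¬ (i : ℕ) ≤ 1 := by omega
  simp only [kap, if_neg h2, if_neg hi, if_pos hc]

omit [DecidableEq R] [DecidableEq C] [Fintype R] [Fintype C] in
theorem kapW_hi' (P : Par R C) (i : Fin (P.F + 6)) (c : C) (hi : ¬ (i : ℕ) ≤ P.F + 2)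
    (hc : ¬ P.Chi.piv c) : kap P (i, Sum.inr c) = (i : ℕ) + 4 := by
  have h2 : ¬ (i : ℕ) ≤ 1 := by omega
  simp only [kap, if_neg h2, if_neg hi, if_neg hc]

end StrDAux

open StrDAux

theorem str (h : Good P Φ pos tim) {g : GL (Fin n) ℂ} (hg : g ∈ CS pos tim) :
    ∃ (β β' : Matrix R R ℂ) (ν ν' : Matrix C C ℂ) (τ : Matrix R C ℂ),
      Eqs P Φ β β' ν ν' τ ∧
      ∀ k, fl pos g k = (EJ P k).map (Matrix.mulVecLin (Mm P β β' ν ν' τ)) := by
  obtain ⟨β, sb, hβ⟩ := strA_U h hg
  obtain ⟨⟨ν, sn, hν⟩, hW0⟩ := strA_W h hg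
  obtain ⟨τ, hτ, e1, e3, e5⟩ := strB h hg sb sn hβ hν hW0
  have h4 : ∀ w : C → ℂ,
      sW P (P.F + 2) w + sU P (P.F + 4) (τ.mulVec w) ∈ fl pos g (P.F + 5) := fun w =>
    hτ (P.F + 2) (by omega) le_rfl w
  obtain ⟨⟨ν', sn', hν', e2⟩, hWF⟩ := strC_W h hg h4
  obtain ⟨β', sb', hβ', e4⟩ := strC_U h hg h4
  refine ⟨β, β', ν, ν', τ, ⟨sb, sb', sn, sn', e1, e2, e3, e4, e5⟩, ?_⟩
  intro k
  have hinj : Function.Injective (Matrix.mulVecLin (Mm P β β' ν ν' τ)) := by
    have hu : IsUnit (Mm P β β' ν ν' τ) :=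
      (Matrix.isUnit_iff_isUnit_det _).2 (isUnit_iff_ne_zero.2 (Mm_det P τ sb sb' sn sn'))
    exact Matrix.mulVec_injective_iff_isUnit.2 hu
  have hle : (EJ P k).map (Matrix.mulVecLin (Mm P β β' ν ν' τ)) ≤ fl pos g k := by
    refine EJ_le P ?_ ?_
    · intro i r hk
      rw [Matrix.mulVecLin_apply, Mm_sU]
      refine fl_mono g hk ?_
      by_cases hi2 : (i : ℕ) ≤ 2
      · rw [if_pos hi2]
        by_cases hr : P.Rlo.piv r
        · rw [kapU_lo P i r hi2 hr]
          exact hβ i hi2 r hr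
        · rw [kapU_lo' P i r hi2 hr, supp_single sb hr]
          refine levU h hg i r fun y hy => ?_
          have := kap_lev2 P y (by omega)
          omega
      · rw [if_neg hi2]
        by_cases hi3 : (i : ℕ) ≤ P.F + 3
        · rw [if_pos hi3, kapU_mid P i r hi2 hi3, Matrix.one_mulVec]
          refine levU h hg i r fun y hy => ?_
          have := kap_lev2 P y (by omega)
          omega
        · rw [if_neg hi3]
          by_cases hr : P.Rhi.piv r
          · rw [kapU_hi P i r hi3 hr]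
            exact hβ' i (by omega) i.2 r hr
          · rw [kapU_hi' P i r hi3 hr, supp_single sb' hr]
            refine levU h hg i r fun y hy => ?_
            have := kap_lev3 P y
            omega
    · intro i c hk
      rw [Matrix.mulVecLin_apply, Mm_sW]
      refine fl_mono g hk ?_
      by_cases hi1 : (i : ℕ) ≤ 1
      · rw [if_pos hi1, if_pos hi1]
        by_cases hc : P.Clo.piv c
        · rw [kapW_lo P i c hi1 hc, tau_single (fun r => e1 r c hc), map_zero, ite_self, add_zero]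
          exact hν i hi1 c hc
        · rw [kapW_lo' P i c hi1 hc, supp_single sn hc]
          by_cases hi0 : (i : ℕ) = 0
          · have hn : ¬ (1 ≤ (i : ℕ) ∧ (i : ℕ) ≤ P.F + 2) := by omega
            rw [if_neg hn, add_zero, hi0]
            exact hW0 _
          · have hp : 1 ≤ (i : ℕ) ∧ (i : ℕ) ≤ P.F + 2 := by omega
            rw [if_pos hp]
            exact hτ i hp.1 hp.2 _
      · rw [if_neg hi1, if_neg hi1, Matrix.one_mulVec]
        by_cases hi2 : (i : ℕ) ≤ P.F + 2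
        · have hp : 1 ≤ (i : ℕ) ∧ (i : ℕ) ≤ P.F + 2 := by omega
          rw [if_pos hi2, if_pos hp, Matrix.one_mulVec, kapW_mid P i c hi1 hi2]
          exact hτ i hp.1 hp.2 _
        · have hn : ¬ (1 ≤ (i : ℕ) ∧ (i : ℕ) ≤ P.F + 2) := by omega
          rw [if_neg hi2, if_neg hn, add_zero]
          by_cases hc : P.Chi.piv c
          · rw [kapW_hi P i c hi2 hc]
            exact hν' i (by omega) i.2 c hc
          · rw [kapW_hi' P i c hi2 hc, supp_single sn' hc]
            have hi6 := i.2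
            by_cases hi3 : (i : ℕ) = P.F + 3
            · have hw := hWF (Pi.single c 1)
              rw [hi3]
              exact hw
            · by_cases hi4 : (i : ℕ) = P.F + 4
              · refine levW h hg i c fun y hy => ?_
                have := kap_lev6 P y (by omega)
                omega
              · have h5 : P.F + 9 ≤ (i : ℕ) + 4 := by omega
                rw [fl_top g h5]
                exact Submodule.mem_top
  refine (Submodule.eq_of_le_of_finrank_eq hle ?_).symm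
  have hq := (Submodule.equivMapOfInjective _ hinj (EJ P k)).finrank_eq
  rw [finrank_fl, ← hq, finrank_EJ]

end Pd6ff58.J
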