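import Pool.Agent.Lib.Pd6J.CrdB
import Pool.Agent.Lib.Pd6J.StrD

/-!
# Module SingA (parts (1), (2) of the header): a nontrivial solution gives a singular closure

Let `τ r₀ c₀ ≠ 0`. `fP := mx 4 (1, inr c₀) (3, inl r₀)`; `gP := det` of the `C × C` matrix `LamP` of
polynomials whose column `c` is `mx 2 (0, inr c) (0, inr c')` (`c'` the row index) if `c` is a pivot of
`Clo` and `mx (F+8) (F+5, inr c) (F+5, inr c')` if not (then `c` is a pivot of `Chi` by `hc`).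

(1) `sing_f`, `sing_g`: for `g` with `fl pos g k = M(β₁, ..., τ₁) EJ k` for all `k` (`M = Mm`, any
solution `(β₁, ..., τ₁)` of `Eqs`): by `crd_Mm`, `evalAt g fP = τ₁ r₀ c₀ * mu4`, `mu4 ≠ 0`, and
`evalAt g LamP = (1 + ν₁ + ν₁') * diagonal (nonzero)`: column `c`, `c` a pivot of `Clo`, is
`(1 + ν₁) c' c * mu2` and `ν₁' c' c = 0` (`Supp P.Chi ν₁'` and `c` is not a pivot of `Chi`), etc. So
`evalAt g gP = det (1 + ν₁ + ν₁') * (nonzero)`.
(2) `sing_fg`: `τ₁ (1 + ν₁ + ν₁') = 0` by `e1`, `e2` (column `c`), hence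
`det (1 + ν₁ + ν₁') • τ₁ = 0` (multiply by the adjugate): `fP * gP = 0` on `CS pos tim` by `str` and (1),
hence on `zcl (CS pos tim)`.
(3) `sing`: let `Z = cellClosure (Xn pos) (ww pos tim)`; `pt g ∈ Z ↔ g ∈ zcl (CS pos tim)`
(`mem_zariskiClosure`). `g₀ := trn(Mm β β' ν ν' 0) * w` as an element of `GL` (`Mm_det`, `trn_det`); it
is in `CS` by `exp_mem` (the data `(β, β', ν, ν', 0)` satisfy `Eqs`). Apply `not_regular_of` to
`S = chart g₀ ⁻¹' Z = {x | g₀ * lowerGL x ∈ zcl CS}`, `s = 0`, `p, q` from `chart_poly` for `fP`, `gP`.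
`hp`: `curve_hit` with `S := CS pos tim` (contained in `zcl`; `CS * borel ⊆ CS`),
`G s = trn(Mm β β' ν ν' (s • τ)) * w`; the data `(β, β', ν, ν', s • τ)` satisfy `Eqs`; entries
polynomial in `s`; `s₁ = 1`. The `B`-invariance hypothesis of `curve_hit`: for `g ∈ CS` take the data by
`str`; `fl pos (g * b) k = fl pos g k` (`flagOf_mul_borel`), so by (1) `evalAt (g * b) fP ≠ 0` iff
`τ₁ r₀ c₀ ≠ 0` iff `evalAt g fP ≠ 0`. `hq`: `G s = trn(Mm ((1-s)•β) ((1-s)•β') ((1-s)•ν) ((1-s)•ν') 0) * w`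
(again `Eqs`), `s₁ = 1`: `gP` is not zero at `w` since `det 1 = 1`.
-/

open MvPolynomial

noncomputable section

namespace Pd6ff58.J

variable {R C : Type} [DecidableEq R] [DecidableEq C] [Fintype R] [Fintype C]
  {P : Par R C} {n : ℕ} {pos tim : Ix P ≃ Fin n} {Φ : Set (Fin P.F)}

open Classical in
/-- the matrix of minors -/
def LamP (pos tim : Ix P ≃ Fin n) : Matrix C C (MvPolynomial (Fin n × Fin n) ℂ) :=
  Matrix.of fun c' c =>
    if P.Clo.piv c then mx pos tim 2 (⟨0, by omega⟩, Sum.inr c) (⟨0, by omega⟩, Sum.inr c')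
    else mx pos tim (P.F + 8) (⟨P.F + 5, by omega⟩, Sum.inr c) (⟨P.F + 5, by omega⟩, Sum.inr c')

/-- the second polynomial -/
def gP (pos tim : Ix P ≃ Fin n) : MvPolynomial (Fin n × Fin n) ℂ := (LamP pos tim).det

/-- the first polynomial -/
def fP (pos tim : Ix P ≃ Fin n) (r : R) (c : C) : MvPolynomial (Fin n × Fin n) ℂ :=
  mx pos tim 4 (⟨1, by omega⟩, Sum.inr c) (⟨3, by omega⟩, Sum.inl r)

namespace SingAAux

/-- evaluation is a ring homomorphism -/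
def ev (g : GL (Fin n) ℂ) : MvPolynomial (Fin n × Fin n) ℂ →+* ℂ :=
  MvPolynomial.eval (fun p : Fin n × Fin n => g.val p.1 p.2)

theorem ev_eq (g : GL (Fin n) ℂ) (f : MvPolynomial (Fin n × Fin n) ℂ) : evalAt g f = ev g f := rfl

/-- the column of `1 + ν + ν'` at a pivot of `Clo` -/
theorem col_lo (hc : ∀ c, P.Chi.piv c ↔ ¬ P.Clo.piv c) {ν ν' : Matrix C C ℂ}
    (sn' : Supp P.Chi ν') {c : C} (h : P.Clo.piv c) (c' : C) :
    (1 + ν + ν') c' c = (1 + ν) c' c := by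
  have h0 : ν' c' c = 0 := by
    by_contra h1
    exact (hc c).1 (sn' c' c h1).2.1 h
  rw [Matrix.add_apply (1 + ν) ν', h0, add_zero]

/-- the column of `1 + ν + ν'` at a pivot of `Chi` -/
theorem col_hi {ν ν' : Matrix C C ℂ}
    (sn : Supp P.Clo ν) {c : C} (h : ¬ P.Clo.piv c) (c' : C) :
    (1 + ν + ν') c' c = (1 + ν') c' c := by
  have h0 : ν c' c = 0 := by
    by_contra h1
    exact h (sn c' c h1).2.1
  simp only [Matrix.add_apply, h0, add_zero]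

/-- the two equations give `τ (1 + ν + ν') = 0` -/
theorem tau_mul (hc : ∀ c, P.Chi.piv c ↔ ¬ P.Clo.piv c) {β β' : Matrix R R ℂ} {ν ν' : Matrix C C ℂ}
    {τ : Matrix R C ℂ} (e : Eqs P Φ β β' ν ν' τ) : τ * (1 + ν + ν') = 0 := by
  ext r c
  rw [Matrix.zero_apply]
  by_cases h : P.Clo.piv c
  · have h1 := e.e1 r c h
    rw [Matrix.mul_apply] at h1 ⊢
    rw [← h1]
    exact Finset.sum_congr rfl fun c' _ => by rw [col_lo hc e.sn' h c']
  · have h1 := e.e2 r c ((hc c).2 h)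
    rw [Matrix.mul_apply] at h1 ⊢
    rw [← h1]
    exact Finset.sum_congr rfl fun c' _ => by rw [col_hi e.sn h c']

/-- so `τ = 0` when the determinant is not zero -/
theorem tau_zero (hc : ∀ c, P.Chi.piv c ↔ ¬ P.Clo.piv c) {β β' : Matrix R R ℂ}
    {ν ν' : Matrix C C ℂ} {τ : Matrix R C ℂ} (e : Eqs P Φ β β' ν ν' τ)
    (hd : (1 + ν + ν').det ≠ 0) : τ = 0 := by
  have h1 := tau_mul hc e
  have h2 : τ * (1 + ν + ν') * (1 + ν + ν').adjugate = 0 := by rw [h1, Matrix.zero_mul]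
  rw [Matrix.mul_assoc, Matrix.mul_adjugate, Matrix.mul_smul, Matrix.mul_one] at h2
  exact (smul_eq_zero.1 h2).resolve_left hd

end SingAAux

open SingAAux

theorem sing_f (h : Good P Φ pos tim) {β β' : Matrix R R ℂ} {ν ν' : Matrix C C ℂ}
    {τ : Matrix R C ℂ} (e : Eqs P Φ β β' ν ν' τ) {g : GL (Fin n) ℂ}
    (hg : ∀ k, fl pos g k = (EJ P k).map (Matrix.mulVecLin (Mm P β β' ν ν' τ))) (r : R) (c : C) :
    evalAt g (fP pos tim r c) ≠ 0 ↔ τ r c ≠ 0 := by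
  obtain ⟨h0, -, -, -, -, h5⟩ := crd_Mm h e hg
  unfold fP
  rw [h5 ⟨3, by omega⟩ ⟨1, by omega⟩ r c rfl rfl]
  exact ⟨left_ne_zero_of_mul, fun h1 => mul_ne_zero h1 (h0 4)⟩

theorem sing_g (h : Good P Φ pos tim) (hc : ∀ c, P.Chi.piv c ↔ ¬ P.Clo.piv c)
    {β β' : Matrix R R ℂ} {ν ν' : Matrix C C ℂ}
    {τ : Matrix R C ℂ} (e : Eqs P Φ β β' ν ν' τ) {g : GL (Fin n) ℂ}
    (hg : ∀ k, fl pos g k = (EJ P k).map (Matrix.mulVecLin (Mm P β β' ν ν' τ))) :
    evalAt g (gP pos tim) ≠ 0 ↔ (1 + ν + ν').det ≠ 0 := by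
  classical
  obtain ⟨h0, -, h2, -, h4, -⟩ := crd_Mm h e hg
  have h6 : evalAt g (gP pos tim) = (1 + ν + ν').det *
      ∏ c, (if P.Clo.piv c then evalAt g (mu pos tim 2) else evalAt g (mu pos tim (P.F + 8))) := by
    rw [← Matrix.det_diagonal, ← Matrix.det_mul]
    unfold gP
    rw [ev_eq, RingHom.map_det]
    congr 1
    ext c' c
    rw [Matrix.mul_diagonal]
    change ev g (LamP pos tim c' c) = _
    unfold LamP
    rw [Matrix.of_apply]
    by_cases hp : P.Clo.piv c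
    · rw [if_pos hp, if_pos hp, ← ev_eq, h2 ⟨0, by omega⟩ c c' rfl hp, col_lo hc e.sn' hp c']
    · rw [if_neg hp, if_neg hp, ← ev_eq, h4 ⟨P.F + 5, by omega⟩ c c' rfl ((hc c).2 hp),
        col_hi e.sn hp c']
  rw [h6]
  refine ⟨left_ne_zero_of_mul, fun h1 => mul_ne_zero h1 ?_⟩
  refine Finset.prod_ne_zero_iff.2 fun c _ => ?_
  by_cases hp : P.Clo.piv c
  · rw [if_pos hp]
    exact h0 2
  · rw [if_neg hp]
    exact h0 (P.F + 8)

theorem sing_fg (h : Good P Φ pos tim) (hc : ∀ c, P.Chi.piv c ↔ ¬ P.Clo.piv c) (r : R) (c : C)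
    {g : GL (Fin n) ℂ} (hg : g ∈ zcl (CS pos tim)) :
    evalAt g (fP pos tim r c) * evalAt g (gP pos tim) = 0 := by
  have h1 := hg (fP pos tim r c * gP pos tim) (by
    intro g₁ hg₁
    obtain ⟨β, β', ν, ν', τ, e, hfl⟩ := str h hg₁
    rw [ev_eq, map_mul, ← ev_eq, ← ev_eq]
    by_contra hne
    have hf := (sing_f h e hfl r c).1 (left_ne_zero_of_mul hne)
    have hd := (sing_g h hc e hfl).1 (right_ne_zero_of_mul hne)
    exact hf (by rw [tau_zero hc e hd, Matrix.zero_apply]))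
  rw [ev_eq, map_mul, ← ev_eq, ← ev_eq] at h1
  exact h1

theorem Eqs.smul_tau {β β' : Matrix R R ℂ} {ν ν' : Matrix C C ℂ} {τ : Matrix R C ℂ}
    (e : Eqs P Φ β β' ν ν' τ) (s : ℂ) : Eqs P Φ β β' ν ν' (s • τ) where
  sb := e.sb
  sb' := e.sb'
  sn := e.sn
  sn' := e.sn'
  e1 r c hp := by
    rw [Matrix.smul_mul, Matrix.smul_apply, e.e1 r c hp, smul_zero]
  e2 r c hp := by
    rw [Matrix.smul_mul, Matrix.smul_apply, e.e2 r c hp, smul_zero]
  e3 r c hp := by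
    rw [Matrix.mul_smul, Matrix.smul_apply, Matrix.smul_apply, ← e.e3 r c hp]
  e4 r c hp := by
    rw [Matrix.mul_smul, Matrix.smul_apply, Matrix.smul_apply, ← e.e4 r c hp]
  e5 t ht := by
    rw [Matrix.smul_apply, e.e5 t ht, smul_zero]

theorem Eqs.zero_tau {β β' : Matrix R R ℂ} {ν ν' : Matrix C C ℂ} {τ : Matrix R C ℂ}
    (e : Eqs P Φ β β' ν ν' τ) (s : ℂ) : Eqs P Φ (s • β) (s • β') (s • ν) (s • ν') 0 where
  sb := e.sb.smul s
  sb' := e.sb'.smul s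
  sn := e.sn.smul s
  sn' := e.sn'.smul s
  e1 r c _ := by rw [Matrix.zero_mul, Matrix.zero_apply]
  e2 r c _ := by rw [Matrix.zero_mul, Matrix.zero_apply]
  e3 r c _ := by rw [Matrix.mul_zero]
  e4 r c _ := by rw [Matrix.mul_zero]
  e5 t _ := by rw [Matrix.zero_apply]

end Pd6ff58.J
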