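import Pool.Agent.Lib.Pd6J.SingA
import Pool.Agent.Lib.Pd6J.NotR
import Pool.Agent.Lib.Pd6J.Crv

/-!
# Module SingB (part (3) of the header): a nontrivial solution gives a singular closure

Let `τ r₀ c₀ ≠ 0`. `fP := mx 4 (1, inr c₀) (3, inl r₀)`; `gP := det` of the `C × C` matrix `LamP` of
polynomials whose column `c` is `mx 2 (0, inr c) (0, inr c')` (`c'` the row index) if `c` is a pivot of
`Clo` and `mx (F+8) (F+5, inr c) (F+5, inr c')` if not (then `c` is a pivot of `Chi` by `hc`).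

(1) `sing_f`, `sing_g`: for `g` with `fl pos g k = M(β₁, ..., τ₁) EJ k` for all `k` (`M = Mm`, any
solution `(β₁, ..., τ₁)` of `Eqs`): by `crd_Mm`, `evalAt g fP = τ₁ r₀ c₀ * mu4`, `mu4 ≠ 0`, and
`evalAt g LamP = (1 + ν₁ + ν₁') * diagonal (nonzero)`: column `c`, `c` a pivot of `Clo`, is
`(1 + ν₁) c' c * mu2` and `ν₁' c' c = 0` (`Supp P.Chi ν₁'` and `c` is not a pivot of `Chi`), etc. So
`evalAt g gP = det (1 + ν₁ + ν₁') * (nonzero)`.
(2) `sing_fg`: `τ₁ (1 + ν₁ + ν₁') = 0` by `e1`, `e2` (column `c`), hence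
`det (1 + ν₁ + ν₁') • τ₁ = 0` (multiply by the adjugate): `fP * gP = 0` on `CS pos tim` by `str` and (1),
hence on `zcl (CS pos tim)`.
(3) `sing`: let `Z = cellClosure (Xn pos) (ww pos tim)`; `pt g ∈ Z ↔ g ∈ zcl (CS pos tim)`
(`mem_zariskiClosure`). `g₀ := trn(Mm β β' ν ν' 0) * w` as an element of `GL` (`Mm_det`, `trn_det`); it
is in `CS` by `exp_mem` (the data `(β, β', ν, ν', 0)` satisfy `Eqs`). Apply `not_regular_of` to
`S = chart g₀ ⁻¹' Z = {x | g₀ * lowerGL x ∈ zcl CS}`, `s = 0`, `p, q` from `chart_poly` for `fP`, `gP`.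
`hp`: `curve_hit` with `S := CS pos tim` (contained in `zcl`; `CS * borel ⊆ CS`),
`G s = trn(Mm β β' ν ν' (s • τ)) * w`; the data `(β, β', ν, ν', s • τ)` satisfy `Eqs`; entries
polynomial in `s`; `s₁ = 1`. The `B`-invariance hypothesis of `curve_hit`: for `g ∈ CS` take the data by
`str`; `fl pos (g * b) k = fl pos g k` (`flagOf_mul_borel`), so by (1) `evalAt (g * b) fP ≠ 0` iff
`τ₁ r₀ c₀ ≠ 0` iff `evalAt g fP ≠ 0`. `hq`: `G s = trn(Mm ((1-s)•β) ((1-s)•β') ((1-s)•ν) ((1-s)•ν') 0) * w`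
(again `Eqs`), `s₁ = 1`: `gP` is not zero at `w` since `det 1 = 1`.
-/

open MvPolynomial

noncomputable section

namespace Pd6ff58.J

variable {R C : Type} [DecidableEq R] [DecidableEq C] [Fintype R] [Fintype C]
  {P : Par R C} {n : ℕ} {pos tim : Ix P ≃ Fin n} {Φ : Set (Fin P.F)}

namespace SingBAux

/-- a polynomial function -/
def PF (f : ℂ → ℂ) : Prop := ∃ Q : Polynomial ℂ, ∀ s, f s = Q.eval s

theorem PF.const (a : ℂ) : PF fun _ => a := ⟨Polynomial.C a, fun s => by simp⟩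

theorem PF.id : PF fun s => s := ⟨Polynomial.X, fun s => by simp⟩

theorem PF.add {f g : ℂ → ℂ} (hf : PF f) (hg : PF g) : PF fun s => f s + g s := by
  obtain ⟨P, hP⟩ := hf
  obtain ⟨Q, hQ⟩ := hg
  exact ⟨P + Q, fun s => by change f s + g s = _; rw [Polynomial.eval_add, hP, hQ]⟩

theorem PF.mul {f g : ℂ → ℂ} (hf : PF f) (hg : PF g) : PF fun s => f s * g s := by
  obtain ⟨P, hP⟩ := hf
  obtain ⟨Q, hQ⟩ := hg
  exact ⟨P * Q, fun s => by change f s * g s = _; rw [Polynomial.eval_mul, hP, hQ]⟩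

theorem PF.sum {ι : Type} (T : Finset ι) {f : ι → ℂ → ℂ} (hf : ∀ i, PF (f i)) :
    PF fun s => ∑ i ∈ T, f i s := by
  classical
  induction T using Finset.induction_on with
  | empty => simpa using PF.const 0
  | insert i T hi ih =>
    obtain ⟨Q, hQ⟩ := (hf i).add ih
    refine ⟨Q, fun s => ?_⟩
    change ∑ i ∈ insert i T, f i s = _
    rw [Finset.sum_insert hi]
    exact hQ s

theorem PF.congr {f g : ℂ → ℂ} (hf : PF f) (h : ∀ s, g s = f s) : PF g := by
  obtain ⟨P, hP⟩ := hf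
  exact ⟨P, fun s => by rw [h, hP]⟩

/-- polynomial matrices -/
def PM {T : Type} (A : ℂ → Matrix T T ℂ) : Prop := ∀ x y, PF fun s => A s x y

theorem PM.mul {T : Type} [Fintype T] {A B : ℂ → Matrix T T ℂ} (hA : PM A) (hB : PM B) :
    PM fun s => A s * B s := by
  intro x y
  refine (PF.sum Finset.univ fun z => (hA x z).mul (hB z y)).congr fun s => ?_
  change (A s * B s) x y = _
  rw [Matrix.mul_apply]

theorem PM.add {T : Type} {A B : ℂ → Matrix T T ℂ} (hA : PM A) (hB : PM B) :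
    PM fun s => A s + B s := fun x y => (hA x y).add (hB x y)

theorem PM.const {T : Type} (A : Matrix T T ℂ) : PM fun _ => A := fun x y => PF.const (A x y)

theorem PM.smul {T : Type} {f : ℂ → ℂ} (hf : PF f) (A : Matrix T T ℂ) : PM fun s => f s • A :=
  fun x y => (hf.mul (PF.const (A x y))).congr fun s => rfl

theorem PM.trn {A : ℂ → Matrix (Ix P) (Ix P) ℂ} (hA : PM A) (pos : Ix P ≃ Fin n) :
    PM fun s => trn pos (A s) := fun x y => hA (pos.symm x) (pos.symm y)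

theorem PM_Hm {A A' : ℂ → Matrix R R ℂ} {D D' : ℂ → Matrix C C ℂ} (hA : PM A) (hA' : PM A')
    (hD : PM D) (hD' : PM D') : PM fun s => Hm P (A s) (A' s) (D s) (D' s) := by
  rintro ⟨i, r | c⟩ ⟨j, r' | c'⟩
  · by_cases h : i = j
    · by_cases h1 : (i : ℕ) ≤ 2
      · refine (hA r r').congr fun s => ?_
        simp only [Hm, Matrix.of_apply, h, if_true]
        rw [if_pos (by rw [← h]; exact h1)]
      · by_cases h2 : (i : ℕ) ≤ P.F + 3
        · refine (PF.const ((1 : Matrix R R ℂ) r r')).congr fun s => ?_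
          simp only [Hm, Matrix.of_apply, h, if_true]
          rw [if_neg (by rw [← h]; exact h1), if_pos (by rw [← h]; exact h2)]
        · refine (hA' r r').congr fun s => ?_
          simp only [Hm, Matrix.of_apply, h, if_true]
          rw [if_neg (by rw [← h]; exact h1), if_neg (by rw [← h]; exact h2)]
    · refine (PF.const 0).congr fun s => ?_
      simp only [Hm, Matrix.of_apply, h, if_false]
  · refine (PF.const 0).congr fun s => ?_
    simp only [Hm, Matrix.of_apply, ite_self]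
  · refine (PF.const 0).congr fun s => ?_
    simp only [Hm, Matrix.of_apply, ite_self]
  · by_cases h : i = j
    · by_cases h1 : (i : ℕ) ≤ 1
      · refine (hD c c').congr fun s => ?_
        simp only [Hm, Matrix.of_apply, h, if_true]
        rw [if_pos (by rw [← h]; exact h1)]
      · by_cases h2 : (i : ℕ) ≤ P.F + 2
        · refine (PF.const ((1 : Matrix C C ℂ) c c')).congr fun s => ?_
          simp only [Hm, Matrix.of_apply, h, if_true]
          rw [if_neg (by rw [← h]; exact h1), if_pos (by rw [← h]; exact h2)]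
        · refine (hD' c c').congr fun s => ?_
          simp only [Hm, Matrix.of_apply, h, if_true]
          rw [if_neg (by rw [← h]; exact h1), if_neg (by rw [← h]; exact h2)]
    · refine (PF.const 0).congr fun s => ?_
      simp only [Hm, Matrix.of_apply, h, if_false]

theorem PM_Tm {f : ℂ → ℂ} (hf : PF f) (τ : Matrix R C ℂ) : PM fun s => Tm P (f s • τ) := by
  rintro ⟨i, r | c⟩ ⟨j, r' | c'⟩
  · refine (PF.const 0).congr fun s => ?_
    simp only [Tm, Matrix.of_apply]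
  · by_cases h : (i : ℕ) = (j : ℕ) + 2 ∧ 1 ≤ (j : ℕ) ∧ (j : ℕ) ≤ P.F + 2
    · refine (hf.mul (PF.const (τ r c'))).congr fun s => ?_
      simp only [Tm, Matrix.of_apply]
      rw [if_pos h]
      rfl
    · refine (PF.const 0).congr fun s => ?_
      simp only [Tm, Matrix.of_apply]
      rw [if_neg h]
  · refine (PF.const 0).congr fun s => ?_
    simp only [Tm, Matrix.of_apply]
  · refine (PF.const 0).congr fun s => ?_
    simp only [Tm, Matrix.of_apply]

theorem PM_Mm {f f' : ℂ → ℂ} (hf : PF f) (hf' : PF f') (β β' : Matrix R R ℂ)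
    (ν ν' : Matrix C C ℂ) (τ : Matrix R C ℂ) :
    PM fun s => Mm P (f s • β) (f s • β') (f s • ν) (f s • ν') (f' s • τ) := by
  unfold Mm
  exact ((PM.const 1).add (PM_Tm hf' τ)).mul (PM_Hm ((PM.const 1).add (PM.smul hf β))
    ((PM.const 1).add (PM.smul hf β')) ((PM.const 1).add (PM.smul hf ν))
    ((PM.const 1).add (PM.smul hf ν')))

theorem fl_borel (pos : Ix P ≃ Fin n) (g : GL (Fin n) ℂ) {b : GL (Fin n) ℂ} (hb : b ∈ borel n)
    (k : ℕ) : fl pos (g * b) k = fl pos g k := by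
  unfold fl
  rw [flagOf_mul_borel g hb]

theorem CS_borel {g : GL (Fin n) ℂ} (hg : g ∈ CS pos tim) {b : GL (Fin n) ℂ}
    (hb : b ∈ borel n) : g * b ∈ CS pos tim := by
  have h : pt (g * b) = pt g := (pt_eq_iff.2 ⟨b, hb, rfl⟩).symm
  change pt (g * b) ∈ schubertCell (ww pos tim) ∩ springerFiber (Xn pos)
  rw [h]
  exact hg

/-- the point of the data -/
def gD (pos tim : Ix P ≃ Fin n) {β β' : Matrix R R ℂ} {ν ν' : Matrix C C ℂ}
    {τ : Matrix R C ℂ} (e : Eqs P Φ β β' ν ν' τ) : GL (Fin n) ℂ :=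
  Matrix.GeneralLinearGroup.mkOfDetNeZero (trn pos (Mm P β β' ν ν' τ))
    (by rw [trn_det]; exact Mm_det P τ e.sb e.sb' e.sn e.sn') * permGL (ww pos tim)

theorem gD_val (pos tim : Ix P ≃ Fin n) {β β' : Matrix R R ℂ} {ν ν' : Matrix C C ℂ}
    {τ : Matrix R C ℂ} (e : Eqs P Φ β β' ν ν' τ) :
    (gD pos tim e).val = trn pos (Mm P β β' ν ν' τ) * (permGL (ww pos tim)).val := rfl

theorem subset_zcl {S : Set (GL (Fin n) ℂ)} {g : GL (Fin n) ℂ} (hg : g ∈ S) : g ∈ zcl S :=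
  fun _ hf => hf g hg

theorem mem_chart (g₀ : GL (Fin n) ℂ) (x : Low n → ℂ) :
    x ∈ chart g₀ ⁻¹' cellClosure (Xn pos) (ww pos tim) ↔ g₀ * lowerGL x ∈ zcl (CS pos tim) :=
  mem_zariskiClosure

/-- a polynomial which is not zero somewhere on the curve is not zero near `0` -/
theorem hit (h : Good P Φ pos tim) {β β' : Matrix R R ℂ} {ν ν' : Matrix C C ℂ}
    {τ : Matrix R C ℂ} {f f' : ℂ → ℂ} (hf : PF f) (hf' : PF f')
    (e : ∀ s, Eqs P Φ (f s • β) (f s • β') (f s • ν) (f s • ν') (f' s • τ))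
    {g₀ : GL (Fin n) ℂ} (h0 : (gD pos tim (e 0)).val = g₀.val)
    (p : MvPolynomial (Fin n × Fin n) ℂ)
    (hp : ∀ g ∈ CS pos tim, ∀ b ∈ borel n, evalAt g p ≠ 0 → evalAt (g * b) p ≠ 0)
    (s₁ : ℂ) (h1 : evalAt (gD pos tim (e s₁)) p ≠ 0)
    (p' : MvPolynomial (Low n) ℂ) (hp' : ∀ x, eval x p' = evalAt (g₀ * lowerGL x) p)
    (D : MvPolynomial (Low n) ℂ) (hD : eval 0 D ≠ 0) :
    ∃ x ∈ chart g₀ ⁻¹' cellClosure (Xn pos) (ww pos tim), eval x D ≠ 0 ∧ eval x p' ≠ 0 := by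
  obtain ⟨x, hx, hx1, hx2⟩ := curve_hit (S := CS pos tim)
    (fun g hg b hb => CS_borel hg hb)
    (fun s => trn pos (Mm P (f s • β) (f s • β') (f s • ν) (f s • ν') (f' s • τ)) *
      (permGL (ww pos tim)).val)
    (((PM_Mm hf hf' β β' ν ν' τ).trn pos).mul (PM.const _)) g₀ h0
    (fun s g hg => (exp_mem h (e s) hg).1) p hp s₁ h1 D hD
  refine ⟨x, (mem_chart g₀ x).2 (subset_zcl hx), hx1, ?_⟩
  rw [hp']
  exact hx2

end SingBAux

open SingBAux

theorem sing (h : Good P Φ pos tim) (hc : ∀ c, P.Chi.piv c ↔ ¬ P.Clo.piv c)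
    {β β' : Matrix R R ℂ} {ν ν' : Matrix C C ℂ} {τ : Matrix R C ℂ} (e : Eqs P Φ β β' ν ν' τ)
    (hτ : τ ≠ 0) : FlagSingular (cellClosure (Xn pos) (ww pos tim)) := by
  obtain ⟨r₀, c₀, h0⟩ : ∃ r c, τ r c ≠ 0 := by
    by_contra hcon
    push Not at hcon
    exact hτ (Matrix.ext hcon)
  have ez : Eqs P Φ β β' ν ν' (0 : Matrix R C ℂ) := by
    have h1 := e.smul_tau (0 : ℂ)
    rwa [zero_smul] at h1
  let g₀ : GL (Fin n) ℂ := gD pos tim ez
  have hg₀ : g₀ ∈ CS pos tim := (exp_mem h ez (gD_val pos tim ez)).1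
  obtain ⟨p, hp⟩ := chart_poly g₀ (fP pos tim r₀ c₀)
  obtain ⟨q, hq⟩ := chart_poly g₀ (gP pos tim)
  refine ⟨g₀, mem_zariskiClosure.2 (subset_zcl hg₀), ?_⟩
  refine not_regular_of _ 0 p q ?_ ?_ ?_
  · intro x hx
    rw [hp, hq]
    exact sing_fg h hc r₀ c₀ ((mem_chart g₀ x).1 hx)
  · -- the curve `s τ`
    have e1 : ∀ s : ℂ, Eqs P Φ ((1 : ℂ) • β) ((1 : ℂ) • β') ((1 : ℂ) • ν) ((1 : ℂ) • ν') (s • τ) := by
      intro s
      rw [one_smul, one_smul, one_smul, one_smul]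
      exact e.smul_tau s
    refine fun D hD => hit (f := fun _ => 1) (f' := fun s => s) h (PF.const 1) PF.id e1
      (g₀ := g₀) ?_ (fP pos tim r₀ c₀) ?_ 1 ?_ p hp D hD
    · rw [gD_val]
      change _ = (gD pos tim ez).val
      rw [gD_val, one_smul, one_smul, one_smul, one_smul, zero_smul]
    · intro g hg b hb hne
      obtain ⟨β₁, β₁', ν₁, ν₁', τ₁, e₁, hfl⟩ := str h hg
      rw [sing_f h e₁ hfl] at hne
      rw [sing_f h e₁ (fun k => by rw [fl_borel pos g hb, hfl])]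
      exact hne
    · rw [sing_f h (e1 1) (exp_mem h (e1 1) (gD_val pos tim (e1 1))).2, one_smul]
      exact h0
  · -- the curve `(1 - s) (β, ν)`
    have e2 : ∀ s : ℂ, Eqs P Φ ((1 + (-1) * s) • β) ((1 + (-1) * s) • β') ((1 + (-1) * s) • ν)
        ((1 + (-1) * s) • ν') ((0 : ℂ) • τ) := by
      intro s
      rw [zero_smul]
      exact e.zero_tau _
    refine fun D hD => hit (f := fun s => 1 + (-1) * s) (f' := fun _ => 0) h
      ((PF.const 1).add ((PF.const (-1)).mul PF.id)) (PF.const 0) e2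
      (g₀ := g₀) ?_ (gP pos tim) ?_ 1 ?_ q hq D hD
    · rw [gD_val]
      change _ = (gD pos tim ez).val
      rw [gD_val, mul_zero, add_zero, one_smul, one_smul, one_smul, one_smul, zero_smul]
    · intro g hg b hb hne
      obtain ⟨β₁, β₁', ν₁, ν₁', τ₁, e₁, hfl⟩ := str h hg
      rw [sing_g h hc e₁ hfl] at hne
      rw [sing_g h hc e₁ (fun k => by rw [fl_borel pos g hb, hfl])]
      exact hne
    · rw [sing_g h hc (e2 1) (exp_mem h (e2 1) (gD_val pos tim (e2 1))).2]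
      have h3 : (1 : ℂ) + (-1) * 1 = 0 := by norm_num
      rw [h3, zero_smul, zero_smul, add_zero, add_zero, Matrix.det_one]
      exact one_ne_zero

end Pd6ff58.J
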