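import Pool.Agent.Lib.Pd6J.FlC

/-!
# Module StrA: structure of a flag in the Springer cell, bottom part (moments 1, 2, 3)

Write `G_k = fl pos g k`, `v^k_x` for the reduced vector of `x` (`fl_reduced`), `U_i u = sU P i u`,
`W_i w = sW P i w`; `(i, r)` means the coordinate `(i, inl r)` resp. `(i, inr c)`. All comparisons of
vectors of `G_k` are by `fl_ext`: two vectors of `G_k` which agree on the coordinates `x` with
`kap x ≤ k` are equal. `J_1` = pivots in `U_0`; `J_2` = `U_0`, pivots in `U_1`, pivots in `W_0`;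
`J_3` = `U_0, U_1`, pivots in `U_2`, `W_0`, pivots in `W_1` (unfold `kap`).
Levels: `lev (i, inl r) = i`, `lev (i, inr c) = i + 2`; `pos x < pos y` implies `lev x ≤ lev y`
(`lev_lt`), so the support of `v^k_x` has levels `≤ lev x`. `X = Xm` with `X U_{i+1} u = U_i u`,
`X W_{i+1} w = W_i w`, `X U_0 = 0`, `X W_0 = 0`; `fl_X`: `X G_{k+1} ⊆ G_k`.

(1) `ρ` a pivot of `Rlo`. `v^1_{(0,ρ)}` is supported in level 0, i.e. in `U_0`, vanishes at the other
pivots: `= U_0 (e_ρ + ∑_{α not pivot} β_{α ρ} e_α)`, where `β_{α ρ} ≠ 0` only if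
`pos (0, α) < pos (0, ρ)`. This DEFINES `β` (zero elsewhere), so `v^1_{(0,ρ)} = U_0((1+β) e_ρ)`.
(2) `v^2_{(1,ρ)}`: supported in levels `≤ 1`, vanishes on `U_0` (contained in `J_2`): it is
`U_1 (e_ρ + ∑_α β²_{αρ} e_α)`, `β²_{αρ} ≠ 0` only if `pos (1, α) < pos (1, ρ)`. Apply `X`: it is
`U_0 (e_ρ + ∑ β² e_α) ∈ G_1`, agrees with `v^1_{(0,ρ)}` on `J_1`, so `β² = β`. With `blo0`, `blo1`:
`β_{αρ} ≠ 0` implies `blk α ≤ blk ρ` and `blk ρ ≤ blk α`: `Supp P.Rlo β`.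
(3) `a` a pivot of `Clo`. `v^2_{(W_0, a)}`: levels `≤ 2`, vanishes on `U_0`, on the pivots of `U_1`
and on the other pivots of `W_0`: `= W_0 (e_a + ∑_ℓ ν_{ℓ a} e_ℓ) + U_1 x + U_2 y`, `x` supported on
nonpivots. `X v = U_0 x + U_1 y ∈ G_1` vanishes on `J_1`, so `x = y = 0`. This defines `ν`
(`ν_{ℓ a} ≠ 0` only if `ℓ` is not a pivot and `pos (W_0, ℓ) < pos (W_0, a)`).
(4) `v^3_{(U_2, ρ)}`: levels `≤ 2`, vanishes on `U_0, U_1, W_0` and the other pivots of `U_2`: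
`= U_2 (e_ρ + ∑ β³ e_α)`; `X` of it agrees with `v^2_{(1,ρ)}` on `J_2`, so `β³ = β`.
(5) `v^3_{(W_1, a)}`: levels `≤ 3`, vanishes on `U_0, U_1, W_0`, the pivots of `U_2`, the other
pivots of `W_1`: `= W_1 (e_a + ∑ ν³_{ℓ a} e_ℓ) + U_2 x + U_3 y`, `x` on nonpivots. `X v =
W_0 (e_a + ∑ ν³ e_ℓ) + U_1 x + U_2 y ∈ G_2` agrees with `v^2_{(W_0,a)}` on `J_2`: so `ν³ = ν`,
`x = y = 0`. As in (2) with `nlo0`, `nlo1`: `Supp P.Clo ν`.
(6) `v^3_{(W_0, c)}`, `c` arbitrary: levels `≤ 2`, vanishes on `U_0, U_1`, the pivots of `U_2`, on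
`W_0` except `c`: `= W_0 e_c + U_2 z`, `z` on nonpivots; `X v = U_1 z ∈ G_2` vanishes on `J_2`:
`z = 0`. So `W_0 e_c ∈ G_3`.
-/

open MvPolynomial

noncomputable section

namespace Pd6ff58.J

variable {R C : Type} [DecidableEq R] [DecidableEq C] [Fintype R] [Fintype C]
  {P : Par R C} {n : ℕ} {pos tim : Ix P ≃ Fin n} {Φ : Set (Fin P.F)}

namespace StrAAux

omit [DecidableEq R] [DecidableEq C] [Fintype R] [Fintype C] in
theorem kap1 {x : Ix P} (hx : kap P x ≤ 1) :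
    ∃ (i : Fin (P.F + 6)) (r : R), (i : ℕ) = 0 ∧ x = (i, Sum.inl r) ∧ P.Rlo.piv r := by
  rcases x with ⟨i, r | c⟩
  · simp only [kap] at hx
    by_cases hp : P.Rlo.piv r
    · refine ⟨i, r, ?_, rfl, hp⟩
      split_ifs at hx <;> omega
    · exfalso
      split_ifs at hx <;> omega
  · exfalso
    simp only [kap] at hx
    split_ifs at hx <;> omega

omit [DecidableEq R] [DecidableEq C] [Fintype R] [Fintype C] in
theorem kap2 {x : Ix P} (hx : kap P x ≤ 2) :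
    (∃ (i : Fin (P.F + 6)) (r : R), (i : ℕ) = 0 ∧ x = (i, Sum.inl r)) ∨
    (∃ (i : Fin (P.F + 6)) (r : R), (i : ℕ) = 1 ∧ x = (i, Sum.inl r) ∧ P.Rlo.piv r) ∨
    (∃ (i : Fin (P.F + 6)) (c : C), (i : ℕ) = 0 ∧ x = (i, Sum.inr c) ∧ P.Clo.piv c) := by
  rcases x with ⟨i, r | c⟩
  · simp only [kap] at hx
    by_cases hp : P.Rlo.piv r
    · have h1 : (i : ℕ) = 0 ∨ (i : ℕ) = 1 := by split_ifs at hx <;> omega
      rcases h1 with h1 | h1
      · exact Or.inl ⟨i, r, h1, rfl⟩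
      · exact Or.inr (Or.inl ⟨i, r, h1, rfl, hp⟩)
    · have h1 : (i : ℕ) = 0 := by split_ifs at hx <;> omega
      exact Or.inl ⟨i, r, h1, rfl⟩
  · simp only [kap] at hx
    by_cases hp : P.Clo.piv c
    · have h1 : (i : ℕ) = 0 := by split_ifs at hx <;> omega
      exact Or.inr (Or.inr ⟨i, c, h1, rfl, hp⟩)
    · exfalso
      split_ifs at hx <;> omega

omit [DecidableEq R] [DecidableEq C] [Fintype R] [Fintype C] in
theorem kU (i : Fin (P.F + 6)) (hi : (i : ℕ) ≤ 2) (r : R) : kap P (i, Sum.inl r) ≤ i + 2 := by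
  simp only [kap]
  split_ifs <;> omega

omit [DecidableEq R] [DecidableEq C] [Fintype R] [Fintype C] in
theorem kUp (i : Fin (P.F + 6)) (hi : (i : ℕ) ≤ 2) (r : R) (hp : P.Rlo.piv r) :
    kap P (i, Sum.inl r) ≤ i + 1 := by
  simp only [kap]
  split_ifs
  exact le_rfl

omit [DecidableEq R] [DecidableEq C] [Fintype R] [Fintype C] in
theorem kW (i : Fin (P.F + 6)) (hi : (i : ℕ) ≤ 1) (c : C) : kap P (i, Sum.inr c) ≤ i + 3 := by
  simp only [kap]
  split_ifs <;> omega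

omit [DecidableEq R] [DecidableEq C] [Fintype R] [Fintype C] in
theorem kWp (i : Fin (P.F + 6)) (hi : (i : ℕ) ≤ 1) (c : C) (hp : P.Clo.piv c) :
    kap P (i, Sum.inr c) ≤ i + 2 := by
  simp only [kap]
  split_ifs
  exact le_rfl

/-- comparison after the shift -/
theorem shift (h : Good P Φ pos tim) {g : GL (Fin n) ℂ} (hg : g ∈ CS pos tim) {k : ℕ}
    {v w : Ix P → ℂ} (hv : v ∈ fl pos g (k + 1)) (hw : w ∈ fl pos g k)
    (hc : ∀ (i j : Fin (P.F + 6)) (z : R ⊕ C), (j : ℕ) = i + 1 → kap P (i, z) ≤ k →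
      v (j, z) = w (i, z)) (hk : k ≤ 2) :
    ∀ (i j : Fin (P.F + 6)) (z : R ⊕ C), (j : ℕ) = i + 1 → v (j, z) = w (i, z) := by
  have h1 := fl_ext h hg.1 (fl_X h hg k hv) hw (by
    intro x hx
    rw [Xm_mulVec]
    have h2 : (x.1 : ℕ) + 1 < P.F + 6 := by
      have h3 : kap P x ≤ 2 := hx.trans hk
      rcases kap2 h3 with ⟨i, r, hi, rfl⟩ | ⟨i, r, hi, rfl, _⟩ | ⟨i, c, hi, rfl, _⟩ <;>
        simp only [hi] <;> omega
    rw [dif_pos h2]
    exact hc x.1 ⟨(x.1 : ℕ) + 1, h2⟩ x.2 rfl hx)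
  intro i j z hj
  have h2 := congrFun h1 (i, z)
  rw [Xm_mulVec] at h2
  have h3 : (i : ℕ) + 1 < P.F + 6 := by
    rw [← hj]
    exact j.2
  rw [dif_pos h3] at h2
  have h4 : j = ⟨(i : ℕ) + 1, h3⟩ := Fin.ext hj
  rw [h4]
  exact h2

theorem vecU (h : Good P Φ pos tim) {g : GL (Fin n) ℂ} (hg : g ∈ CS pos tim) {ρ : R}
    (hρ : P.Rlo.piv ρ) :
    ∃ u : R → ℂ, u ρ = 1 ∧ (∀ r, P.Rlo.piv r → r ≠ ρ → u r = 0) ∧
      (∀ α, ¬ P.Rlo.piv α → u α ≠ 0 → P.Rlo.blk α = P.Rlo.blk ρ) ∧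
      ∀ i ≤ 2, sU P i u ∈ fl pos g (i + 1) := by
  have hF : ∀ m, m < 6 → m < P.F + 6 := fun m hm => by omega
  set a0 : Fin (P.F + 6) := ⟨0, hF 0 (by omega)⟩ with ha0
  set a1 : Fin (P.F + 6) := ⟨1, hF 1 (by omega)⟩ with ha1
  set a2 : Fin (P.F + 6) := ⟨2, hF 2 (by omega)⟩ with ha2
  obtain ⟨v1, hv1, hv1a, hv1b, hv1c⟩ := fl_reduced h hg.1 (k := 1) (x := (a0, Sum.inl ρ))
    (kUp a0 (by simp [ha0]) ρ hρ)
  obtain ⟨v2, hv2, hv2a, hv2b, hv2c⟩ := fl_reduced h hg.1 (k := 2) (x := (a1, Sum.inl ρ))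
    (kUp a1 (by simp [ha1]) ρ hρ)
  obtain ⟨v3, hv3, hv3a, hv3b, hv3c⟩ := fl_reduced h hg.1 (k := 3) (x := (a2, Sum.inl ρ))
    (kUp a2 (by simp [ha2]) ρ hρ)
  -- the support of `v1`
  have hl1 : ∀ x : Ix P, 0 < lev P x → v1 x = 0 := fun x hx => hv1c x (h.lev_lt _ _ hx)
  have hl2 : ∀ x : Ix P, 1 < lev P x → v2 x = 0 := fun x hx => hv2c x (h.lev_lt _ _ hx)
  have hs2 : ∀ (i j : Fin (P.F + 6)) (z : R ⊕ C), (j : ℕ) = i + 1 → v2 (j, z) = v1 (i, z) := by
    refine shift h hg hv2 hv1 ?_ (by omega)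
    intro i j z hj hk
    obtain ⟨i', r, hi, hx, hp⟩ := kap1 hk
    obtain ⟨rfl, rfl⟩ := Prod.mk.inj hx
    have hj1 : j = a1 := Fin.ext (by rw [hj, hi])
    have hi0 : i = a0 := Fin.ext hi
    rw [hj1, hi0]
    by_cases hr : r = ρ
    · rw [hr, hv2a, hv1a]
    · rw [hv2b _ (kUp a1 (by simp [ha1]) r hp) (by simp [hr]),
        hv1b _ (kUp a0 (by simp [ha0]) r hp) (by simp [hr])]
  have hs3 : ∀ (i j : Fin (P.F + 6)) (z : R ⊕ C), (j : ℕ) = i + 1 → v3 (j, z) = v2 (i, z) := by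
    refine shift h hg hv3 hv2 ?_ (by omega)
    intro i j z hj hk
    rcases kap2 hk with ⟨i', r, hi, hx⟩ | ⟨i', r, hi, hx, hp⟩ | ⟨i', c, hi, hx, hp⟩
    · obtain ⟨rfl, rfl⟩ := Prod.mk.inj hx
      have hj1 : j = a1 := Fin.ext (by rw [hj, hi])
      have hi0 : i = a0 := Fin.ext hi
      rw [hj1, hi0, hv3b _ (kU a1 (by simp [ha1]) r) (by simp [ha1, ha2]),
        hv2b _ (kU a0 (by simp [ha0]) r) (by simp [ha0, ha1])]
    · obtain ⟨rfl, rfl⟩ := Prod.mk.inj hx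
      have hj1 : j = a2 := Fin.ext (by rw [hj, hi])
      have hi0 : i = a1 := Fin.ext hi
      rw [hj1, hi0]
      by_cases hr : r = ρ
      · rw [hr, hv3a, hv2a]
      · rw [hv3b _ (kUp a2 (by simp [ha2]) r hp) (by simp [hr]),
          hv2b _ (kUp a1 (by simp [ha1]) r hp) (by simp [hr])]
    · obtain ⟨rfl, rfl⟩ := Prod.mk.inj hx
      have hj1 : j = a1 := Fin.ext (by rw [hj, hi])
      have hi0 : i = a0 := Fin.ext hi
      rw [hj1, hi0, hv3b _ (kWp a1 (by simp [ha1]) c hp) (by simp),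
        hv2b _ (kWp a0 (by simp [ha0]) c hp) (by simp)]
  set u : R → ℂ := fun r => v1 (a0, Sum.inl r) with hu
  have h1 : sU P 0 u = v1 := by
    funext x
    rcases x with ⟨i, r | c⟩
    · rw [sU_apply]
      by_cases hi : (i : ℕ) = 0
      · have hi0 : i = a0 := Fin.ext hi
        rw [if_pos hi, hi0]
        rfl
      · rw [if_neg hi, hl1]
        simp only [lev]
        omega
    · rw [sU_apply, hl1]
      · split_ifs <;> rfl
      · simp only [lev]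
        omega
  have h2 : sU P 1 u = v2 := by
    funext x
    rcases x with ⟨i, z⟩
    by_cases hi : (i : ℕ) = 0
    · have hi0 : i = a0 := Fin.ext hi
      rw [sU_apply, if_neg (by simp [hi]), hi0]
      rcases z with r | c
      · rw [hv2b _ (kU a0 (by simp [ha0]) r) (by simp [ha0, ha1])]
      · rw [hl2]
        simp only [lev]
        omega
    · obtain ⟨i', hi'⟩ : ∃ i' : Fin (P.F + 6), (i : ℕ) = i' + 1 :=
        ⟨⟨(i : ℕ) - 1, by omega⟩, by simp; omega⟩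
      rw [hs2 i' i z hi', ← h1, sU_apply, sU_apply]
      by_cases h3 : (i' : ℕ) = 0
      · rw [if_pos (show (i : ℕ) = 1 by omega), if_pos h3]
      · rw [if_neg (show ¬ (i : ℕ) = 1 by omega), if_neg h3]
  have h3 : sU P 2 u = v3 := by
    funext x
    rcases x with ⟨i, z⟩
    by_cases hi : (i : ℕ) = 0
    · have hi0 : i = a0 := Fin.ext hi
      rw [sU_apply, if_neg (by simp [hi]), hi0]
      rcases z with r | c
      · rw [hv3b _ ((kU a0 (by simp [ha0]) r).trans (by simp [ha0])) (by simp [ha0, ha2])]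
      · rw [hv3b _ (kW a0 (by simp [ha0]) c) (by simp)]
    · obtain ⟨i', hi'⟩ : ∃ i' : Fin (P.F + 6), (i : ℕ) = i' + 1 :=
        ⟨⟨(i : ℕ) - 1, by omega⟩, by simp; omega⟩
      rw [hs3 i' i z hi', ← h2, sU_apply, sU_apply]
      by_cases h3 : (i' : ℕ) = 1
      · rw [if_pos (show (i : ℕ) = 2 by omega), if_pos h3]
      · rw [if_neg (show ¬ (i : ℕ) = 2 by omega), if_neg h3]
  refine ⟨u, hv1a, ?_, ?_, ?_⟩
  · intro r hp hr
    exact hv1b _ (kUp a0 (by simp [ha0]) r hp) (by simp [hr])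
  · intro α hα hne
    have hαρ : α ≠ ρ := fun h' => hα (h' ▸ hρ)
    have h4 : pos (a0, Sum.inl α) < pos (a0, Sum.inl ρ) := by
      by_contra h5
      rcases lt_or_eq_of_le (not_lt.1 h5) with h6 | h6
      · exact hne (hv1c _ h6)
      · have h7 := pos.injective h6
        exact hαρ (Sum.inl.inj (Prod.mk.inj h7).2).symm
    have h4' : pos (a1, Sum.inl α) < pos (a1, Sum.inl ρ) := by
      by_contra h5
      rcases lt_or_eq_of_le (not_lt.1 h5) with h6 | h6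
      · apply hne
        have h8 := hv2c _ h6
        rw [hs2 a0 a1 (Sum.inl α) rfl] at h8
        exact h8
      · have h7 := pos.injective h6
        exact hαρ (Sum.inl.inj (Prod.mk.inj h7).2).symm
    exact le_antisymm (h.blo0 a0 α ρ rfl hα hρ h4) (h.blo1 a1 α ρ rfl hα hρ h4')
  · intro i hi
    have h5 : i = 0 ∨ i = 1 ∨ i = 2 := by omega
    rcases h5 with rfl | rfl | rfl
    · rw [h1]
      exact hv1
    · rw [h2]
      exact hv2
    · rw [h3]
      exact hv3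

theorem vecW (h : Good P Φ pos tim) {g : GL (Fin n) ℂ} (hg : g ∈ CS pos tim) {a : C}
    (ha : P.Clo.piv a) :
    ∃ w : C → ℂ, w a = 1 ∧ (∀ c, P.Clo.piv c → c ≠ a → w c = 0) ∧
      (∀ l, ¬ P.Clo.piv l → w l ≠ 0 → P.Clo.blk l = P.Clo.blk a) ∧
      ∀ i ≤ 1, sW P i w ∈ fl pos g (i + 2) := by
  have hF : ∀ m, m < 6 → m < P.F + 6 := fun m hm => by omega
  set a0 : Fin (P.F + 6) := ⟨0, hF 0 (by omega)⟩ with ha0
  set a1 : Fin (P.F + 6) := ⟨1, hF 1 (by omega)⟩ with ha1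
  set a2 : Fin (P.F + 6) := ⟨2, hF 2 (by omega)⟩ with ha2
  obtain ⟨v2, hv2, hv2a, hv2b, hv2c⟩ := fl_reduced h hg.1 (k := 2) (x := (a0, Sum.inr a))
    (kWp a0 (by simp [ha0]) a ha)
  obtain ⟨v3, hv3, hv3a, hv3b, hv3c⟩ := fl_reduced h hg.1 (k := 3) (x := (a1, Sum.inr a))
    (kWp a1 (by simp [ha1]) a ha)
  have hs2 : ∀ (i j : Fin (P.F + 6)) (z : R ⊕ C), (j : ℕ) = i + 1 →
      v2 (j, z) = (0 : Ix P → ℂ) (i, z) := by
    refine shift h hg hv2 (Submodule.zero_mem _) ?_ (by omega)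
    intro i j z hj hk
    obtain ⟨i', r, hi, hx, hp⟩ := kap1 hk
    obtain ⟨rfl, rfl⟩ := Prod.mk.inj hx
    have hj1 : j = a1 := Fin.ext (by rw [hj, hi])
    rw [hj1, hv2b _ (kUp a1 (by simp [ha1]) r hp) (by simp)]
    rfl
  have hs3 : ∀ (i j : Fin (P.F + 6)) (z : R ⊕ C), (j : ℕ) = i + 1 → v3 (j, z) = v2 (i, z) := by
    refine shift h hg hv3 hv2 ?_ (by omega)
    intro i j z hj hk
    rcases kap2 hk with ⟨i', r, hi, hx⟩ | ⟨i', r, hi, hx, hp⟩ | ⟨i', c, hi, hx, hp⟩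
    · obtain ⟨rfl, rfl⟩ := Prod.mk.inj hx
      have hj1 : j = a1 := Fin.ext (by rw [hj, hi])
      have hi0 : i = a0 := Fin.ext hi
      rw [hj1, hi0, hv3b _ (kU a1 (by simp [ha1]) r) (by simp),
        hv2b _ (kU a0 (by simp [ha0]) r) (by simp)]
    · obtain ⟨rfl, rfl⟩ := Prod.mk.inj hx
      have hj1 : j = a2 := Fin.ext (by rw [hj, hi])
      have hi0 : i = a1 := Fin.ext hi
      rw [hj1, hi0, hv3b _ (kUp a2 (by simp [ha2]) r hp) (by simp),
        hv2b _ (kUp a1 (by simp [ha1]) r hp) (by simp)]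
    · obtain ⟨rfl, rfl⟩ := Prod.mk.inj hx
      have hj1 : j = a1 := Fin.ext (by rw [hj, hi])
      have hi0 : i = a0 := Fin.ext hi
      rw [hj1, hi0]
      by_cases hc : c = a
      · rw [hc, hv3a, hv2a]
      · rw [hv3b _ (kWp a1 (by simp [ha1]) c hp) (by simp [hc]),
          hv2b _ (kWp a0 (by simp [ha0]) c hp) (by simp [hc])]
  set w : C → ℂ := fun c => v2 (a0, Sum.inr c) with hw
  have h1 : sW P 0 w = v2 := by
    funext x
    rcases x with ⟨i, z⟩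
    rw [sW_apply]
    by_cases hi : (i : ℕ) = 0
    · have hi0 : i = a0 := Fin.ext hi
      rw [if_pos hi, hi0]
      rcases z with r | c
      · rw [hv2b _ (kU a0 (by simp [ha0]) r) (by simp)]
        rfl
      · rfl
    · obtain ⟨i', hi'⟩ : ∃ i' : Fin (P.F + 6), (i : ℕ) = i' + 1 :=
        ⟨⟨(i : ℕ) - 1, by omega⟩, by simp; omega⟩
      rw [if_neg hi, hs2 i' i z hi']
      rfl
  have h2 : sW P 1 w = v3 := by
    funext x
    rcases x with ⟨i, z⟩
    by_cases hi : (i : ℕ) = 0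
    · have hi0 : i = a0 := Fin.ext hi
      rw [sW_apply, if_neg (by simp [hi]), hi0]
      rcases z with r | c
      · rw [hv3b _ ((kU a0 (by simp [ha0]) r).trans (by simp [ha0])) (by simp)]
      · rw [hv3b _ (kW a0 (by simp [ha0]) c) (by simp [ha0, ha1])]
    · obtain ⟨i', hi'⟩ : ∃ i' : Fin (P.F + 6), (i : ℕ) = i' + 1 :=
        ⟨⟨(i : ℕ) - 1, by omega⟩, by simp; omega⟩
      rw [hs3 i' i z hi', ← h1, sW_apply, sW_apply]
      by_cases h3 : (i' : ℕ) = 0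
      · rw [if_pos (show (i : ℕ) = 1 by omega), if_pos h3]
      · rw [if_neg (show ¬ (i : ℕ) = 1 by omega), if_neg h3]
  refine ⟨w, hv2a, ?_, ?_, ?_⟩
  · intro c hp hc
    exact hv2b _ (kWp a0 (by simp [ha0]) c hp) (by simp [hc])
  · intro l hl hne
    have hla : l ≠ a := fun h' => hl (h' ▸ ha)
    have h4 : pos (a0, Sum.inr l) < pos (a0, Sum.inr a) := by
      by_contra h5
      rcases lt_or_eq_of_le (not_lt.1 h5) with h6 | h6
      · exact hne (hv2c _ h6)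
      · have h7 := pos.injective h6
        exact hla (Sum.inr.inj (Prod.mk.inj h7).2).symm
    have h4' : pos (a1, Sum.inr l) < pos (a1, Sum.inr a) := by
      by_contra h5
      rcases lt_or_eq_of_le (not_lt.1 h5) with h6 | h6
      · apply hne
        have h8 := hv3c _ h6
        rw [hs3 a0 a1 (Sum.inr l) rfl] at h8
        exact h8
      · have h7 := pos.injective h6
        exact hla (Sum.inr.inj (Prod.mk.inj h7).2).symm
    exact le_antisymm (h.nlo0 a0 l a rfl hl ha h4) (h.nlo1 a1 l a rfl hl ha h4')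
  · intro i hi
    have h5 : i = 0 ∨ i = 1 := by omega
    rcases h5 with rfl | rfl
    · rw [h1]
      exact hv2
    · rw [h2]
      exact hv3

theorem memW (h : Good P Φ pos tim) {g : GL (Fin n) ℂ} (hg : g ∈ CS pos tim) (a : C) :
    sW P 0 (Pi.single a 1) ∈ fl pos g 3 := by
  have hF : ∀ m, m < 6 → m < P.F + 6 := fun m hm => by omega
  set a0 : Fin (P.F + 6) := ⟨0, hF 0 (by omega)⟩ with ha0
  set a1 : Fin (P.F + 6) := ⟨1, hF 1 (by omega)⟩ with ha1
  set a2 : Fin (P.F + 6) := ⟨2, hF 2 (by omega)⟩ with ha2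
  obtain ⟨v3, hv3, hv3a, hv3b, hv3c⟩ := fl_reduced h hg.1 (k := 3) (x := (a0, Sum.inr a))
    (kW a0 (by simp [ha0]) a)
  have hs3 : ∀ (i j : Fin (P.F + 6)) (z : R ⊕ C), (j : ℕ) = i + 1 →
      v3 (j, z) = (0 : Ix P → ℂ) (i, z) := by
    refine shift h hg hv3 (Submodule.zero_mem _) ?_ (by omega)
    intro i j z hj hk
    rcases kap2 hk with ⟨i', r, hi, hx⟩ | ⟨i', r, hi, hx, hp⟩ | ⟨i', c, hi, hx, hp⟩
    · obtain ⟨rfl, rfl⟩ := Prod.mk.inj hx
      have hj1 : j = a1 := Fin.ext (by rw [hj, hi])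
      rw [hj1, hv3b _ (kU a1 (by simp [ha1]) r) (by simp)]
      rfl
    · obtain ⟨rfl, rfl⟩ := Prod.mk.inj hx
      have hj1 : j = a2 := Fin.ext (by rw [hj, hi])
      rw [hj1, hv3b _ (kUp a2 (by simp [ha2]) r hp) (by simp)]
      rfl
    · obtain ⟨rfl, rfl⟩ := Prod.mk.inj hx
      have hj1 : j = a1 := Fin.ext (by rw [hj, hi])
      rw [hj1, hv3b _ (kWp a1 (by simp [ha1]) c hp) (by simp [ha0, ha1])]
      rfl
  have h1 : sW P 0 (Pi.single a 1) = v3 := by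
    funext x
    rcases x with ⟨i, z⟩
    rw [sW_apply]
    by_cases hi : (i : ℕ) = 0
    · have hi0 : i = a0 := Fin.ext hi
      rw [if_pos hi, hi0]
      rcases z with r | c
      · rw [hv3b _ ((kU a0 (by simp [ha0]) r).trans (by simp [ha0])) (by simp)]
        rfl
      · by_cases hc : c = a
        · rw [hc, hv3a]
          simp
        · rw [hv3b _ (kW a0 (by simp [ha0]) c) (by simp [hc])]
          simp [hc]
    · obtain ⟨i', hi'⟩ : ∃ i' : Fin (P.F + 6), (i : ℕ) = i' + 1 :=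
        ⟨⟨(i : ℕ) - 1, by omega⟩, by simp; omega⟩
      rw [if_neg hi, hs3 i' i z hi']
      rfl
  rw [h1]
  exact hv3

end StrAAux

open Classical in
theorem strA_U (h : Good P Φ pos tim) {g : GL (Fin n) ℂ} (hg : g ∈ CS pos tim) :
    ∃ β : Matrix R R ℂ, Supp P.Rlo β ∧
      ∀ i ≤ 2, ∀ r, P.Rlo.piv r →
        sU P i ((1 + β).mulVec (Pi.single r 1)) ∈ fl pos g (i + 1) := by
  choose! u hu1 hu2 hu3 hu4 using fun (ρ : R) (hρ : P.Rlo.piv ρ) => StrAAux.vecU h hg hρ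
  refine ⟨Matrix.of fun α ρ => if ¬ P.Rlo.piv α ∧ P.Rlo.piv ρ then u ρ α else 0, ?_, ?_⟩
  · intro x y hxy
    rw [Matrix.of_apply] at hxy
    split_ifs at hxy with h1
    · exact ⟨h1.1, h1.2, hu3 y h1.2 x h1.1 hxy⟩
    · exact absurd rfl hxy
  · intro i hi r hr
    have h1 : (1 + Matrix.of fun α ρ => if ¬ P.Rlo.piv α ∧ P.Rlo.piv ρ then u ρ α else 0 :
        Matrix R R ℂ).mulVec (Pi.single r 1) = u r := by
      funext α
      rw [Matrix.mulVec_single_one, Matrix.col_apply, Matrix.add_apply, Matrix.of_apply]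
      by_cases hα : P.Rlo.piv α
      · rw [if_neg (fun h' => h'.1 hα), add_zero]
        by_cases hαr : α = r
        · rw [hαr, Matrix.one_apply_eq, hu1 r hr]
        · rw [Matrix.one_apply_ne hαr, hu2 r hr α hα hαr]
      · rw [if_pos ⟨hα, hr⟩, Matrix.one_apply_ne (fun h' : α = r => hα (h' ▸ hr)), zero_add]
    rw [h1]
    exact hu4 r hr i hi

open Classical in
theorem strA_W (h : Good P Φ pos tim) {g : GL (Fin n) ℂ} (hg : g ∈ CS pos tim) :
    (∃ ν : Matrix C C ℂ, Supp P.Clo ν ∧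
      ∀ i ≤ 1, ∀ c, P.Clo.piv c →
        sW P i ((1 + ν).mulVec (Pi.single c 1)) ∈ fl pos g (i + 2)) ∧
    ∀ w : C → ℂ, sW P 0 w ∈ fl pos g 3 := by
  constructor
  · choose! u hu1 hu2 hu3 hu4 using fun (ρ : C) (hρ : P.Clo.piv ρ) => StrAAux.vecW h hg hρ
    refine ⟨Matrix.of fun α ρ => if ¬ P.Clo.piv α ∧ P.Clo.piv ρ then u ρ α else 0, ?_, ?_⟩
    · intro x y hxy
      rw [Matrix.of_apply] at hxy
      split_ifs at hxy with h1
      · exact ⟨h1.1, h1.2, hu3 y h1.2 x h1.1 hxy⟩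
      · exact absurd rfl hxy
    · intro i hi r hr
      have h1 : (1 + Matrix.of fun α ρ => if ¬ P.Clo.piv α ∧ P.Clo.piv ρ then u ρ α else 0 :
          Matrix C C ℂ).mulVec (Pi.single r 1) = u r := by
        funext α
        rw [Matrix.mulVec_single_one, Matrix.col_apply, Matrix.add_apply, Matrix.of_apply]
        by_cases hα : P.Clo.piv α
        · rw [if_neg (fun h' => h'.1 hα), add_zero]
          by_cases hαr : α = r
          · rw [hαr, Matrix.one_apply_eq, hu1 r hr]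
          · rw [Matrix.one_apply_ne hαr, hu2 r hr α hα hαr]
        · rw [if_pos ⟨hα, hr⟩, Matrix.one_apply_ne (fun h' : α = r => hα (h' ▸ hr)), zero_add]
      rw [h1]
      exact hu4 r hr i hi
  · intro w
    have h1 : w = ∑ c, w c • (Pi.single c 1 : C → ℂ) := by
      funext c
      rw [Finset.sum_apply, Finset.sum_eq_single c]
      · simp
      · intro b _ hb
        simp [Pi.single_eq_of_ne (Ne.symm hb)]
      · intro hc
        exact absurd (Finset.mem_univ c) hc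
    rw [h1, map_sum]
    refine Submodule.sum_mem _ fun c _ => ?_
    rw [map_smul]
    exact Submodule.smul_mem _ _ (StrAAux.memW h hg c)

end Pd6ff58.J
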