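import Pool.Agent.Lib.Pd6ff58.CL
import Pool.Agent.Lib.Pd6J.FlB

/-!
# Module ZRk: closed conditions for arbitrary coordinate subspaces

PROOF of `zcl_rank_coord`: let `t = |T|` and `σ : Perm (Fin n)` with `σ a < t ↔ a ∈ T`. Then
`permGL σ` maps `cS T` onto `stdFlag n t`, and `flagOf (permGL σ * g) j` is the image of `flagOf g j`
(`flagOf_mul`), so `finrank (flagOf g j ⊓ cS T) = finrank (flagOf (permGL σ * g) j ⊓ stdFlag n t)`
(`Submodule.map_inf`, `LinearEquiv.finrank_map_eq`). Apply `zcl_rank` to `permGL σ • S`, using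
`mem_zcl_translate` (`g ∈ zcl S` with `S = {h | σ h ∈ σ S}` gives `σ g ∈ zcl (σ S)`).
`zcl_fl`: transport by `pos` (`T = pos '' T'`). `zcl_flX`: `zcl_map` with `fl_map_X`.
-/

open MvPolynomial

noncomputable section

namespace Pd6ff58.J

/-- a coordinate subspace -/
def cS {I : Type} (T : Set I) : Submodule ℂ (I → ℂ) where
  carrier := {v | ∀ x, x ∉ T → v x = 0}
  zero_mem' := fun _ _ => rfl
  add_mem' := by
    intro a b ha hb x hx
    simp [ha x hx, hb x hx]
  smul_mem' := by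
    intro c a ha x hx
    simp [ha x hx]

theorem mem_cS {I : Type} {T : Set I} {v : I → ℂ} : v ∈ cS T ↔ ∀ x, x ∉ T → v x = 0 := Iff.rfl

theorem finrank_cS {I : Type} [Fintype I] (T : Set I) :
    Module.finrank ℂ (cS T) = Nat.card T := by
  classical
  let f : cS T →ₗ[ℂ] (T → ℂ) := (LinearMap.funLeft ℂ ℂ (Subtype.val : T → I)) ∘ₗ (cS T).subtype
  have hf : Function.Bijective f := by
    constructor
    · rw [injective_iff_map_eq_zero]
      rintro ⟨v, hv⟩ h0
      apply Subtype.ext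
      funext x
      by_cases hx : x ∈ T
      · exact congrFun h0 ⟨x, hx⟩
      · exact hv x hx
    · intro u
      refine ⟨⟨fun x => if hx : x ∈ T then u ⟨x, hx⟩ else 0, fun x hx => dif_neg hx⟩, ?_⟩
      funext x
      exact dif_pos x.2
  rw [(LinearEquiv.ofBijective f hf).finrank_eq, Module.finrank_fintype_fun_eq_card,
    Nat.card_eq_fintype_card]

namespace ZRkAux

theorem exists_perm {n : ℕ} (T : Set (Fin n)) :
    ∃ σ : Equiv.Perm (Fin n), ∀ a, (σ a : ℕ) < Nat.card T ↔ a ∈ T := by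
  classical
  have hle : Nat.card T ≤ n := by
    have := Nat.card_le_card_of_injective (Subtype.val : T → Fin n) Subtype.val_injective
    rwa [Nat.card_fin] at this
  have hc : Fintype.card {a : Fin n // a ∈ T} =
      Fintype.card {a : Fin n // (a : ℕ) < Nat.card T} := by
    rw [← Nat.card_eq_fintype_card, ← Nat.card_eq_fintype_card]
    change Nat.card T = _
    have e : {a : Fin n // (a : ℕ) < Nat.card T} ≃ Fin (Nat.card T) :=
      { toFun := fun a => ⟨(a.1 : ℕ), a.2⟩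
        invFun := fun b => ⟨⟨(b : ℕ), b.2.trans_le hle⟩, b.2⟩
        left_inv := fun a => rfl
        right_inv := fun b => rfl }
    rw [Nat.card_congr e, Nat.card_fin]
  let e := Fintype.equivOfCardEq hc
  refine ⟨e.extendSubtype, fun a => ?_⟩
  constructor
  · intro ha
    by_contra hT
    exact Equiv.extendSubtype_not_mem e a hT ha
  · intro ha
    exact Equiv.extendSubtype_mem e a ha

theorem permGL_mulVec {n : ℕ} (σ : Equiv.Perm (Fin n)) (v : Fin n → ℂ) (i : Fin n) :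
    (permGL σ).val.mulVec v i = v (σ.symm i) := by
  change ∑ j, (if i = σ j then (1 : ℂ) else 0) * v j = _
  rw [Finset.sum_eq_single (σ.symm i)]
  · rw [Equiv.apply_symm_apply, if_pos rfl, one_mul]
  · intro j _ hj
    rw [if_neg, zero_mul]
    rintro rfl
    rw [Equiv.symm_apply_apply] at hj
    exact hj rfl
  · intro hh
    exact absurd (Finset.mem_univ _) hh

theorem map_cS {n : ℕ} (T : Set (Fin n)) (σ : Equiv.Perm (Fin n))
    (hσ : ∀ a, (σ a : ℕ) < Nat.card T ↔ a ∈ T) :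
    (cS T).map (Matrix.mulVecLin (permGL σ).val) = stdFlag n (Nat.card T) := by
  ext y
  constructor
  · rintro ⟨v, hv, rfl⟩ i hi
    rw [Matrix.mulVecLin_apply, permGL_mulVec]
    refine hv _ fun hT => ?_
    have h1 := (hσ _).2 hT
    rw [Equiv.apply_symm_apply] at h1
    omega
  · intro hy
    refine ⟨fun a => y (σ a), ?_, ?_⟩
    · intro a ha
      refine hy _ ?_
      by_contra hlt
      exact ha ((hσ a).1 (not_le.1 hlt))
    · funext i
      rw [Matrix.mulVecLin_apply, permGL_mulVec, Equiv.apply_symm_apply]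

theorem finrank_translate {n : ℕ} (T : Set (Fin n)) (σ : Equiv.Perm (Fin n))
    (hσ : ∀ a, (σ a : ℕ) < Nat.card T ↔ a ∈ T) (g : GL (Fin n) ℂ) (j : ℕ) :
    Module.finrank ℂ (flagOf (permGL σ * g) j ⊓ stdFlag n (Nat.card T) :
      Submodule ℂ (Fin n → ℂ)) =
      Module.finrank ℂ (flagOf g j ⊓ cS T : Submodule ℂ (Fin n → ℂ)) := by
  have hinj : Function.Injective (Matrix.mulVecLin (permGL σ).val) := CLAux.inj (permGL σ)
  rw [(Submodule.equivMapOfInjective _ hinj (flagOf g j ⊓ cS T)).finrank_eq,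
    Submodule.map_inf _ hinj, map_cS T σ hσ, flagOf_mul]

end ZRkAux

theorem zcl_rank_coord {n : ℕ} {S : Set (GL (Fin n) ℂ)} (T : Set (Fin n)) {j r : ℕ}
    (h : ∀ g ∈ S, r ≤ Module.finrank ℂ (flagOf g j ⊓ cS T : Submodule ℂ (Fin n → ℂ)))
    {g : GL (Fin n) ℂ} (hg : g ∈ zcl S) :
    r ≤ Module.finrank ℂ (flagOf g j ⊓ cS T : Submodule ℂ (Fin n → ℂ)) := by
  obtain ⟨σ, hσ⟩ := ZRkAux.exists_perm T
  rw [← ZRkAux.finrank_translate T σ hσ]
  have hg' : permGL σ * g ∈ zcl {h | (permGL σ)⁻¹ * h ∈ S} := by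
    rw [mem_zcl_translate, inv_mul_cancel_left]
    exact hg
  refine zcl_rank ?_ hg'
  intro k hk
  have e : k = permGL σ * ((permGL σ)⁻¹ * k) := by rw [mul_inv_cancel_left]
  rw [e, ZRkAux.finrank_translate T σ hσ]
  exact h _ hk

variable {R C : Type} [DecidableEq R] [DecidableEq C] [Fintype R] [Fintype C]
  {P : Par R C} {n : ℕ} {pos : Ix P ≃ Fin n}

namespace ZRkAux

omit [DecidableEq R] [DecidableEq C] [Fintype R] [Fintype C] in
theorem map_fl (g : GL (Fin n) ℂ) (k : ℕ) (T : Set (Ix P)) :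
    (fl pos g k ⊓ cS T).map (LinearEquiv.funCongrLeft ℂ ℂ pos.symm).toLinearMap =
      flagOf g (tt P k) ⊓ cS (pos '' T) := by
  ext y
  constructor
  · rintro ⟨v, ⟨hv1, hv2⟩, rfl⟩
    refine ⟨mem_fl.1 hv1, ?_⟩
    intro a ha
    change v (pos.symm a) = 0
    refine hv2 _ fun hT => ha ⟨_, hT, ?_⟩
    rw [Equiv.apply_symm_apply]
  · rintro ⟨hy1, hy2⟩
    have e : (fun a => (fun x => y (pos x)) (pos.symm a)) = y := by
      funext a
      change y (pos (pos.symm a)) = y a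
      rw [Equiv.apply_symm_apply]
    refine ⟨fun x => y (pos x), ⟨?_, ?_⟩, e⟩
    · refine mem_fl.2 ?_
      rw [e]
      exact hy1
    · intro x hx
      refine hy2 _ ?_
      rintro ⟨z, hz, hzx⟩
      rw [pos.injective hzx] at hz
      exact hx hz

omit [DecidableEq R] [DecidableEq C] [Fintype R] [Fintype C] in
theorem finrank_fl_inf (g : GL (Fin n) ℂ) (k : ℕ) (T : Set (Ix P)) :
    Module.finrank ℂ (fl pos g k ⊓ cS T : Submodule ℂ (Ix P → ℂ)) =
      Module.finrank ℂ (flagOf g (tt P k) ⊓ cS (pos '' T) : Submodule ℂ (Fin n → ℂ)) := by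
  rw [← map_fl]
  exact (LinearEquiv.finrank_map_eq (LinearEquiv.funCongrLeft ℂ ℂ pos.symm) _).symm

end ZRkAux

theorem zcl_fl {S : Set (GL (Fin n) ℂ)} (T : Set (Ix P)) {k r : ℕ}
    (h : ∀ g ∈ S, r ≤ Module.finrank ℂ (fl pos g k ⊓ cS T : Submodule ℂ (Ix P → ℂ)))
    {g : GL (Fin n) ℂ} (hg : g ∈ zcl S) :
    r ≤ Module.finrank ℂ (fl pos g k ⊓ cS T : Submodule ℂ (Ix P → ℂ)) := by
  rw [ZRkAux.finrank_fl_inf]
  refine zcl_rank_coord _ ?_ hg
  intro k' hk'
  rw [← ZRkAux.finrank_fl_inf]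
  exact h _ hk'

theorem zcl_flX {S : Set (GL (Fin n) ℂ)} {k l : ℕ}
    (h : ∀ g ∈ S, (fl pos g k).map (Matrix.mulVecLin (Xm P)) ≤ fl pos g l)
    {g : GL (Fin n) ℂ} (hg : g ∈ zcl S) :
    (fl pos g k).map (Matrix.mulVecLin (Xm P)) ≤ fl pos g l := by
  rw [← fl_map_X]
  exact zcl_map (fun k' hk' => (fl_map_X k' k l).2 (h k' hk')) hg

end Pd6ff58.J
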